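import Pool.Agent.Lib.MP_4c59c5_co.BadPair

/-!
# BadCount (35 min)
Let `s = (1/6 - 1/100) n`. For every bad triple `mis2 x y + mis2 x z + mis2 y z >= (3/2) s`: if the three
parts are distinct add the three inequalities of `bad_cross` (for x, y, z as first vertex) and
divide by two; otherwise exactly two of the parts are equal (Bad excludes all equal) and
`bad_inner` gives two of the numbers with sum >= 2 s. Hence
`(3/2) s * c3 (Bad T π) <= sum_{x,y,z} (mis2 x y + mis2 x z + mis2 y z) = 3 n * c3 (Mis T π)`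
(`c3 (Mis) = sum_{x,y} mis2 x y`). `(3/2) s >= 0.235 n`, so `c3 Bad <= 12.8 c3 Mis`. If n = 0 both are 0.
-/

set_option linter.unusedVariables false
set_option linter.unusedSectionVars false

namespace K4M

open Finset
open scoped Classical

theorem badcount_tri {V : Type} [Fintype V] {T : V → V → V → Prop} (h : IsG T) (π : V → Fin 6)
    (s : ℝ) (hs0 : 0 ≤ s) (hs : ∀ i, s ≤ psz π i) (x y z : V) (hb : Bad T π x y z) :
    3 / 2 * s ≤ mis2 T π x y + mis2 T π x z + mis2 T π y z := by
  obtain ⟨hT, hQ, hne⟩ := hb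
  have hxy := mis2_nonneg T π x y
  have hxz := mis2_nonneg T π x z
  have hyz := mis2_nonneg T π y z
  have e1 := mis2_symm h π x y
  have e2 := mis2_symm h π x z
  have e3 := mis2_symm h π y z
  by_cases h12 : π x = π y
  · have h13 : π x ≠ π z := fun h13 => hne ⟨h12, h12.symm.trans h13⟩
    have k := bad_inner h π s hs x y z hT h12 h13
    linarith
  · by_cases h13 : π x = π z
    · have k := bad_inner h π s hs x z y (h.s23 _ _ _ hT) h13 h12
      linarith
    · by_cases h23 : π y = π z
      · have k := bad_inner h π s hs y z x (h.s23 _ _ _ (h.s12 _ _ _ hT)) h23 (fun hh => h12 hh.symm)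
        linarith
      · have k1 := bad_cross h π s hs x y z hT hQ h12 h13 h23
        have k2 := bad_cross h π s hs y x z (h.s12 _ _ _ hT) (by rw [← hQ]; exact Q_s12 _ _ _)
          (fun hh => h12 hh.symm) h23 h13
        have k3 := bad_cross h π s hs z x y (h.s12 _ _ _ (h.s23 _ _ _ hT))
          (by rw [← hQ, Q_s12 (π z) (π x) (π y), Q_s23 (π x) (π z) (π y)])
          (fun hh => h13 hh.symm) (fun hh => h23 hh.symm) h12
        linarith

theorem bad_count {V : Type} [Fintype V] {T : V → V → V → Prop} (h : IsG T) (π : V → Fin 6)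
    (hs : ∀ i, (1 / 6 - 1 / 100) * (Fintype.card V : ℝ) ≤ psz π i) :
    c3 (Bad T π) ≤ 15 * c3 (Mis T π) := by
  rcases Nat.eq_zero_or_pos (Fintype.card V) with h0 | h0
  · have : IsEmpty V := Fintype.card_eq_zero_iff.mp h0
    unfold c3
    simp
  have hn : (0 : ℝ) < (Fintype.card V : ℝ) := by exact_mod_cast h0
  set n : ℝ := (Fintype.card V : ℝ) with hndef
  set s : ℝ := (1 / 6 - 1 / 100) * n with hsdef
  have hs0 : 0 ≤ s := by rw [hsdef]; nlinarith
  have key : ∀ x y z : V, 3 / 2 * s * ind (Bad T π x y z) ≤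
      mis2 T π x y + mis2 T π x z + mis2 T π y z := by
    intro x y z
    by_cases hb : Bad T π x y z
    · rw [ind_of hb, mul_one]
      exact badcount_tri h π s hs0 hs x y z hb
    · rw [ind_of_not hb, mul_zero]
      have hxy := mis2_nonneg T π x y
      have hxz := mis2_nonneg T π x z
      have hyz := mis2_nonneg T π y z
      linarith
  have hsum : ∑ x, ∑ y, mis2 T π x y = c3 (Mis T π) := rfl
  have h1 : 3 / 2 * s * c3 (Bad T π) ≤ 3 * n * c3 (Mis T π) := by
    have e1 : 3 / 2 * s * c3 (Bad T π) = ∑ x, ∑ y, ∑ z, 3 / 2 * s * ind (Bad T π x y z) := by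
      unfold c3
      rw [mul_sum]
      refine sum_congr rfl fun x _ => ?_
      rw [mul_sum]
      refine sum_congr rfl fun y _ => ?_
      rw [mul_sum]
    have e2 : ∑ x, ∑ y, ∑ z, (mis2 T π x y + mis2 T π x z + mis2 T π y z) =
        3 * n * c3 (Mis T π) := by
      have a1 : ∑ x : V, ∑ y : V, ∑ z : V, mis2 T π x y = n * c3 (Mis T π) := by
        rw [← hsum, mul_sum]
        refine sum_congr rfl fun x _ => ?_
        rw [mul_sum]
        refine sum_congr rfl fun y _ => ?_
        rw [sum_const, nsmul_eq_mul, card_univ]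
      have a2 : ∑ x : V, ∑ y : V, ∑ z : V, mis2 T π x z = n * c3 (Mis T π) := by
        rw [← hsum, mul_sum]
        refine sum_congr rfl fun x _ => ?_
        rw [sum_const, nsmul_eq_mul, card_univ]
      have a3 : ∑ x : V, ∑ y : V, ∑ z : V, mis2 T π y z = n * c3 (Mis T π) := by
        rw [sum_const, nsmul_eq_mul, card_univ, hsum]
      simp only [sum_add_distrib]
      rw [a1, a2, a3]
      ring
    rw [e1, ← e2]
    exact sum_le_sum fun x _ => sum_le_sum fun y _ => sum_le_sum fun z _ => key x y z
  have hm : 0 ≤ c3 (Mis T π) := c3_nonneg _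
  have h2 : n * (235 / 1000 * c3 (Bad T π)) ≤ n * (3 * c3 (Mis T π)) := by
    have e : 3 / 2 * s * c3 (Bad T π) = n * (235 / 1000 * c3 (Bad T π)) := by
      rw [hsdef]; ring
    rw [← e]
    linarith
  have h3 := le_of_mul_le_mul_left h2 hn
  linarith

end K4M
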