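import Pool.Agent.Lib.MP_4c59c5_co.Basic

/-!
# BadPair (40 min)
`bad_cross`: finite fact (`decide`): for i, j, k distinct with `Q i j k = false` there is a with
`Q i j a = true` and `Q i k a = true`. For every w with π w = a: not both `T x y w` and `T x z w`
(`h.free x y z w` with `T x y z`), so w is counted in `mis2 x y` or in `mis2 x z`:
`s <= psz π a <= mis2 x y + mis2 x z`. The other two inequalities follow by permuting x, y, z
(`s12`, `s23`, `mis2_symm`) - the lemma is stated for the vertex x; use it three times.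
`bad_inner`: π x = π x' = i ≠ j = π y. The pair i, j is in two blocks i j k, i j l (`Q_pair`). For w
in part k or l: not both `T x y w` and `T x' y w` (with `T x x' y`, common vertex y:
`h.free y x x' w`). So `2 s <= psz k + psz l <= mis2 x y + mis2 x' y`.
-/

set_option linter.unusedVariables false
set_option linter.unusedSectionVars false

namespace K4M

open Finset
open scoped Classical

theorem badpair_q1 : ∀ i j k : Fin 6, i ≠ j → i ≠ k → j ≠ k → Q i j k = false →
    ∃ a : Fin 6, Q i j a = true ∧ Q i k a = true := by decide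

theorem badpair_q2 : ∀ i j : Fin 6, i ≠ j →
    ∃ k l : Fin 6, k ≠ l ∧ Q i j k = true ∧ Q i j l = true := by decide

theorem bad_cross {V : Type} [Fintype V] {T : V → V → V → Prop} (h : IsG T) (π : V → Fin 6)
    (s : ℝ) (hs : ∀ i, s ≤ psz π i) (x y z : V) (hT : T x y z)
    (hQ : Q (π x) (π y) (π z) = false) (h12 : π x ≠ π y) (h13 : π x ≠ π z) (h23 : π y ≠ π z) :
    s ≤ mis2 T π x y + mis2 T π x z := by
  obtain ⟨a, ha1, ha2⟩ := badpair_q1 _ _ _ h12 h13 h23 hQ
  refine le_trans (hs a) ?_
  refine le_trans ?_ (c1_or_le (Mis T π x y) (Mis T π x z))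
  refine c1_mono fun w hw => ?_
  by_cases h1 : T x y w
  · right
    refine ⟨by rw [hw]; exact ha2, fun h2 => h.free x y z w hT h1 h2⟩
  · left
    exact ⟨by rw [hw]; exact ha1, h1⟩

theorem bad_inner {V : Type} [Fintype V] {T : V → V → V → Prop} (h : IsG T) (π : V → Fin 6)
    (s : ℝ) (hs : ∀ i, s ≤ psz π i) (x x' y : V) (hT : T x x' y)
    (h1 : π x = π x') (h2 : π x ≠ π y) :
    2 * s ≤ mis2 T π x y + mis2 T π x' y := by
  obtain ⟨k, l, hkl, hk, hl⟩ := badpair_q2 _ _ h2
  have hyx : T y x x' := h.s12 _ _ _ (h.s23 _ _ _ hT)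
  have key : ∀ w, Q (π x) (π y) (π w) = true → Mis T π x y w ∨ Mis T π x' y w := by
    intro w hw
    by_cases h3 : T x y w
    · right
      refine ⟨by rw [← h1]; exact hw, fun h4 => ?_⟩
      exact h.free y x x' w hyx (h.s12 _ _ _ h3) (h.s12 _ _ _ h4)
    · left
      exact ⟨hw, h3⟩
  have hsum : psz π k + psz π l ≤ mis2 T π x y + mis2 T π x' y := by
    refine le_trans ?_ (c1_or_le (Mis T π x y) (Mis T π x' y))
    unfold psz c1
    rw [← sum_add_distrib]
    refine sum_le_sum fun w _ => ?_
    by_cases h5 : π w = k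
    · have h6 : π w ≠ l := fun h7 => hkl (h5.symm.trans h7)
      rw [ind_of h5, ind_of_not h6, ind_of (key w (by rw [h5]; exact hk))]
      norm_num
    · by_cases h6 : π w = l
      · rw [ind_of_not h5, ind_of h6, ind_of (key w (by rw [h6]; exact hl))]
        norm_num
      · rw [ind_of_not h5, ind_of_not h6]
        simpa using ind_nonneg _
  have := hs k
  have := hs l
  linarith

end K4M
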