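import Pool.Agent.Lib.MP_4c59c5_co.Defs

/-!
# MP_4c59c5_co, basic lemmas (all proved)
-/

set_option linter.unusedVariables false
set_option linter.unusedSectionVars false

namespace K4M

open Finset
open scoped Classical

/-! ### the design -/

theorem Q_s12 : ∀ i j k : Fin 6, Q i j k = Q j i k := by decide
theorem Q_s23 : ∀ i j k : Fin 6, Q i j k = Q i k j := by decide
theorem Q_irr : ∀ i j : Fin 6, Q i i j = false := by decide
theorem Q_irr' : ∀ i j : Fin 6, Q i j i = false := by decide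
theorem Q_irr'' : ∀ i j : Fin 6, Q j i i = false := by decide
theorem Q_free : ∀ x a b c : Fin 6, Q x a b = true → Q x a c = true → Q x b c = true → False := by
  decide
/-- every pair of points is in exactly two blocks -/
theorem Q_pair : ∀ i j : Fin 6, i ≠ j → (∑ k, bn (Q i j k)) = 2 := by decide

/-! ### indicators -/

theorem ind_nonneg (p : Prop) : 0 ≤ ind p := by unfold ind; split_ifs <;> norm_num
theorem ind_le_one (p : Prop) : ind p ≤ 1 := by unfold ind; split_ifs <;> norm_num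
theorem ind_of {p : Prop} (h : p) : ind p = 1 := by simp [ind, h]
theorem ind_of_not {p : Prop} (h : ¬ p) : ind p = 0 := by simp [ind, h]
theorem ind_mono {p q : Prop} (h : p → q) : ind p ≤ ind q := by
  unfold ind
  split_ifs with h1 h2
  · exact le_refl _
  · exact absurd (h h1) h2
  · norm_num
  · exact le_refl _
theorem ind_congr {p q : Prop} (h : p ↔ q) : ind p = ind q := by rw [propext h]
theorem ind_and (p q : Prop) : ind (p ∧ q) = ind p * ind q := by
  unfold ind; by_cases hp : p <;> by_cases hq : q <;> simp [hp, hq]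
theorem ind_not (p : Prop) : ind (¬ p) = 1 - ind p := by
  unfold ind; by_cases hp : p <;> simp [hp]
theorem ind_or_le (p q : Prop) : ind (p ∨ q) ≤ ind p + ind q := by
  unfold ind; by_cases hp : p <;> by_cases hq : q <;> simp [hp, hq]
/-- split an indicator along a second property -/
theorem ind_split (p q : Prop) : ind p = ind (p ∧ q) + ind (p ∧ ¬ q) := by
  unfold ind; by_cases hp : p <;> by_cases hq : q <;> simp [hp, hq]

section counts
variable {V : Type} [Fintype V]

theorem c1_nonneg (A : V → Prop) : 0 ≤ c1 A := sum_nonneg fun _ _ => ind_nonneg _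
theorem c2_nonneg (R : V → V → Prop) : 0 ≤ c2 R :=
  sum_nonneg fun _ _ => sum_nonneg fun _ _ => ind_nonneg _
theorem c3_nonneg (R : V → V → V → Prop) : 0 ≤ c3 R :=
  sum_nonneg fun _ _ => sum_nonneg fun _ _ => sum_nonneg fun _ _ => ind_nonneg _
theorem c1_mono {A B : V → Prop} (h : ∀ x, A x → B x) : c1 A ≤ c1 B :=
  sum_le_sum fun x _ => ind_mono (h x)
theorem c2_mono {A B : V → V → Prop} (h : ∀ x y, A x y → B x y) : c2 A ≤ c2 B :=
  sum_le_sum fun x _ => sum_le_sum fun y _ => ind_mono (h x y)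
theorem c3_mono {A B : V → V → V → Prop} (h : ∀ x y z, A x y z → B x y z) : c3 A ≤ c3 B :=
  sum_le_sum fun x _ => sum_le_sum fun y _ => sum_le_sum fun z _ => ind_mono (h x y z)
theorem c1_congr {A B : V → Prop} (h : ∀ x, A x ↔ B x) : c1 A = c1 B :=
  sum_congr rfl fun x _ => ind_congr (h x)
theorem c2_congr {A B : V → V → Prop} (h : ∀ x y, A x y ↔ B x y) : c2 A = c2 B :=
  sum_congr rfl fun x _ => sum_congr rfl fun y _ => ind_congr (h x y)
theorem c3_congr {A B : V → V → V → Prop} (h : ∀ x y z, A x y z ↔ B x y z) : c3 A = c3 B :=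
  sum_congr rfl fun x _ => sum_congr rfl fun y _ => sum_congr rfl fun z _ => ind_congr (h x y z)

theorem c2_eq_sum (R : V → V → Prop) : c2 R = ∑ x, c1 (R x) := rfl
theorem c3_eq_sum (R : V → V → V → Prop) : c3 R = ∑ x, c2 (R x) := rfl
theorem c3_eq_sum' (R : V → V → V → Prop) : c3 R = ∑ x, ∑ y, c1 (R x y) := rfl

theorem c2_swap (R : V → V → Prop) : c2 R = c2 (fun x y => R y x) := by
  unfold c2; rw [sum_comm]
theorem c3_swap12 (R : V → V → V → Prop) : c3 R = c3 (fun x y z => R y x z) := by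
  unfold c3; rw [sum_comm]
theorem c3_swap23 (R : V → V → V → Prop) : c3 R = c3 (fun x y z => R x z y) := by
  unfold c3; exact sum_congr rfl fun x _ => sum_comm
theorem c3_rot (R : V → V → V → Prop) : c3 R = c3 (fun x y z => R y z x) := by
  rw [c3_swap23 R, c3_swap12]

theorem c1_split (A B : V → Prop) : c1 A = c1 (fun x => A x ∧ B x) + c1 (fun x => A x ∧ ¬ B x) := by
  unfold c1; rw [← sum_add_distrib]; exact sum_congr rfl fun x _ => ind_split _ _
theorem c2_split (A B : V → V → Prop) :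
    c2 A = c2 (fun x y => A x y ∧ B x y) + c2 (fun x y => A x y ∧ ¬ B x y) := by
  unfold c2; rw [← sum_add_distrib]; refine sum_congr rfl fun x _ => ?_
  rw [← sum_add_distrib]; exact sum_congr rfl fun y _ => ind_split _ _
theorem c3_split (A B : V → V → V → Prop) :
    c3 A = c3 (fun x y z => A x y z ∧ B x y z) + c3 (fun x y z => A x y z ∧ ¬ B x y z) := by
  unfold c3; rw [← sum_add_distrib]; refine sum_congr rfl fun x _ => ?_
  rw [← sum_add_distrib]; refine sum_congr rfl fun y _ => ?_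
  rw [← sum_add_distrib]; exact sum_congr rfl fun z _ => ind_split _ _

theorem c1_or_le (A B : V → Prop) : c1 (fun x => A x ∨ B x) ≤ c1 A + c1 B := by
  unfold c1; rw [← sum_add_distrib]; exact sum_le_sum fun x _ => ind_or_le _ _
theorem c2_or_le (A B : V → V → Prop) : c2 (fun x y => A x y ∨ B x y) ≤ c2 A + c2 B := by
  unfold c2; rw [← sum_add_distrib]; refine sum_le_sum fun x _ => ?_
  rw [← sum_add_distrib]; exact sum_le_sum fun y _ => ind_or_le _ _

theorem c1_true : c1 (fun _ : V => True) = (Fintype.card V : ℝ) := by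
  simp [c1, ind]
theorem c1_le_card (A : V → Prop) : c1 A ≤ (Fintype.card V : ℝ) := by
  rw [← c1_true]; exact c1_mono fun _ _ => trivial
theorem c2_prod (A B : V → Prop) : c2 (fun x y => A x ∧ B y) = c1 A * c1 B := by
  unfold c2 c1; rw [sum_mul_sum]
  exact sum_congr rfl fun x _ => sum_congr rfl fun y _ => ind_and _ _
theorem nc_eq (A : V → Prop) : (nc A : ℝ) = c1 A := by
  unfold nc c1 ind; simp
theorem nc_eq_card (A : V → Prop) : nc A = Fintype.card {v : V // A v} := by
  unfold nc; rw [Fintype.card_subtype]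
theorem c1_compl (A : V → Prop) : c1 (fun x => ¬ A x) = (Fintype.card V : ℝ) - c1 A := by
  rw [← c1_true, c1_split (fun _ : V => True) A]
  simp

/-! subtypes -/

theorem sum_sub (A : V → Prop) (f : V → ℝ) :
    ∑ x : {v : V // A v}, f x = ∑ x, ind (A x) * f x := by
  have h1 : ∑ x, ind (A x) * f x = ∑ x, if A x then f x else 0 := by
    refine sum_congr rfl fun x _ => ?_
    unfold ind; split_ifs <;> simp
  rw [h1, ← sum_filter]
  symm
  exact sum_subtype _ (by simp) f
theorem c1_sub (A B : V → Prop) : c1 (fun x : {v : V // A v} => B x) = c1 (fun x => A x ∧ B x) := by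
  unfold c1
  rw [sum_sub A (fun x => ind (B x))]
  exact sum_congr rfl fun x _ => (ind_and _ _).symm
theorem c2_sub (A : V → Prop) (R : V → V → Prop) :
    c2 (fun x y : {v : V // A v} => R x y) = c2 (fun x y => A x ∧ A y ∧ R x y) := by
  unfold c2
  rw [sum_sub A (fun x => ∑ y : {v : V // A v}, ind (R x y))]
  refine sum_congr rfl fun x _ => ?_
  rw [sum_sub A (fun y => ind (R x y)), mul_sum]
  refine sum_congr rfl fun y _ => ?_
  rw [ind_and, ind_and]
theorem c3_sub (A : V → Prop) (R : V → V → V → Prop) :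
    c3 (fun x y z : {v : V // A v} => R x y z) = c3 (res A R) := by
  unfold c3
  rw [sum_sub A (fun x => ∑ y : {v : V // A v}, ∑ z : {v : V // A v}, ind (R x y z))]
  refine sum_congr rfl fun x _ => ?_
  rw [sum_sub A (fun y => ∑ z : {v : V // A v}, ind (R x y z)), mul_sum]
  refine sum_congr rfl fun y _ => ?_
  rw [sum_sub A (fun z => ind (R x y z)), mul_sum, mul_sum]
  refine sum_congr rfl fun z _ => ?_
  unfold res
  rw [ind_and, ind_and, ind_and]

/-! transport along an equivalence -/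

theorem c1_equiv {W : Type} [Fintype W] (e : W ≃ V) (A : V → Prop) :
    c1 (fun x : W => A (e x)) = c1 A := by
  unfold c1; exact Equiv.sum_comp e (fun x => ind (A x))
theorem c2_equiv {W : Type} [Fintype W] (e : W ≃ V) (R : V → V → Prop) :
    c2 (fun x y : W => R (e x) (e y)) = c2 R := by
  unfold c2
  rw [← Equiv.sum_comp e (fun x => ∑ y, ind (R x y))]
  refine sum_congr rfl fun x _ => ?_
  exact Equiv.sum_comp e (fun y => ind (R (e x) y))
theorem c3_equiv {W : Type} [Fintype W] (e : W ≃ V) (R : V → V → V → Prop) :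
    c3 (fun x y z : W => R (e x) (e y) (e z)) = c3 R := by
  unfold c3
  rw [← Equiv.sum_comp e (fun x => ∑ y, ∑ z, ind (R x y z))]
  refine sum_congr rfl fun x _ => ?_
  rw [← Equiv.sum_comp e (fun y => ∑ z, ind (R (e x) y z))]
  refine sum_congr rfl fun y _ => ?_
  exact Equiv.sum_comp e (fun z => ind (R (e x) (e y) z))

/-! parts -/

theorem sum_psz (π : V → Fin 6) : ∑ i, psz π i = (Fintype.card V : ℝ) := by
  unfold psz c1
  rw [sum_comm, ← c1_true]
  unfold c1
  refine sum_congr rfl fun x _ => ?_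
  rw [Finset.sum_eq_single (π x)]
  · rw [ind_of rfl, ind_of trivial]
  · intro b _ hb
    exact ind_of_not (fun h => hb h.symm)
  · intro h; exact absurd (mem_univ _) h
theorem psz_nonneg (π : V → Fin 6) (i : Fin 6) : 0 ≤ psz π i := c1_nonneg _

/-! the 3-graph -/

variable {T : V → V → V → Prop}

theorem IsG.ne12 (h : IsG T) {x y z : V} (ht : T x y z) : x ≠ y := by
  rintro rfl; exact h.irr _ _ ht
theorem IsG.ne23 (h : IsG T) {x y z : V} (ht : T x y z) : y ≠ z := by
  rintro rfl; exact h.irr _ _ (h.s12 _ _ _ (h.s23 _ _ _ (h.s12 _ _ _ ht)))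
theorem IsG.ne13 (h : IsG T) {x y z : V} (ht : T x y z) : x ≠ z := by
  rintro rfl; exact h.irr _ _ (h.s23 _ _ _ ht)
/-- pull-backs are again 3-graphs of the same kind: blow-ups and clones -/
theorem IsG.comap {W : Type} (h : IsG T) (f : W → V) :
    IsG (fun x y z : W => T (f x) (f y) (f z)) where
  s12 := fun x y z ht => h.s12 _ _ _ ht
  s23 := fun x y z ht => h.s23 _ _ _ ht
  irr := fun x y ht => h.irr _ _ ht
  free := fun x a b c h1 h2 h3 => h.free _ _ _ _ h1 h2 h3
theorem IsG.res (h : IsG T) (A : V → Prop) : IsG (res A T) where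
  s12 := fun x y z ht => ⟨ht.2.1, ht.1, ht.2.2.1, h.s12 _ _ _ ht.2.2.2⟩
  s23 := fun x y z ht => ⟨ht.1, ht.2.2.1, ht.2.1, h.s23 _ _ _ ht.2.2.2⟩
  irr := fun x y ht => h.irr _ _ ht.2.2.2
  free := fun x a b c h1 h2 h3 => h.free _ _ _ _ h1.2.2.2 h2.2.2.2 h3.2.2.2
theorem IsG.iff12 (h : IsG T) (x y z : V) : T x y z ↔ T y x z := ⟨h.s12 _ _ _, h.s12 _ _ _⟩
theorem IsG.iff23 (h : IsG T) (x y z : V) : T x y z ↔ T x z y := ⟨h.s23 _ _ _, h.s23 _ _ _⟩

theorem Mis_s12 (h : IsG T) (π : V → Fin 6) (x y z : V) : Mis T π x y z ↔ Mis T π y x z := by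
  unfold Mis; rw [Q_s12, h.iff12]
theorem Mis_s23 (h : IsG T) (π : V → Fin 6) (x y z : V) : Mis T π x y z ↔ Mis T π x z y := by
  unfold Mis; rw [Q_s23, h.iff23]
theorem Bad_s12 (h : IsG T) (π : V → Fin 6) (x y z : V) : Bad T π x y z ↔ Bad T π y x z := by
  unfold Bad; rw [Q_s12, h.iff12]
  constructor
  · rintro ⟨a, b, c⟩; exact ⟨a, b, fun hh => c ⟨hh.1.symm, hh.1.trans hh.2⟩⟩
  · rintro ⟨a, b, c⟩; exact ⟨a, b, fun hh => c ⟨hh.1.symm, hh.1.trans hh.2⟩⟩
theorem Bad_s23 (h : IsG T) (π : V → Fin 6) (x y z : V) : Bad T π x y z ↔ Bad T π x z y := by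
  unfold Bad; rw [Q_s23, h.iff23]
  constructor
  · rintro ⟨a, b, c⟩; exact ⟨a, b, fun hh => c ⟨hh.1.trans hh.2, hh.2.symm⟩⟩
  · rintro ⟨a, b, c⟩; exact ⟨a, b, fun hh => c ⟨hh.1.trans hh.2, hh.2.symm⟩⟩
theorem mis2_symm (h : IsG T) (π : V → Fin 6) (x y : V) : mis2 T π x y = mis2 T π y x :=
  c1_congr fun w => Mis_s12 h π x y w
theorem mis2_nonneg (T : V → V → V → Prop) (π : V → Fin 6) (x y : V) : 0 ≤ mis2 T π x y :=
  c1_nonneg _
theorem mis1_nonneg (T : V → V → V → Prop) (π : V → Fin 6) (x : V) : 0 ≤ mis1 T π x :=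
  c2_nonneg _
theorem mis1_eq (T : V → V → V → Prop) (π : V → Fin 6) (x : V) :
    mis1 T π x = ∑ y, mis2 T π x y := rfl
theorem c3_mis (T : V → V → V → Prop) (π : V → Fin 6) : c3 (Mis T π) = ∑ x, mis1 T π x := rfl

end counts

end K4M
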