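import Pool.Agent.Lib.MP_4c59c5_co.ExApi

/-!
# Blow (45 min)
For every part `i` take an extremal `T_i` on the subtype `{v // π v = i}` (`exists_exo`), with
`c3 (T_i) = exo (nc (π = i))` (`nc_eq_card`). Define on `V`
`T x y z := Pat π x y z ∨ ∃ i (hx : π x = i) (hy : π y = i) (hz : π z = i), T_i x y z`.
It is `IsG`: symmetric by `Q_s12`, `Q_s23`; irreflexive because `Q i i k = false`. For `free`:
let `T x a b`, `T x a c`, `T x b c`. If one of them is inside a part then two of the vertices are
in the same part `i`, then every triple containing both is not a pattern triple (`Q_irr`, `Q_irr'`,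
`Q_irr''`), hence is inside the part, so all four are in one part and `T_i` would not be free. If
all three are pattern triples this is `Q_free`.
Count: the two alternatives exclude each other (`Q i i i = false`), so
`c3 T = c3 (Pat π) + sum_i c3 (T_i)` (use `c3_sub` for the parts: the ternary relation inside
part `i` transported to `V`), and `c3 T <= exo (card V)` by `le_exo`.
-/

set_option linter.unusedVariables false
set_option linter.unusedSectionVars false

namespace K4M

open Finset
open scoped Classical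

/-- the triples inside part `i` -/
def BlowIn {V : Type} (π : V → Fin 6)
    (S : ∀ i, {v : V // π v = i} → {v : V // π v = i} → {v : V // π v = i} → Prop) (i : Fin 6)
    (x y z : V) : Prop :=
  ∃ (hx : π x = i) (hy : π y = i) (hz : π z = i), S i ⟨x, hx⟩ ⟨y, hy⟩ ⟨z, hz⟩

/-- the blow-up -/
def BlowT {V : Type} (π : V → Fin 6)
    (S : ∀ i, {v : V // π v = i} → {v : V // π v = i} → {v : V // π v = i} → Prop)
    (x y z : V) : Prop := Pat π x y z ∨ ∃ i, BlowIn π S i x y z

theorem Blow_free {V : Type} {π : V → Fin 6}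
    {S : ∀ i, {v : V // π v = i} → {v : V // π v = i} → {v : V // π v = i} → Prop}
    (hS : ∀ i, IsG (S i)) {x a b c : V} (h1 : ∃ i, BlowIn π S i x a b)
    (h2 : ∃ i, BlowIn π S i x a c) (h3 : ∃ i, BlowIn π S i x b c) : False := by
  obtain ⟨i, hx, ha, hb, h1⟩ := h1
  obtain ⟨i', hx', ha', hc', h2⟩ := h2
  obtain ⟨i'', hx'', hb'', hc'', h3⟩ := h3
  subst hx
  subst hx'
  subst hx''
  exact (hS _).free _ _ _ _ h1 h2 h3

theorem Blow_isG {V : Type} {π : V → Fin 6}
    {S : ∀ i, {v : V // π v = i} → {v : V // π v = i} → {v : V // π v = i} → Prop}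
    (hS : ∀ i, IsG (S i)) : IsG (BlowT π S) where
  s12 := by
    rintro x y z (h | ⟨i, hx, hy, hz, h⟩)
    · left
      unfold Pat at h ⊢
      rw [Q_s12]
      exact h
    · exact Or.inr ⟨i, hy, hx, hz, (hS i).s12 _ _ _ h⟩
  s23 := by
    rintro x y z (h | ⟨i, hx, hy, hz, h⟩)
    · left
      unfold Pat at h ⊢
      rw [Q_s23]
      exact h
    · exact Or.inr ⟨i, hx, hz, hy, (hS i).s23 _ _ _ h⟩
  irr := by
    rintro x y (h | ⟨i, hx, hx', hy, h⟩)
    · unfold Pat at h
      rw [Q_irr] at h
      exact absurd h (by decide)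
    · exact (hS i).irr _ _ h
  free := by
    intro x a b c h1 h2 h3
    have hin : ∀ {x y z : V}, π x = π y ∨ π y = π z ∨ π x = π z → BlowT π S x y z →
        ∃ i, BlowIn π S i x y z := by
      intro x y z he h
      rcases h with h | h
      · exfalso
        unfold Pat at h
        rcases he with he | he | he
        · rw [he, Q_irr] at h
          exact absurd h (by decide)
        · rw [he, Q_irr''] at h
          exact absurd h (by decide)
        · rw [he, Q_irr'] at h
          exact absurd h (by decide)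
      · exact h
    have hpi : ∀ {x y z : V}, (∃ i, BlowIn π S i x y z) → π x = π y ∧ π y = π z := by
      rintro x y z ⟨i, hx, hy, hz, _⟩
      exact ⟨hx.trans hy.symm, hy.trans hz.symm⟩
    by_cases e1 : ∃ i, BlowIn π S i x a b
    · obtain ⟨p1, p2⟩ := hpi e1
      exact Blow_free hS e1 (hin (Or.inl p1) h2) (hin (Or.inl (p1.trans p2)) h3)
    · by_cases e2 : ∃ i, BlowIn π S i x a c
      · obtain ⟨p1, p2⟩ := hpi e2
        exact e1 (hin (Or.inl p1) h1)
      · by_cases e3 : ∃ i, BlowIn π S i x b c
        · obtain ⟨p1, p2⟩ := hpi e3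
          exact e1 (hin (Or.inr (Or.inr p1)) h1)
        · have q1 : Pat π x a b := h1.resolve_right e1
          have q2 : Pat π x a c := h2.resolve_right e2
          have q3 : Pat π x b c := h3.resolve_right e3
          exact Q_free _ _ _ _ q1 q2 q3

theorem Blow_ind {V : Type} {π : V → Fin 6}
    {S : ∀ i, {v : V // π v = i} → {v : V // π v = i} → {v : V // π v = i} → Prop}
    (x y z : V) : ind (BlowT π S x y z) = ind (Pat π x y z) + ∑ i, ind (BlowIn π S i x y z) := by
  have hz : ∀ i, i ≠ π x → ¬ BlowIn π S i x y z := by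
    rintro i hi ⟨hx, _⟩
    exact hi hx.symm
  have hsum : ∑ i, ind (BlowIn π S i x y z) = ind (BlowIn π S (π x) x y z) := by
    refine Finset.sum_eq_single (π x) (fun i _ hi => ind_of_not (hz i hi)) ?_
    intro h
    exact absurd (mem_univ _) h
  rw [hsum]
  by_cases h1 : Pat π x y z
  · have h2 : ¬ BlowIn π S (π x) x y z := by
      rintro ⟨_, hy, hz', _⟩
      unfold Pat at h1
      rw [hy, hz', Q_irr] at h1
      exact absurd h1 (by decide)
    have h3 : BlowT π S x y z := Or.inl h1
    rw [ind_of h3, ind_of h1, ind_of_not h2, add_zero]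
  · rw [ind_of_not h1, zero_add]
    refine ind_congr ⟨?_, fun h => Or.inr ⟨_, h⟩⟩
    rintro (h | ⟨i, h⟩)
    · exact absurd h h1
    · by_cases hi : i = π x
      · rwa [hi] at h
      · exact absurd h (hz i hi)

theorem blow_inst {W : Type} (i1 i2 : Fintype W) (R : W → W → W → Prop) :
    @c3 W i1 R = @c3 W i2 R := by
  rw [Subsingleton.elim i1 i2]

theorem blow_card {W : Type} (i1 i2 : Fintype W) :
    @Fintype.card W i1 = @Fintype.card W i2 := by
  rw [Subsingleton.elim i1 i2]

theorem Blow_c3 {V : Type} [Fintype V] {π : V → Fin 6}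
    {S : ∀ i, {v : V // π v = i} → {v : V // π v = i} → {v : V // π v = i} → Prop} (i : Fin 6) :
    c3 (BlowIn π S i) = c3 (S i) := by
  have h1 : c3 (S i) = c3 (fun x y z : {v : V // π v = i} => BlowIn π S i x y z) :=
    c3_congr fun x y z => ⟨fun h => ⟨x.2, y.2, z.2, h⟩, fun ⟨_, _, _, h⟩ => h⟩
  have h2 := c3_sub (fun v => π v = i) (BlowIn π S i)
  have h3 : c3 (BlowIn π S i) = c3 (res (fun v => π v = i) (BlowIn π S i)) :=
    c3_congr fun x y z => ⟨fun h => ⟨h.1, h.2.1, h.2.2.1, h⟩, fun h => h.2.2.2⟩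
  rw [h1, h3, ← h2]
  exact blow_inst _ _ _

theorem blow_ex {V : Type} [Fintype V] (π : V → Fin 6) :
    ∃ T : V → V → V → Prop, IsG T ∧ c3 T = fF π ∧ ∀ x y z, Pat π x y z → T x y z := by
  have h0 : ∀ i, ∃ S : {v : V // π v = i} → {v : V // π v = i} → {v : V // π v = i} → Prop,
      IsG S ∧ c3 S = exo (nc (fun v => π v = i)) := by
    intro i
    obtain ⟨S, hS, hc⟩ := exists_exo {v : V // π v = i}
    refine ⟨S, hS, ?_⟩
    rw [hc, nc_eq_card]
    exact congrArg exo (blow_card _ _)
  choose S hS hc using h0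
  refine ⟨BlowT π S, Blow_isG hS, ?_, fun x y z h => Or.inl h⟩
  unfold fF
  have h1 : c3 (BlowT π S) = c3 (Pat π) + ∑ i, c3 (BlowIn π S i) := by
    have e1 : ∑ i, c3 (BlowIn π S i) = ∑ x, ∑ y, ∑ z, ∑ i, ind (BlowIn π S i x y z) := by
      unfold c3
      rw [sum_comm]
      refine sum_congr rfl fun x _ => ?_
      rw [sum_comm]
      refine sum_congr rfl fun y _ => ?_
      rw [sum_comm]
    rw [e1]
    unfold c3
    rw [← sum_add_distrib]
    refine sum_congr rfl fun x _ => ?_
    rw [← sum_add_distrib]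
    refine sum_congr rfl fun y _ => ?_
    rw [← sum_add_distrib]
    exact sum_congr rfl fun z _ => Blow_ind x y z
  rw [h1]
  congr 1
  exact sum_congr rfl fun i _ => by rw [Blow_c3, hc]

theorem blow {V : Type} [Fintype V] (π : V → Fin 6) : fF π ≤ exo (Fintype.card V) := by
  obtain ⟨T, hT, hc, -⟩ := blow_ex π
  rw [← hc]
  exact le_exo hT

end K4M
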