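import Pool.Agent.Lib.MP_4c59c5_co.GApi

/-!
# Clean (40 min)
Among all `W : V → Prop` with `k <= nc W` (finitely many, `W = univ` is one, `Finite.exists_max`
or `Finset.exists_max_image`) take one which maximizes
`ψ W = c3 (res W T) - gG (nc W) + lam * (nc W)^3`.
Comparison with `W = univ` (`c3 (res univ T) = c3 T`, `nc univ = card V`) gives the first claim.
If `k < nc W` and `W v`, compare with `W' x = W x ∧ x ≠ v`: `nc W' = nc W - 1 >= k`,
`c3 (res W' T) = c3 (res W T) - 3 c2 (fun y z => W y ∧ W z ∧ T v y z)` (a triple with `v` in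
exactly one of three positions), and `w^3 - (w-1)^3 <= 3 w^2` for `w = nc W >= 1`.
-/

set_option linter.unusedVariables false
set_option linter.unusedSectionVars false

namespace K4M

open Finset
open scoped Classical

theorem clean_one {V : Type} [Fintype V] (v : V) (R : V → V → Prop) :
    c3 (fun x y z => x = v ∧ R y z) = c2 R := by
  rw [c3_eq_sum, Finset.sum_eq_single v]
  · exact c2_congr fun y z => by simp
  · intro b _ hb
    unfold c2
    exact sum_eq_zero fun y _ => sum_eq_zero fun z _ => ind_of_not (fun h => hb h.1)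
  · intro h
    exact absurd (mem_univ _) h

theorem clean_del {V : Type} [Fintype V] {T : V → V → V → Prop} (h : IsG T) (W : V → Prop)
    (v : V) :
    c3 (res W T) ≤ c3 (res (fun x => W x ∧ x ≠ v) T)
      + 3 * c2 (fun y z => W y ∧ W z ∧ T v y z) := by
  have e1 := c3_split (res W T) (fun x _ _ => x = v)
  have e2 := c3_split (fun x y z => res W T x y z ∧ ¬ x = v) (fun _ y _ => y = v)
  have e3 := c3_split (fun x y z => (res W T x y z ∧ ¬ x = v) ∧ ¬ y = v) (fun _ _ z => z = v)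
  have f1 : c3 (fun x y z => res W T x y z ∧ x = v) ≤ c2 (fun y z => W y ∧ W z ∧ T v y z) := by
    rw [← clean_one v]
    refine c3_mono ?_
    rintro x y z ⟨⟨h1, h2, h3, h4⟩, rfl⟩
    exact ⟨rfl, h2, h3, h4⟩
  have f2 : c3 (fun x y z => (res W T x y z ∧ ¬ x = v) ∧ y = v)
      ≤ c2 (fun y z => W y ∧ W z ∧ T v y z) := by
    rw [← clean_one v, c3_swap12]
    refine c3_mono ?_
    rintro x y z ⟨⟨⟨h1, h2, h3, h4⟩, _⟩, rfl⟩
    exact ⟨rfl, h1, h3, h.s12 _ _ _ h4⟩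
  have f3 : c3 (fun x y z => ((res W T x y z ∧ ¬ x = v) ∧ ¬ y = v) ∧ z = v)
      ≤ c2 (fun y z => W y ∧ W z ∧ T v y z) := by
    rw [← clean_one v, c3_rot]
    refine c3_mono ?_
    rintro x y z ⟨⟨⟨⟨h1, h2, h3, h4⟩, _⟩, _⟩, rfl⟩
    exact ⟨rfl, h1, h2, h.s12 _ _ _ (h.s23 _ _ _ h4)⟩
  have f4 : c3 (fun x y z => ((res W T x y z ∧ ¬ x = v) ∧ ¬ y = v) ∧ ¬ z = v)
      ≤ c3 (res (fun x => W x ∧ x ≠ v) T) := by
    refine c3_mono ?_
    rintro x y z ⟨⟨⟨⟨h1, h2, h3, h4⟩, h5⟩, h6⟩, h7⟩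
    exact ⟨⟨h1, h5⟩, ⟨h2, h6⟩, ⟨h3, h7⟩, h4⟩
  linarith

theorem clean {V : Type} [Fintype V] {T : V → V → V → Prop} (h : IsG T) (lam : ℝ) (hl : 0 ≤ lam)
    (k : ℕ) (hk : k ≤ Fintype.card V) (hT : gG (Fintype.card V) ≤ c3 T) :
    ∃ W : V → Prop, k ≤ nc W ∧
      gG (nc W) + lam * ((Fintype.card V : ℝ) ^ 3 - (nc W : ℝ) ^ 3) ≤ c3 (res W T) ∧
      (k < nc W → ∀ v, W v → gG (nc W) - gG (nc W - 1) - 3 * lam * (nc W : ℝ) ^ 2
        ≤ 3 * c2 (fun y z => W y ∧ W z ∧ T v y z)) := by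
  set ψ : (V → Prop) → ℝ := fun W => c3 (res W T) - gG (nc W) + lam * (nc W : ℝ) ^ 3 with hψ
  have hu : nc (fun _ : V => True) = Fintype.card V := by
    unfold nc
    simp
  obtain ⟨W, hW, hmax⟩ := Set.exists_max_image {W : V → Prop | k ≤ nc W} ψ (Set.toFinite _)
    ⟨fun _ => True, by rw [Set.mem_setOf_eq, hu]; exact hk⟩
  rw [Set.mem_setOf_eq] at hW
  refine ⟨W, hW, ?_, ?_⟩
  · have h1 := hmax (fun _ => True) (by rw [Set.mem_setOf_eq, hu]; exact hk)
    simp only [hψ] at h1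
    rw [hu] at h1
    have h2 : c3 (res (fun _ : V => True) T) = c3 T := c3_congr fun x y z => by
      unfold res
      simp
    rw [h2] at h1
    have h3 : lam * ((Fintype.card V : ℝ) ^ 3 - (nc W : ℝ) ^ 3)
        = lam * (Fintype.card V : ℝ) ^ 3 - lam * (nc W : ℝ) ^ 3 := by ring
    linarith
  · intro hlt v hv
    have hn : nc (fun x => W x ∧ x ≠ v) = nc W - 1 := by
      unfold nc
      rw [← Finset.card_erase_of_mem (s := univ.filter (fun x => W x)) (a := v) (by simp [hv])]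
      congr 1
      ext x
      simp [and_comm]
    have h1 := hmax (fun x => W x ∧ x ≠ v) (by rw [Set.mem_setOf_eq, hn]; omega)
    simp only [hψ] at h1
    rw [hn] at h1
    have h2 := clean_del h W v
    have h3 : ((nc W - 1 : ℕ) : ℝ) = (nc W : ℝ) - 1 := by
      rw [Nat.cast_sub (by omega), Nat.cast_one]
    rw [h3] at h1
    have hw : (1 : ℝ) ≤ (nc W : ℝ) := by exact_mod_cast (by omega : 1 ≤ nc W)
    have h4 : lam * (nc W : ℝ) ^ 3 - lam * ((nc W : ℝ) - 1) ^ 3 ≤ 3 * lam * (nc W : ℝ) ^ 2 := by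
      have h5 : 3 * lam * (nc W : ℝ) ^ 2 - (lam * (nc W : ℝ) ^ 3 - lam * ((nc W : ℝ) - 1) ^ 3)
          = lam * (3 * (nc W : ℝ) - 1) := by ring
      have h6 : 0 ≤ lam * (3 * (nc W : ℝ) - 1) := mul_nonneg hl (by linarith)
      linarith
    linarith

end K4M
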