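import Pool.Agent.Lib.MP_4c59c5_co.Lim

/-!
# CloneIn (60 min)
Clones of a vertex inside a nearly extremal set. Let `m = c1 A`, `l = c2 (A, A, T v)`.
For a natural number `t` let `W = {x // A x} ⊕ Fin t` and `f : W → V` the inclusion on the left
and constant `v` on the right. The pull-back of `T` under `f` is `IsG` (`IsG.comap`) on
`nc A + t` vertices, and its `c3` equals `c3 (res A T) + 3 t l` (exactly one clone, three
positions; with two clones `T v v z`, `T v z v`, `T z v v` are false). So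
`c3 (res A T) + 3 t l <= exo (nc A + t)` (`le_exo`).
Parameters: `Pi0 <= 1/3`. Let `lam = min δ 1 / 8`. Take `δ1 = δ2 = δ lam / 16` (any
sufficiently small positive number), `N` so large that `exo k <= (Pi0 + δ2) k^3` for `k >= N`
(`pi_upper`) and `lam * N >= 1`. For `m >= N` choose `t = ceil (lam m)`, so
`lam m <= t <= lam m + 1 <= 2 lam m`, and put `x = t / m ∈ [lam, 2 lam]`. Then
`3 x l / m^2 <= (Pi0 + δ2) (1+x)^3 - Pi0 + δ1 <= Pi0 (3 x + 3 x^2 + x^3) + 8 δ2 + δ1`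
(`x <= 1/4`), and after division by `3 x >= 3 lam`:
`l / m^2 <= Pi0 (1 + x + x^2/3) + (δ1 + 8 δ2)/(3 lam) <= Pi0 + δ`
(`Pi0 (x + x^2/3) <= x/2 <= lam <= δ/8`; `9 δ1 / (3 lam) = 3 δ / 16`).
-/

set_option linter.unusedVariables false
set_option linter.unusedSectionVars false

namespace K4M

open Finset
open scoped Classical

/-- The count for the 3-graph with `t` clones of `v`. -/
theorem clonein_count {V : Type} [Fintype V] {T : V → V → V → Prop} (hT : IsG T) (A : V → Prop)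
    (v : V) (t : ℕ) :
    c3 (res A T) + 3 * t * c2 (fun y z => A y ∧ A z ∧ T v y z) ≤ exo (nc A + t) := by
  set f : {x // A x} ⊕ Fin t → V := Sum.elim (fun x => x.1) (fun _ => v) with hf
  have h1 := le_exo (hT.comap f)
  have hcard : Fintype.card ({x // A x} ⊕ Fin t) = nc A + t := by
    rw [Fintype.card_sum, Fintype.card_fin, nc_eq_card]
  rw [hcard] at h1
  refine le_trans ?_ h1
  have hL : c2 (fun y z => A y ∧ A z ∧ T v y z) =
      ∑ y : {x // A x}, ∑ z : {x // A x}, ind (T v y z) := (c2_sub A (T v)).symm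
  have h0 : c3 (res A T) = ∑ x : {x // A x}, ∑ y : {x // A x}, ∑ z : {x // A x}, ind (T x y z) :=
    (c3_sub A T).symm
  rw [hL, h0]
  unfold c3
  rw [Fintype.sum_sum_type]
  simp only [hf, Sum.elim_inl, Sum.elim_inr]
  have e1 : ∀ x : {x // A x},
      (∑ y : {x // A x}, ∑ z : {x // A x}, ind (T x y z)) +
        ((t : ℝ) * ∑ y : {x // A x}, ind (T x y v) + (t : ℝ) * ∑ z : {x // A x}, ind (T x v z)) ≤
      ∑ y : {x // A x} ⊕ Fin t, ∑ z : {x // A x} ⊕ Fin t,
        ind (T x (Sum.elim (fun x : {x // A x} => x.1) (fun _ => v) y)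
          (Sum.elim (fun x : {x // A x} => x.1) (fun _ => v) z)) := by
    intro x
    rw [Fintype.sum_sum_type]
    simp only [Fintype.sum_sum_type, Sum.elim_inl, Sum.elim_inr, sum_add_distrib, sum_const,
      card_univ, Fintype.card_fin, nsmul_eq_mul]
    have h2 : 0 ≤ (t : ℝ) * ((t : ℝ) * ind (T x v v)) :=
      mul_nonneg (Nat.cast_nonneg _) (mul_nonneg (Nat.cast_nonneg _) (ind_nonneg _))
    have h3 : ∑ y : {x // A x}, (t : ℝ) * ind (T x y v) =
        (t : ℝ) * ∑ y : {x // A x}, ind (T x y v) := by rw [mul_sum]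
    rw [h3]
    linarith
  have e2 : (t : ℝ) * ∑ y : {x // A x}, ∑ z : {x // A x}, ind (T v y z) ≤
      ∑ _i : Fin t, ∑ y : {x // A x} ⊕ Fin t, ∑ z : {x // A x} ⊕ Fin t,
        ind (T v (Sum.elim (fun x : {x // A x} => x.1) (fun _ => v) y)
          (Sum.elim (fun x : {x // A x} => x.1) (fun _ => v) z)) := by
    rw [sum_const, card_univ, Fintype.card_fin, nsmul_eq_mul]
    refine mul_le_mul_of_nonneg_left ?_ (Nat.cast_nonneg _)
    rw [Fintype.sum_sum_type]
    simp only [Fintype.sum_sum_type, Sum.elim_inl, Sum.elim_inr, sum_add_distrib]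
    have h2 : 0 ≤ ∑ y : {x // A x}, ∑ _z : Fin t, ind (T v y v) :=
      sum_nonneg fun _ _ => sum_nonneg fun _ _ => ind_nonneg _
    have h3 : 0 ≤ ∑ _y : Fin t, ∑ z : {x // A x}, ind (T v v z) :=
      sum_nonneg fun _ _ => sum_nonneg fun _ _ => ind_nonneg _
    have h4 : 0 ≤ ∑ _y : Fin t, ∑ _z : Fin t, ind (T v v v) :=
      sum_nonneg fun _ _ => sum_nonneg fun _ _ => ind_nonneg _
    linarith
  have e3 := sum_le_sum fun x (_ : x ∈ (univ : Finset {x // A x})) => e1 x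
  rw [sum_add_distrib, sum_add_distrib, ← mul_sum, ← mul_sum] at e3
  have e4 : ∑ x : {x // A x}, ∑ y : {x // A x}, ind (T x y v) =
      ∑ y : {x // A x}, ∑ z : {x // A x}, ind (T v y z) :=
    sum_congr rfl fun x _ => sum_congr rfl fun y _ => ind_congr (by
      rw [hT.iff23, hT.iff12])
  have e5 : ∑ x : {x // A x}, ∑ z : {x // A x}, ind (T x v z) =
      ∑ y : {x // A x}, ∑ z : {x // A x}, ind (T v y z) :=
    sum_congr rfl fun x _ => sum_congr rfl fun y _ => ind_congr (by rw [hT.iff12])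
  rw [e4, e5] at e3
  linarith

/-- The inequality at the end. -/
theorem clonein_num {δ lam m t l P r : ℝ} (hδ : 0 < δ) (hlam : 0 < lam) (hl1 : lam ≤ 1 / 8)
    (hl2 : lam ≤ δ / 8) (hm : 0 < m) (ht1 : lam * m ≤ t) (ht2 : t ≤ 2 * lam * m) (hP : P ≤ 1 / 3)
    (h1 : r + 3 * t * l ≤ (P + δ * lam / 16) * (m + t) ^ 3)
    (h2 : (P - δ * lam / 16) * m ^ 3 ≤ r) : l ≤ (P + δ) * m ^ 2 := by
  have ht : 0 < t := lt_of_lt_of_le (mul_pos hlam hm) ht1
  have htm : t ≤ m / 4 := by nlinarith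
  have htd : t ≤ δ / 4 * m := by nlinarith
  by_contra hcon
  push Not at hcon
  have hm2 : 0 < m ^ 2 := by positivity
  -- lower bound for the left side
  have a1 : 3 * t * ((P + δ) * m ^ 2) < 3 * t * l := by
    have : 0 < 3 * t := by linarith
    exact mul_lt_mul_of_pos_left hcon this
  -- the cube
  have a2 : (m + t) ^ 3 = m ^ 3 + (3 * m ^ 2 * t + 3 * m * t ^ 2 + t ^ 3) := by ring
  have a3 : (m + t) ^ 3 ≤ 8 * m ^ 3 := by
    have h : (m + t) ^ 3 ≤ (2 * m) ^ 3 := by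
      apply pow_le_pow_left₀ (by linarith)
      linarith
    linarith [h, (by ring : (2 * m) ^ 3 = 8 * m ^ 3)]
  have a4 : P * (3 * m * t ^ 2 + t ^ 3) ≤ 1 / 3 * (3 * m * t ^ 2 + t ^ 3) := by
    apply mul_le_mul_of_nonneg_right hP
    positivity
  have hdl : 0 < δ * lam / 16 := by positivity
  have a5 : δ * lam / 16 * (m + t) ^ 3 ≤ δ * lam / 16 * (8 * m ^ 3) :=
    mul_le_mul_of_nonneg_left a3 hdl.le
  have a6 : m * t ^ 2 ≤ δ / 4 * (m ^ 2 * t) := by
    have h := mul_le_mul_of_nonneg_left htd (by positivity : 0 ≤ m * t)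
    nlinarith [h]
  have a7 : t ^ 3 ≤ δ / 16 * (m ^ 2 * t) := by
    have h := mul_le_mul htd htm ht.le (by positivity : 0 ≤ δ / 4 * m)
    have h' := mul_le_mul_of_nonneg_right h ht.le
    nlinarith [h']
  have a8 : δ * lam * m ^ 3 ≤ δ * (m ^ 2 * t) := by
    have h := mul_le_mul_of_nonneg_left ht1 (by positivity : 0 ≤ δ * m ^ 2)
    nlinarith [h]
  have a9 : 0 < δ * (m ^ 2 * t) := by positivity
  nlinarith [a1, a2, a4, a5, a6, a7, a8, a9, h1, h2]

theorem clone_in (δ : ℝ) (hδ : 0 < δ) : ∃ δ1 : ℝ, 0 < δ1 ∧ ∃ N : ℕ,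
    ∀ (V : Type) [Fintype V] (T : V → V → V → Prop), IsG T → ∀ A : V → Prop,
      (N : ℝ) ≤ c1 A → (Pi0 - δ1) * (c1 A) ^ 3 ≤ c3 (res A T) →
      ∀ v, c2 (fun y z => A y ∧ A z ∧ T v y z) ≤ (Pi0 + δ) * (c1 A) ^ 2 := by
  set lam : ℝ := min δ 1 / 8 with hlam
  have hlam0 : 0 < lam := by
    have : 0 < min δ 1 := lt_min hδ one_pos
    positivity
  have hl1 : lam ≤ 1 / 8 := by
    have := min_le_right δ 1
    rw [hlam]
    linarith
  have hl2 : lam ≤ δ / 8 := by
    have := min_le_left δ 1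
    rw [hlam]
    linarith
  have hd : 0 < δ * lam / 16 := by positivity
  obtain ⟨N0, hN0⟩ := pi_upper (δ * lam / 16) hd
  obtain ⟨N1, hN1⟩ := exists_nat_ge (1 / lam)
  refine ⟨δ * lam / 16, hd, max N0 (max N1 1), ?_⟩
  intro V _ T hT A hA hc v
  have hA0 : (N0 : ℝ) ≤ c1 A := le_trans (by exact_mod_cast le_max_left _ _) hA
  have hA1 : (N1 : ℝ) ≤ c1 A :=
    le_trans (by exact_mod_cast (le_max_left _ _).trans (le_max_right N0 _)) hA
  have hA2 : ((1 : ℕ) : ℝ) ≤ c1 A :=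
    le_trans (by exact_mod_cast (le_max_right _ _).trans (le_max_right N0 _)) hA
  rw [Nat.cast_one] at hA2
  have hm : 0 < c1 A := by linarith
  have hlm : 1 ≤ lam * c1 A := by
    have h1 : 1 / lam ≤ c1 A := hN1.trans hA1
    rw [div_le_iff₀ hlam0] at h1
    linarith
  have ht1 : lam * c1 A ≤ (⌈lam * c1 A⌉₊ : ℝ) := Nat.le_ceil _
  have ht2 : (⌈lam * c1 A⌉₊ : ℝ) ≤ 2 * lam * c1 A := by
    have h1 := (Nat.ceil_lt_add_one (by linarith : 0 ≤ lam * c1 A)).le
    linarith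
  have h1 := clonein_count hT A v ⌈lam * c1 A⌉₊
  have h2 := hN0 (nc A + ⌈lam * c1 A⌉₊) (by
    have h3 : (N0 : ℝ) ≤ (nc A : ℝ) := by rw [nc_eq]; exact hA0
    have h4 : N0 ≤ nc A := by exact_mod_cast h3
    omega)
  rw [Nat.cast_add, nc_eq] at h2
  exact clonein_num hδ hlam0 hl1 hl2 hm ht1 ht2 pi_le_third (h1.trans h2) hc

end K4M
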