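import Pool.Agent.Lib.MP_4c59c5_co.Usual

/-!
# ConvA (45 min)
Every set `e` of three elements has exactly six orderings: if `e = {a, b, c}` with a, b, c distinct
(`Finset.card_eq_three`) then the triples (x, y, z) with x ≠ y, x ≠ z, y ≠ z and {x, y, z} = e are
the six permutations of (a, b, c). `six_card`: `c3 (...) = sum_{e in S} (number of orderings of e)`
(write the indicator of `{x,y,z} ∈ S` as the sum over e in S of the indicator of {x,y,z} = e, and
interchange sums). For a property: `six_filter`.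
-/

set_option linter.unusedVariables false
set_option linter.unusedSectionVars false

namespace K4M

open Finset
open scoped Classical

theorem conva_c3 {V : Type} [Fintype V] (R : V → V → V → Prop) :
    c3 R = (((univ : Finset (V × V × V)).filter (fun p => R p.1 p.2.1 p.2.2)).card : ℝ) := by
  rw [Finset.card_filter, Nat.cast_sum]
  unfold c3 ind
  rw [Fintype.sum_prod_type]
  refine Finset.sum_congr rfl fun x _ => ?_
  rw [Fintype.sum_prod_type]
  refine Finset.sum_congr rfl fun y _ => Finset.sum_congr rfl fun z _ => ?_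
  split_ifs <;> simp

theorem conva_six {V : Type} [Fintype V] (e : Finset V) (h : e.card = 3) :
    ((univ : Finset (V × V × V)).filter (fun p => (p.1 ≠ p.2.1 ∧ p.1 ≠ p.2.2 ∧ p.2.1 ≠ p.2.2) ∧
      ({p.1, p.2.1, p.2.2} : Finset V) = e)).card = 6 := by
  obtain ⟨a, b, c, hab, hac, hbc, rfl⟩ := Finset.card_eq_three.mp h
  have hE : ((univ : Finset (V × V × V)).filter (fun p => (p.1 ≠ p.2.1 ∧ p.1 ≠ p.2.2 ∧
      p.2.1 ≠ p.2.2) ∧ ({p.1, p.2.1, p.2.2} : Finset V) = {a, b, c})) =
      {(a, b, c), (a, c, b), (b, a, c), (b, c, a), (c, a, b), (c, b, a)} := by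
    ext ⟨x, y, z⟩
    simp only [mem_filter, mem_univ, true_and, mem_insert, mem_singleton, Prod.mk.injEq]
    constructor
    · rintro ⟨⟨h1, h2, h3⟩, h4⟩
      have hx : x ∈ ({a, b, c} : Finset V) := by rw [← h4]; simp
      have hy : y ∈ ({a, b, c} : Finset V) := by rw [← h4]; simp
      have hz : z ∈ ({a, b, c} : Finset V) := by rw [← h4]; simp
      simp only [mem_insert, mem_singleton] at hx hy hz
      rcases hx with rfl | rfl | rfl <;> rcases hy with rfl | rfl | rfl <;>
        rcases hz with rfl | rfl | rfl <;> simp_all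
    · rintro (⟨rfl, rfl, rfl⟩ | ⟨rfl, rfl, rfl⟩ | ⟨rfl, rfl, rfl⟩ | ⟨rfl, rfl, rfl⟩ |
        ⟨rfl, rfl, rfl⟩ | ⟨rfl, rfl, rfl⟩)
      · exact ⟨⟨hab, hac, hbc⟩, rfl⟩
      · exact ⟨⟨hac, hab, hbc.symm⟩, by ext t; simp only [mem_insert, mem_singleton]; tauto⟩
      · exact ⟨⟨hab.symm, hbc, hac⟩, by ext t; simp only [mem_insert, mem_singleton]; tauto⟩
      · exact ⟨⟨hbc, hab.symm, hac.symm⟩, by ext t; simp only [mem_insert, mem_singleton]; tauto⟩
      · exact ⟨⟨hac.symm, hbc.symm, hab⟩, by ext t; simp only [mem_insert, mem_singleton]; tauto⟩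
      · exact ⟨⟨hbc.symm, hac.symm, hab.symm⟩,
          by ext t; simp only [mem_insert, mem_singleton]; tauto⟩
  rw [hE]
  have hba := hab.symm
  have hca := hac.symm
  have hcb := hbc.symm
  rw [card_insert_of_notMem, card_insert_of_notMem, card_insert_of_notMem, card_insert_of_notMem,
    card_insert_of_notMem, card_singleton] <;>
  simp [hab, hac, hbc, hba, hca, hcb]

theorem six_card {V : Type} [Fintype V] (S : Finset (Finset V)) (h : ∀ e ∈ S, e.card = 3) :
    6 * (S.card : ℝ) = c3 (fun x y z : V => x ≠ y ∧ x ≠ z ∧ y ≠ z ∧ ({x, y, z} : Finset V) ∈ S) := by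
  rw [conva_c3]
  have h1 : ((univ : Finset (V × V × V)).filter (fun p => p.1 ≠ p.2.1 ∧ p.1 ≠ p.2.2 ∧
      p.2.1 ≠ p.2.2 ∧ ({p.1, p.2.1, p.2.2} : Finset V) ∈ S)).card = 6 * S.card := by
    rw [Finset.card_eq_sum_card_fiberwise
      (f := fun p : V × V × V => ({p.1, p.2.1, p.2.2} : Finset V)) (t := S)]
    · rw [Finset.sum_congr rfl (g := fun _ => 6), Finset.sum_const, smul_eq_mul, mul_comm]
      intro e he
      rw [← conva_six e (h e he), Finset.filter_filter]
      congr 1
      ext p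
      simp only [mem_filter, mem_univ, true_and]
      constructor
      · rintro ⟨⟨h1, h2, h3, h4⟩, h5⟩
        exact ⟨⟨h1, h2, h3⟩, h5⟩
      · rintro ⟨⟨h1, h2, h3⟩, h5⟩
        exact ⟨⟨h1, h2, h3, by rw [h5]; exact he⟩, h5⟩
    · intro p hp
      have hp' := (Finset.mem_filter.mp hp).2
      exact hp'.2.2.2
  have h2 := congrArg (fun n : ℕ => (n : ℝ)) h1
  simp only [Nat.cast_mul, Nat.cast_ofNat] at h2
  convert h2.symm

end K4M
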