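import Pool.Agent.Lib.MP_4c59c5_co.Usual

/-!
# ConvB (50 min)
`tern_symm`: `{x, y, z} = {y, x, z}` etc. as finsets.
`isG_tern`: `free`: if tern H x a b, tern H x a c, tern H x b c then x, a, b, c are four distinct
vertices, S = {x, a, b, c} has 4 elements and contains the three distinct members {x,a,b}, {x,a,c},
{x,b,c} of H, so the filter has at least 3 elements. `irr`: x ≠ x.
`exists_fin`: given `IsG T` let `H = (univ.powersetCard 3).filter (fun e => exists x y z,
e = {x, y, z} and T x y z)`. `tern H x y z ↔ T x y z`: T gives distinctness (`IsG.ne12` ...);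
conversely {x, y, z} = {x', y', z'} with T x' y' z' gives T x y z by the symmetries `s12`, `s23`.
`Free43 H`: let S have 4 elements a, b, c, d and suppose at least 3 of its four 3-subsets are in H.
Any three of the four 3-subsets of S have a common vertex p, they are {p,q,r}, {p,q,s}, {p,r,s};
this contradicts `h.free`. (Formally: if more than 2 members of H are subsets of S, then at most one
of the four 3-subsets is missing; case distinction on which one.)
-/

set_option linter.unusedVariables false
set_option linter.unusedSectionVars false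

namespace K4M

open Finset
open scoped Classical

theorem convb_s12 {V : Type} (x y z : V) : ({x, y, z} : Finset V) = {y, x, z} := by
  ext w; simp only [Finset.mem_insert, Finset.mem_singleton]; tauto

theorem convb_s23 {V : Type} (x y z : V) : ({x, y, z} : Finset V) = {x, z, y} := by
  ext w; simp only [Finset.mem_insert, Finset.mem_singleton]; tauto

theorem isG_tern {V : Type} {H : Finset (Finset V)} (h : Free43 H) : IsG (tern H) := by
  refine ⟨?_, ?_, ?_, ?_⟩
  · rintro x y z ⟨h1, h2, h3, h4⟩
    exact ⟨h1.symm, h3, h2, by rw [convb_s12 y x z]; exact h4⟩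
  · rintro x y z ⟨h1, h2, h3, h4⟩
    exact ⟨h2, h1, h3.symm, by rw [convb_s23 x z y]; exact h4⟩
  · rintro x y ⟨h1, -⟩
    exact h1 rfl
  · rintro x a b c ⟨xa, xb, ab, h1⟩ ⟨-, xc, ac, h2⟩ ⟨-, -, bc, h3⟩
    have hS : ({x, a, b, c} : Finset V).card = 4 := by
      rw [Finset.card_insert_of_notMem (by simp [xa, xb, xc]),
        Finset.card_insert_of_notMem (by simp [ab, ac]), Finset.card_pair bc]
    have hF := h.2 _ hS
    have hsub : ({{x, a, b}, {x, a, c}, {x, b, c}} : Finset (Finset V)) ⊆
        H.filter (fun e => e ⊆ ({x, a, b, c} : Finset V)) := by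
      intro e he
      simp only [Finset.mem_insert, Finset.mem_singleton] at he
      rw [Finset.mem_filter]
      rcases he with rfl | rfl | rfl
      · refine ⟨h1, fun w hw => ?_⟩
        simp only [Finset.mem_insert, Finset.mem_singleton] at hw ⊢
        tauto
      · refine ⟨h2, fun w hw => ?_⟩
        simp only [Finset.mem_insert, Finset.mem_singleton] at hw ⊢
        tauto
      · refine ⟨h3, fun w hw => ?_⟩
        simp only [Finset.mem_insert, Finset.mem_singleton] at hw ⊢
        tauto
    have n12 : ({x, a, b} : Finset V) ≠ {x, a, c} := by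
      intro e
      have : b ∈ ({x, a, c} : Finset V) := by rw [← e]; simp
      simp [xb.symm, ab.symm, bc] at this
    have n13 : ({x, a, b} : Finset V) ≠ {x, b, c} := by
      intro e
      have : a ∈ ({x, b, c} : Finset V) := by rw [← e]; simp
      simp [xa.symm, ab, ac] at this
    have n23 : ({x, a, c} : Finset V) ≠ {x, b, c} := by
      intro e
      have : a ∈ ({x, b, c} : Finset V) := by rw [← e]; simp
      simp [xa.symm, ab, ac] at this
    have hc3 : ({{x, a, b}, {x, a, c}, {x, b, c}} : Finset (Finset V)).card = 3 := by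
      rw [Finset.card_insert_of_notMem (by simp [n12, n13]), Finset.card_pair n23]
    have := Finset.card_le_card hsub
    omega

theorem convb_perm {V : Type} {T : V → V → V → Prop} (h : IsG T) {x y z x' y' z' : V}
    (xy : x ≠ y) (xz : x ≠ z) (yz : y ≠ z) (e : ({x, y, z} : Finset V) = {x', y', z'})
    (ht : T x' y' z') : T x y z := by
  have hx : x ∈ ({x', y', z'} : Finset V) := by rw [← e]; simp
  have hy : y ∈ ({x', y', z'} : Finset V) := by rw [← e]; simp
  have hz : z ∈ ({x', y', z'} : Finset V) := by rw [← e]; simp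
  simp only [Finset.mem_insert, Finset.mem_singleton] at hx hy hz
  have t1 := h.s12 _ _ _ ht
  have t2 := h.s23 _ _ _ ht
  have t3 := h.s23 _ _ _ t1
  have t4 := h.s12 _ _ _ t2
  have t5 := h.s12 _ _ _ t3
  rcases hx with rfl | rfl | rfl <;> rcases hy with rfl | rfl | rfl <;>
    rcases hz with rfl | rfl | rfl <;>
    first
      | exact absurd rfl xy
      | exact absurd rfl xz
      | exact absurd rfl yz
      | assumption

theorem exists_fin {V : Type} [Fintype V] {T : V → V → V → Prop} (h : IsG T) :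
    ∃ H : Finset (Finset V), Free43 H ∧ ∀ x y z, tern H x y z ↔ T x y z := by
  obtain ⟨H, hH⟩ : ∃ H : Finset (Finset V), H = (univ.powersetCard 3).filter
      (fun e => ∃ x y z, e = {x, y, z} ∧ T x y z) := ⟨_, rfl⟩
  have hmem : ∀ e, e ∈ H ↔ e.card = 3 ∧ ∃ x y z, e = {x, y, z} ∧ T x y z := by
    intro e
    rw [hH, Finset.mem_filter, Finset.mem_powersetCard]
    constructor
    · rintro ⟨⟨-, h1⟩, h2⟩; exact ⟨h1, h2⟩
    · rintro ⟨h1, h2⟩; exact ⟨⟨Finset.subset_univ _, h1⟩, h2⟩
  have htern : ∀ x y z, tern H x y z ↔ T x y z := by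
    intro x y z
    constructor
    · rintro ⟨xy, xz, yz, h4⟩
      obtain ⟨-, x', y', z', he, ht⟩ := (hmem _).mp h4
      exact convb_perm h xy xz yz he ht
    · intro ht
      have xy := h.ne12 ht
      have yz := h.ne23 ht
      have xz := h.ne13 ht
      refine ⟨xy, xz, yz, (hmem _).mpr ⟨?_, x, y, z, rfl, ht⟩⟩
      rw [Finset.card_insert_of_notMem (by simp [xy, xz]), Finset.card_pair yz]
  refine ⟨H, ⟨fun e he => ((hmem e).mp he).1, fun S hS => ?_⟩, htern⟩
  by_contra hcon
  rw [not_le, Finset.two_lt_card] at hcon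
  obtain ⟨e1, m1, e2, m2, e3, m3, n12, n13, n23⟩ := hcon
  rw [Finset.mem_filter] at m1 m2 m3
  have herase : ∀ e, e ∈ H → e ⊆ S → ∃ p, p ∈ S ∧ e = S.erase p := by
    intro e he hs
    have c1 := ((hmem e).mp he).1
    have c2 : (S \ e).card = 1 := by rw [Finset.card_sdiff_of_subset hs, hS, c1]
    obtain ⟨p, hp⟩ := Finset.card_eq_one.mp c2
    have hpS : p ∈ S ∧ p ∉ e := by
      have : p ∈ S \ e := by rw [hp]; simp
      exact Finset.mem_sdiff.mp this
    refine ⟨p, hpS.1, ?_⟩
    apply Finset.eq_of_subset_of_card_le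
    · intro w hw
      exact Finset.mem_erase.mpr ⟨fun hh => hpS.2 (hh ▸ hw), hs hw⟩
    · rw [Finset.card_erase_of_mem hpS.1, hS, c1]
  obtain ⟨p1, s1, q1⟩ := herase e1 m1.1 m1.2
  obtain ⟨p2, s2, q2⟩ := herase e2 m2.1 m2.2
  obtain ⟨p3, s3, q3⟩ := herase e3 m3.1 m3.2
  have d12 : p1 ≠ p2 := fun hh => n12 (by rw [q1, q2, hh])
  have d13 : p1 ≠ p3 := fun hh => n13 (by rw [q1, q3, hh])
  have d23 : p2 ≠ p3 := fun hh => n23 (by rw [q2, q3, hh])
  have hc3 : ({p1, p2, p3} : Finset V).card = 3 := by
    rw [Finset.card_insert_of_notMem (by simp [d12, d13]), Finset.card_pair d23]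
  have hsub : ({p1, p2, p3} : Finset V) ⊆ S := by
    intro w hw
    simp only [Finset.mem_insert, Finset.mem_singleton] at hw
    rcases hw with rfl | rfl | rfl <;> assumption
  have hc1 : (S \ ({p1, p2, p3} : Finset V)).card = 1 := by
    rw [Finset.card_sdiff_of_subset hsub, hS, hc3]
  obtain ⟨q, hq⟩ := Finset.card_eq_one.mp hc1
  have hqS : q ∈ S ∧ q ∉ ({p1, p2, p3} : Finset V) := by
    have : q ∈ S \ ({p1, p2, p3} : Finset V) := by rw [hq]; simp
    exact Finset.mem_sdiff.mp this
  have hqn := hqS.2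
  simp only [Finset.mem_insert, Finset.mem_singleton, not_or] at hqn
  obtain ⟨g1, g2, g3⟩ := hqn
  have hT : ∀ p a b, p ∈ S → S.erase p ∈ H → a ∈ S → b ∈ S → q ≠ p → a ≠ p → b ≠ p → q ≠ a →
      q ≠ b → a ≠ b → T q a b := by
    intro p a b hp hH' ha hb qp ap bp qa qb ab
    rw [← htern]
    refine ⟨qa, qb, ab, ?_⟩
    have : ({q, a, b} : Finset V) = S.erase p := by
      apply Finset.eq_of_subset_of_card_le
      · intro w hw
        simp only [Finset.mem_insert, Finset.mem_singleton] at hw
        rw [Finset.mem_erase]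
        rcases hw with rfl | rfl | rfl
        · exact ⟨qp, hqS.1⟩
        · exact ⟨ap, ha⟩
        · exact ⟨bp, hb⟩
      · rw [Finset.card_erase_of_mem hp, hS,
          Finset.card_insert_of_notMem (by simp [qa, qb]), Finset.card_pair ab]
    rw [this]
    exact hH'
  have t23 : T q p2 p3 := hT p1 p2 p3 s1 (by rw [← q1]; exact m1.1) s2 s3 g1 d12.symm d13.symm g2 g3 d23
  have t13 : T q p1 p3 := hT p2 p1 p3 s2 (by rw [← q2]; exact m2.1) s1 s3 g2 d12 d23.symm g1 g3 d13
  have t12 : T q p1 p2 := hT p3 p1 p2 s3 (by rw [← q3]; exact m3.1) s1 s2 g3 d13 d23 g1 g2 d12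
  exact h.free q p1 p2 p3 t12 t13 t23

end K4M
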