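import Pool.Agent.Lib.MP_4c59c5_co.Basic

/-!
# ExApi (30 min)
`exo n` is the supremum of a set of reals that is finite (there are finitely many ternary
relations on `Fin n`: `Finite (Fin n -> Fin n -> Fin n -> Prop)`, image under `c3`) and non-empty
(the empty relation is `IsG`, with `c3 = 0`), so it is attained and every `c3 T` is below it
(`le_csSup`, `Set.Finite.bddAbove`, `Set.Nonempty.csSup_mem`).
Transport from `V` to `Fin (card V)`: `Fintype.equivFin`, `IsG.comap`, `c3_equiv`.
`le_exo_res`: the relation `fun x y z : {v // A v} => T x y z` is `IsG` by `IsG.comap`,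
its `c3` is `c3 (res A T)` by `c3_sub`, the cardinal of the subtype is `nc A` by `nc_eq_card`.
`exo_le_cube`: `c3 T <= card^3` because every indicator is at most one.
-/

set_option linter.unusedVariables false
set_option linter.unusedSectionVars false

namespace K4M

open Finset
open scoped Classical

theorem ExApi_fin (n : ℕ) :
    Set.Finite {r : ℝ | ∃ T : Fin n → Fin n → Fin n → Prop, IsG T ∧ c3 T = r} := by
  refine (Set.finite_range (fun T : Fin n → Fin n → Fin n → Prop => c3 T)).subset ?_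
  rintro r ⟨T, -, rfl⟩
  exact ⟨T, rfl⟩

theorem ExApi_ne (n : ℕ) :
    Set.Nonempty {r : ℝ | ∃ T : Fin n → Fin n → Fin n → Prop, IsG T ∧ c3 T = r} :=
  ⟨_, fun _ _ _ => False, ⟨fun _ _ _ h => h, fun _ _ _ h => h, fun _ _ h => h,
    fun _ _ _ _ h _ _ => h⟩, rfl⟩

theorem le_exo {V : Type} [Fintype V] {T : V → V → V → Prop} (h : IsG T) :
    c3 T ≤ exo (Fintype.card V) := by
  have e := (Fintype.equivFin V).symm
  rw [← c3_equiv e T]
  exact le_csSup (ExApi_fin _).bddAbove ⟨_, h.comap e, rfl⟩

theorem exists_exo (V : Type) [Fintype V] :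
    ∃ T : V → V → V → Prop, IsG T ∧ c3 T = exo (Fintype.card V) := by
  obtain ⟨T, hT, h⟩ := (ExApi_ne (Fintype.card V)).csSup_mem (ExApi_fin _)
  have e := Fintype.equivFin V
  refine ⟨fun x y z => T (e x) (e y) (e z), hT.comap e, ?_⟩
  rw [c3_equiv e T]
  exact h

theorem le_exo_res {V : Type} [Fintype V] {T : V → V → V → Prop} (h : IsG T) (A : V → Prop) :
    c3 (res A T) ≤ exo (nc A) := by
  rw [← c3_sub A T, nc_eq_card]
  exact le_exo (h.comap (fun x : {v : V // A v} => (x : V)))

theorem exo_nonneg (n : ℕ) : 0 ≤ exo n := by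
  obtain ⟨T, -, h⟩ := exists_exo (Fin n)
  rw [Fintype.card_fin] at h
  rw [← h]
  exact c3_nonneg T

theorem exo_le_cube (n : ℕ) : exo n ≤ (n : ℝ) ^ 3 := by
  obtain ⟨T, -, h⟩ := exists_exo (Fin n)
  rw [Fintype.card_fin] at h
  rw [← h]
  calc c3 T ≤ ∑ x : Fin n, ∑ y : Fin n, ∑ z : Fin n, (1 : ℝ) :=
        sum_le_sum fun x _ => sum_le_sum fun y _ => sum_le_sum fun z _ => ind_le_one _
    _ = (n : ℝ) ^ 3 := by
        simp only [sum_const, card_univ, Fintype.card_fin, nsmul_eq_mul, mul_one]
        ring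

end K4M
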