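import Pool.Agent.Lib.MP_4c59c5_co.ConvA
import Pool.Agent.Lib.MP_4c59c5_co.ConvB
import Pool.Agent.Lib.MP_4c59c5_co.ExApi

/-!
# ConvC (30 min)
`card_tern`: `six_card` with `h.1`. `ex3_exo`: the set in `ex3` is bounded (`card <= 2^(2^n)` or
`6 card = c3 (tern H) <= exo n`) and non-empty (empty H), so `ex3 n` is attained (`Nat.sSup_mem`) by
some H with `6 * ex3 n = c3 (tern H) <= exo n` (`isG_tern`, `le_exo`, `Fintype.card_fin`).
Conversely `exists_exo (Fin n)` and `exists_fin` give H with `6 card = exo n` and `card <= ex3 n`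
(`le_csSup`). `card_le_ex3` for any V: `6 card = c3 (tern H) <= exo (card V) = 6 ex3`.
-/

set_option linter.unusedVariables false
set_option linter.unusedSectionVars false

namespace K4M

open Finset
open scoped Classical

theorem card_tern {V : Type} [Fintype V] {H : Finset (Finset V)} (h : Free43 H) :
    6 * (H.card : ℝ) = c3 (tern H) :=
  six_card H h.1

theorem ex3_set_bdd (n : ℕ) :
    BddAbove {m : ℕ | ∃ H : Finset (Finset (Fin n)), Free43 H ∧ H.card = m} := by
  refine ⟨Fintype.card (Finset (Fin n)), ?_⟩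
  rintro m ⟨H, _, rfl⟩
  exact Finset.card_le_univ H

theorem ex3_mem (n : ℕ) : ∃ H : Finset (Finset (Fin n)), Free43 H ∧ H.card = ex3 n := by
  refine Nat.sSup_mem (s := {m : ℕ | ∃ H : Finset (Finset (Fin n)), Free43 H ∧ H.card = m})
    ⟨0, ∅, ⟨?_, ?_⟩, Finset.card_empty⟩ (ex3_set_bdd n)
  · intro e he
    exact absurd he (Finset.notMem_empty e)
  · intro S _
    rw [Finset.filter_empty, Finset.card_empty]
    exact Nat.zero_le 2

theorem card_le_ex3_fin {n : ℕ} {H : Finset (Finset (Fin n))} (h : Free43 H) :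
    H.card ≤ ex3 n :=
  le_csSup (ex3_set_bdd n) ⟨H, h, rfl⟩

theorem ex3_exo (n : ℕ) : 6 * (ex3 n : ℝ) = exo n := by
  refine le_antisymm ?_ ?_
  · obtain ⟨H, hH, hc⟩ := ex3_mem n
    rw [← hc, card_tern hH]
    have h1 := le_exo (isG_tern hH)
    rwa [Fintype.card_fin] at h1
  · obtain ⟨T, hT, hc⟩ := exists_exo (Fin n)
    rw [Fintype.card_fin] at hc
    obtain ⟨H, hH, hi⟩ := exists_fin hT
    have h1 : 6 * (H.card : ℝ) = c3 T := by
      rw [card_tern hH]
      exact c3_congr hi
    rw [← hc, ← h1]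
    have h2 : (H.card : ℝ) ≤ (ex3 n : ℝ) := by exact_mod_cast card_le_ex3_fin hH
    linarith

theorem card_le_ex3 {V : Type} [Fintype V] {H : Finset (Finset V)} (h : Free43 H) :
    H.card ≤ ex3 (Fintype.card V) := by
  have h1 := le_exo (isG_tern h)
  rw [← card_tern h, ← ex3_exo] at h1
  have h2 : (H.card : ℝ) ≤ (ex3 (Fintype.card V) : ℝ) := by linarith
  exact_mod_cast h2

end K4M
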