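import Pool.Agent.Lib.MP_4c59c5_co.Basic

/-!
# PatCount (30 min)
Group the vertices by parts: `ind (Q (π x) (π y) (π z) = true)` equals
`sum_{i,j,k} ind (π x = i) ind (π y = j) ind (π z = k) [Q i j k]`; interchange sums.
`pat6_deg`: every block is counted in 3 of the 6 numbers nb2.
`mis_eq`: `Pat = (T and Pat) + Mis` (`c3_split`).
-/

set_option linter.unusedVariables false
set_option linter.unusedSectionVars false

namespace K4M

open Finset
open scoped Classical

theorem patcount_sum {V : Type} [Fintype V] (π : V → Fin 6) (f : Fin 6 → ℝ) :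
    ∑ x, f (π x) = ∑ i, psz π i * f i := by
  unfold psz c1
  simp_rw [sum_mul]
  rw [sum_comm]
  refine sum_congr rfl fun x _ => ?_
  rw [Finset.sum_eq_single (π x)]
  · rw [ind_of rfl, one_mul]
  · intro b _ hb
    rw [ind_of_not (fun h => hb h.symm), zero_mul]
  · intro h
    exact absurd (mem_univ _) h

theorem patcount_ite (b : Bool) (a : ℝ) : (if b = true then a else 0) = a * ind (b = true) := by
  unfold ind
  split_ifs <;> simp

theorem pat6_eq (x : Fin 6 → ℝ) : pat6 x = ∑ i, x i * nb2 x i := by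
  unfold pat6 nb2
  refine sum_congr rfl fun i _ => ?_
  rw [mul_sum]
  refine sum_congr rfl fun j _ => ?_
  rw [mul_sum]
  refine sum_congr rfl fun k _ => ?_
  split_ifs
  · ring
  · ring

theorem nb_count {V : Type} [Fintype V] (π : V → Fin 6) (i : Fin 6) :
    c2 (fun y z => Q i (π y) (π z) = true) = nb2 (psz π) i := by
  unfold c2 nb2
  have h1 : ∀ j : Fin 6, ∑ z, ind (Q i j (π z) = true) =
      ∑ k, psz π k * ind (Q i j k = true) := fun j =>
    patcount_sum π (fun k => ind (Q i j k = true))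
  simp_rw [h1]
  rw [patcount_sum π (fun j => ∑ k, psz π k * ind (Q i j k = true))]
  refine sum_congr rfl fun j _ => ?_
  rw [mul_sum]
  refine sum_congr rfl fun k _ => ?_
  rw [patcount_ite]
  ring

theorem pat_count {V : Type} [Fintype V] (π : V → Fin 6) : c3 (Pat π) = pat6 (psz π) := by
  rw [pat6_eq, c3_eq_sum]
  have h1 : ∀ x, c2 (Pat π x) = nb2 (psz π) (π x) := fun x => nb_count π (π x)
  simp_rw [h1]
  exact patcount_sum π (fun i => nb2 (psz π) i)

theorem patcount_ten : ∀ i : Fin 6, (∑ j, ∑ k, bn (Q i j k)) = 10 := by decide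

/-- ten ordered pairs in every link of the design -/
theorem nb2_le (x : Fin 6 → ℝ) (h0 : ∀ i, 0 ≤ x i) (m : ℝ) (hm : ∀ i, x i ≤ m) (i : Fin 6) :
    nb2 x i ≤ 10 * m ^ 2 := by
  have h1 : nb2 x i ≤ ∑ j, ∑ k, (bn (Q i j k) : ℝ) * m ^ 2 := by
    unfold nb2
    refine sum_le_sum fun j _ => sum_le_sum fun k _ => ?_
    split_ifs with h
    · rw [h]
      simp only [bn, if_true, Nat.cast_one, one_mul]
      rw [sq]
      exact mul_le_mul (hm j) (hm k) (h0 k) ((h0 j).trans (hm j))
    · exact mul_nonneg (Nat.cast_nonneg _) (sq_nonneg m)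
  refine h1.trans (le_of_eq ?_)
  simp_rw [← sum_mul]
  congr 1
  have h2 := patcount_ten i
  exact_mod_cast h2

theorem mis_eq {V : Type} [Fintype V] (T : V → V → V → Prop) (π : V → Fin 6) :
    c3 (Pat π) = c3 (fun x y z => T x y z ∧ Pat π x y z) + c3 (Mis T π) := by
  rw [c3_split (Pat π) T]
  congr 1
  exact c3_congr fun x y z => and_comm

end K4M
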