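import Pool.Agent.Lib.MP_4c59c5_co.ConvA
import Pool.Agent.Lib.MP_4c59c5_co.ConvB
import Pool.Agent.Lib.MP_4c59c5_co.PatCount

/-!
# ConvD (50 min)
`mem_patT`: for distinct x, y, z the image of {x, y, z} is {ρ x, ρ y, ρ z}, and
`{i, j, k} ∈ H6 ↔ Q i j k = true` for all i, j, k (finite check; if two of them are equal the set has
fewer than three elements and Q is false; so pattern triples are automatically distinct:
`Pat ρ x y z` implies ρ x, ρ y, ρ z distinct).
`inter_patT`, `in_part`: `six_card` for `H ∩ patT π` and for `H.filter (e ⊆ part ρ i)`; the members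
have three elements because H is `Free43`.
`pat6_H6`: both sides are explicit polynomials (six times the sum of the ten products).
-/

set_option linter.unusedVariables false
set_option linter.unusedSectionVars false

namespace K4M

open Finset
open scoped Classical

set_option maxRecDepth 100000 in
theorem convd_H6 : ∀ i j k : Fin 6, ({i, j, k} : Finset (Fin 6)) ∈ H6 ↔ Q i j k = true := by
  decide +kernel

theorem mem_patT {V : Type} [Fintype V] (ρ : V → Fin 6) (x y z : V) :
    tern (patT ρ) x y z ↔ Pat ρ x y z := by
  unfold tern Pat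
  constructor
  · rintro ⟨_, _, _, h4⟩
    unfold patT at h4
    have h5 := (mem_filter.1 h4).2
    rw [image_insert, image_insert, image_singleton] at h5
    exact (convd_H6 _ _ _).1 h5
  · intro hQ
    have h1 : x ≠ y := by
      rintro rfl
      rw [Q_irr] at hQ
      exact absurd hQ (by simp)
    have h2 : x ≠ z := by
      rintro rfl
      rw [Q_irr'] at hQ
      exact absurd hQ (by simp)
    have h3 : y ≠ z := by
      rintro rfl
      rw [Q_irr''] at hQ
      exact absurd hQ (by simp)
    refine ⟨h1, h2, h3, ?_⟩
    unfold patT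
    refine mem_filter.2 ⟨mem_powersetCard.2 ⟨subset_univ _, ?_⟩, ?_⟩
    · exact card_eq_three.2 ⟨x, y, z, h1, h2, h3, rfl⟩
    · rw [image_insert, image_insert, image_singleton]
      exact (convd_H6 _ _ _).2 hQ

theorem inter_patT {V : Type} [Fintype V] {H : Finset (Finset V)} (h : Free43 H) (π : V → Fin 6) :
    6 * ((H ∩ patT π).card : ℝ) = c3 (fun x y z => tern H x y z ∧ Pat π x y z) := by
  rw [six_card (H ∩ patT π) (fun e he => h.1 e (mem_inter.1 he).1)]
  refine c3_congr fun x y z => ?_
  rw [← mem_patT, mem_inter]
  unfold tern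
  tauto

theorem in_part {V : Type} [Fintype V] {H : Finset (Finset V)} (h : Free43 H) (ρ : V → Fin 6)
    (i : Fin 6) :
    6 * ((H.filter (fun e => e ⊆ part ρ i)).card : ℝ) = c3 (res (fun v => ρ v = i) (tern H)) := by
  rw [six_card (H.filter (fun e => e ⊆ part ρ i)) (fun e he => h.1 e (mem_filter.1 he).1)]
  refine c3_congr fun x y z => ?_
  have e : ({x, y, z} : Finset V) ⊆ part ρ i ↔ ρ x = i ∧ ρ y = i ∧ ρ z = i := by
    unfold part
    rw [insert_subset_iff, insert_subset_iff, singleton_subset_iff]
    simp
  rw [mem_filter, e]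
  unfold res tern
  tauto

theorem pat6_H6 (x : Fin 6 → ℝ) : pat6 x = 6 * ∑ b ∈ H6, ∏ i ∈ b, x i := by
  have hb : ∑ b ∈ H6, ∏ i ∈ b, x i = x 0 * x 1 * x 5 + x 1 * x 2 * x 5 + x 2 * x 3 * x 5
      + x 3 * x 4 * x 5 + x 0 * x 4 * x 5 + x 0 * x 1 * x 3 + x 1 * x 2 * x 4 + x 0 * x 2 * x 3
      + x 1 * x 3 * x 4 + x 0 * x 2 * x 4 := by
    have hp : ∀ i j k : Fin 6, i ≠ j → i ≠ k → j ≠ k →
        ∏ l ∈ ({i, j, k} : Finset (Fin 6)), x l = x i * x j * x k := by
      intro i j k h1 h2 h3
      rw [Finset.prod_insert (by simp [h1, h2]), Finset.prod_insert (by simp [h3]),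
        Finset.prod_singleton, mul_assoc]
    unfold H6
    rw [Finset.sum_insert (by decide), Finset.sum_insert (by decide),
      Finset.sum_insert (by decide), Finset.sum_insert (by decide),
      Finset.sum_insert (by decide), Finset.sum_insert (by decide),
      Finset.sum_insert (by decide), Finset.sum_insert (by decide),
      Finset.sum_insert (by decide), Finset.sum_singleton,
      hp 0 1 5 (by decide) (by decide) (by decide), hp 1 2 5 (by decide) (by decide) (by decide),
      hp 2 3 5 (by decide) (by decide) (by decide), hp 3 4 5 (by decide) (by decide) (by decide),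
      hp 0 4 5 (by decide) (by decide) (by decide), hp 0 1 3 (by decide) (by decide) (by decide),
      hp 1 2 4 (by decide) (by decide) (by decide), hp 0 2 3 (by decide) (by decide) (by decide),
      hp 1 3 4 (by decide) (by decide) (by decide), hp 0 2 4 (by decide) (by decide) (by decide)]
    ring
  rw [hb]
  unfold pat6
  simp (decide := true) only [Fin.sum_univ_six, if_true, if_false]
  ring

end K4M
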