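import Pool.Agent.Lib.MP_4c59c5_co.Blow
import Pool.Agent.Lib.MP_4c59c5_co.PatCount

/-!
# GApi
`gG n` is the supremum of a finite set of reals (finitely many maps `Fin n -> Fin 6`).
-/

set_option linter.unusedVariables false
set_option linter.unusedSectionVars false

namespace K4M

open Finset
open scoped Classical

theorem gapi_psz_comp {V W : Type} [Fintype V] [Fintype W] (e : W ≃ V) (π : V → Fin 6)
    (i : Fin 6) : psz (fun x : W => π (e x)) i = psz π i := by
  unfold psz
  exact c1_equiv e (fun v => π v = i)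

theorem gapi_nc_comp {V W : Type} [Fintype V] [Fintype W] (e : W ≃ V) (π : V → Fin 6)
    (i : Fin 6) : nc (fun x : W => π (e x) = i) = nc (fun v : V => π v = i) := by
  have h : ((nc (fun x : W => π (e x) = i) : ℕ) : ℝ) = ((nc (fun v : V => π v = i) : ℕ) : ℝ) := by
    rw [nc_eq, nc_eq]
    exact c1_equiv e (fun v => π v = i)
  exact_mod_cast h

theorem gapi_fF_comp {V W : Type} [Fintype V] [Fintype W] (e : W ≃ V) (π : V → Fin 6) :
    fF (fun x : W => π (e x)) = fF π := by
  unfold fF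
  have h1 : c3 (Pat (fun x : W => π (e x))) = c3 (Pat π) := c3_equiv e (Pat π)
  rw [h1]
  congr 1
  exact sum_congr rfl fun i _ => by rw [gapi_nc_comp e π i]

theorem gapi_near_comp {V W : Type} [Fintype V] [Fintype W] (e : W ≃ V) (κ : ℝ) (π : V → Fin 6)
    (h : Near κ π) : Near κ (fun x : W => π (e x)) := by
  intro i
  rw [gapi_psz_comp e π i, Fintype.card_congr e]
  exact h i

theorem gapi_finite (n : ℕ) :
    Set.Finite {r : ℝ | ∃ π : Fin n → Fin 6, Near (1 / 100) π ∧ fF π = r} := by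
  refine (Set.finite_range (fun π : Fin n → Fin 6 => fF π)).subset ?_
  rintro r ⟨π, _, hr⟩
  exact ⟨π, hr⟩

theorem le_gG {V : Type} [Fintype V] (π : V → Fin 6) (h : Near (1 / 100) π) :
    fF π ≤ gG (Fintype.card V) := by
  have e : Fin (Fintype.card V) ≃ V := (Fintype.equivFin V).symm
  unfold gG
  refine le_csSup (gapi_finite _).bddAbove ?_
  exact ⟨fun x => π (e x), gapi_near_comp e _ π h, gapi_fF_comp e π⟩

/-- the residue modulo six -/
def gapiMod (n : ℕ) : Fin n → Fin 6 := fun v => ⟨v.val % 6, Nat.mod_lt _ (by norm_num)⟩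

theorem gapi_count (n : ℕ) (i : Fin 6) :
    ∑ k ∈ range n, ind (k % 6 = i.val) = (n / 6 + if i.val < n % 6 then 1 else 0 : ℕ) := by
  induction n with
  | zero => simp
  | succ n ih =>
    rw [sum_range_succ, ih]
    unfold ind
    have hi : i.val < 6 := i.isLt
    have key : (n / 6 + if i.val < n % 6 then 1 else 0) + (if n % 6 = i.val then 1 else 0)
        = ((n + 1) / 6 + if i.val < (n + 1) % 6 then 1 else 0) := by
      split_ifs <;> omega
    rw [← key]
    push_cast
    split_ifs <;> simp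

theorem gapi_mod_psz (n : ℕ) (i : Fin 6) :
    |psz (gapiMod n) i - (n : ℝ) / 6| ≤ 1 := by
  have h1 : psz (gapiMod n) i = ∑ k ∈ range n, ind (k % 6 = i.val) := by
    unfold psz c1
    rw [← Fin.sum_univ_eq_sum_range (fun k => ind (k % 6 = i.val)) n]
    refine sum_congr rfl fun v _ => ?_
    refine ind_congr ?_
    constructor
    · intro h
      exact congrArg Fin.val h
    · intro h
      exact Fin.ext h
  rw [h1, gapi_count]
  have h2 : n = 6 * (n / 6) + n % 6 := (Nat.div_add_mod n 6).symm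
  have h3 : n % 6 < 6 := Nat.mod_lt _ (by norm_num)
  have h4 : (n : ℝ) = 6 * ((n / 6 : ℕ) : ℝ) + ((n % 6 : ℕ) : ℝ) := by exact_mod_cast h2
  have h5 : ((n % 6 : ℕ) : ℝ) ≤ 5 := by
    have : n % 6 ≤ 5 := by omega
    exact_mod_cast this
  have h6 : (0 : ℝ) ≤ ((n % 6 : ℕ) : ℝ) := Nat.cast_nonneg _
  push_cast
  rw [abs_le]
  split_ifs
  · constructor <;> push_cast <;> linarith
  · constructor <;> push_cast <;> linarith

theorem gapi_mod_near (n : ℕ) (hn : 100 ≤ n) : Near (1 / 100) (gapiMod n) := by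
  intro i
  rw [Fintype.card_fin]
  have h1 := gapi_mod_psz n i
  have h2 : (100 : ℝ) ≤ n := by exact_mod_cast hn
  linarith

theorem exists_gG (n : ℕ) (hn : 100 ≤ n) :
    ∃ π : Fin n → Fin 6, Near (1 / 100) π ∧ fF π = gG n := by
  have h1 : Set.Nonempty {r : ℝ | ∃ π : Fin n → Fin 6, Near (1 / 100) π ∧ fF π = r} :=
    ⟨fF (gapiMod n), gapiMod n, gapi_mod_near n hn, rfl⟩
  exact h1.csSup_mem (gapi_finite n)

theorem gapi_fF_nonneg {V : Type} [Fintype V] (π : V → Fin 6) : 0 ≤ fF π := by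
  unfold fF
  exact add_nonneg (c3_nonneg _) (sum_nonneg fun i _ => exo_nonneg _)

theorem gG_nonneg (n : ℕ) : 0 ≤ gG n := by
  unfold gG
  refine Real.sSup_nonneg ?_
  rintro r ⟨π, _, rfl⟩
  exact gapi_fF_nonneg π

theorem gG_le_exo (n : ℕ) : gG n ≤ exo n := by
  unfold gG
  refine Real.sSup_le ?_ (exo_nonneg n)
  rintro r ⟨π, _, rfl⟩
  have h := blow π
  rwa [Fintype.card_fin] at h

end K4M
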