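import Pool.Agent.Lib.MP_4c59c5_co.ConvC
import Pool.Agent.Lib.MP_4c59c5_co.ConvD
import Pool.Agent.Lib.MP_4c59c5_co.GApi

/-!
# ConvE (50 min)
`fF_Fval`: `fF π = c3 (Pat π) + sum exo (nc ..) = pat6 (psz π) + 6 sum ex3 (card of part)`
(`pat_count`, `ex3_exo`; nc (π = i) = (part π i).card by definition, psz π i is its cast by `nc_eq`) and
`pat6_H6`.
`g3_gG`: the sets in `g3 n` and `gG n` correspond: for `m` with sum n there is `π : Fin n → Fin 6` with
`(part π i).card = m i` for all i (equivalence `Fin n ≃ Σ i : Fin 6, Fin (m i)` from equality of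
cardinals, `finSigmaFinEquiv` or `Fintype.equivOfCardEq`); `Near (1/100) π` is `Bal n (sizes)` because
`(1/100) * n = n/100` and `sum (part π i).card = n`. Both sets are finite; if they are empty both
suprema are 0; otherwise both are attained. The map `r ↦ 6 r` carries the first set onto the second.
-/

set_option linter.unusedVariables false
set_option linter.unusedSectionVars false

namespace K4M

open Finset
open scoped Classical

theorem conve_nc {V : Type} [Fintype V] (π : V → Fin 6) (i : Fin 6) :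
    nc (fun v => π v = i) = (part π i).card := by
  unfold nc part
  congr 1
  ext v
  simp

theorem conve_psz {V : Type} [Fintype V] (π : V → Fin 6) (i : Fin 6) :
    psz π i = ((part π i).card : ℝ) := by
  unfold psz
  rw [← nc_eq, conve_nc]

theorem fF_Fval {V : Type} [Fintype V] (π : V → Fin 6) :
    fF π = 6 * (Fval (fun i => (part π i).card) : ℝ) := by
  unfold fF Fval
  rw [pat_count, pat6_H6]
  have e1 : ∑ i, exo (nc (fun v => π v = i)) = 6 * ∑ i, (ex3 ((part π i).card) : ℝ) := by
    rw [mul_sum]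
    refine sum_congr rfl fun i _ => ?_
    rw [conve_nc, ex3_exo]
  have e2 : ∑ b ∈ H6, ∏ i ∈ b, psz π i = ∑ b ∈ H6, ∏ i ∈ b, ((part π i).card : ℝ) := by
    refine sum_congr rfl fun b _ => prod_congr rfl fun i _ => conve_psz π i
  rw [e1, e2]
  push_cast
  ring

theorem conve_exists {n : ℕ} (m : Fin 6 → ℕ) (h : ∑ i, m i = n) :
    ∃ π : Fin n → Fin 6, ∀ i, (part π i).card = m i := by
  have hc : Fintype.card (Fin n) = Fintype.card (Σ i : Fin 6, Fin (m i)) := by
    rw [Fintype.card_sigma, Fintype.card_fin]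
    simp only [Fintype.card_fin]
    exact h.symm
  obtain ⟨e⟩ : Nonempty (Fin n ≃ Σ i : Fin 6, Fin (m i)) := Fintype.card_eq.1 hc
  refine ⟨fun v => (e v).1, fun i => ?_⟩
  have e1 : part (fun v => (e v).1) i = univ.image (fun x : Fin (m i) => e.symm ⟨i, x⟩) := by
    ext v
    unfold part
    simp only [mem_filter, mem_univ, true_and, mem_image]
    constructor
    · intro hv
      subst hv
      exact ⟨(e v).2, by rw [Sigma.eta, Equiv.symm_apply_apply]⟩
    · rintro ⟨x, rfl⟩
      rw [Equiv.apply_symm_apply]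
  rw [e1, card_image_of_injective, card_univ, Fintype.card_fin]
  intro x y hxy
  have h1 := e.symm.injective hxy
  simpa using h1

theorem conve_bal {n : ℕ} (π : Fin n → Fin 6) :
    Bal n (fun i => (part π i).card) ↔ Near (1 / 100) π := by
  unfold Bal Near
  have h1 : ∑ i, (part π i).card = n := by
    have h2 := sum_psz π
    rw [Fintype.card_fin] at h2
    have h3 : ((∑ i, (part π i).card : ℕ) : ℝ) = (n : ℝ) := by
      rw [← h2]
      push_cast
      exact sum_congr rfl fun i _ => (conve_psz π i).symm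
    exact_mod_cast h3
  rw [Fintype.card_fin]
  constructor
  · rintro ⟨_, h⟩ i
    rw [conve_psz]
    have := h i
    have e : (1 / 100 : ℝ) * (n : ℝ) = (n : ℝ) / 100 := by ring
    rw [e]
    exact this
  · intro h
    refine ⟨h1, fun i => ?_⟩
    have := h i
    rw [conve_psz] at this
    have e : (1 / 100 : ℝ) * (n : ℝ) = (n : ℝ) / 100 := by ring
    rw [e] at this
    exact this

theorem g3_gG (n : ℕ) : 6 * (g3 n : ℝ) = gG n := by
  set A : Set ℕ := {r : ℕ | ∃ m : Fin 6 → ℕ, Bal n m ∧ Fval m = r} with hA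
  set B : Set ℝ := {r : ℝ | ∃ π : Fin n → Fin 6, Near (1 / 100) π ∧ fF π = r} with hB
  have hAB : ∀ r : ℕ, r ∈ A → 6 * (r : ℝ) ∈ B := by
    rintro r ⟨m, hm, rfl⟩
    obtain ⟨π, hπ⟩ := conve_exists m hm.1
    have e : (fun i => (part π i).card) = m := funext hπ
    refine ⟨π, ?_, ?_⟩
    · rw [← conve_bal, e]
      exact hm
    · rw [fF_Fval, e]
  have hBA : ∀ s : ℝ, s ∈ B → ∃ r : ℕ, r ∈ A ∧ s = 6 * (r : ℝ) := by
    rintro s ⟨π, hπ, rfl⟩
    exact ⟨_, ⟨fun i => (part π i).card, (conve_bal π).2 hπ, rfl⟩, fF_Fval π⟩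
  have hBf : B.Finite := by
    refine (Set.finite_range fun π : Fin n → Fin 6 => fF π).subset ?_
    rintro s ⟨π, _, rfl⟩
    exact ⟨π, rfl⟩
  show 6 * ((sSup A : ℕ) : ℝ) = sSup B
  rcases A.eq_empty_or_nonempty with h0 | h0
  · have h1 : B = ∅ := by
      rw [Set.eq_empty_iff_forall_notMem]
      intro s hs
      obtain ⟨r, hr, _⟩ := hBA s hs
      rw [h0] at hr
      exact hr
    rw [h0, h1, Real.sSup_empty, csSup_empty]
    simp
  · have hbdd : BddAbove A := by
      obtain ⟨M, hM⟩ := hBf.bddAbove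
      refine ⟨⌈M⌉₊, fun r hr => ?_⟩
      have h1 := hM (hAB r hr)
      have h2 : (r : ℝ) ≤ M := by
        have : (0 : ℝ) ≤ (r : ℝ) := Nat.cast_nonneg r
        linarith
      exact_mod_cast h2.trans (Nat.le_ceil M)
    have hmem : sSup A ∈ A := Nat.sSup_mem h0 hbdd
    have hgr : IsGreatest B (6 * ((sSup A : ℕ) : ℝ)) := by
      refine ⟨hAB _ hmem, ?_⟩
      intro s hs
      obtain ⟨r, hr, rfl⟩ := hBA s hs
      have h1 : r ≤ sSup A := le_csSup hbdd hr
      have h2 : (r : ℝ) ≤ ((sSup A : ℕ) : ℝ) := by exact_mod_cast h1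
      linarith
    exact hgr.csSup_eq.symm

end K4M
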