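import Pool.Agent.Lib.MP_4c59c5_co.DXb

/-!
# DXd (50 min)
Let S = sum of hh^2. For a missing ordered triple (x,y,z) (i.e. `Mis T π x y z`):
`ind (Fl x y) + ind (Fl x z) + ind (Fl y z) <= 1 + 2 (ind (Hv x y ∧ Hv x z) + ind (Hv y x ∧ Hv y z)
+ ind (Hv z x ∧ Hv z y))` (Fl implies Hv; two of the three pairs share a vertex; Hv symmetric). Sum
over all missing triples: the left side is `3 * sum_{x,y} ind (Fl x y) * mis2 x y` by the symmetry
of Mis (`Mis_s12`, `Mis_s23`), the right side at most `c3 Mis + 2 * 3 * sum_x (hh x)^2`. So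
`3 F <= c3 Mis + 6 S <= c3 Mis (1 + 6/1000)` where `F = sum_{x,y} ind (Fl x y) mis2 x y`.
-/

set_option linter.unusedVariables false
set_option linter.unusedSectionVars false

namespace K4M

open Finset
open scoped Classical

section dxdaux
variable {V : Type} [Fintype V]

theorem dxd_s12 (f : V → V → V → ℝ) : ∑ x, ∑ y, ∑ z, f y x z = ∑ x, ∑ y, ∑ z, f x y z :=
  sum_comm
theorem dxd_s23 (f : V → V → V → ℝ) : ∑ x, ∑ y, ∑ z, f x z y = ∑ x, ∑ y, ∑ z, f x y z :=
  sum_congr rfl fun x _ => sum_comm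
theorem dxd_rot (f : V → V → V → ℝ) : ∑ x, ∑ y, ∑ z, f z x y = ∑ x, ∑ y, ∑ z, f x y z := by
  rw [← dxd_s12 f, ← dxd_s23 (fun x y z => f y x z)]
theorem dxd_rot' (f : V → V → V → ℝ) : ∑ x, ∑ y, ∑ z, f y z x = ∑ x, ∑ y, ∑ z, f x y z := by
  rw [← dxd_s23 f, ← dxd_s12 (fun x y z => f x z y)]

theorem dxd_sumH (T : V → V → V → Prop) (π : V → Fin 6) :
    ∑ x, ∑ y, ∑ z, ind (Hv T π x y ∧ Hv T π x z) = ∑ x, (hh T π x) ^ 2 := by
  refine sum_congr rfl fun x _ => ?_
  unfold hh c1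
  rw [pow_two, sum_mul_sum]
  exact sum_congr rfl fun y _ => sum_congr rfl fun z _ => ind_and _ _

theorem dxd_sumF (T : V → V → V → Prop) (π : V → Fin 6) :
    ∑ x, ∑ y, ∑ z, ind (Mis T π x y z) * ind (Fl T π x y) =
      ∑ x, ∑ y, ind (Fl T π x y) * mis2 T π x y := by
  refine sum_congr rfl fun x _ => sum_congr rfl fun y _ => ?_
  unfold mis2 c1
  rw [← sum_mul, mul_comm]

theorem dxd_FH (T : V → V → V → Prop) (π : V → Fin 6) (x y : V) (h : Fl T π x y) :
    Hv T π x y := by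
  unfold Fl at h
  unfold Hv
  have : (0 : ℝ) ≤ (Fintype.card V : ℝ) := Nat.cast_nonneg _
  linarith

theorem dxd_pt {T : V → V → V → Prop} (h : IsG T) (π : V → Fin 6) (x y z : V) :
    ind (Mis T π x y z) * ind (Fl T π x y) + ind (Mis T π x y z) * ind (Fl T π x z)
      + ind (Mis T π x y z) * ind (Fl T π y z) ≤
    ind (Mis T π x y z) + 2 * (ind (Hv T π x y ∧ Hv T π x z) + ind (Hv T π y x ∧ Hv T π y z)
      + ind (Hv T π z x ∧ Hv T π z y)) := by
  have n1 := ind_nonneg (Hv T π x y ∧ Hv T π x z)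
  have n2 := ind_nonneg (Hv T π y x ∧ Hv T π y z)
  have n3 := ind_nonneg (Hv T π z x ∧ Hv T π z y)
  have hs : ∀ a b, Hv T π a b → Hv T π b a := by
    intro a b hab
    unfold Hv at hab ⊢
    rw [mis2_symm h]
    exact hab
  by_cases hm : Mis T π x y z
  · rw [ind_of hm]
    by_cases f1 : Fl T π x y
    · by_cases f2 : Fl T π x z
      · have e1 := ind_of (p := Hv T π x y ∧ Hv T π x z) ⟨dxd_FH T π _ _ f1, dxd_FH T π _ _ f2⟩
        have := ind_le_one (Fl T π y z)
        rw [ind_of f1, ind_of f2, e1]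
        linarith
      · by_cases f3 : Fl T π y z
        · have e1 := ind_of (p := Hv T π y x ∧ Hv T π y z)
            ⟨hs _ _ (dxd_FH T π _ _ f1), dxd_FH T π _ _ f3⟩
          rw [ind_of f1, ind_of_not f2, ind_of f3, e1]
          linarith
        · rw [ind_of f1, ind_of_not f2, ind_of_not f3]
          linarith
    · by_cases f2 : Fl T π x z
      · by_cases f3 : Fl T π y z
        · have e1 := ind_of (p := Hv T π z x ∧ Hv T π z y)
            ⟨hs _ _ (dxd_FH T π _ _ f2), hs _ _ (dxd_FH T π _ _ f3)⟩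
          rw [ind_of_not f1, ind_of f2, ind_of f3, e1]
          linarith
        · rw [ind_of_not f1, ind_of f2, ind_of_not f3]
          linarith
      · have := ind_le_one (Fl T π y z)
        rw [ind_of_not f1, ind_of_not f2]
        linarith
  · rw [ind_of_not hm]
    linarith

end dxdaux

theorem full_le {V : Type} [Fintype V] {T : V → V → V → Prop} (h : IsG T) (π : V → Fin 6)
    (hn : 0 < Fintype.card V)
    (hm : ∀ v, mis1 T π v ≤ 1 / 10 ^ 7 * (Fintype.card V : ℝ) ^ 2) :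
    3 * ∑ x, ∑ y, ind (Fl T π x y) * mis2 T π x y ≤ (1 + 6 / 1000) * c3 (Mis T π) := by
  set g : V → V → V → ℝ := fun x y z => ind (Mis T π x y z) * ind (Fl T π x y) with hg
  set H : V → V → V → ℝ := fun x y z => ind (Hv T π x y ∧ Hv T π x z) with hH
  have key : ∀ x y z, g x y z + g x z y + g y z x ≤
      ind (Mis T π x y z) + 2 * (H x y z + H y x z + H z x y) := by
    intro x y z
    have e1 : ind (Mis T π x z y) = ind (Mis T π x y z) := ind_congr (Mis_s23 h π x z y)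
    have e2 : ind (Mis T π y z x) = ind (Mis T π x y z) :=
      (ind_congr (Mis_s23 h π y z x)).trans (ind_congr (Mis_s12 h π y x z))
    have := dxd_pt h π x y z
    simp only [hg, hH, e1, e2]
    exact this
  have hsum : ∑ x, ∑ y, ∑ z, (g x y z + g x z y + g y z x) ≤
      ∑ x, ∑ y, ∑ z, (ind (Mis T π x y z) + 2 * (H x y z + H y x z + H z x y)) :=
    sum_le_sum fun x _ => sum_le_sum fun y _ => sum_le_sum fun z _ => key x y z
  simp only [sum_add_distrib, ← mul_sum] at hsum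
  rw [dxd_s23 g, dxd_rot' g, dxd_s12 H, dxd_rot H] at hsum
  have eH : ∑ x, ∑ y, ∑ z, H x y z = ∑ x, (hh T π x) ^ 2 := dxd_sumH T π
  have eG : ∑ x, ∑ y, ∑ z, g x y z = ∑ x, ∑ y, ind (Fl T π x y) * mis2 T π x y := dxd_sumF T π
  have eM : ∑ x, ∑ y, ∑ z, ind (Mis T π x y z) = c3 (Mis T π) := rfl
  rw [eH, eG, eM] at hsum
  have a2 := hh_sq T π hn hm
  linarith

end K4M
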