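import Pool.Agent.Lib.MP_4c59c5_co.DXc
import Pool.Agent.Lib.MP_4c59c5_co.DXd

/-!
# DX (45 min)
If n = 0 everything is 0. By `bad_class` and the union bound for indicators
`c3 (Bad T π) <= 3 sum_x (hh x)^2 + 6 sum_{x,y} ind (Fl x y) * zz x y`
(each of the last six alternatives, with T of the triple, is a sum of the form
`sum_{p,q} ind (Fl p q) * c1 (fun r => π r = π p ∧ T p r q)`). By `zz_le` and `Fl`:
`ind (Fl x y) zz x y <= ind (Fl x y) * 0.9 (1/6 + 5/10^7) n
   <= ind (Fl x y) mis2 x y * (0.15 + 45/10^8)/0.323 <= 0.46440 * ind (Fl x y) * mis2 x y`.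
So `c3 Bad <= (3/1000) c3 Mis + 6 * 0.4644 * (1.006/3) c3 Mis <= 0.9375 c3 Mis <= (19/20) c3 Mis`
(`hh_sq`, `full_le`).
-/

set_option linter.unusedVariables false
set_option linter.unusedSectionVars false

namespace K4M

open Finset
open scoped Classical

section dxaux
variable {V : Type} [Fintype V]

theorem dx_sumH (T : V → V → V → Prop) (π : V → Fin 6) :
    ∑ x, ∑ y, ∑ z, ind (Hv T π x y ∧ Hv T π x z) = ∑ x, (hh T π x) ^ 2 := by
  refine sum_congr rfl fun x _ => ?_
  unfold hh c1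
  rw [pow_two, sum_mul_sum]
  exact sum_congr rfl fun y _ => sum_congr rfl fun z _ => ind_and _ _

theorem dx_sumG (T : V → V → V → Prop) (π : V → Fin 6) :
    ∑ x, ∑ y, ∑ z, ind (Fl T π x y ∧ (π z = π x ∧ T x z y)) =
      ∑ x, ∑ y, ind (Fl T π x y) * zz T π x y := by
  refine sum_congr rfl fun x _ => sum_congr rfl fun y _ => ?_
  unfold zz c1
  rw [mul_sum]
  exact sum_congr rfl fun z _ => ind_and _ _

theorem dx_s12 (f : V → V → V → ℝ) : ∑ x, ∑ y, ∑ z, f y x z = ∑ x, ∑ y, ∑ z, f x y z :=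
  sum_comm
theorem dx_s23 (f : V → V → V → ℝ) : ∑ x, ∑ y, ∑ z, f x z y = ∑ x, ∑ y, ∑ z, f x y z :=
  sum_congr rfl fun x _ => sum_comm
theorem dx_rot (f : V → V → V → ℝ) : ∑ x, ∑ y, ∑ z, f z x y = ∑ x, ∑ y, ∑ z, f x y z := by
  rw [← dx_s12 f, ← dx_s23 (fun x y z => f y x z)]
theorem dx_rot' (f : V → V → V → ℝ) : ∑ x, ∑ y, ∑ z, f y z x = ∑ x, ∑ y, ∑ z, f x y z := by
  rw [← dx_s23 f, ← dx_s12 (fun x y z => f x z y)]
theorem dx_s13 (f : V → V → V → ℝ) : ∑ x, ∑ y, ∑ z, f z y x = ∑ x, ∑ y, ∑ z, f x y z := by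
  rw [← dx_rot f, ← dx_s12 (fun x y z => f z x y)]

theorem dx_union {T : V → V → V → Prop} (h : IsG T) (π : V → Fin 6)
    (hsz : ∀ i, (1 / 6 - 1 / 10 ^ 7) * (Fintype.card V : ℝ) ≤ psz π i) :
    c3 (Bad T π) ≤ 3 * ∑ x, (hh T π x) ^ 2 + 6 * ∑ x, ∑ y, ind (Fl T π x y) * zz T π x y := by
  set H : V → V → V → ℝ := fun x y z => ind (Hv T π x y ∧ Hv T π x z) with hH
  set G : V → V → V → ℝ := fun x y z => ind (Fl T π x y ∧ (π z = π x ∧ T x z y)) with hG
  have Hn : ∀ x y z, 0 ≤ H x y z := fun x y z => ind_nonneg _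
  have Gn : ∀ x y z, 0 ≤ G x y z := fun x y z => ind_nonneg _
  have key : ∀ x y z, ind (Bad T π x y z) ≤
      H x y z + H y x z + H z x y + G x y z + G y x z + G x z y + G z x y + G y z x + G z y x := by
    intro x y z
    by_cases hb : Bad T π x y z
    · rw [ind_of hb]
      have hT : T x y z := hb.1
      have h1 := Hn x y z
      have h2 := Hn y x z
      have h3 := Hn z x y
      have g1 := Gn x y z
      have g2 := Gn y x z
      have g3 := Gn x z y
      have g4 := Gn z x y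
      have g5 := Gn y z x
      have g6 := Gn z y x
      have t132 : T x z y := h.s23 _ _ _ hT
      have t213 : T y x z := h.s12 _ _ _ hT
      have t231 : T y z x := h.s23 _ _ _ t213
      have t312 : T z x y := h.s12 _ _ _ t132
      have t321 : T z y x := h.s23 _ _ _ t312
      rcases bad_class h π hsz x y z hb with k | k | k | k | k | k | k | k | k
      · have e : H x y z = 1 := ind_of k
        linarith
      · have e : H y x z = 1 := ind_of k
        linarith
      · have e : H z x y = 1 := ind_of k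
        linarith
      · have e : G x y z = 1 := ind_of ⟨k.1, k.2, t132⟩
        linarith
      · have e : G y x z = 1 := ind_of ⟨k.1, k.2, t231⟩
        linarith
      · have e : G x z y = 1 := ind_of ⟨k.1, k.2, hT⟩
        linarith
      · have e : G z x y = 1 := ind_of ⟨k.1, k.2, t321⟩
        linarith
      · have e : G y z x = 1 := ind_of ⟨k.1, k.2, t213⟩
        linarith
      · have e : G z y x = 1 := ind_of ⟨k.1, k.2, t312⟩
        linarith
    · rw [ind_of_not hb]
      have h1 := Hn x y z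
      have h2 := Hn y x z
      have h3 := Hn z x y
      have g1 := Gn x y z
      have g2 := Gn y x z
      have g3 := Gn x z y
      have g4 := Gn z x y
      have g5 := Gn y z x
      have g6 := Gn z y x
      linarith
  have hsum : c3 (Bad T π) ≤ ∑ x, ∑ y, ∑ z,
      (H x y z + H y x z + H z x y + G x y z + G y x z + G x z y + G z x y + G y z x + G z y x) := by
    unfold c3
    exact sum_le_sum fun x _ => sum_le_sum fun y _ => sum_le_sum fun z _ => key x y z
  simp only [sum_add_distrib] at hsum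
  rw [dx_s12 H, dx_rot H, dx_s12 G, dx_s23 G, dx_rot G, dx_rot' G, dx_s13 G] at hsum
  have eH : ∑ x, ∑ y, ∑ z, H x y z = ∑ x, (hh T π x) ^ 2 := dx_sumH T π
  have eG : ∑ x, ∑ y, ∑ z, G x y z = ∑ x, ∑ y, ind (Fl T π x y) * zz T π x y := dx_sumG T π
  rw [eH, eG] at hsum
  linarith

end dxaux

theorem dx {V : Type} [Fintype V] {T : V → V → V → Prop} (h : IsG T) (π : V → Fin 6)
    (hsz : ∀ i, (1 / 6 - 1 / 10 ^ 7) * (Fintype.card V : ℝ) ≤ psz π i)
    (hm : ∀ v, mis1 T π v ≤ 1 / 10 ^ 7 * (Fintype.card V : ℝ) ^ 2)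
    (hd : ∀ v, (2 / 7 - 1 / 10 ^ 7) * (Fintype.card V : ℝ) ^ 2 ≤ c2 (T v)) :
    20 * c3 (Bad T π) ≤ 19 * c3 (Mis T π) := by
  rcases Nat.eq_zero_or_pos (Fintype.card V) with h0 | h0
  · have : IsEmpty V := Fintype.card_eq_zero_iff.mp h0
    unfold c3
    simp
  have hn : (0 : ℝ) < (Fintype.card V : ℝ) := by exact_mod_cast h0
  have hM : 0 ≤ c3 (Mis T π) := c3_nonneg _
  have a1 := dx_union h π hsz
  have a2 := hh_sq T π h0 hm
  have a3 := full_le h π h0 hm
  have a4 : ∑ x, ∑ y, ind (Fl T π x y) * zz T π x y ≤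
      4644 / 10000 * ∑ x, ∑ y, ind (Fl T π x y) * mis2 T π x y := by
    rw [mul_sum]
    refine sum_le_sum fun x _ => ?_
    rw [mul_sum]
    refine sum_le_sum fun y _ => ?_
    by_cases hf : Fl T π x y
    · rw [ind_of hf, one_mul, one_mul]
      have b1 := zz_le h π h0 hsz hm hd x y
      have b2 : (323 / 1000) * (Fintype.card V : ℝ) ≤ mis2 T π x y := hf
      have b3 : (9 / 10) * ((1 / 6 + 5 / 10 ^ 7) * (Fintype.card V : ℝ)) ≤
          4644 / 10000 * ((323 / 1000) * (Fintype.card V : ℝ)) := by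
        norm_num
        linarith
      linarith
    · rw [ind_of_not hf]
      simp
  linarith

end K4M
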