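import Pool.Agent.Lib.MP_4c59c5_co.Lim
import Pool.Agent.Lib.MP_4c59c5_co.Blow

/-!
# PLow (40 min)
Take `V = Fin 6 × Fin m` and `π = Prod.fst`. Every part has `m` elements, `c3 (Pat π) = 60 m^3`
(60 ordered triples of `Fin 6` with `Q = true`, by `decide`). `blow` gives
`60 m^3 + 6 exo m <= exo (6 m)`. With `pi_upper` (for `exo (6m)`) and `pi_lower` (for `exo m`):
`60 m^3 + 6 Pi0 m (m-1) (m-2) <= (Pi0 + δ) 216 m^3` for all large `m`; divide by `m^3`, let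
`m -> oo` and `δ -> 0`: `60 + 6 Pi0 <= 216 Pi0`, that is `Pi0 >= 2/7`.
-/

set_option linter.unusedVariables false
set_option linter.unusedSectionVars false

namespace K4M

open Finset
open scoped Classical

theorem plow_sixty : (∑ i : Fin 6, ∑ j : Fin 6, ∑ k : Fin 6, bn (Q i j k)) = 60 := by
  decide +kernel

theorem plow_bn (b : Bool) : ((bn b : ℕ) : ℝ) = ind (b = true) := by
  cases b <;> simp [bn, ind]

theorem plow_sum {m : ℕ} (f : Fin 6 → ℝ) :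
    ∑ x : Fin 6 × Fin m, f x.1 = (m : ℝ) * ∑ i, f i := by
  rw [Fintype.sum_prod_type, Finset.mul_sum]
  refine sum_congr rfl fun i _ => ?_
  simp

theorem plow_pat (m : ℕ) : c3 (Pat (Prod.fst : Fin 6 × Fin m → Fin 6)) = 60 * (m : ℝ) ^ 3 := by
  have h1 : c3 (Pat (Prod.fst : Fin 6 × Fin m → Fin 6))
      = ∑ x : Fin 6 × Fin m, ∑ y : Fin 6 × Fin m, ∑ z : Fin 6 × Fin m,
          ind (Q x.1 y.1 z.1 = true) := rfl
  have h2 : ∀ x y : Fin 6 × Fin m, ∑ z : Fin 6 × Fin m, ind (Q x.1 y.1 z.1 = true)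
      = (m : ℝ) * ∑ k, ind (Q x.1 y.1 k = true) := fun x y =>
    plow_sum (fun k => ind (Q x.1 y.1 k = true))
  have h3 : ∀ x : Fin 6 × Fin m, ∑ y : Fin 6 × Fin m, (m : ℝ) * ∑ k, ind (Q x.1 y.1 k = true)
      = (m : ℝ) * ∑ j, (m : ℝ) * ∑ k, ind (Q x.1 j k = true) := fun x =>
    plow_sum (fun j => (m : ℝ) * ∑ k, ind (Q x.1 j k = true))
  have h4 : ∑ x : Fin 6 × Fin m, (m : ℝ) * ∑ j, (m : ℝ) * ∑ k, ind (Q x.1 j k = true)
      = (m : ℝ) * ∑ i, (m : ℝ) * ∑ j, (m : ℝ) * ∑ k, ind (Q i j k = true) :=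
    plow_sum (fun i => (m : ℝ) * ∑ j, (m : ℝ) * ∑ k, ind (Q i j k = true))
  have h5 : (∑ i : Fin 6, ∑ j : Fin 6, ∑ k : Fin 6, ind (Q i j k = true)) = 60 := by
    have := congrArg (fun n : ℕ => (n : ℝ)) plow_sixty
    push_cast at this
    rw [← this]
    refine sum_congr rfl fun i _ => sum_congr rfl fun j _ => sum_congr rfl fun k _ => ?_
    exact (plow_bn _).symm
  rw [h1]
  simp only [h2, h3, h4]
  simp only [← Finset.mul_sum]
  rw [h5]
  ring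

theorem plow_nc (m : ℕ) (i : Fin 6) :
    nc (fun v : Fin 6 × Fin m => (Prod.fst v : Fin 6) = i) = m := by
  have h : (nc (fun v : Fin 6 × Fin m => (Prod.fst v : Fin 6) = i) : ℝ) = (m : ℝ) := by
    rw [nc_eq]
    have h2 : c1 (fun v : Fin 6 × Fin m => (Prod.fst v : Fin 6) = i)
        = (m : ℝ) * ∑ j : Fin 6, ind (j = i) := plow_sum (fun j => ind (j = i))
    rw [h2]
    have h3 : ∑ j : Fin 6, ind (j = i) = 1 := by
      rw [Finset.sum_eq_single i]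
      · exact ind_of rfl
      · intro b _ hb
        exact ind_of_not hb
      · intro h
        exact absurd (mem_univ _) h
    rw [h3, mul_one]
  exact_mod_cast h

theorem plow_blow (m : ℕ) : 60 * (m : ℝ) ^ 3 + 6 * exo m ≤ exo (6 * m) := by
  have h := blow (V := Fin 6 × Fin m) (Prod.fst : Fin 6 × Fin m → Fin 6)
  have h2 : Fintype.card (Fin 6 × Fin m) = 6 * m := by simp
  rw [h2] at h
  have h3 : fF (Prod.fst : Fin 6 × Fin m → Fin 6) = 60 * (m : ℝ) ^ 3 + 6 * exo m := by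
    unfold fF
    rw [plow_pat]
    have h4 : ∀ i : Fin 6, exo (nc (fun v : Fin 6 × Fin m => (Prod.fst v : Fin 6) = i)) = exo m :=
      fun i => by rw [plow_nc]
    simp only [h4]
    simp
  rw [← h3]
  exact h

theorem pi_ge : 2 / 7 ≤ Pi0 := by
  by_contra hcon
  have hcon' : Pi0 < 2 / 7 := not_le.1 hcon
  have hp0 := pi_nonneg
  obtain ⟨ε, hε⟩ : ∃ ε : ℝ, ε = 60 - 210 * Pi0 := ⟨_, rfl⟩
  have hε0 : 0 < ε := by rw [hε]; linarith
  obtain ⟨N, hN⟩ := pi_upper (ε / 1000) (by positivity)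
  obtain ⟨M, hM⟩ := exists_nat_gt (100 / ε)
  obtain ⟨m, hm⟩ : ∃ m : ℕ, m = N + M + 1 := ⟨_, rfl⟩
  have hmN : N ≤ 6 * m := by omega
  have h1 := hN (6 * m) hmN
  have h2 := plow_blow m
  have h3 := pi_lower m
  have hm1 : (1 : ℝ) ≤ m := by
    have : 1 ≤ m := by omega
    exact_mod_cast this
  have hmM : (M : ℝ) ≤ m := by
    have : M ≤ m := by omega
    exact_mod_cast this
  have h4 : 100 < ε * m := by
    have : 100 / ε < m := lt_of_lt_of_le hM hmM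
    rw [div_lt_iff₀ hε0] at this
    linarith
  have h5 : ((6 * m : ℕ) : ℝ) ^ 3 = 216 * (m : ℝ) ^ 3 := by
    push_cast
    ring
  rw [h5] at h1
  have h6 : 60 * (m : ℝ) ^ 3 + 6 * (Pi0 * ((m : ℝ) * (m - 1) * (m - 2)))
      ≤ (Pi0 + ε / 1000) * (216 * (m : ℝ) ^ 3) := by linarith
  -- 60 m^3 + 6 Pi0 (m^3 - 3 m^2 + 2 m) ≤ 216 (Pi0 + ε/1000) m^3
  have h7 : (60 - 210 * Pi0 - 216 * ε / 1000) * (m : ℝ) ^ 3 ≤ 18 * Pi0 * (m : ℝ) ^ 2 := by
    have h8 : 0 ≤ 12 * Pi0 * m := by positivity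
    nlinarith
  rw [← hε] at h7
  have h9 : (ε - 216 * ε / 1000) * (m : ℝ) ≤ 18 * Pi0 := by
    have hm2 : (0 : ℝ) < (m : ℝ) ^ 2 := by positivity
    have h10 : ((ε - 216 * ε / 1000) * (m : ℝ)) * (m : ℝ) ^ 2 ≤ 18 * Pi0 * (m : ℝ) ^ 2 := by
      calc ((ε - 216 * ε / 1000) * (m : ℝ)) * (m : ℝ) ^ 2
          = (ε - 216 * ε / 1000) * (m : ℝ) ^ 3 := by ring
        _ ≤ _ := h7
    exact le_of_mul_le_mul_right h10 hm2
  nlinarith

end K4M
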