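import Pool.Agent.Lib.MP_4c59c5_co.ExApi
import Pool.Agent.Lib.MP_4c59c5_co.PatCount

/-!
# Split (35 min)
`split`: pointwise `ind (T x y z) = ind (Pat) - ind (Mis) + ind (Bad) + sum_i ind (res (π = i) T x y z)`:
if Q is true: T or not T, Bad and the inner ones are 0 (`Q i i i = false`); if Q is false: Bad or all
three in one part (exactly one i) or not T.
`inn_near`: from `split`, `exo (nc j) >= c3 (res (π = j) T)` for all j ≠ i (`le_exo_res`) and
`fF π - D <= c3 T`.
-/

set_option linter.unusedVariables false
set_option linter.unusedSectionVars false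

namespace K4M

open Finset
open scoped Classical

theorem split_pt {V : Type} [Fintype V] {T : V → V → V → Prop} (h : IsG T) (π : V → Fin 6)
    (x y z : V) :
    ind (T x y z) = ind (Pat π x y z) - ind (Mis T π x y z) + ind (Bad T π x y z)
      + ∑ i, ind (res (fun v => π v = i) T x y z) := by
  by_cases hT : T x y z
  · by_cases hE : π x = π y ∧ π y = π z
    · have hQ : Q (π x) (π y) (π z) = false := by
        rw [hE.1, hE.2]; exact Q_irr _ _
      have hs : ∑ i, ind (res (fun v => π v = i) T x y z) = 1 := by
        rw [Finset.sum_eq_single (π x)]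
        · exact ind_of ⟨rfl, hE.1.symm, (hE.1.trans hE.2).symm, hT⟩
        · intro b _ hb
          exact ind_of_not (fun hh => hb hh.1.symm)
        · intro hh; exact absurd (mem_univ _) hh
      rw [hs, ind_of hT, ind_of_not (p := Pat π x y z) (by unfold Pat; rw [hQ]; simp),
        ind_of_not (p := Mis T π x y z) (fun hh => hh.2 hT),
        ind_of_not (p := Bad T π x y z) (fun hh => hh.2.2 hE)]
      ring
    · have hs : ∑ i, ind (res (fun v => π v = i) T x y z) = 0 := by
        apply Finset.sum_eq_zero
        intro i _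
        refine ind_of_not (fun hh => hE ⟨?_, ?_⟩)
        · exact hh.1.trans hh.2.1.symm
        · exact hh.2.1.trans hh.2.2.1.symm
      rw [hs, ind_of hT, ind_of_not (p := Mis T π x y z) (fun hh => hh.2 hT)]
      by_cases hQ : Q (π x) (π y) (π z) = true
      · rw [ind_of (p := Pat π x y z) hQ,
          ind_of_not (p := Bad T π x y z) (fun hh => by have h5 := hh.2.1; rw [hQ] at h5; exact absurd h5 (by simp))]
        ring
      · rw [ind_of_not (p := Pat π x y z) hQ,
          ind_of (p := Bad T π x y z) ⟨hT, by simpa using hQ, hE⟩]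
        ring
  · have hs : ∑ i, ind (res (fun v => π v = i) T x y z) = 0 := by
      apply Finset.sum_eq_zero
      intro i _
      exact ind_of_not (fun hh => hT hh.2.2.2)
    rw [hs, ind_of_not hT, ind_of_not (p := Bad T π x y z) (fun hh => hT hh.1)]
    by_cases hQ : Q (π x) (π y) (π z) = true
    · rw [ind_of (p := Pat π x y z) hQ, ind_of (p := Mis T π x y z) ⟨hQ, hT⟩]
      ring
    · rw [ind_of_not (p := Pat π x y z) hQ, ind_of_not (p := Mis T π x y z) (fun hh => hQ hh.1)]
      ring

theorem split {V : Type} [Fintype V] {T : V → V → V → Prop} (h : IsG T) (π : V → Fin 6) :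
    c3 T = c3 (Pat π) - c3 (Mis T π) + c3 (Bad T π) + ∑ i, c3 (res (fun v => π v = i) T) := by
  have e : ∑ i, c3 (res (fun v => π v = i) T)
      = ∑ x, ∑ y, ∑ z, ∑ i, ind (res (fun v => π v = i) T x y z) := by
    unfold c3
    rw [Finset.sum_comm]
    refine sum_congr rfl fun x _ => ?_
    rw [Finset.sum_comm]
    refine sum_congr rfl fun y _ => ?_
    rw [Finset.sum_comm]
  rw [e]
  unfold c3
  rw [← sum_sub_distrib, ← sum_add_distrib, ← sum_add_distrib]
  refine sum_congr rfl fun x _ => ?_
  rw [← sum_sub_distrib, ← sum_add_distrib, ← sum_add_distrib]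
  refine sum_congr rfl fun y _ => ?_
  rw [← sum_sub_distrib, ← sum_add_distrib, ← sum_add_distrib]
  exact sum_congr rfl fun z _ => split_pt h π x y z

theorem inn_near {V : Type} [Fintype V] {T : V → V → V → Prop} (h : IsG T) (π : V → Fin 6)
    (D : ℝ) (hD : fF π - D ≤ c3 T) (i : Fin 6) :
    exo (nc (fun v => π v = i)) - (D + c3 (Bad T π) - c3 (Mis T π))
      ≤ c3 (res (fun v => π v = i) T) := by
  have h1 := split h π
  have h2 : ∑ j ∈ univ.erase i, c3 (res (fun v => π v = j) T)
      ≤ ∑ j ∈ univ.erase i, exo (nc (fun v => π v = j)) :=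
    sum_le_sum fun j _ => le_exo_res h _
  have h3 := Finset.add_sum_erase univ (fun j => c3 (res (fun v => π v = j) T)) (mem_univ i)
  have h4 := Finset.add_sum_erase univ (fun j => exo (nc (fun v => π v = j))) (mem_univ i)
  unfold fF at hD
  linarith

end K4M
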