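import Pool.Agent.Lib.MP_4c59c5_co.VL
import Pool.Agent.Lib.MP_4c59c5_co.DX
import Pool.Agent.Lib.MP_4c59c5_co.BadCount
import Pool.Agent.Lib.MP_4c59c5_co.Split
import Pool.Agent.Lib.MP_4c59c5_co.CloneIn
import Pool.Agent.Lib.MP_4c59c5_co.PLow
import Pool.Agent.Lib.MP_4c59c5_co.GApi

/-!
# Core: large minimum degree and closeness give a partition with fewer bad than missing triples
-/

set_option linter.unusedVariables false
set_option linter.unusedSectionVars false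

namespace K4M

open Finset
open scoped Classical

/-- real-number part of `core_inner` -/
theorem core_real (P δ1 ε m n e B M : ℝ) (hP0 : 0 ≤ P) (hP : P ≤ 1 / 3) (hδ : 0 < δ1)
    (hε : ε ≤ δ1 / 20000) (hε0 : 0 ≤ ε) (hm : n / 7 ≤ m) (hn : 14 / δ1 ≤ n) (hn0 : 0 < n)
    (he : P * (m * (m - 1) * (m - 2)) ≤ e) (hB : B ≤ 15 * M) (hM : M ≤ ε * n ^ 3) (hM0 : 0 ≤ M) :
    (P - δ1) * m ^ 3 ≤ e - (0 + B - M) := by
  have hm0 : 0 < m := by linarith [div_pos hn0 (by norm_num : (0:ℝ) < 7)]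
  have hm1 : 2 / δ1 ≤ m := by
    have : 14 / δ1 = 7 * (2 / δ1) := by ring
    linarith
  have hm2 : 2 ≤ m * δ1 := by rwa [div_le_iff₀ hδ] at hm1
  have h1 : m ^ 2 ≤ δ1 / 2 * m ^ 3 := by
    have : 0 < m ^ 2 := by positivity
    nlinarith
  have h7 : n ≤ 7 * m := by linarith
  have h2 : n ^ 3 ≤ 343 * m ^ 3 := by
    have : n ^ 3 ≤ (7 * m) ^ 3 := pow_le_pow_left₀ hn0.le h7 3
    calc n ^ 3 ≤ (7 * m) ^ 3 := this
      _ = 343 * m ^ 3 := by ring
  have hm3 : 0 < m ^ 3 := by positivity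
  have h3 : 15 * (ε * n ^ 3) ≤ δ1 / 2 * m ^ 3 := by
    have h4 : ε * n ^ 3 ≤ δ1 / 20000 * (343 * m ^ 3) := by
      apply mul_le_mul hε h2 (by positivity) (by positivity)
    nlinarith
  have h5 : P * m ^ 3 - m ^ 2 ≤ P * (m * (m - 1) * (m - 2)) := by
    have h6 : P * (m * (m - 1) * (m - 2)) = P * m ^ 3 - 3 * P * m ^ 2 + 2 * P * m := by ring
    rw [h6]
    have : 3 * P * m ^ 2 ≤ m ^ 2 := by
      have : 0 < m ^ 2 := by positivity
      nlinarith
    have : 0 ≤ 2 * P * m := by positivity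
    linarith
  nlinarith

theorem core (κ : ℝ) (hκ : 0 < κ) : ∃ ε : ℝ, 0 < ε ∧ ∃ δ : ℝ, 0 < δ ∧ ∃ N : ℕ,
    ∀ (V : Type) [Fintype V] (T : V → V → V → Prop), IsG T → N ≤ Fintype.card V →
      (∀ v, ((10 + Pi0) / 36 - δ) * (Fintype.card V : ℝ) ^ 2 ≤ c2 (T v)) →
      gG (Fintype.card V) ≤ c3 T → ∀ π : V → Fin 6, Near ε π →
      c3 (Mis T π) ≤ ε * (Fintype.card V : ℝ) ^ 3 →
      ∃ ρ : V → Fin 6, Near κ ρ ∧ 20 * c3 (Bad T ρ) ≤ 19 * c3 (Mis T ρ) := by
  obtain ⟨t, ht0, ht1, ht2⟩ : ∃ t : ℝ, 0 < t ∧ t ≤ 1 / 10 ^ 15 ∧ t ≤ κ / 2 :=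
    ⟨min (1 / 10 ^ 15) (κ / 2), lt_min (by positivity) (by positivity), min_le_left _ _,
      min_le_right _ _⟩
  obtain ⟨δ1, hδ1, N1, hcl⟩ := clone_in t ht0
  obtain ⟨ε, hε0, hε1, hε2, hε3⟩ : ∃ ε : ℝ, 0 < ε ∧ ε ≤ t ∧ ε ≤ 2 * t ^ 3 ∧ ε ≤ δ1 / 20000 :=
    ⟨min (min t (2 * t ^ 3)) (δ1 / 20000), lt_min (lt_min ht0 (by positivity)) (by positivity),
      (min_le_left _ _).trans (min_le_left _ _), (min_le_left _ _).trans (min_le_right _ _),
      min_le_right _ _⟩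
  refine ⟨ε, hε0, t, ht0, 7 * N1 + Nat.ceil (14 / δ1) + 1, ?_⟩
  intro V _ T hT hN hdeg hg π hnear hmis
  obtain ⟨n, hn⟩ : ∃ n : ℝ, (Fintype.card V : ℝ) = n := ⟨_, rfl⟩
  have hN' : ((7 * N1 + Nat.ceil (14 / δ1) + 1 : ℕ) : ℝ) ≤ n := by rw [← hn]; exact_mod_cast hN
  push_cast at hN'
  have hceil : 14 / δ1 ≤ (Nat.ceil (14 / δ1) : ℝ) := Nat.le_ceil _
  have hN10 : (0 : ℝ) ≤ (N1 : ℝ) := Nat.cast_nonneg _
  have hc0 : (0 : ℝ) ≤ (Nat.ceil (14 / δ1) : ℝ) := Nat.cast_nonneg _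
  have hn0 : 0 < n := by linarith
  have hn14 : 14 / δ1 ≤ n := by linarith
  have hn7 : 7 * (N1 : ℝ) ≤ n := by linarith
  have hP0 := pi_nonneg
  have hP1 := pi_le_third
  have hP2 := pi_ge
  rw [hn] at hmis hdeg
  have hlow : ∀ i, n / 6 - ε * n ≤ psz π i := by
    intro i
    have := hnear i
    rw [hn, abs_le] at this
    linarith [this.1]
  have hup : ∀ i, psz π i ≤ n / 6 + ε * n := by
    intro i
    have := hnear i
    rw [hn, abs_le] at this
    linarith [this.2]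
  have hεn : ε * n ≤ t * n := by nlinarith
  have htn : t * n ≤ n / 10 ^ 15 := by
    have : t * n ≤ 1 / 10 ^ 15 * n := by nlinarith
    linarith
  have hsz : ∀ i, psz π i ≤ (1 / 6 + t) * n := by
    intro i; have := hup i; nlinarith
  have hmis' : c3 (Mis T π) ≤ 2 * t ^ 3 * n ^ 3 := by
    refine hmis.trans ?_
    exact mul_le_mul_of_nonneg_right hε2 (by positivity)
  have hnear100 : Near (1 / 100) π := by
    intro i
    have h1 := hlow i
    have h2 := hup i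
    rw [hn, abs_le]
    constructor <;> linarith
  have hfF : fF π - 0 ≤ c3 T := by
    have := le_gG π hnear100
    linarith
  have hbad : c3 (Bad T π) ≤ 15 * c3 (Mis T π) := by
    apply bad_count hT π
    intro i
    rw [hn]
    have h1 := hlow i
    linarith
  have hinn : ∀ v i, c2 (fun y z => π y = i ∧ π z = i ∧ T v y z)
      ≤ (Pi0 + t) * ((1 / 6 + t) * n) ^ 2 := by
    intro v i
    have hm7 : n / 7 ≤ c1 (fun v => π v = i) := by
      have h1 := hlow i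
      unfold psz at h1
      linarith
    have h1 := hcl V T hT (fun v => π v = i) (by linarith) (by
      have h2 := inn_near hT π 0 hfF i
      refine le_trans ?_ h2
      apply core_real Pi0 δ1 ε (c1 (fun v => π v = i)) n _ _ _ hP0 hP1 hδ1 hε3 hε0.le hm7 hn14 hn0
        _ hbad hmis (c3_nonneg _)
      have h3 := pi_lower (nc (fun v => π v = i))
      rw [nc_eq] at h3
      exact h3) v
    refine h1.trans ?_
    apply mul_le_mul_of_nonneg_left _ (by linarith)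
    exact pow_le_pow_left₀ (c1_nonneg _) (hsz i) 2
  have hvl := vertex_lemma hT π t Pi0 n hn hn0 ht0 (by linarith [ht1]) hP2 hP1 hsz hmis' hdeg hinn
  obtain ⟨ρ, hρ1, hρ2⟩ := reassign T π t n (10 ^ 7 * t) hn hn0 ht0 (by positivity) hmis' hvl
  have hρs : ∀ i, |psz ρ i - n / 6| ≤ 2 * (t * n) := by
    intro i
    have h1 := hlow i
    have h2 := hup i
    have h3 := hρ2 i
    rw [abs_le] at h3 ⊢
    constructor <;> linarith [h3.1, h3.2]
  refine ⟨ρ, ?_, ?_⟩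
  · intro i
    rw [hn]
    refine (hρs i).trans ?_
    nlinarith
  · apply dx hT ρ
    · intro i
      rw [hn]
      have h1 := hρs i
      rw [abs_le] at h1
      linarith [h1.1]
    · intro v
      rw [hn]
      refine (hρ1 v).trans ?_
      apply mul_le_mul_of_nonneg_right _ (by positivity)
      have h1 : t ^ 2 ≤ t := by nlinarith
      linarith
    · intro v
      rw [hn]
      refine le_trans ?_ (hdeg v)
      apply mul_le_mul_of_nonneg_right _ (by positivity)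
      linarith

end K4M
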