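import Pool.Agent.Lib.MP_4c59c5_co.Basic

/-!
# Expect (40 min)
`ex_prod` is `Finset.prod_univ_sum` (or `Fintype.piFinset`, `Finset.prod_sum`) after
`prod p_i (ω i) * prod g_i (ω i) = prod (p_i (ω i) * g_i (ω i))`.
`ex_pair`: write `w s t = sum_{a,b} w a b [s = a] [t = b]` and apply `ex_prod` with
`g i = [. = a]`, `g j = [. = b]` and the constant 1 elsewhere; the factors with g = 1 are
`sum_s p k s = 1`. Linearity and monotonicity are immediate.
-/

set_option linter.unusedVariables false
set_option linter.unusedSectionVars false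

namespace K4M

open Finset
open scoped Classical

theorem ex_prod (p g : Fin 6 → St → ℝ) :
    Ex p (fun ω => ∏ i, g i (ω i)) = ∏ i, ∑ s, p i s * g i s := by
  unfold Ex
  rw [Finset.prod_univ_sum, Fintype.piFinset_univ]
  exact sum_congr rfl fun ω _ => (prod_mul_distrib).symm

theorem ex_add (p : Fin 6 → St → ℝ) (f g : (Fin 6 → St) → ℝ) :
    Ex p (fun ω => f ω + g ω) = Ex p f + Ex p g := by
  unfold Ex
  rw [← sum_add_distrib]
  exact sum_congr rfl fun ω _ => by ring

theorem ex_smul (p : Fin 6 → St → ℝ) (c : ℝ) (f : (Fin 6 → St) → ℝ) :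
    Ex p (fun ω => c * f ω) = c * Ex p f := by
  unfold Ex
  rw [mul_sum]
  exact sum_congr rfl fun ω _ => by ring

theorem ex_sum {ι : Type} (s : Finset ι) (p : Fin 6 → St → ℝ) (f : ι → (Fin 6 → St) → ℝ) :
    Ex p (fun ω => ∑ i ∈ s, f i ω) = ∑ i ∈ s, Ex p (f i) := by
  unfold Ex
  rw [sum_comm]
  exact sum_congr rfl fun ω _ => mul_sum _ _ _

theorem ex_mono (p : Fin 6 → St → ℝ) (h0 : ∀ i s, 0 ≤ p i s) (f g : (Fin 6 → St) → ℝ)
    (h : ∀ ω, f ω ≤ g ω) : Ex p f ≤ Ex p g := by
  unfold Ex
  exact sum_le_sum fun ω _ =>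
    mul_le_mul_of_nonneg_left (h ω) (prod_nonneg fun i _ => h0 i (ω i))

theorem ex_const (p : Fin 6 → St → ℝ) (h1 : ∀ i, ∑ s, p i s = 1) (c : ℝ) :
    Ex p (fun _ => c) = c := by
  have h2 := ex_prod p (fun _ _ => (1 : ℝ))
  simp only [prod_const_one, mul_one, h1] at h2
  have h3 := ex_smul p c (fun _ => (1 : ℝ))
  simp only [mul_one] at h3
  rw [h3, h2, mul_one]

theorem ex_pair (p : Fin 6 → St → ℝ) (h1 : ∀ i, ∑ s, p i s = 1) (i j : Fin 6) (hij : i ≠ j)
    (w : St → St → ℝ) :
    Ex p (fun ω => w (ω i) (ω j)) = ∑ s, ∑ t, p i s * p j t * w s t := by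
  obtain ⟨g, hg⟩ : ∃ g : St → St → Fin 6 → St → ℝ, ∀ a b k s, g a b k s =
      if k = i then (if s = a then 1 else 0) else if k = j then (if s = b then 1 else 0) else 1 :=
    ⟨_, fun _ _ _ _ => rfl⟩
  have hprod : ∀ a b (ω : Fin 6 → St), ∏ k, g a b k (ω k)
      = (if ω i = a then 1 else 0) * (if ω j = b then 1 else 0) := by
    intro a b ω
    rw [Finset.prod_eq_mul i j hij]
    · rw [hg, hg, if_pos rfl, if_neg hij.symm, if_pos rfl]
    · intro c _ hc
      rw [hg, if_neg hc.1, if_neg hc.2]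
    · intro h; exact absurd (mem_univ _) h
    · intro h; exact absurd (mem_univ _) h
  have hsum : ∀ a b, ∏ k, ∑ s, p k s * g a b k s = p i a * p j b := by
    intro a b
    rw [Finset.prod_eq_mul i j hij]
    · congr 1
      · rw [Finset.sum_eq_single a]
        · rw [hg, if_pos rfl, if_pos rfl, mul_one]
        · intro s _ hs
          rw [hg, if_pos rfl, if_neg hs, mul_zero]
        · intro h; exact absurd (mem_univ _) h
      · rw [Finset.sum_eq_single b]
        · rw [hg, if_neg hij.symm, if_pos rfl, if_pos rfl, mul_one]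
        · intro s _ hs
          rw [hg, if_neg hij.symm, if_pos rfl, if_neg hs, mul_zero]
        · intro h; exact absurd (mem_univ _) h
    · intro c _ hc
      have : ∀ s, p c s * g a b c s = p c s := by
        intro s
        rw [hg, if_neg hc.1, if_neg hc.2, mul_one]
      rw [sum_congr rfl fun s _ => this s, h1]
    · intro h; exact absurd (mem_univ _) h
    · intro h; exact absurd (mem_univ _) h
  have hw : (fun ω : Fin 6 → St => w (ω i) (ω j))
      = fun ω => ∑ a, ∑ b, w a b * ∏ k, g a b k (ω k) := by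
    funext ω
    rw [Finset.sum_eq_single (ω i)]
    · rw [Finset.sum_eq_single (ω j)]
      · rw [hprod, if_pos rfl, if_pos rfl]; ring
      · intro b _ hb
        have hb' : ¬ (ω j = b) := fun h => hb h.symm
        rw [hprod, if_neg hb']; ring
      · intro h; exact absurd (mem_univ _) h
    · intro a _ ha
      apply sum_eq_zero
      intro b _
      have ha' : ¬ (ω i = a) := fun h => ha h.symm
      rw [hprod, if_neg ha']; ring
    · intro h; exact absurd (mem_univ _) h
  rw [hw, ex_sum]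
  refine sum_congr rfl fun a _ => ?_
  rw [ex_sum]
  refine sum_congr rfl fun b _ => ?_
  rw [ex_smul, ex_prod, hsum]; ring

theorem ex_one (p : Fin 6 → St → ℝ) (h1 : ∀ i, ∑ s, p i s = 1) (i : Fin 6) (g : St → ℝ) :
    Ex p (fun ω => g (ω i)) = ∑ s, p i s * g s := by
  obtain ⟨j, hj⟩ : ∃ j : Fin 6, i ≠ j := by
    rcases eq_or_ne i 0 with h | h
    · exact ⟨1, by rw [h]; decide⟩
    · exact ⟨0, h⟩
  have h2 := ex_pair p h1 i j hj (fun s _ => g s)
  rw [h2]
  refine sum_congr rfl fun s _ => ?_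
  have h3 : ∀ t, p i s * p j t * g s = p i s * g s * p j t := fun t => by ring
  rw [sum_congr rfl fun t _ => h3 t, ← mul_sum, h1, mul_one]

end K4M
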