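import Pool.Agent.Lib.MP_4c59c5_co.Tab
import Pool.Agent.Lib.MP_4c59c5_co.Expect

/-!
# Cross (50 min)
Pointwise, with [..] indicators and `isU (U ..) = 1`, `isU (M ..) = 0`:
`X4 ω <= 19 - nM ω - 3 [nM ω = 0] + sum_{i0} [for all j ≠ i0: ω j = U i0] * (4 [ω i0 unmatched] +
2 [ω i0 matched])`.
Proof: if `Std i0 ω` for some i0 then the i0-term of the sum is 4 (nM = 0; 19 - 0 - 3 + 4 = 20) or
2 (nM = 1; 19 - 1 + 2 = 20) and `tabS`; the other terms are >= 0. If ω is not standard use `tab0`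
(19 - 3 = 16) or `tab1`.
Expectation: `Ex p (X4) = sum_{i<j} sum_{s,t} p p w4` (`ex_sum`, `ex_pair`), `Ex (nM) = sum_i mm p i`
(`ex_one`; `sum_s p i s isM s = mm p i`), `[nM = 0] = prod_i (1 - isM (ω i))` with expectation
`prod_i (1 - mm p i)` (`ex_prod`), and the i0-term is the product over all i of `g_i (ω i)` with
`g_j = [. = U i0]` for j ≠ i0 and `g_{i0} = 4 (1 - isM) + 2 isM`, expectation
`(prod_{j ≠ i0} p j (U i0)) * (4 - 2 mm p i0)`.
-/

set_option linter.unusedVariables false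
set_option linter.unusedSectionVars false

namespace K4M

open Finset
open scoped Classical

/-- states as a sum type -/
def crossE : St ≃ Fin 6 ⊕ (Fin 6 × Fin 6) where
  toFun := fun s => match s with
    | .U k => Sum.inl k
    | .M k l => Sum.inr (k, l)
  invFun := fun x => match x with
    | Sum.inl k => .U k
    | Sum.inr (k, l) => .M k l
  left_inv := by rintro (k | ⟨k, l⟩) <;> rfl
  right_inv := by rintro (k | ⟨k, l⟩) <;> rfl

theorem cross_sum (f : St → ℝ) : ∑ s, f s = ∑ k, f (.U k) + ∑ k, ∑ l, f (.M k l) := by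
  rw [← Equiv.sum_comp crossE.symm f, Fintype.sum_sum_type, Fintype.sum_prod_type]
  rfl

theorem cross_isM (p : Fin 6 → St → ℝ) (i : Fin 6) :
    ∑ s, p i s * (isM s : ℝ) = mm p i := by
  rw [cross_sum]
  unfold mm isM
  simp

theorem cross_isM_le (s : St) : isM s = 0 ∨ isM s = 1 := by
  cases s
  · exact Or.inl rfl
  · exact Or.inr rfl

/-- the factors of the term at `i0` -/
noncomputable def crossG (i0 i : Fin 6) (s : St) : ℝ :=
  if i = i0 then 4 - 2 * (isM s : ℝ) else (if s = .U i0 then 1 else 0)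

theorem crossG_nonneg (i0 i : Fin 6) (s : St) : 0 ≤ crossG i0 i s := by
  unfold crossG
  rcases cross_isM_le s with h | h <;> split_ifs <;> simp [h] <;> norm_num

theorem crossG_prod (p : Fin 6 → St → ℝ) (h1 : ∀ i, ∑ s, p i s = 1) (i0 : Fin 6) :
    ∏ i, ∑ s, p i s * crossG i0 i s
      = (∏ j ∈ univ.erase i0, p j (.U i0)) * (4 - 2 * mm p i0) := by
  rw [← Finset.mul_prod_erase univ _ (mem_univ i0), mul_comm]
  congr 1
  · refine prod_congr rfl fun j hj => ?_
    have hj' : j ≠ i0 := Finset.ne_of_mem_erase hj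
    unfold crossG
    simp [hj']
  · have e : ∀ s, p i0 s * crossG i0 i0 s = 4 * p i0 s - 2 * (p i0 s * (isM s : ℝ)) := by
      intro s
      unfold crossG
      rw [if_pos rfl]
      ring
    rw [Finset.sum_congr rfl fun s _ => e s, Finset.sum_sub_distrib, ← Finset.mul_sum,
      ← Finset.mul_sum, h1, cross_isM, mul_one]

/-- the pointwise bound -/
noncomputable def crossB (ω : Fin 6 → St) : ℝ :=
  (19 + (-1) * ∑ i, (isM (ω i) : ℝ)) + ((-3) * ∏ i, (1 - (isM (ω i) : ℝ))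
    + ∑ i0, ∏ i, crossG i0 i (ω i))

theorem cross_prod0 (ω : Fin 6 → St) (h : nM ω = 0) : ∏ i, (1 - (isM (ω i) : ℝ)) = 1 := by
  refine Finset.prod_eq_one fun i _ => ?_
  have h1 : isM (ω i) = 0 := by
    unfold nM at h
    exact (Finset.sum_eq_zero_iff.1 h) i (mem_univ i)
  rw [h1]
  norm_num

theorem cross_prod1 (ω : Fin 6 → St) (h : 1 ≤ nM ω) : ∏ i, (1 - (isM (ω i) : ℝ)) = 0 := by
  have h1 : ∃ i, isM (ω i) ≠ 0 := by
    by_contra hcon
    push Not at hcon
    unfold nM at h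
    rw [Finset.sum_eq_zero fun i _ => hcon i] at h
    omega
  obtain ⟨i, hi⟩ := h1
  refine Finset.prod_eq_zero (mem_univ i) ?_
  rcases cross_isM_le (ω i) with h2 | h2
  · exact absurd h2 hi
  · rw [h2]
    norm_num

theorem cross_point (ω : Fin 6 → St) : (X4 ω : ℝ) ≤ crossB ω := by
  have hS : ∀ i0, 0 ≤ ∏ i, crossG i0 i (ω i) := fun i0 =>
    Finset.prod_nonneg fun i _ => crossG_nonneg _ _ _
  have hsum : ∑ i, (isM (ω i) : ℝ) = (nM ω : ℝ) := by
    unfold nM
    push_cast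
    rfl
  by_cases hstd : ∃ i0, Std i0 ω
  · obtain ⟨i0, hi0⟩ := hstd
    have h20 : (X4 ω : ℝ) ≤ 20 := by exact_mod_cast tabS ω
    have hterm : ∏ i, crossG i0 i (ω i) = 4 - 2 * (isM (ω i0) : ℝ) := by
      rw [← Finset.mul_prod_erase univ _ (mem_univ i0)]
      have e : ∏ j ∈ univ.erase i0, crossG i0 j (ω j) = 1 := by
        refine Finset.prod_eq_one fun j hj => ?_
        have hj' : j ≠ i0 := Finset.ne_of_mem_erase hj
        rw [hi0 j hj']
        unfold crossG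
        simp [hj']
      rw [e, mul_one]
      unfold crossG
      rw [if_pos rfl]
    have hge : 4 - 2 * (isM (ω i0) : ℝ) ≤ ∑ i0, ∏ i, crossG i0 i (ω i) := by
      rw [← hterm]
      exact Finset.single_le_sum (f := fun i0 => ∏ i, crossG i0 i (ω i)) (fun i _ => hS i)
        (mem_univ i0)
    have hnM : nM ω = isM (ω i0) := by
      unfold nM
      refine Finset.sum_eq_single i0 (fun j _ hj => ?_) (fun h => absurd (mem_univ _) h)
      rw [hi0 j hj]
      rfl
    unfold crossB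
    rw [hsum, hnM]
    rcases cross_isM_le (ω i0) with h2 | h2
    · rw [cross_prod0 ω (by rw [hnM, h2]), h2]
      rw [h2] at hge
      push_cast at hge ⊢
      linarith
    · rw [cross_prod1 ω (by rw [hnM, h2]), h2]
      rw [h2] at hge
      push_cast at hge ⊢
      linarith
  · have hge : 0 ≤ ∑ i0, ∏ i, crossG i0 i (ω i) := Finset.sum_nonneg fun i _ => hS i
    unfold crossB
    rw [hsum]
    rcases Nat.eq_zero_or_pos (nM ω) with h2 | h2
    · have h16 : (X4 ω : ℝ) ≤ 16 := by exact_mod_cast tab0 ω h2 hstd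
      rw [cross_prod0 ω h2, h2]
      push_cast
      linarith
    · have h19 : (X4 ω : ℝ) + (nM ω : ℝ) ≤ 19 := by exact_mod_cast tab1 ω h2 hstd
      rw [cross_prod1 ω h2]
      linarith

theorem cross_lhs (p : Fin 6 → St → ℝ) (h1 : ∀ i, ∑ s, p i s = 1) :
    ∑ i, ∑ j, (if i < j then ∑ s, ∑ t, p i s * p j t * (w4 i j s t : ℝ) else 0)
      = Ex p (fun ω => (X4 ω : ℝ)) := by
  have e1 : (fun ω => (X4 ω : ℝ))
      = fun ω => ∑ i, ∑ j, (if i < j then (w4 i j (ω i) (ω j) : ℝ) else 0) := by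
    funext ω
    unfold X4
    push_cast
    rfl
  rw [e1, ex_sum]
  refine sum_congr rfl fun i _ => ?_
  rw [ex_sum]
  refine sum_congr rfl fun j _ => ?_
  by_cases hij : i < j
  · simp only [if_pos hij]
    exact (ex_pair p h1 i j hij.ne (fun s t => (w4 i j s t : ℝ))).symm
  · simp only [if_neg hij]
    exact (ex_const p h1 0).symm

theorem cross_rhs (p : Fin 6 → St → ℝ) (h1 : ∀ i, ∑ s, p i s = 1) :
    Ex p crossB = (19 + (-1) * ∑ i, mm p i) + ((-3) * ∏ i, (1 - mm p i)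
      + ∑ i, (∏ j ∈ univ.erase i, p j (.U i)) * (4 - 2 * mm p i)) := by
  have a1 : Ex p (fun _ => (19 : ℝ)) = 19 := ex_const p h1 19
  have a2 : Ex p (fun ω => (-1) * ∑ i, (isM (ω i) : ℝ)) = (-1) * ∑ i, mm p i := by
    refine (ex_smul p (-1) (fun ω => ∑ i, (isM (ω i) : ℝ))).trans ?_
    congr 1
    refine (ex_sum univ p (fun i ω => (isM (ω i) : ℝ))).trans ?_
    refine sum_congr rfl fun i _ => ?_
    rw [← cross_isM]
    exact ex_one p h1 i (fun s => (isM s : ℝ))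
  have a3 : Ex p (fun ω => (-3) * ∏ i, (1 - (isM (ω i) : ℝ))) = (-3) * ∏ i, (1 - mm p i) := by
    refine (ex_smul p (-3) (fun ω => ∏ i, (1 - (isM (ω i) : ℝ)))).trans ?_
    congr 1
    refine (ex_prod p (fun _ s => 1 - (isM s : ℝ))).trans ?_
    refine prod_congr rfl fun i _ => ?_
    have e : ∀ s, p i s * (1 - (isM s : ℝ)) = p i s - p i s * (isM s : ℝ) := by
      intro s
      ring
    rw [Finset.sum_congr rfl fun s _ => e s, Finset.sum_sub_distrib, h1, cross_isM]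
  have a4 : Ex p (fun ω => ∑ i0, ∏ i, crossG i0 i (ω i))
      = ∑ i, (∏ j ∈ univ.erase i, p j (.U i)) * (4 - 2 * mm p i) := by
    refine (ex_sum univ p (fun i0 ω => ∏ i, crossG i0 i (ω i))).trans ?_
    refine sum_congr rfl fun i0 _ => ?_
    rw [← crossG_prod p h1 i0]
    exact ex_prod p (crossG i0)
  have b1 : Ex p (fun ω => (19 : ℝ) + (-1) * ∑ i, (isM (ω i) : ℝ))
      = 19 + (-1) * ∑ i, mm p i :=
    (ex_add p (fun _ => (19 : ℝ)) (fun ω => (-1) * ∑ i, (isM (ω i) : ℝ))).trans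
      (congrArg₂ (· + ·) a1 a2)
  have b2 : Ex p (fun ω => (-3) * ∏ i, (1 - (isM (ω i) : ℝ)) + ∑ i0, ∏ i, crossG i0 i (ω i))
      = (-3) * ∏ i, (1 - mm p i)
        + ∑ i, (∏ j ∈ univ.erase i, p j (.U i)) * (4 - 2 * mm p i) :=
    (ex_add p (fun ω => (-3) * ∏ i, (1 - (isM (ω i) : ℝ)))
      (fun ω => ∑ i0, ∏ i, crossG i0 i (ω i))).trans (congrArg₂ (· + ·) a3 a4)
  exact (ex_add p (fun ω => (19 : ℝ) + (-1) * ∑ i, (isM (ω i) : ℝ))
    (fun ω => (-3) * ∏ i, (1 - (isM (ω i) : ℝ)) + ∑ i0, ∏ i, crossG i0 i (ω i))).trans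
      (congrArg₂ (· + ·) b1 b2)

theorem cross (p : Fin 6 → St → ℝ) (h0 : ∀ i s, 0 ≤ p i s) (h1 : ∀ i, ∑ s, p i s = 1) :
    ∑ i, ∑ j, (if i < j then ∑ s, ∑ t, p i s * p j t * (w4 i j s t : ℝ) else 0)
      ≤ 19 - ∑ i, mm p i - 3 * ∏ i, (1 - mm p i)
        + ∑ i, (∏ j ∈ univ.erase i, p j (.U i)) * (4 - 2 * mm p i) := by
  rw [cross_lhs p h1]
  have h2 := ex_mono p h0 (fun ω => (X4 ω : ℝ)) crossB cross_point
  rw [cross_rhs p h1] at h2
  refine h2.trans (le_of_eq ?_)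
  generalize (∑ i, (∏ j ∈ univ.erase i, p j (.U i)) * (4 - 2 * mm p i)) = a
  generalize (∑ i, mm p i) = b
  generalize (∏ i, (1 - mm p i)) = c
  ring

end K4M
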