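import Pool.Agent.Lib.MP_4c59c5_co.BadPair

/-!
# DXa (35 min)
Classification of a bad triple, n = card V > 0 is not needed (if n = 0 there is no triple). Let
`s = (1/6 - 1/10^7) n`. If the three parts are distinct: `bad_cross` at the three vertices; since
`s > 2 * n/100`, among the pairs at each vertex one is heavy, so at least two of the three pairs
xy, xz, yz are heavy: they share a vertex (first three alternatives; `Hv` is symmetric by
`mis2_symm`). If exactly two parts are equal, say π x = π z ≠ π y (other cases by permuting): by
`bad_inner`, `mis2 x y + mis2 z y >= 2 s >= (1/3 - 2/10^7) n`; if both are heavy: alternative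
`Hv y x ∧ Hv y z`; else one is < n/100, so the other is `>= (1/3 - 1/100 - 2/10^7) n >= 0.323 n`:
`Fl x y` (with π z = π x) or `Fl z y` (with π x = π z).
-/

set_option linter.unusedVariables false
set_option linter.unusedSectionVars false

namespace K4M

open Finset
open scoped Classical

theorem bad_class {V : Type} [Fintype V] {T : V → V → V → Prop} (h : IsG T) (π : V → Fin 6)
    (hsz : ∀ i, (1 / 6 - 1 / 10 ^ 7) * (Fintype.card V : ℝ) ≤ psz π i) (x y z : V)
    (hb : Bad T π x y z) :
    (Hv T π x y ∧ Hv T π x z) ∨ (Hv T π y x ∧ Hv T π y z) ∨ (Hv T π z x ∧ Hv T π z y) ∨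
    (Fl T π x y ∧ π z = π x) ∨ (Fl T π y x ∧ π z = π y) ∨ (Fl T π x z ∧ π y = π x) ∨
    (Fl T π z x ∧ π y = π z) ∨ (Fl T π y z ∧ π x = π y) ∨ (Fl T π z y ∧ π x = π z) := by
  have hn : (0 : ℝ) < (Fintype.card V : ℝ) := by
    have : 0 < Fintype.card V := Fintype.card_pos_iff.mpr ⟨x⟩
    exact_mod_cast this
  obtain ⟨hT, hQ, hne⟩ := hb
  have sxy := mis2_symm h π x y
  have sxz := mis2_symm h π x z
  have syz := mis2_symm h π y z
  have hT1 : T y x z := h.s12 _ _ _ hT
  have hT2 : T x z y := h.s23 _ _ _ hT
  have hT3 : T z x y := h.s12 _ _ _ hT2
  have hT4 : T y z x := h.s23 _ _ _ hT1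
  unfold Hv Fl
  by_cases e12 : π x = π y
  · have e13 : π x ≠ π z := fun e => hne ⟨e12, e12.symm.trans e⟩
    have k := bad_inner h π _ hsz x y z hT e12 e13
    rcases lt_or_ge (mis2 T π x z) ((1 / 100) * (Fintype.card V : ℝ)) with h1 | h1
    · right; right; right; right; right; right; right; left
      exact ⟨by linarith, e12⟩
    · rcases lt_or_ge (mis2 T π y z) ((1 / 100) * (Fintype.card V : ℝ)) with h2 | h2
      · right; right; right; right; right; left
        exact ⟨by linarith, e12.symm⟩
      · right; right; left
        exact ⟨by linarith, by linarith⟩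
  · by_cases e13 : π x = π z
    · have k := bad_inner h π _ hsz x z y hT2 e13 e12
      have szy := syz
      rcases lt_or_ge (mis2 T π x y) ((1 / 100) * (Fintype.card V : ℝ)) with h1 | h1
      · right; right; right; right; right; right; right; right
        exact ⟨by linarith, e13⟩
      · rcases lt_or_ge (mis2 T π z y) ((1 / 100) * (Fintype.card V : ℝ)) with h2 | h2
        · right; right; right; left
          exact ⟨by linarith, e13.symm⟩
        · right; left
          exact ⟨by linarith, by linarith⟩
    · by_cases e23 : π y = π z
      · have k := bad_inner h π _ hsz y z x hT4 e23 (fun e => e12 e.symm)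
        rcases lt_or_ge (mis2 T π y x) ((1 / 100) * (Fintype.card V : ℝ)) with h1 | h1
        · right; right; right; right; right; right; left
          exact ⟨by linarith, e23⟩
        · rcases lt_or_ge (mis2 T π z x) ((1 / 100) * (Fintype.card V : ℝ)) with h2 | h2
          · right; right; right; right; left
            exact ⟨by linarith, e23.symm⟩
          · left
            exact ⟨by linarith, by linarith⟩
      · have k1 := bad_cross h π _ hsz x y z hT hQ e12 e13 e23
        have k2 := bad_cross h π _ hsz y x z hT1 (by rw [Q_s12]; exact hQ)
          (fun e => e12 e.symm) e23 e13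
        have k3 := bad_cross h π _ hsz z x y hT3 (by rw [Q_s12, Q_s23]; exact hQ)
          (fun e => e13 e.symm) (fun e => e23 e.symm) e12
        rcases lt_or_ge (mis2 T π x y) ((1 / 100) * (Fintype.card V : ℝ)) with h1 | h1
        · right; right; left
          constructor
          · linarith
          · linarith
        · rcases lt_or_ge (mis2 T π x z) ((1 / 100) * (Fintype.card V : ℝ)) with h2 | h2
          · right; left
            constructor
            · linarith
            · linarith
          · left
            exact ⟨by linarith, by linarith⟩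

end K4M
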