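import Pool.Agent.Lib.MP_4c59c5_co.Basic

/-!
# DXb (30 min)
`hh x * n/100 <= sum_y mis2 x y = mis1 x <= n^2/10^7`, so `hh x <= 100 mis1 x / n` and
`hh x <= n/10^5` (n > 0). Hence `hh x ^2 <= (n/10^5) (100 mis1 x / n) = mis1 x / 1000`; sum over x.
-/

set_option linter.unusedVariables false
set_option linter.unusedSectionVars false

namespace K4M

open Finset
open scoped Classical

theorem hh_le {V : Type} [Fintype V] (T : V → V → V → Prop) (π : V → Fin 6)
    (hn : 0 < Fintype.card V)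
    (hm : ∀ v, mis1 T π v ≤ 1 / 10 ^ 7 * (Fintype.card V : ℝ) ^ 2) (x : V) :
    hh T π x ≤ (Fintype.card V : ℝ) / 10 ^ 5 ∧
      hh T π x * ((Fintype.card V : ℝ) / 100) ≤ mis1 T π x := by
  have hn' : (0 : ℝ) < Fintype.card V := by exact_mod_cast hn
  have h1 : hh T π x * ((Fintype.card V : ℝ) / 100) ≤ mis1 T π x := by
    rw [mis1_eq]
    unfold hh c1
    rw [sum_mul]
    refine sum_le_sum fun y _ => ?_
    by_cases hy : Hv T π x y
    · rw [ind_of hy, one_mul]
      have hy2 : (1 / 100) * (Fintype.card V : ℝ) ≤ mis2 T π x y := hy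
      linarith
    · rw [ind_of_not hy, zero_mul]
      exact mis2_nonneg T π x y
  refine ⟨?_, h1⟩
  have h2 := h1.trans (hm x)
  have h3 : hh T π x * ((Fintype.card V : ℝ) / 100) ≤
      ((Fintype.card V : ℝ) / 10 ^ 5) * ((Fintype.card V : ℝ) / 100) := by
    refine h2.trans (le_of_eq ?_)
    ring
  exact le_of_mul_le_mul_right h3 (by positivity)

theorem hh_sq {V : Type} [Fintype V] (T : V → V → V → Prop) (π : V → Fin 6)
    (hn : 0 < Fintype.card V)
    (hm : ∀ v, mis1 T π v ≤ 1 / 10 ^ 7 * (Fintype.card V : ℝ) ^ 2) :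
    ∑ x, (hh T π x) ^ 2 ≤ c3 (Mis T π) / 1000 := by
  have hn' : (0 : ℝ) < Fintype.card V := by exact_mod_cast hn
  rw [c3_mis, sum_div]
  refine sum_le_sum fun x _ => ?_
  obtain ⟨h1, h2⟩ := hh_le T π hn hm x
  have h0 : 0 ≤ hh T π x := c1_nonneg _
  have h3 : hh T π x * hh T π x ≤ hh T π x * ((Fintype.card V : ℝ) / 10 ^ 5) :=
    mul_le_mul_of_nonneg_left h1 h0
  calc hh T π x ^ 2 = hh T π x * hh T π x := sq _
    _ ≤ hh T π x * ((Fintype.card V : ℝ) / 10 ^ 5) := h3
    _ = hh T π x * ((Fintype.card V : ℝ) / 100) / 1000 := by ring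
    _ ≤ _ := div_le_div_of_nonneg_right h2 (by norm_num)

end K4M
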