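import Pool.Agent.Lib.MP_4c59c5_co.DXa
import Pool.Agent.Lib.MP_4c59c5_co.DXb
import Pool.Agent.Lib.MP_4c59c5_co.PatCount

/-!
# DXc (75 min)
Write n = card V, `m = (1/6 + 5/10^7) n`: every part has at most m vertices (`sum_psz`, the other five
have at least `(1/6 - 1/10^7) n` each). Suppose `zz x y > (9/10) m` and let i = π x,
`Z = {r : π r = i, T x r y}`. Z is independent in the link of x: r, r' in Z and `T x r r'` with
`T x r y`, `T x r' y` contradict `h.free x` (arguments r, r', y: `T x r r'`, `T x r y`, `T x r' y`).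
Count `c2 (T x)`:
(a) pairs (y', z') with `Q (π x) (π y') (π z')` true: at most `nb2 (psz π) i <= 10 m^2` (`nb_count`,
    `nb2_le`);
(b) π y' = π z' = i: one of them is not in Z: at most `2 (psz i - zz) psz i <= 2 (m/10) m`;
(c) the others are bad triples (x, y', z'): by `bad_class` x y' or x z' is heavy (or Fl, which
    implies heavy), or y' z' is heavy (`Fl y' z'`): at most `2 hh x n + sum_y hh y
    <= 2 n^2/10^5 + n^2/10^5 = 3 n^2/10^5` (`hh_le`, `mis2_symm`).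
Total `<= (10.2) m^2 + 3 n^2 / 10^5 < 0.2834 n^2 < (2/7 - 1/10^7) n^2`: contradiction with hdeg
(n > 0).
-/

set_option linter.unusedVariables false
set_option linter.unusedSectionVars false

namespace K4M

open Finset
open scoped Classical

theorem dxc_part {V : Type} [Fintype V] (π : V → Fin 6)
    (hsz : ∀ i, (1 / 6 - 1 / 10 ^ 7) * (Fintype.card V : ℝ) ≤ psz π i) (i : Fin 6) :
    psz π i ≤ (1 / 6 + 5 / 10 ^ 7) * (Fintype.card V : ℝ) := by
  have h := sum_psz π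
  rw [← Finset.add_sum_erase univ (psz π) (mem_univ i)] at h
  have h2 : ∑ _j ∈ univ.erase i, (1 / 6 - 1 / 10 ^ 7) * (Fintype.card V : ℝ) ≤
      ∑ j ∈ univ.erase i, psz π j := Finset.sum_le_sum fun j _ => hsz j
  rw [Finset.sum_const] at h2
  have hc : (univ.erase i).card = 5 := by simp
  rw [hc] at h2
  have e : (5 : ℕ) • ((1 / 6 - 1 / 10 ^ 7) * (Fintype.card V : ℝ)) =
      5 * ((1 / 6 - 1 / 10 ^ 7) * (Fintype.card V : ℝ)) := by simp
  rw [e] at h2
  linarith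

theorem dxc_fl {V : Type} [Fintype V] {T : V → V → V → Prop} {π : V → Fin 6} {x y : V}
    (h : Fl T π x y) : Hv T π x y := by
  unfold Fl at h
  unfold Hv
  have : (0 : ℝ) ≤ Fintype.card V := Nat.cast_nonneg _
  linarith

theorem dxc_hvs {V : Type} [Fintype V] {T : V → V → V → Prop} (h : IsG T) {π : V → Fin 6} {x y : V}
    (hv : Hv T π x y) : Hv T π y x := by
  unfold Hv at *
  rw [mis2_symm h π y x]
  exact hv

theorem dxc_cover {V : Type} [Fintype V] {T : V → V → V → Prop} (h : IsG T) (π : V → Fin 6)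
    (hsz : ∀ i, (1 / 6 - 1 / 10 ^ 7) * (Fintype.card V : ℝ) ≤ psz π i) (x y a b : V)
    (ht : T x a b) :
    (Q (π x) (π a) (π b) = true ∨ ((π a = π x ∧ ¬ (π a = π x ∧ T x a y)) ∧ π b = π x)) ∨
      ((π a = π x ∧ (π b = π x ∧ ¬ (π b = π x ∧ T x b y))) ∨
        ((Hv T π x a ∧ True) ∨ ((True ∧ Hv T π x b) ∨ Hv T π a b))) := by
  by_cases hQ : Q (π x) (π a) (π b) = true
  · exact Or.inl (Or.inl hQ)
  by_cases hi : π x = π a ∧ π a = π b
  · have ea : π a = π x := hi.1.symm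
    have eb : π b = π x := by rw [← hi.2, ea]
    by_cases h1 : T x a y
    · have h2 : ¬ T x b y := fun h2 => h.free x a b y ht h1 h2
      exact Or.inr (Or.inl ⟨ea, eb, fun hh => h2 hh.2⟩)
    · exact Or.inl (Or.inr ⟨⟨ea, fun hh => h1 hh.2⟩, eb⟩)
  · have hb : Bad T π x a b := ⟨ht, by simpa using hQ, hi⟩
    right; right
    rcases bad_class h π hsz x a b hb with c | c | c | c | c | c | c | c | c
    · exact Or.inl ⟨c.1, trivial⟩
    · exact Or.inl ⟨dxc_hvs h c.1, trivial⟩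
    · exact Or.inr (Or.inl ⟨trivial, dxc_hvs h c.1⟩)
    · exact Or.inl ⟨dxc_fl c.1, trivial⟩
    · exact Or.inl ⟨dxc_hvs h (dxc_fl c.1), trivial⟩
    · exact Or.inr (Or.inl ⟨trivial, dxc_fl c.1⟩)
    · exact Or.inr (Or.inl ⟨trivial, dxc_hvs h (dxc_fl c.1)⟩)
    · exact Or.inr (Or.inr (dxc_fl c.1))
    · exact Or.inr (Or.inr (dxc_hvs h (dxc_fl c.1)))

theorem zz_le {V : Type} [Fintype V] {T : V → V → V → Prop} (h : IsG T) (π : V → Fin 6)
    (hn : 0 < Fintype.card V)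
    (hsz : ∀ i, (1 / 6 - 1 / 10 ^ 7) * (Fintype.card V : ℝ) ≤ psz π i)
    (hm : ∀ v, mis1 T π v ≤ 1 / 10 ^ 7 * (Fintype.card V : ℝ) ^ 2)
    (hd : ∀ v, (2 / 7 - 1 / 10 ^ 7) * (Fintype.card V : ℝ) ^ 2 ≤ c2 (T v)) (x y : V) :
    zz T π x y ≤ (9 / 10) * ((1 / 6 + 5 / 10 ^ 7) * (Fintype.card V : ℝ)) := by
  set N : ℝ := (Fintype.card V : ℝ) with hN
  have hN0 : 0 < N := by rw [hN]; exact_mod_cast hn
  by_contra hcon
  rw [not_le] at hcon
  set m : ℝ := (1 / 6 + 5 / 10 ^ 7) * N with hmdef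
  have hm0 : 0 ≤ m := by rw [hmdef]; positivity
  have hpi : ∀ i, psz π i ≤ m := fun i => dxc_part π hsz i
  have h0 : ∀ i, 0 ≤ psz π i := psz_nonneg π
  -- the vertices of the part not in Z
  have hZ : c1 (fun r => π r = π x ∧ ¬ (π r = π x ∧ T x r y)) ≤ m / 10 := by
    have e := c1_split (fun r => π r = π x) (fun r => π r = π x ∧ T x r y)
    have e1 : c1 (fun r => π r = π x ∧ (π r = π x ∧ T x r y)) = zz T π x y := by
      unfold zz
      exact c1_congr fun r => ⟨fun hh => hh.2, fun hh => ⟨hh.1, hh⟩⟩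
    have e2 : c1 (fun r => π r = π x) = psz π (π x) := rfl
    rw [e1, e2] at e
    have := hpi (π x)
    linarith
  have hZ0 : 0 ≤ c1 (fun r => π r = π x ∧ ¬ (π r = π x ∧ T x r y)) := c1_nonneg _
  have b1 : c2 (fun a b => Q (π x) (π a) (π b) = true) ≤ 10 * m ^ 2 := by
    rw [nb_count]
    exact nb2_le _ h0 m hpi _
  have b2 : c2 (fun a b => (π a = π x ∧ ¬ (π a = π x ∧ T x a y)) ∧ π b = π x) ≤ m / 10 * m := by
    rw [c2_prod (fun a => π a = π x ∧ ¬ (π a = π x ∧ T x a y)) (fun b => π b = π x)]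
    exact mul_le_mul hZ (hpi (π x)) (h0 (π x)) (by positivity)
  have b3 : c2 (fun a b => π a = π x ∧ (π b = π x ∧ ¬ (π b = π x ∧ T x b y))) ≤ m * (m / 10) := by
    rw [c2_prod (fun a => π a = π x) (fun b => π b = π x ∧ ¬ (π b = π x ∧ T x b y))]
    exact mul_le_mul (hpi (π x)) hZ hZ0 hm0
  have hhx : c1 (fun b => Hv T π x b) ≤ N / 10 ^ 5 := (hh_le T π hn hm x).1
  have hhx0 : 0 ≤ c1 (fun b => Hv T π x b) := c1_nonneg _
  have b4 : c2 (fun a b => Hv T π x a ∧ (fun _ : V => True) b) ≤ N / 10 ^ 5 * N := by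
    rw [c2_prod (fun a => Hv T π x a) (fun _ => True), c1_true]
    exact mul_le_mul_of_nonneg_right hhx hN0.le
  have b5 : c2 (fun a b => (fun _ : V => True) a ∧ Hv T π x b) ≤ N * (N / 10 ^ 5) := by
    rw [c2_prod (fun _ => True) (fun b => Hv T π x b), c1_true]
    exact mul_le_mul_of_nonneg_left hhx hN0.le
  have b6 : c2 (fun a b => Hv T π a b) ≤ N * (N / 10 ^ 5) := by
    rw [c2_eq_sum]
    refine le_trans (Finset.sum_le_sum fun a _ => (hh_le T π hn hm a).1) ?_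
    rw [Finset.sum_const, Finset.card_univ, nsmul_eq_mul]
  have hc : c2 (T x) ≤ _ := c2_mono (dxc_cover h π hsz x y)
  have s1 := c2_or_le
    (fun a b => Q (π x) (π a) (π b) = true ∨
      ((π a = π x ∧ ¬ (π a = π x ∧ T x a y)) ∧ π b = π x))
    (fun a b => (π a = π x ∧ (π b = π x ∧ ¬ (π b = π x ∧ T x b y))) ∨
        ((Hv T π x a ∧ True) ∨ ((True ∧ Hv T π x b) ∨ Hv T π a b)))
  have s2 := c2_or_le (fun a b => Q (π x) (π a) (π b) = true)
    (fun a b => (π a = π x ∧ ¬ (π a = π x ∧ T x a y)) ∧ π b = π x)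
  have s3 := c2_or_le (fun a b => π a = π x ∧ (π b = π x ∧ ¬ (π b = π x ∧ T x b y)))
    (fun a b => (Hv T π x a ∧ True) ∨ ((True ∧ Hv T π x b) ∨ Hv T π a b))
  have s4 := c2_or_le (fun a b => Hv T π x a ∧ (fun _ : V => True) b)
    (fun a b => (True ∧ Hv T π x b) ∨ Hv T π a b)
  have s5 := c2_or_le (fun a b => (fun _ : V => True) a ∧ Hv T π x b) (fun a b => Hv T π a b)
  have hdx := hd x
  have fin : (2 / 7 - 1 / 10 ^ 7) * N ^ 2 ≤ 10 * m ^ 2 + m / 10 * m + (m * (m / 10) +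
      (N / 10 ^ 5 * N + (N * (N / 10 ^ 5) + N * (N / 10 ^ 5)))) := by
    linarith
  have e : 10 * m ^ 2 + m / 10 * m + (m * (m / 10) +
      (N / 10 ^ 5 * N + (N * (N / 10 ^ 5) + N * (N / 10 ^ 5)))) =
      ((102 / 10) * (1 / 6 + 5 / 10 ^ 7) ^ 2 + 3 / 10 ^ 5) * N ^ 2 := by
    rw [hmdef]; ring
  rw [e] at fin
  have hN2 : 0 < N ^ 2 := by positivity
  have := le_of_mul_le_mul_right fin hN2
  norm_num at this

end K4M
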