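import Mathlib

/-!
# MP_4c59c5_co, basic definitions

3-graphs are ternary relations here; all counts are real numbers and ordered:
`c3 R` is the number of ordered triples in `R`, `c2` the number of ordered pairs, `c1` the number
of elements.
-/

namespace K4M

open Finset
open scoped Classical

/-- The incidence of the 2-(6,3,2) design with the ten blocks
    015 125 235 345 045 013 124 023 134 024 (order of the three arguments irrelevant). -/
def Q (i j k : Fin 6) : Bool :=
  Nat.testBit 239497057811142472159277738142540855495894032491646487421880832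
    (36 * i.val + 6 * j.val + k.val)

/-- indicator of a proposition as a real number -/
noncomputable def ind (p : Prop) : ℝ := if p then 1 else 0

section counts
variable {V : Type} [Fintype V]

/-- number of elements with a property -/
noncomputable def c1 (A : V → Prop) : ℝ := ∑ x, ind (A x)
/-- number of ordered pairs in a relation -/
noncomputable def c2 (R : V → V → Prop) : ℝ := ∑ x, ∑ y, ind (R x y)
/-- number of ordered triples in a ternary relation -/
noncomputable def c3 (R : V → V → V → Prop) : ℝ := ∑ x, ∑ y, ∑ z, ind (R x y z)
/-- number of elements with a property, as a natural number -/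
noncomputable def nc (A : V → Prop) : ℕ := (univ.filter (fun x => A x)).card

end counts

/-- `T` is a 3-graph in which every four vertices span at most two triples
    (equivalently: all links are triangle-free). -/
structure IsG {V : Type} (T : V → V → V → Prop) : Prop where
  s12 : ∀ x y z, T x y z → T y x z
  s23 : ∀ x y z, T x y z → T x z y
  irr : ∀ x y, ¬ T x x y
  free : ∀ x a b c, T x a b → T x a c → T x b c → False

/-- restriction of a 3-graph to a vertex set -/
def res {V : Type} (A : V → Prop) (T : V → V → V → Prop) : V → V → V → Prop :=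
  fun x y z => A x ∧ A y ∧ A z ∧ T x y z

/-- the largest number of ordered triples of a 3-graph on `n` vertices in which every four
    vertices span at most two triples (six times the usual extremal number) -/
noncomputable def exo (n : ℕ) : ℝ :=
  sSup {r : ℝ | ∃ T : Fin n → Fin n → Fin n → Prop, IsG T ∧ c3 T = r}

/-- six triples per unordered triple: the limit density is the infimum of this sequence -/
noncomputable def Pi0 : ℝ := ⨅ n : ℕ, exo (n + 3) / (((n : ℝ) + 3) * (n + 2) * (n + 1))

section part
variable {V : Type} [Fintype V]

/-- pattern triples of a partition -/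
def Pat (π : V → Fin 6) : V → V → V → Prop := fun x y z => Q (π x) (π y) (π z) = true
/-- missing pattern triples -/
def Mis (T : V → V → V → Prop) (π : V → Fin 6) : V → V → V → Prop :=
  fun x y z => Q (π x) (π y) (π z) = true ∧ ¬ T x y z
/-- bad triples: triples of `T` that are neither pattern triples nor inside a part -/
def Bad (T : V → V → V → Prop) (π : V → Fin 6) : V → V → V → Prop :=
  fun x y z => T x y z ∧ Q (π x) (π y) (π z) = false ∧ ¬ (π x = π y ∧ π y = π z)
/-- size of a part -/
noncomputable def psz (π : V → Fin 6) (i : Fin 6) : ℝ := c1 (fun v => π v = i)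
/-- missing codegree of a pair -/
noncomputable def mis2 (T : V → V → V → Prop) (π : V → Fin 6) (x y : V) : ℝ := c1 (Mis T π x y)
/-- missing degree of a vertex -/
noncomputable def mis1 (T : V → V → V → Prop) (π : V → Fin 6) (x : V) : ℝ := c2 (Mis T π x)

/-- ordered pattern polynomial of six numbers -/
noncomputable def pat6 (x : Fin 6 → ℝ) : ℝ :=
  ∑ i, ∑ j, ∑ k, if Q i j k = true then x i * x j * x k else 0
/-- the part of it at `i` -/
noncomputable def nb2 (x : Fin 6 → ℝ) (i : Fin 6) : ℝ :=
  ∑ j, ∑ k, if Q i j k = true then x j * x k else 0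
/-- value of a partition: all pattern triples and extremal 3-graphs inside the parts -/
noncomputable def fF (π : V → Fin 6) : ℝ :=
  c3 (Pat π) + ∑ i, exo (nc (fun v => π v = i))
/-- nearly balanced partitions -/
def Near (κ : ℝ) (π : V → Fin 6) : Prop :=
  ∀ i, |psz π i - (Fintype.card V : ℝ) / 6| ≤ κ * (Fintype.card V : ℝ)

end part

/-- the largest value of a partition of `n` vertices with all parts within `n/100` of `n/6` -/
noncomputable def gG (n : ℕ) : ℝ :=
  sSup {r : ℝ | ∃ π : Fin n → Fin 6, Near (1 / 100) π ∧ fF π = r}

/-! ### the link of a vertex -/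

section link
variable {V : Type} [Fintype V]

/-- ordered pairs of a graph between two parts, inside the vertex set `A` -/
noncomputable def crs (A : V → Prop) (π : V → Fin 6) (L : V → V → Prop) (i j : Fin 6) : ℝ :=
  c2 (fun a b => (A a ∧ π a = i) ∧ (A b ∧ π b = j) ∧ L a b)
/-- the link of `v` without the crossing pairs that are incompatible with the types -/
def Lk (T : V → V → V → Prop) (π τ : V → Fin 6) (v : V) : V → V → Prop :=
  fun a b => T v a b ∧ (π a = π b ∨ (Q (π a) (π b) (τ a) = true ∧ Q (π a) (π b) (τ b) = true))
/-- matched fraction of part `i` -/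
noncomputable def qf (A : V → Prop) (π : V → Fin 6) (mt : V → V) (m : ℝ) (i : Fin 6) : ℝ :=
  c1 (fun a => (A a ∧ π a = i) ∧ mt a ≠ a) / m
/-- fraction of part `j` that is unmatched of type `i` -/
noncomputable def uf (A : V → Prop) (π : V → Fin 6) (mt : V → V) (τ : V → Fin 6) (m : ℝ)
    (j i : Fin 6) : ℝ :=
  c1 (fun a => (A a ∧ π a = j) ∧ mt a = a ∧ τ a = i) / m

end link

/-! ### states of a part in the link of a vertex -/

/-- `U k`: an unmatched vertex of type `k`; `M k l`: a matched vertex of type `k` whose partner
    has type `l`. -/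
inductive St
  | U (k : Fin 6)
  | M (k l : Fin 6)
deriving DecidableEq, Fintype

/-- 0 or 1 -/
def bn (b : Bool) : ℕ := if b then 1 else 0

/-- number of types of a state (seen in part `i`) that are compatible with part `j` -/
def cc (i j : Fin 6) : St → ℕ
  | .U k => bn (Q i j k)
  | .M k l => bn (Q i j k) + bn (Q i j l)

/-- four times the weight of a pair of states -/
def w4 (i j : Fin 6) (s t : St) : ℕ :=
  match s, t with
  | .U _, .U _ => 4 * cc i j s * cc i j t
  | .U _, .M _ _ => 2 * cc i j s * min 1 (cc i j t)
  | .M _ _, .U _ => 2 * min 1 (cc i j s) * cc i j t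
  | .M _ _, .M _ _ => min (cc i j s) (cc i j t)

/-- 1 for a matched state -/
def isM : St → ℕ
  | .U _ => 0
  | .M _ _ => 1

/-- total weight (times four) of a vector of states -/
def X4 (ω : Fin 6 → St) : ℕ := ∑ i, ∑ j, if i < j then w4 i j (ω i) (ω j) else 0

/-- number of matched states -/
def nM (ω : Fin 6 → St) : ℕ := ∑ i, isM (ω i)

/-- the standard vectors -/
def Std (i0 : Fin 6) (ω : Fin 6 → St) : Prop := ∀ j, j ≠ i0 → ω j = .U i0

/-- an unmatched vector obtained by choosing one of the two types of every matched state -/
def rsv (r : Fin 6 → Bool) (ω : Fin 6 → St) : Fin 6 → Fin 6 := fun i =>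
  match ω i with
  | .U k => k
  | .M k l => if r i then k else l

/-- the state of a vertex for an involution `mt` and types `τ` -/
noncomputable def stt {V : Type} (mt : V → V) (τ : V → Fin 6) (a : V) : St :=
  if mt a = a then .U (τ a) else .M (τ a) (τ (mt a))

/-- matched probability of part `i` for a family of distributions on states -/
noncomputable def mm (p : Fin 6 → St → ℝ) (i : Fin 6) : ℝ := ∑ k, ∑ l, p i (.M k l)

/-- expectation for independent states -/
noncomputable def Ex (p : Fin 6 → St → ℝ) (f : (Fin 6 → St) → ℝ) : ℝ :=
  ∑ ω : Fin 6 → St, (∏ i, p i (ω i)) * f ω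

/-- the cap `min(b, q/2 - q^2/4)` for the density inside a part -/
noncomputable def gam (b q : ℝ) : ℝ := min b (q / 2 - q ^ 2 / 4)

/-- the bound for the density of a link, `q` matched fractions, `u j i` fraction of part `j`
    unmatched of type `i` -/
noncomputable def FF (b : ℝ) (q : Fin 6 → ℝ) (u : Fin 6 → Fin 6 → ℝ) : ℝ :=
  (19 - ∑ i, q i - 3 * ∏ i, (1 - q i) + ∑ i, (∏ j ∈ univ.erase i, u j i) * (4 - 2 * q i)) / 4
    + ∑ i, gam b (q i)

/-! ### heavy and full pairs -/

/-- heavy pair: missing codegree at least n/100 -/
def Hv {V : Type} [Fintype V] (T : V → V → V → Prop) (π : V → Fin 6) (x y : V) : Prop :=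
  (1 / 100) * (Fintype.card V : ℝ) ≤ mis2 T π x y
/-- full pair: missing codegree at least 0.323 n -/
def Fl {V : Type} [Fintype V] (T : V → V → V → Prop) (π : V → Fin 6) (x y : V) : Prop :=
  (323 / 1000) * (Fintype.card V : ℝ) ≤ mis2 T π x y
/-- number of heavy partners -/
noncomputable def hh {V : Type} [Fintype V] (T : V → V → V → Prop) (π : V → Fin 6) (x : V) : ℝ :=
  c1 (fun y => Hv T π x y)
/-- number of `r` in the part of `x` with `x r y` a triple -/
noncomputable def zz {V : Type} [Fintype V] (T : V → V → V → Prop) (π : V → Fin 6) (x y : V) : ℝ :=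
  c1 (fun r => π r = π x ∧ T x r y)

end K4M
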