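import Pool.Agent.Lib.MP_4c59c5_co.Basic

/-!
# PairC (50 min)
Let `Bi a = A a ∧ π a = i`, `Bj` likewise; both are preserved by mt (see MEdge). Summing over the
involution in both variables, `4 * crs A π L i j = sum_{a in Bi, b in Bj} (ind (L a b) +
ind (L (mt a) b) + ind (L a (mt b)) + ind (L (mt a) (mt b)))`. Pointwise the bracket is at most
`w4 i j (stt mt τ a) (stt mt τ b)`:
* a, b unmatched: 4 ind (L a b), and L a b forces `Q i j (τ a)` and `Q i j (τ b)` (`hc`).
* a matched, b not: `2 (ind (L a b) + ind (L (mt a) b))`; not both (triangle a, mt a, b); if one holds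
  then one of the types of a, mt a is compatible and that of b is. Symmetric case alike (here
  compatible for b means `Q (π a) (π b) (τ b) = Q i j (τ b)`; note cc i j is used for both states).
* both matched: `ind (L a b) + ind (L a (mt b)) <= bn (Q i j (τ a))` (not both: triangle
  a, b, mt b), same for mt a: total <= cc of the state of a; symmetric for b: total <= min.
Here `cc i j (stt mt τ a) = bn (Q i j (τ a)) (+ bn (Q i j (τ (mt a))))`.
-/

set_option linter.unusedVariables false
set_option linter.unusedSectionVars false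

namespace K4M

open Finset
open scoped Classical

theorem pairc_point {V : Type} (L : V → V → Prop) (hs : ∀ a b, L a b → L b a)
    (htri : ∀ a b c, L a b → L a c → L b c → False) (π τ : V → Fin 6) (A : V → Prop) (mt : V → V)
    (h1 : ∀ a, mt (mt a) = a) (h2 : ∀ a, mt a ≠ a → L a (mt a) ∧ π (mt a) = π a ∧ A a)
    (hc : ∀ a b, L a b → π a ≠ π b → Q (π a) (π b) (τ a) = true ∧ Q (π a) (π b) (τ b) = true)
    (i j : Fin 6) (hij : i ≠ j) (a b : V) (ha : π a = i) (hb : π b = j) :
    ind (L a b) + ind (L (mt a) b) + ind (L a (mt b)) + ind (L (mt a) (mt b))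
      ≤ (w4 i j (stt mt τ a) (stt mt τ b) : ℝ) := by
  have hma : π (mt a) = i := by
    by_cases h : mt a = a
    · rw [h]; exact ha
    · rw [(h2 a h).2.1]; exact ha
  have hmb : π (mt b) = j := by
    by_cases h : mt b = b
    · rw [h]; exact hb
    · rw [(h2 b h).2.1]; exact hb
  have f1 : L a b → Q i j (τ a) = true ∧ Q i j (τ b) = true := by
    intro h; have := hc a b h (by rw [ha, hb]; exact hij); rwa [ha, hb] at this
  have f2 : L (mt a) b → Q i j (τ (mt a)) = true ∧ Q i j (τ b) = true := by
    intro h; have := hc _ _ h (by rw [hma, hb]; exact hij); rwa [hma, hb] at this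
  have f3 : L a (mt b) → Q i j (τ a) = true ∧ Q i j (τ (mt b)) = true := by
    intro h; have := hc _ _ h (by rw [ha, hmb]; exact hij); rwa [ha, hmb] at this
  have f4 : L (mt a) (mt b) → Q i j (τ (mt a)) = true ∧ Q i j (τ (mt b)) = true := by
    intro h; have := hc _ _ h (by rw [hma, hmb]; exact hij); rwa [hma, hmb] at this
  by_cases hA : mt a = a <;> by_cases hB : mt b = b
  · have e1 : stt mt τ a = .U (τ a) := by unfold stt; rw [if_pos hA]
    have e2 : stt mt τ b = .U (τ b) := by unfold stt; rw [if_pos hB]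
    rw [e1, e2, hA, hB]
    by_cases hL : L a b
    · obtain ⟨g1, g2⟩ := f1 hL
      simp only [w4, cc, bn, g1, g2, ind_of hL]; norm_num
    · rw [ind_of_not hL]
      simp only [add_zero]; exact Nat.cast_nonneg _
  · have e1 : stt mt τ a = .U (τ a) := by unfold stt; rw [if_pos hA]
    have e2 : stt mt τ b = .M (τ b) (τ (mt b)) := by unfold stt; rw [if_neg hB]
    rw [e1, e2, hA]
    rw [hA] at f2 f4
    have hbb := (h2 b hB).1
    by_cases hL : L a b
    · have hL' : ¬ L a (mt b) := fun h => htri a b (mt b) hL h hbb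
      obtain ⟨g1, g2⟩ := f1 hL
      rw [ind_of hL, ind_of_not hL']
      have : (2 : ℕ) ≤ w4 i j (.U (τ a)) (.M (τ b) (τ (mt b))) := by
        simp only [w4, cc, bn, g1, g2, if_true]
        rw [min_eq_left (by omega)]
      have h3 : ((2 : ℕ) : ℝ) ≤ (w4 i j (.U (τ a)) (.M (τ b) (τ (mt b))) : ℝ) := by
        exact_mod_cast this
      norm_num at h3 ⊢; linarith
    · rw [ind_of_not hL]
      by_cases hL' : L a (mt b)
      · obtain ⟨g1, g2⟩ := f3 hL'
        rw [ind_of hL']
        have : (2 : ℕ) ≤ w4 i j (.U (τ a)) (.M (τ b) (τ (mt b))) := by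
          simp only [w4, cc, bn, g1, g2, if_true]
          rw [min_eq_left (by omega)]
        have h3 : ((2 : ℕ) : ℝ) ≤ (w4 i j (.U (τ a)) (.M (τ b) (τ (mt b))) : ℝ) := by
          exact_mod_cast this
        norm_num at h3 ⊢; linarith
      · rw [ind_of_not hL']
        simp only [add_zero]; exact Nat.cast_nonneg _
  · have e1 : stt mt τ a = .M (τ a) (τ (mt a)) := by unfold stt; rw [if_neg hA]
    have e2 : stt mt τ b = .U (τ b) := by unfold stt; rw [if_pos hB]
    rw [e1, e2, hB]
    rw [hB] at f3 f4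
    have haa := (h2 a hA).1
    by_cases hL : L a b
    · have hL' : ¬ L (mt a) b := fun h => htri a (mt a) b haa hL h
      obtain ⟨g1, g2⟩ := f1 hL
      rw [ind_of hL, ind_of_not hL']
      have : (2 : ℕ) ≤ w4 i j (.M (τ a) (τ (mt a))) (.U (τ b)) := by
        simp only [w4, cc, bn, g1, g2, if_true]
        rw [min_eq_left (by omega)]
      have h3 : ((2 : ℕ) : ℝ) ≤ (w4 i j (.M (τ a) (τ (mt a))) (.U (τ b)) : ℝ) := by
        exact_mod_cast this
      norm_num at h3 ⊢; linarith
    · rw [ind_of_not hL]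
      by_cases hL' : L (mt a) b
      · obtain ⟨g1, g2⟩ := f2 hL'
        rw [ind_of hL']
        have : (2 : ℕ) ≤ w4 i j (.M (τ a) (τ (mt a))) (.U (τ b)) := by
          simp only [w4, cc, bn, g1, g2, if_true]
          rw [min_eq_left (by omega)]
        have h3 : ((2 : ℕ) : ℝ) ≤ (w4 i j (.M (τ a) (τ (mt a))) (.U (τ b)) : ℝ) := by
          exact_mod_cast this
        norm_num at h3 ⊢; linarith
      · rw [ind_of_not hL']
        simp only [add_zero]; exact Nat.cast_nonneg _
  · have e1 : stt mt τ a = .M (τ a) (τ (mt a)) := by unfold stt; rw [if_neg hA]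
    have e2 : stt mt τ b = .M (τ b) (τ (mt b)) := by unfold stt; rw [if_neg hB]
    rw [e1, e2]
    have haa := (h2 a hA).1
    have hbb := (h2 b hB).1
    have t1 : L a b → ¬ L (mt a) b := fun h h' => htri a (mt a) b haa h h'
    have t2 : L a b → ¬ L a (mt b) := fun h h' => htri a b (mt b) h h' hbb
    have t3 : L (mt a) b → ¬ L (mt a) (mt b) := fun h h' => htri (mt a) b (mt b) h h' hbb
    have t4 : L a (mt b) → ¬ L (mt a) (mt b) := fun h h' => htri a (mt a) (mt b) haa h h'
    have key : ∀ k : ℕ, k ≤ w4 i j (.M (τ a) (τ (mt a))) (.M (τ b) (τ (mt b))) →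
        (k : ℝ) ≤ (w4 i j (.M (τ a) (τ (mt a))) (.M (τ b) (τ (mt b))) : ℝ) := fun k hk => by
      exact_mod_cast hk
    by_cases hL : L a b
    · rw [ind_of hL, ind_of_not (t1 hL), ind_of_not (t2 hL)]
      obtain ⟨g1, g2⟩ := f1 hL
      by_cases hL' : L (mt a) (mt b)
      · obtain ⟨g3, g4⟩ := f4 hL'
        rw [ind_of hL']
        have h3 := key 2 (by simp only [w4, cc, bn, g1, g2, g3, g4, if_true]; decide)
        norm_num at h3 ⊢; linarith
      · rw [ind_of_not hL']
        have h3 := key 1 (by
          simp only [w4, cc, bn, g1, g2, if_true]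
          exact le_min (by omega) (by omega))
        norm_num at h3 ⊢; linarith
    · rw [ind_of_not hL]
      by_cases hL1 : L (mt a) b
      · obtain ⟨g1, g2⟩ := f2 hL1
        rw [ind_of hL1, ind_of_not (t3 hL1)]
        by_cases hL2 : L a (mt b)
        · obtain ⟨g3, g4⟩ := f3 hL2
          rw [ind_of hL2]
          have h3 := key 2 (by simp only [w4, cc, bn, g1, g2, g3, g4, if_true]; decide)
          norm_num at h3 ⊢; linarith
        · rw [ind_of_not hL2]
          have h3 := key 1 (by
            simp only [w4, cc, bn, g1, g2, if_true]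
            exact le_min (by omega) (by omega))
          norm_num at h3 ⊢; linarith
      · rw [ind_of_not hL1]
        by_cases hL2 : L a (mt b)
        · obtain ⟨g3, g4⟩ := f3 hL2
          rw [ind_of hL2, ind_of_not (t4 hL2)]
          have h3 := key 1 (by
            simp only [w4, cc, bn, g3, g4, if_true]
            exact le_min (by omega) (by omega))
          norm_num at h3 ⊢; linarith
        · rw [ind_of_not hL2]
          by_cases hL3 : L (mt a) (mt b)
          · obtain ⟨g3, g4⟩ := f4 hL3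
            rw [ind_of hL3]
            have h3 := key 1 (by
              simp only [w4, cc, bn, g3, g4, if_true]
              exact le_min (by omega) (by omega))
            norm_num at h3 ⊢; linarith
          · rw [ind_of_not hL3]
            simp only [add_zero]; exact Nat.cast_nonneg _

theorem pair_c {V : Type} [Fintype V] (L : V → V → Prop) (hs : ∀ a b, L a b → L b a)
    (htri : ∀ a b c, L a b → L a c → L b c → False) (π τ : V → Fin 6) (A : V → Prop) (mt : V → V)
    (h1 : ∀ a, mt (mt a) = a) (h2 : ∀ a, mt a ≠ a → L a (mt a) ∧ π (mt a) = π a ∧ A a)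
    (hc : ∀ a b, L a b → π a ≠ π b → Q (π a) (π b) (τ a) = true ∧ Q (π a) (π b) (τ b) = true)
    (i j : Fin 6) (hij : i ≠ j) :
    4 * crs A π L i j ≤ ∑ a, ∑ b, ind (A a ∧ π a = i) * ind (A b ∧ π b = j)
      * (w4 i j (stt mt τ a) (stt mt τ b) : ℝ) := by
  have hB : ∀ k a, (A (mt a) ∧ π (mt a) = k) ↔ (A a ∧ π a = k) := by
    intro k a
    by_cases h : mt a = a
    · rw [h]
    · have h3 := h2 a h
      have h4 : mt (mt a) ≠ mt a := by rw [h1]; exact fun h' => h h'.symm
      have h5 := h2 (mt a) h4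
      rw [h3.2.1]
      exact ⟨fun hh => ⟨h3.2.2, hh.2⟩, fun hh => ⟨h5.2.2, hh.2⟩⟩
  let e : Equiv.Perm V := Function.Involutive.toPerm mt h1
  have he : ∀ a, e a = mt a := fun a => rfl
  obtain ⟨F, hF⟩ : ∃ F : V → V → ℝ, F = fun a b =>
      ind (A a ∧ π a = i) * ind (A b ∧ π b = j) * ind (L a b) := ⟨_, rfl⟩
  have hS : crs A π L i j = ∑ a, ∑ b, F a b := by
    unfold crs c2
    rw [hF]
    refine sum_congr rfl fun a _ => sum_congr rfl fun b _ => ?_
    rw [ind_and (A a ∧ π a = i), ind_and (A b ∧ π b = j)]; ring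
  have hS1 : ∑ a, ∑ b, F a b = ∑ a, ∑ b, F (mt a) b :=
    (Equiv.sum_comp e (fun a => ∑ b, F a b)).symm
  have hS2 : ∑ a, ∑ b, F a b = ∑ a, ∑ b, F a (mt b) :=
    sum_congr rfl fun a _ => (Equiv.sum_comp e (fun b => F a b)).symm
  have hS3 : ∑ a, ∑ b, F a b = ∑ a, ∑ b, F (mt a) (mt b) := by
    rw [hS1]
    exact sum_congr rfl fun a _ => (Equiv.sum_comp e (fun b => F (mt a) b)).symm
  have h4 : 4 * crs A π L i j
      = ∑ a, ∑ b, (F a b + F (mt a) b + F a (mt b) + F (mt a) (mt b)) := by
    simp only [sum_add_distrib]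
    rw [← hS1, ← hS2, ← hS3, hS]; ring
  rw [h4]
  refine sum_le_sum fun a _ => sum_le_sum fun b _ => ?_
  have h5 : F a b + F (mt a) b + F a (mt b) + F (mt a) (mt b)
      = ind (A a ∧ π a = i) * ind (A b ∧ π b = j) *
        (ind (L a b) + ind (L (mt a) b) + ind (L a (mt b)) + ind (L (mt a) (mt b))) := by
    rw [hF]
    simp only
    rw [ind_congr (hB i a), ind_congr (hB j b)]
    ring
  rw [h5]
  by_cases ha : A a ∧ π a = i
  · by_cases hb : A b ∧ π b = j
    · apply mul_le_mul_of_nonneg_left
        (pairc_point L hs htri π τ A mt h1 h2 hc i j hij a b ha.2 hb.2)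
      exact mul_nonneg (ind_nonneg _) (ind_nonneg _)
    · rw [ind_of_not hb]; simp
  · rw [ind_of_not ha]; simp

end K4M
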