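import Pool.Agent.Lib.MP_4c59c5_co.MEdge
import Pool.Agent.Lib.MP_4c59c5_co.PairC
import Pool.Agent.Lib.MP_4c59c5_co.Cross

/-!
# Dist (75 min)
Let `ν i s = c1 (fun a => (A a ∧ π a = i) ∧ stt mt τ a = s)`. Then
`sum_{a,b} ind ind w4 (stt a) (stt b) = sum_{s,t} ν i s * ν j t * w4 i j s t` (group by states).
Define `p i s = ν i s / m + (if s = U i then 1 - c1 (A, π = i)/m else 0)`: non-negative (`hm`), sum 1.
`ν i s <= m * p i s`, so with `pair_c`:
`2 sum_{i<j} crs i j <= (1/2) sum_{i<j} sum_{s,t} ν ν w4 <= (m^2/2) sum_{i<j} sum_{s,t} p p w4`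
and `cross` applies. `mm p i = qf i` (matched vertices of part i), and for j ≠ i
`p j (U i) = uf j i` (the extra mass sits at `U j`), because `stt a = U k` iff mt a = a and τ a = k.
So `2 sum_{i<j} crs i j <= (m^2/2) (19 - sum q - 3 prod (1-q) + sum_i prod u (4 - 2 q_i))
= 2 m^2 * (that)/4`.
Inner: `m_edge` with `c1 (A, π = i) <= m`: `crs i i <= m^2 (q - q^2/2) = 2 m^2 (q/2 - q^2/4)`, and
`crs i i <= 2 b m^2` (hypothesis); so `crs i i <= 2 m^2 gam b (q i)`. Add: `2 m^2 FF b q u`.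
-/

set_option linter.unusedVariables false
set_option linter.unusedSectionVars false

namespace K4M

open Finset
open scoped Classical

section distaux
variable {V : Type} [Fintype V]

/-- number of vertices of part `i` with state `s` -/
noncomputable def distN (π τ : V → Fin 6) (A : V → Prop) (mt : V → V) (i : Fin 6) (s : St) : ℝ :=
  c1 (fun a => (A a ∧ π a = i) ∧ stt mt τ a = s)

/-- the distribution on states in part `i` -/
noncomputable def distP (π τ : V → Fin 6) (A : V → Prop) (mt : V → V) (m : ℝ) (i : Fin 6)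
    (s : St) : ℝ :=
  distN π τ A mt i s / m + (if s = .U i then 1 - c1 (fun a => A a ∧ π a = i) / m else 0)

theorem distN_nonneg (π τ : V → Fin 6) (A : V → Prop) (mt : V → V) (i : Fin 6) (s : St) :
    0 ≤ distN π τ A mt i s := c1_nonneg _

theorem dist_ind_sum {α : Type} [Fintype α] (x : α) (f : α → ℝ) :
    ∑ s, ind (x = s) * f s = f x := by
  rw [Finset.sum_eq_single x]
  · rw [ind_of rfl, one_mul]
  · intro b _ hb
    rw [ind_of_not (fun h => hb h.symm), zero_mul]
  · intro h; exact absurd (mem_univ _) h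

theorem distN_sum (π τ : V → Fin 6) (A : V → Prop) (mt : V → V) (i : Fin 6) :
    ∑ s, distN π τ A mt i s = c1 (fun a => A a ∧ π a = i) := by
  unfold distN c1
  rw [sum_comm]
  refine sum_congr rfl fun a _ => ?_
  have h1 : ∀ s, ind ((A a ∧ π a = i) ∧ stt mt τ a = s)
      = ind (stt mt τ a = s) * ind (A a ∧ π a = i) := by
    intro s
    rw [ind_and (A a ∧ π a = i), mul_comm]
  rw [Finset.sum_congr rfl fun s _ => h1 s]
  exact dist_ind_sum (stt mt τ a) (fun _ => ind (A a ∧ π a = i))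

theorem distN_pair (π τ : V → Fin 6) (A : V → Prop) (mt : V → V) (i j : Fin 6)
    (w : St → St → ℝ) :
    ∑ a, ∑ b, ind (A a ∧ π a = i) * ind (A b ∧ π b = j) * w (stt mt τ a) (stt mt τ b)
      = ∑ s, ∑ t, distN π τ A mt i s * distN π τ A mt j t * w s t := by
  have h1 : ∀ a b : V, ind (A a ∧ π a = i) * ind (A b ∧ π b = j) * w (stt mt τ a) (stt mt τ b)
      = ∑ s, ∑ t, ind ((A a ∧ π a = i) ∧ stt mt τ a = s) * ind ((A b ∧ π b = j) ∧ stt mt τ b = t)
          * w s t := by
    intro a b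
    have h2 : ∀ s, ∑ t, ind ((A a ∧ π a = i) ∧ stt mt τ a = s)
        * ind ((A b ∧ π b = j) ∧ stt mt τ b = t) * w s t
        = ind (stt mt τ a = s) * (ind (A a ∧ π a = i) * ind (A b ∧ π b = j) * w s (stt mt τ b)) := by
      intro s
      have h3 : ∀ t, ind ((A a ∧ π a = i) ∧ stt mt τ a = s)
          * ind ((A b ∧ π b = j) ∧ stt mt τ b = t) * w s t
          = ind (stt mt τ b = t) *
            (ind (stt mt τ a = s) * (ind (A a ∧ π a = i) * ind (A b ∧ π b = j) * w s t)) := by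
        intro t
        rw [ind_and (A a ∧ π a = i), ind_and (A b ∧ π b = j)]
        ring
      rw [Finset.sum_congr rfl fun t _ => h3 t]
      exact dist_ind_sum (stt mt τ b) (fun t =>
        ind (stt mt τ a = s) * (ind (A a ∧ π a = i) * ind (A b ∧ π b = j) * w s t))
    rw [Finset.sum_congr rfl fun s _ => h2 s]
    exact (dist_ind_sum (stt mt τ a) (fun s =>
      ind (A a ∧ π a = i) * ind (A b ∧ π b = j) * w s (stt mt τ b))).symm
  rw [Finset.sum_congr rfl fun a _ => Finset.sum_congr rfl fun b _ => h1 a b]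
  -- bring the sums over states outside
  have h4 : ∑ a, ∑ b, ∑ s, ∑ t, ind ((A a ∧ π a = i) ∧ stt mt τ a = s)
      * ind ((A b ∧ π b = j) ∧ stt mt τ b = t) * w s t
      = ∑ s, ∑ t, ∑ a, ∑ b, ind ((A a ∧ π a = i) ∧ stt mt τ a = s)
      * ind ((A b ∧ π b = j) ∧ stt mt τ b = t) * w s t := by
    calc _ = ∑ a, ∑ s, ∑ b, ∑ t, ind ((A a ∧ π a = i) ∧ stt mt τ a = s)
      * ind ((A b ∧ π b = j) ∧ stt mt τ b = t) * w s t :=
          Finset.sum_congr rfl fun a _ => sum_comm
      _ = ∑ s, ∑ a, ∑ b, ∑ t, ind ((A a ∧ π a = i) ∧ stt mt τ a = s)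
      * ind ((A b ∧ π b = j) ∧ stt mt τ b = t) * w s t := sum_comm
      _ = ∑ s, ∑ a, ∑ t, ∑ b, ind ((A a ∧ π a = i) ∧ stt mt τ a = s)
      * ind ((A b ∧ π b = j) ∧ stt mt τ b = t) * w s t :=
          Finset.sum_congr rfl fun s _ => Finset.sum_congr rfl fun a _ => sum_comm
      _ = _ := Finset.sum_congr rfl fun s _ => sum_comm
  rw [h4]
  refine Finset.sum_congr rfl fun s _ => Finset.sum_congr rfl fun t _ => ?_
  unfold distN c1
  rw [Finset.sum_mul_sum, Finset.sum_mul]
  refine Finset.sum_congr rfl fun a _ => ?_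
  rw [Finset.sum_mul]

theorem distP_nonneg (π τ : V → Fin 6) (A : V → Prop) (mt : V → V) (m : ℝ) (hm0 : 0 < m)
    (hm : ∀ i, c1 (fun a => A a ∧ π a = i) ≤ m) (i : Fin 6) (s : St) :
    0 ≤ distP π τ A mt m i s := by
  unfold distP
  refine add_nonneg (div_nonneg (distN_nonneg _ _ _ _ _ _) hm0.le) ?_
  split_ifs
  · rw [sub_nonneg, div_le_one hm0]; exact hm i
  · exact le_refl _

theorem distN_le (π τ : V → Fin 6) (A : V → Prop) (mt : V → V) (m : ℝ) (hm0 : 0 < m)
    (hm : ∀ i, c1 (fun a => A a ∧ π a = i) ≤ m) (i : Fin 6) (s : St) :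
    distN π τ A mt i s ≤ m * distP π τ A mt m i s := by
  unfold distP
  have h1 : 0 ≤ (if s = .U i then 1 - c1 (fun a => A a ∧ π a = i) / m else 0) := by
    split_ifs
    · rw [sub_nonneg, div_le_one hm0]; exact hm i
    · exact le_refl _
  have h2 : m * (distN π τ A mt i s / m) = distN π τ A mt i s := by field_simp
  rw [mul_add, h2]
  have := mul_nonneg hm0.le h1
  linarith

theorem distP_sum (π τ : V → Fin 6) (A : V → Prop) (mt : V → V) (m : ℝ) (hm0 : 0 < m)
    (i : Fin 6) : ∑ s, distP π τ A mt m i s = 1 := by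
  unfold distP
  rw [Finset.sum_add_distrib, ← Finset.sum_div, distN_sum]
  rw [Finset.sum_ite_eq' univ (St.U i)]
  simp

theorem distP_U (π τ : V → Fin 6) (A : V → Prop) (mt : V → V) (m : ℝ) (j i : Fin 6)
    (hij : i ≠ j) : distP π τ A mt m j (.U i) = uf A π mt τ m j i := by
  unfold distP uf distN
  have h1 : ¬ (St.U i = St.U j) := by
    intro h; exact hij (St.U.inj h)
  rw [if_neg h1, add_zero]
  congr 1
  refine c1_congr fun a => ?_
  constructor
  · rintro ⟨h2, h3⟩
    refine ⟨h2, ?_⟩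
    unfold stt at h3
    split_ifs at h3 with h4
    exact ⟨h4, St.U.inj h3⟩
  · rintro ⟨h2, h3, h4⟩
    refine ⟨h2, ?_⟩
    unfold stt
    rw [if_pos h3, h4]

theorem distP_mm (π τ : V → Fin 6) (A : V → Prop) (mt : V → V) (m : ℝ) (i : Fin 6) :
    mm (distP π τ A mt m) i = qf A π mt m i := by
  unfold mm qf distP
  have h1 : ∀ k l : Fin 6, (if St.M k l = St.U i then 1 - c1 (fun a => A a ∧ π a = i) / m else 0)
      = 0 := by
    intro k l; rw [if_neg]; intro h; cases h
  have h2 : ∀ k l : Fin 6, distN π τ A mt i (.M k l) / m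
      + (if St.M k l = St.U i then 1 - c1 (fun a => A a ∧ π a = i) / m else 0)
      = distN π τ A mt i (.M k l) / m := by
    intro k l; rw [h1, add_zero]
  rw [Finset.sum_congr rfl fun k _ => Finset.sum_congr rfl fun l _ => h2 k l]
  rw [Finset.sum_congr rfl fun k _ => (Finset.sum_div univ _ m).symm, ← Finset.sum_div]
  congr 1
  unfold distN c1
  rw [Finset.sum_congr rfl fun k _ => sum_comm, sum_comm]
  refine Finset.sum_congr rfl fun a _ => ?_
  by_cases h3 : mt a = a
  · have h4 : ∀ k l : Fin 6, ind ((A a ∧ π a = i) ∧ stt mt τ a = .M k l) = 0 := by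
      intro k l
      refine ind_of_not ?_
      rintro ⟨_, h5⟩
      unfold stt at h5
      rw [if_pos h3] at h5
      cases h5
    rw [Finset.sum_eq_zero fun k _ => Finset.sum_eq_zero fun l _ => h4 k l]
    symm
    exact ind_of_not fun h => h.2 h3
  · have h4 : ∀ k l : Fin 6, ind ((A a ∧ π a = i) ∧ stt mt τ a = .M k l)
        = ind (τ a = k) * (ind (τ (mt a) = l) * ind (A a ∧ π a = i)) := by
      intro k l
      rw [← ind_and, ← ind_and]
      refine ind_congr ?_
      unfold stt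
      rw [if_neg h3]
      constructor
      · rintro ⟨h5, h6⟩
        injection h6 with h7 h8
        exact ⟨h7, h8, h5⟩
      · rintro ⟨h5, h6, h7⟩
        exact ⟨h7, by rw [h5, h6]⟩
    rw [Finset.sum_congr rfl fun k _ => Finset.sum_congr rfl fun l _ => h4 k l]
    rw [Finset.sum_congr rfl fun k _ => (Finset.mul_sum univ _ (ind (τ a = k))).symm]
    rw [dist_ind_sum (τ a) (fun _ => ∑ l, ind (τ (mt a) = l) * ind (A a ∧ π a = i)),
      dist_ind_sum (τ (mt a)) (fun _ => ind (A a ∧ π a = i))]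
    refine ind_congr ?_
    exact ⟨fun h => ⟨h, h3⟩, fun h => h.1⟩

end distaux

theorem dist {V : Type} [Fintype V] (L : V → V → Prop) (hs : ∀ a b, L a b → L b a)
    (htri : ∀ a b c, L a b → L a c → L b c → False) (π τ : V → Fin 6) (A : V → Prop) (mt : V → V)
    (h1 : ∀ a, mt (mt a) = a) (h2 : ∀ a, mt a ≠ a → L a (mt a) ∧ π (mt a) = π a ∧ A a)
    (h3 : ∀ a b, A a → A b → π a = π b → mt a = a → mt b = b → ¬ L a b)
    (hc : ∀ a b, L a b → π a ≠ π b → Q (π a) (π b) (τ a) = true ∧ Q (π a) (π b) (τ b) = true)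
    (m b : ℝ) (hm0 : 0 < m) (hm : ∀ i, c1 (fun a => A a ∧ π a = i) ≤ m)
    (hinn : ∀ i, crs A π L i i ≤ 2 * b * m ^ 2) :
    ∑ i, crs A π L i i + 2 * ∑ i, ∑ j, (if i < j then crs A π L i j else 0)
      ≤ 2 * m ^ 2 * FF b (qf A π mt m) (uf A π mt τ m) := by
  -- cross pairs
  have hX := cross (distP π τ A mt m) (distP_nonneg π τ A mt m hm0 hm)
    (distP_sum π τ A mt m hm0)
  have hpair : ∀ i j : Fin 6, i < j → 4 * crs A π L i j ≤
      m ^ 2 * ∑ s, ∑ t, distP π τ A mt m i s * distP π τ A mt m j t * (w4 i j s t : ℝ) := by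
    intro i j hij
    refine (pair_c L hs htri π τ A mt h1 h2 hc i j hij.ne).trans ?_
    rw [distN_pair π τ A mt i j (fun s t => (w4 i j s t : ℝ))]
    rw [Finset.mul_sum]
    refine Finset.sum_le_sum fun s _ => ?_
    rw [Finset.mul_sum]
    refine Finset.sum_le_sum fun t _ => ?_
    have e1 := distN_le π τ A mt m hm0 hm i s
    have e2 := distN_le π τ A mt m hm0 hm j t
    have e3 := distN_nonneg π τ A mt i s
    have e4 := distN_nonneg π τ A mt j t
    have e5 : distN π τ A mt i s * distN π τ A mt j t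
        ≤ (m * distP π τ A mt m i s) * (m * distP π τ A mt m j t) :=
      mul_le_mul e1 e2 e4 (e3.trans e1)
    have e6 : (0 : ℝ) ≤ (w4 i j s t : ℝ) := Nat.cast_nonneg _
    calc distN π τ A mt i s * distN π τ A mt j t * (w4 i j s t : ℝ)
        ≤ (m * distP π τ A mt m i s) * (m * distP π τ A mt m j t) * (w4 i j s t : ℝ) :=
          mul_le_mul_of_nonneg_right e5 e6
      _ = m ^ 2 * (distP π τ A mt m i s * distP π τ A mt m j t * (w4 i j s t : ℝ)) := by ring
  have hcross : 4 * ∑ i, ∑ j, (if i < j then crs A π L i j else 0) ≤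
      m ^ 2 * (∑ i, ∑ j, (if i < j then
        ∑ s, ∑ t, distP π τ A mt m i s * distP π τ A mt m j t * (w4 i j s t : ℝ) else 0)) := by
    rw [Finset.mul_sum, Finset.mul_sum]
    refine Finset.sum_le_sum fun i _ => ?_
    rw [Finset.mul_sum, Finset.mul_sum]
    refine Finset.sum_le_sum fun j _ => ?_
    by_cases hij : i < j
    · rw [if_pos hij, if_pos hij]; exact hpair i j hij
    · rw [if_neg hij, if_neg hij]; simp
  -- rewrite the bound
  have hmm : ∀ i, mm (distP π τ A mt m) i = qf A π mt m i := distP_mm π τ A mt m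
  have hprod : ∀ i, (∏ j ∈ univ.erase i, distP π τ A mt m j (.U i))
      = ∏ j ∈ univ.erase i, uf A π mt τ m j i := by
    intro i
    refine Finset.prod_congr rfl fun j hj => ?_
    exact distP_U π τ A mt m j i (Finset.ne_of_mem_erase hj).symm
  have hX2 : ∑ i, ∑ j, (if i < j then
      ∑ s, ∑ t, distP π τ A mt m i s * distP π τ A mt m j t * (w4 i j s t : ℝ) else 0)
      ≤ 19 - ∑ i, qf A π mt m i - 3 * ∏ i, (1 - qf A π mt m i)
        + ∑ i, (∏ j ∈ univ.erase i, uf A π mt τ m j i) * (4 - 2 * qf A π mt m i) := by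
    refine hX.trans (le_of_eq ?_)
    rw [Finset.sum_congr rfl fun i _ => hmm i, Finset.prod_congr rfl fun i _ => by rw [hmm i]]
    congr 1
    refine Finset.sum_congr rfl fun i _ => ?_
    rw [hprod i, hmm i]
  -- inner pairs
  have hin : ∀ i, crs A π L i i ≤ 2 * m ^ 2 * gam b (qf A π mt m i) := by
    intro i
    have e1 := m_edge L hs htri π A mt h1 h2 h3 i
    have e2 : c1 (fun a => (A a ∧ π a = i) ∧ mt a ≠ a) = m * qf A π mt m i := by
      unfold qf; field_simp
    have e3 : 0 ≤ qf A π mt m i := by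
      unfold qf; exact div_nonneg (c1_nonneg _) hm0.le
    have e4 := hm i
    have e5 : crs A π L i i ≤ 2 * m ^ 2 * (qf A π mt m i / 2 - qf A π mt m i ^ 2 / 4) := by
      rw [e2] at e1
      have e6 : m * qf A π mt m i * c1 (fun a => A a ∧ π a = i) ≤ m * qf A π mt m i * m :=
        mul_le_mul_of_nonneg_left e4 (mul_nonneg hm0.le e3)
      nlinarith
    unfold gam
    rcases min_choice b (qf A π mt m i / 2 - qf A π mt m i ^ 2 / 4) with hmin | hmin
    · rw [hmin]
      have := hinn i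
      linarith
    · rw [hmin]; exact e5
  have hinS : ∑ i, crs A π L i i ≤ 2 * m ^ 2 * ∑ i, gam b (qf A π mt m i) := by
    rw [Finset.mul_sum]
    exact Finset.sum_le_sum fun i _ => hin i
  have hm2 : 0 ≤ m ^ 2 := sq_nonneg m
  have hX3 := mul_le_mul_of_nonneg_left hX2 hm2
  unfold FF
  set C := 19 - ∑ i, qf A π mt m i - 3 * ∏ i, (1 - qf A π mt m i)
        + ∑ i, (∏ j ∈ univ.erase i, uf A π mt τ m j i) * (4 - 2 * qf A π mt m i) with hC
  set G := ∑ i, gam b (qf A π mt m i)
  have e7 : 2 * m ^ 2 * (C / 4 + G) = (m ^ 2 * C) / 2 + 2 * m ^ 2 * G := by ring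
  rw [e7]
  linarith

theorem dist_sum {V : Type} [Fintype V] (π τ : V → Fin 6) (A : V → Prop) (mt : V → V) (m : ℝ)
    (hm0 : 0 < m) (hm : ∀ i, c1 (fun a => A a ∧ π a = i) ≤ m) :
    (∀ i, 0 ≤ qf A π mt m i) ∧ (∀ j i, 0 ≤ uf A π mt τ m j i) ∧
      ∀ j, qf A π mt m j + ∑ i ∈ univ.erase j, uf A π mt τ m j i ≤ 1 := by
  refine ⟨fun i => ?_, fun j i => ?_, fun j => ?_⟩
  · unfold qf; exact div_nonneg (c1_nonneg _) hm0.le
  · unfold uf; exact div_nonneg (c1_nonneg _) hm0.le
  · have e1 := distP_sum π τ A mt m hm0 j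
    rw [cross_sum] at e1
    have e2 : ∑ k, ∑ l, distP π τ A mt m j (.M k l) = qf A π mt m j := distP_mm π τ A mt m j
    rw [e2] at e1
    have e3 : ∑ i ∈ univ.erase j, uf A π mt τ m j i
        = ∑ i ∈ univ.erase j, distP π τ A mt m j (.U i) :=
      Finset.sum_congr rfl fun i hi => (distP_U π τ A mt m j i (Finset.ne_of_mem_erase hi)).symm
    have e4 : ∑ i ∈ univ.erase j, distP π τ A mt m j (.U i) ≤ ∑ k, distP π τ A mt m j (.U k) :=
      Finset.sum_le_sum_of_subset_of_nonneg (Finset.erase_subset _ _)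
        (fun k _ _ => distP_nonneg π τ A mt m hm0 hm j _)
    linarith

end K4M
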