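import Pool.Agent.Lib.MP_4c59c5_co.ExApi

/-!
# ExoStep (30 min)
Take an extremal `T` on `Fin m` (`exists_exo`). For every vertex `v` let
`f : Option (Fin m) → Fin m`, `f none = v`, `f (some x) = x`. The pull-back
`fun x y z => T (f x) (f y) (f z)` on `Option (Fin m)` (`m + 1` vertices) is `IsG`
(`IsG.comap`), and its `c3` is `c3 T + 3 c2 (T v)`: triples with no `none` give `c3 T`, with
exactly one `none` (three positions, symmetric) `c2 (T v)` each, and with two `none` the relation
`T v v z` is false (`irr`). So `c3 T + 3 c2 (T v) <= exo (m+1)` by `le_exo`. Sum over `v`: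
`m c3 T + 3 c3 T <= m exo (m+1)` (`c3_eq_sum`).
-/

set_option linter.unusedVariables false
set_option linter.unusedSectionVars false

namespace K4M

open Finset
open scoped Classical

theorem exostep_option {m : ℕ} (T : Fin m → Fin m → Fin m → Prop) (hT : IsG T) (v : Fin m) :
    c3 (fun x y z : Option (Fin m) => T (x.getD v) (y.getD v) (z.getD v)) =
      c3 T + 3 * c2 (T v) := by
  have h12 : ∀ z, ind (T v v z) = 0 := fun z => ind_of_not (hT.irr v z)
  have h13 : ∀ y, ind (T v y v) = 0 := fun y => ind_of_not fun h => hT.irr v y (hT.s23 _ _ _ h)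
  have h23 : ∀ x, ind (T x v v) = 0 := fun x =>
    ind_of_not fun h => hT.irr v x (hT.s23 _ _ _ (hT.s12 _ _ _ h))
  have e1 : (∑ x : Fin m, ∑ z : Fin m, ind (T x v z)) = c2 (T v) := by
    unfold c2
    refine sum_congr rfl fun x _ => sum_congr rfl fun z _ => ?_
    exact ind_congr (hT.iff12 x v z)
  have e2 : (∑ x : Fin m, ∑ y : Fin m, ind (T x y v)) = c2 (T v) := by
    unfold c2
    refine sum_congr rfl fun x _ => sum_congr rfl fun y _ => ?_
    exact ind_congr ((hT.iff23 x y v).trans (hT.iff12 x v y))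
  have e3 : (∑ y : Fin m, ∑ z : Fin m, ind (T v y z)) = c2 (T v) := rfl
  have e4 : (∑ x : Fin m, ∑ y : Fin m, ∑ z : Fin m, ind (T x y z)) = c3 T := rfl
  unfold c3
  simp only [Fintype.sum_option, Option.getD_none, Option.getD_some, h12, h13, h23,
    sum_const_zero, zero_add, sum_add_distrib, e1, e2, e3]
  ring

theorem exo_step (m : ℕ) : ((m : ℝ) + 3) * exo m ≤ m * exo (m + 1) := by
  obtain ⟨T, hT, hc⟩ := exists_exo (Fin m)
  rw [Fintype.card_fin] at hc
  have h1 : ∀ v : Fin m, c3 T + 3 * c2 (T v) ≤ exo (m + 1) := by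
    intro v
    have h2 := le_exo (hT.comap (fun o : Option (Fin m) => o.getD v))
    rw [exostep_option T hT v, Fintype.card_option, Fintype.card_fin] at h2
    exact h2
  have h3 : ∑ v : Fin m, (c3 T + 3 * c2 (T v)) ≤ ∑ v : Fin m, exo (m + 1) :=
    sum_le_sum fun v _ => h1 v
  rw [sum_add_distrib, ← mul_sum, ← c3_eq_sum, sum_const, sum_const, card_univ,
    Fintype.card_fin, nsmul_eq_mul, nsmul_eq_mul, hc] at h3
  linarith

end K4M
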