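import Pool.Agent.Lib.MP_4c59c5_co.Basic

/-!
# LocP (50 min, real polynomial inequality, imports only Basic)
Put `d i = x i - n/6`, so `sum d = 0`, `|d i| <= n/60`. Every point is in five blocks and every
pair in two blocks (`Q_pair`), hence (expand)
`pat6 x = (60/216) n^3 - n * sum d^2 + pat6 d`
(constant term: 60 (n/6)^3; linear term 0; quadratic term (n/6) * 3 * 2 * 2 * e2(d) * ... : in
ordered form `3 (n/6) * sum_{j,k} 2 [j ≠ k] d_j d_k = n * ((sum d)^2 - sum d^2) = - n sum d^2`), and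
`sum x^3 = n^3/36 + (n/2) sum d^2 + sum d^3`.
`|pat6 d| <= (n/60) * 10 * sum d^2`: for a block `|d_i d_j d_k| <= (n/60) (d_i^2 + d_j^2 + d_k^2)/3`
(60 ordered triples, each index in 30 of them at one of 3 positions: total coefficient 10).
`|sum d^3| <= (n/60) sum d^2`. So the left side is at most
`(10+P)/36 n^3 + n sum d^2 (-1 + 1/6 + P/2 + P/60)` and `-1 + 1/6 + 1/6 + 1/180 <= -1/2`.
-/

set_option linter.unusedVariables false
set_option linter.unusedSectionVars false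

namespace K4M

open Finset
open scoped Classical

theorem locp_pat (x : Fin 6 → ℝ) : pat6 x = 6 * (x 0 * x 1 * x 5 + x 1 * x 2 * x 5 +
    x 2 * x 3 * x 5 + x 3 * x 4 * x 5 + x 0 * x 4 * x 5 + x 0 * x 1 * x 3 + x 1 * x 2 * x 4 +
    x 0 * x 2 * x 3 + x 1 * x 3 * x 4 + x 0 * x 2 * x 4) := by
  have h : ∀ i j k : Fin 6, (if Q i j k = true then x i * x j * x k else 0) =
      (if Q i j k then 1 else 0 : ℕ) * (x i * x j * x k) := by
    intro i j k
    by_cases hq : Q i j k = true <;> simp [hq]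
  unfold pat6
  simp only [h, Fin.sum_univ_six]
  simp only [Q, Nat.testBit, show ((0 : Fin 6).val) = 0 from rfl,
    show ((1 : Fin 6).val) = 1 from rfl, show ((2 : Fin 6).val) = 2 from rfl,
    show ((3 : Fin 6).val) = 3 from rfl, show ((4 : Fin 6).val) = 4 from rfl,
    show ((5 : Fin 6).val) = 5 from rfl]
  norm_num [Nat.shiftRight_eq_div_pow]
  ring

theorem locp_pair {m a b c : ℝ} (hm : 0 ≤ m) (hc : |c| ≤ m) :
    a * b * c ≤ m * (a ^ 2 + b ^ 2) / 2 := by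
  have h1 : a * b * c ≤ |a * b| * |c| := by
    rw [← abs_mul]; exact le_abs_self _
  have h2 : |a * b| ≤ (a ^ 2 + b ^ 2) / 2 := by
    rw [abs_le]
    constructor
    · linarith [sq_nonneg (a + b), add_sq a b]
    · linarith [sq_nonneg (a - b), sub_sq a b]
  have h3 : |a * b| * |c| ≤ (a ^ 2 + b ^ 2) / 2 * m :=
    mul_le_mul h2 hc (abs_nonneg _) (by positivity)
  linarith

theorem locp_block {m a b c : ℝ} (hm : 0 ≤ m) (ha : |a| ≤ m) (hb : |b| ≤ m) (hc : |c| ≤ m) :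
    a * b * c ≤ m * (a ^ 2 + b ^ 2 + c ^ 2) / 3 := by
  have h1 := locp_pair (a := a) (b := b) hm hc
  have h2 := locp_pair (a := b) (b := c) hm ha
  have h3 := locp_pair (a := c) (b := a) hm hb
  have e2 : b * c * a = a * b * c := by ring
  have e3 : c * a * b = a * b * c := by ring
  rw [e2] at h2
  rw [e3] at h3
  linarith

theorem locp_cube {m a : ℝ} (ha : |a| ≤ m) : a ^ 3 ≤ m * a ^ 2 := by
  have h : a ≤ m := (le_abs_self a).trans ha
  have := mul_le_mul_of_nonneg_right h (sq_nonneg a)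
  linarith [show a ^ 3 = a * a ^ 2 by ring]

theorem loc_p (P : ℝ) (hP : 0 ≤ P) (hP' : P ≤ 1 / 3) (x : Fin 6 → ℝ) (n : ℝ) (hn : 0 ≤ n)
    (hs : ∑ i, x i = n) (hx : ∀ i, |x i - n / 6| ≤ n / 60) :
    pat6 x + P * ∑ i, x i ^ 3 ≤ (10 + P) / 36 * n ^ 3 - (1 / 2) * n * ∑ i, (x i - n / 6) ^ 2 := by
  obtain ⟨y, hy⟩ : ∃ y : Fin 6 → ℝ, ∀ i, x i = n / 6 + y i := ⟨fun i => x i - n / 6, fun i => by ring⟩
  have hyb : ∀ i, |y i| ≤ n / 60 := by
    intro i
    have := hx i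
    rw [hy i] at this
    simpa using this
  have hm : 0 ≤ n / 60 := by positivity
  rw [locp_pat]
  simp only [Fin.sum_univ_six, hy] at hs ⊢
  have hs0 : y 0 + y 1 + y 2 + y 3 + y 4 + y 5 = 0 := by linarith
  have b1 := locp_block hm (hyb 0) (hyb 1) (hyb 5)
  have b2 := locp_block hm (hyb 1) (hyb 2) (hyb 5)
  have b3 := locp_block hm (hyb 2) (hyb 3) (hyb 5)
  have b4 := locp_block hm (hyb 3) (hyb 4) (hyb 5)
  have b5 := locp_block hm (hyb 0) (hyb 4) (hyb 5)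
  have b6 := locp_block hm (hyb 0) (hyb 1) (hyb 3)
  have b7 := locp_block hm (hyb 1) (hyb 2) (hyb 4)
  have b8 := locp_block hm (hyb 0) (hyb 2) (hyb 3)
  have b9 := locp_block hm (hyb 1) (hyb 3) (hyb 4)
  have b10 := locp_block hm (hyb 0) (hyb 2) (hyb 4)
  have c0 := locp_cube (hyb 0)
  have c1 := locp_cube (hyb 1)
  have c2 := locp_cube (hyb 2)
  have c3 := locp_cube (hyb 3)
  have c4 := locp_cube (hyb 4)
  have c5 := locp_cube (hyb 5)
  generalize y 0 = a at *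
  generalize y 1 = b at *
  generalize y 2 = c at *
  generalize y 3 = d at *
  generalize y 4 = e at *
  generalize y 5 = f at *
  have hcube : P * (a ^ 3 + b ^ 3 + c ^ 3 + d ^ 3 + e ^ 3 + f ^ 3) ≤
      P * (n / 60 * (a ^ 2 + b ^ 2 + c ^ 2 + d ^ 2 + e ^ 2 + f ^ 2)) :=
    mul_le_mul_of_nonneg_left (by linarith) hP
  have hsq : 0 ≤ n * (a ^ 2 + b ^ 2 + c ^ 2 + d ^ 2 + e ^ 2 + f ^ 2) := by positivity
  have hPs : P * (n * (a ^ 2 + b ^ 2 + c ^ 2 + d ^ 2 + e ^ 2 + f ^ 2)) ≤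
      1 / 3 * (n * (a ^ 2 + b ^ 2 + c ^ 2 + d ^ 2 + e ^ 2 + f ^ 2)) :=
    mul_le_mul_of_nonneg_right hP' hsq
  have e1 : 6 * ((n / 6 + a) * (n / 6 + b) * (n / 6 + f) + (n / 6 + b) * (n / 6 + c) * (n / 6 + f) +
      (n / 6 + c) * (n / 6 + d) * (n / 6 + f) + (n / 6 + d) * (n / 6 + e) * (n / 6 + f) +
      (n / 6 + a) * (n / 6 + e) * (n / 6 + f) + (n / 6 + a) * (n / 6 + b) * (n / 6 + d) +
      (n / 6 + b) * (n / 6 + c) * (n / 6 + e) + (n / 6 + a) * (n / 6 + c) * (n / 6 + d) +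
      (n / 6 + b) * (n / 6 + d) * (n / 6 + e) + (n / 6 + a) * (n / 6 + c) * (n / 6 + e)) =
      10 / 36 * n ^ 3 - n * (a ^ 2 + b ^ 2 + c ^ 2 + d ^ 2 + e ^ 2 + f ^ 2) +
      6 * (a * b * f + b * c * f + c * d * f + d * e * f + a * e * f + a * b * d + b * c * e +
        a * c * d + b * d * e + a * c * e) := by
    linear_combination (5 / 6 * n ^ 2 + n * (a + b + c + d + e + f)) * hs0
  have e2 : P * ((n / 6 + a) ^ 3 + (n / 6 + b) ^ 3 + (n / 6 + c) ^ 3 + (n / 6 + d) ^ 3 +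
      (n / 6 + e) ^ 3 + (n / 6 + f) ^ 3) = P / 36 * n ^ 3 +
      P * (n * (a ^ 2 + b ^ 2 + c ^ 2 + d ^ 2 + e ^ 2 + f ^ 2)) / 2 +
      P * (a ^ 3 + b ^ 3 + c ^ 3 + d ^ 3 + e ^ 3 + f ^ 3) := by
    linear_combination (P * n ^ 2 / 12) * hs0
  have e3 : (1 / 2) * n * ((n / 6 + a - n / 6) ^ 2 + (n / 6 + b - n / 6) ^ 2 +
      (n / 6 + c - n / 6) ^ 2 + (n / 6 + d - n / 6) ^ 2 + (n / 6 + e - n / 6) ^ 2 +
      (n / 6 + f - n / 6) ^ 2) =
      1 / 2 * (n * (a ^ 2 + b ^ 2 + c ^ 2 + d ^ 2 + e ^ 2 + f ^ 2)) := by ring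
  rw [e1, e2, e3]
  linarith

end K4M
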