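import Pool.Agent.Lib.MP_4c59c5_co.Lim
import Pool.Agent.Lib.MP_4c59c5_co.PatCount
import Pool.Agent.Lib.MP_4c59c5_co.LocP

/-!
# FUp (40 min)
Take `N0` from `pi_upper (δ)` and `N = 10 N0 + 10`. If `card V = n >= N` and all parts are within
`n/100` of `n/6` then every part has at least `n/10 >= N0` elements, so
`exo (nc part i) <= (Pi0 + δ) (psz π i)^3` (`nc_eq`). Sum: with `x i = psz π i`, `sum x = n`,
`fF π <= pat6 x + Pi0 sum x^3 + δ sum x^3` (`pat_count`), `sum x^3 <= n^3`, and `loc_p` with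
`P = Pi0` (`pi_nonneg`, `pi_le_third`), because `n/100 <= n/60`.
-/

set_option linter.unusedVariables false
set_option linter.unusedSectionVars false

namespace K4M

open Finset
open scoped Classical

theorem f_up (δ : ℝ) (hδ : 0 < δ) : ∃ N : ℕ, ∀ (V : Type) [Fintype V] (π : V → Fin 6),
    N ≤ Fintype.card V → Near (1 / 100) π →
    fF π ≤ ((10 + Pi0) / 36 + δ) * (Fintype.card V : ℝ) ^ 3
      - (1 / 2) * (Fintype.card V : ℝ) * ∑ i, (psz π i - (Fintype.card V : ℝ) / 6) ^ 2 := by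
  obtain ⟨N0, hN0⟩ := pi_upper δ hδ
  refine ⟨10 * N0 + 10, fun V _ π hN hnear => ?_⟩
  obtain ⟨n, hn⟩ : ∃ n : ℝ, n = (Fintype.card V : ℝ) := ⟨_, rfl⟩
  have hnN : 10 * (N0 : ℝ) + 10 ≤ n := by
    rw [hn]
    exact_mod_cast hN
  have hN0' : (0 : ℝ) ≤ N0 := Nat.cast_nonneg _
  have hn0 : 0 ≤ n := by linarith
  have hx0 : ∀ i, 0 ≤ psz π i := psz_nonneg π
  have hs : ∑ i, psz π i = n := by rw [hn]; exact sum_psz π
  have hx : ∀ i, |psz π i - n / 6| ≤ (1 / 100) * n := by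
    intro i
    rw [hn]
    exact hnear i
  have hx1 : ∀ i, psz π i ≤ n := by
    intro i
    have h1 := Finset.single_le_sum (f := fun i => psz π i) (fun j _ => hx0 j) (mem_univ i)
    rw [hs] at h1
    exact h1
  have hexo : ∀ i, exo (nc (fun v => π v = i)) ≤ (Pi0 + δ) * psz π i ^ 3 := by
    intro i
    have h1 : (nc (fun v => π v = i) : ℝ) = psz π i := nc_eq _
    have h2 : (N0 : ℝ) ≤ (nc (fun v => π v = i) : ℝ) := by
      rw [h1]
      have h3 := (abs_le.1 (hx i)).1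
      linarith
    have h4 : N0 ≤ nc (fun v => π v = i) := by exact_mod_cast h2
    have h5 := hN0 _ h4
    rw [h1] at h5
    exact h5
  have hcube : ∑ i, psz π i ^ 3 ≤ n ^ 3 := by
    calc ∑ i, psz π i ^ 3 ≤ ∑ i, n ^ 2 * psz π i := by
          refine sum_le_sum fun i _ => ?_
          have h1 : psz π i ^ 2 ≤ n ^ 2 := pow_le_pow_left₀ (hx0 i) (hx1 i) 2
          calc psz π i ^ 3 = psz π i ^ 2 * psz π i := by ring
            _ ≤ n ^ 2 * psz π i := mul_le_mul_of_nonneg_right h1 (hx0 i)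
      _ = n ^ 3 := by rw [← mul_sum, hs]; ring
  have hloc := loc_p Pi0 pi_nonneg pi_le_third (psz π) n hn0 hs
    (fun i => (hx i).trans (by linarith))
  have hsum : ∑ i, exo (nc (fun v => π v = i)) ≤ (Pi0 + δ) * ∑ i, psz π i ^ 3 := by
    rw [mul_sum]
    exact sum_le_sum fun i _ => hexo i
  have hδc : δ * ∑ i, psz π i ^ 3 ≤ δ * n ^ 3 := mul_le_mul_of_nonneg_left hcube hδ.le
  have hpat := pat_count π
  unfold fF
  rw [← hn, hpat]
  linarith

end K4M
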