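import Pool.Agent.Lib.MP_4c59c5_co.MainT
import Pool.Agent.Lib.MP_4c59c5_co.ConvE

/-!
# FinalA: the main theorem in usual language
-/

set_option linter.unusedVariables false
set_option linter.unusedSectionVars false

namespace K4M

open Finset
open scoped Classical

theorem part_card {V : Type} [Fintype V] (ρ : V → Fin 6) (i : Fin 6) :
    ((part ρ i).card : ℝ) = psz ρ i := by
  have := nc_eq (fun v => ρ v = i)
  unfold nc at this
  unfold part psz
  convert this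

theorem nc_part {V : Type} [Fintype V] (ρ : V → Fin 6) (i : Fin 6) :
    nc (fun v => ρ v = i) = (part ρ i).card := by
  unfold nc part
  congr

theorem g3_le_ex3 (n : ℕ) : g3 n ≤ ex3 n := by
  have h1 := g3_gG n
  have h2 := ex3_exo n
  have h3 := gG_le_exo n
  have h4 : (g3 n : ℝ) ≤ (ex3 n : ℝ) := by linarith
  exact_mod_cast h4

/-- upper bound and equality case -/
theorem final_upper (κ : ℝ) (hκ : 0 < κ) : ∃ ε : ℝ, 0 < ε ∧ ∃ N : ℕ,
    ∀ (V : Type) [Fintype V], N ≤ Fintype.card V →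
      ∀ (H : Finset (Finset V)) (π : V → Fin 6), Free43 H →
      (10 / 216 - ε) * (Fintype.card V : ℝ) ^ 3 ≤ ((H ∩ patT π).card : ℝ) →
      H.card ≤ g3 (Fintype.card V) ∧
      (H.card = g3 (Fintype.card V) → ∃ ρ : V → Fin 6,
        (∀ i, |((part ρ i).card : ℝ) - (Fintype.card V : ℝ) / 6| ≤ κ * (Fintype.card V : ℝ)) ∧
        (∀ e : Finset V, e.card = 3 → (¬ ∃ i, e ⊆ part ρ i) → (e ∈ H ↔ e ∈ patT ρ)) ∧
        (∀ i, (H.filter (fun e => e ⊆ part ρ i)).card = ex3 (part ρ i).card) ∧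
        g3 (Fintype.card V) = Fval (fun i => (part ρ i).card)) := by
  obtain ⟨ε, hε, N, hmain⟩ := main_T κ hκ
  refine ⟨ε / 6, by positivity, N, ?_⟩
  intro V _ hN H π hH hpat
  have hG := isG_tern hH
  have hcard := card_tern hH
  have hint := inter_patT hH π
  have hg := g3_gG (Fintype.card V)
  have hpat' : (5 / 18 - ε) * (Fintype.card V : ℝ) ^ 3
      ≤ c3 (fun x y z => tern H x y z ∧ Pat π x y z) := by
    rw [← hint]
    have h1 : (5 / 18 - ε) * (Fintype.card V : ℝ) ^ 3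
        = 6 * ((10 / 216 - ε / 6) * (Fintype.card V : ℝ) ^ 3) := by ring
    rw [h1]
    linarith
  have key : gG (Fintype.card V) ≤ c3 (tern H) → ∃ ρ : V → Fin 6,
        (∀ i, |((part ρ i).card : ℝ) - (Fintype.card V : ℝ) / 6| ≤ κ * (Fintype.card V : ℝ)) ∧
        (∀ e : Finset V, e.card = 3 → (¬ ∃ i, e ⊆ part ρ i) → (e ∈ H ↔ e ∈ patT ρ)) ∧
        (∀ i, (H.filter (fun e => e ⊆ part ρ i)).card = ex3 (part ρ i).card) ∧
        g3 (Fintype.card V) = Fval (fun i => (part ρ i).card) ∧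
        H.card = g3 (Fintype.card V) := by
    intro hge
    obtain ⟨ρ, h1, h2, h3, h4, h5⟩ := hmain V (tern H) hG hN π hpat' hge
    refine ⟨ρ, ?_, ?_, ?_, ?_, ?_⟩
    · intro i
      rw [part_card]
      exact h1 i
    · intro e he hne
      obtain ⟨x, y, z, hxy, hxz, hyz, rfl⟩ := Finset.card_eq_three.mp he
      have h6 : ¬ (ρ x = ρ y ∧ ρ y = ρ z) := by
        rintro ⟨h7, h8⟩
        apply hne
        refine ⟨ρ z, ?_⟩
        intro w hw
        simp only [mem_insert, mem_singleton] at hw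
        unfold part
        rw [mem_filter]
        refine ⟨mem_univ _, ?_⟩
        rcases hw with rfl | rfl | rfl
        · rw [h7, h8]
        · exact h8
        · rfl
      have h7 := h2 x y z h6
      have h8 := mem_patT ρ x y z
      have h9 : tern H x y z ↔ ({x, y, z} : Finset V) ∈ H :=
        ⟨fun h => h.2.2.2, fun h => ⟨hxy, hxz, hyz, h⟩⟩
      have h10 : tern (patT ρ) x y z ↔ ({x, y, z} : Finset V) ∈ patT ρ :=
        ⟨fun h => h.2.2.2, fun h => ⟨hxy, hxz, hyz, h⟩⟩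
      rw [← h9, ← h10, h8, h7]
      rfl
    · intro i
      have h6 := in_part hH ρ i
      rw [h3 i] at h6
      have h7 := ex3_exo (nc (fun v => ρ v = i))
      rw [nc_part] at h6 h7
      have h8 : ((H.filter (fun e => e ⊆ part ρ i)).card : ℝ) = (ex3 (part ρ i).card : ℝ) := by
        linarith
      exact_mod_cast h8
    · have h6 := fF_Fval ρ
      have h8 : (g3 (Fintype.card V) : ℝ) = (Fval (fun i => (part ρ i).card) : ℝ) := by linarith
      exact_mod_cast h8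
    · have h8 : (H.card : ℝ) = (g3 (Fintype.card V) : ℝ) := by linarith
      exact_mod_cast h8
  constructor
  · by_contra hlt
    push Not at hlt
    have h1 : (g3 (Fintype.card V) : ℝ) < (H.card : ℝ) := by exact_mod_cast hlt
    obtain ⟨ρ, _, _, _, _, h6⟩ := key (by linarith)
    rw [h6] at hlt
    exact lt_irrefl _ hlt
  · intro heq
    have h1 : (H.card : ℝ) = (g3 (Fintype.card V) : ℝ) := by exact_mod_cast heq
    obtain ⟨ρ, h2, h3, h4, h5, _⟩ := key (by linarith)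
    exact ⟨ρ, h2, h3, h4, h5⟩

/-- pattern triples of a nearly balanced map -/
theorem pat_low {V : Type} [Fintype V] (π : V → Fin 6) (κ : ℝ) (hκ : 0 < κ) (hκ1 : κ ≤ 1 / 6)
    (h : Near κ π) : (5 / 18 - 5 * κ) * (Fintype.card V : ℝ) ^ 3 ≤ c3 (Pat π) := by
  obtain ⟨n, hn⟩ : ∃ n : ℝ, (Fintype.card V : ℝ) = n := ⟨_, rfl⟩
  have hn0 : 0 ≤ n := by rw [← hn]; positivity
  rw [pat_count, hn]
  have hlow : ∀ i, (1 / 6 - κ) * n ≤ psz π i := by
    intro i
    have := h i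
    rw [hn, abs_le] at this
    linarith [this.1]
  have hb : 0 ≤ (1 / 6 - κ) * n := mul_nonneg (by linarith) hn0
  rw [pat6_H6]
  have h1 : ∀ b ∈ H6, ((1 / 6 - κ) * n) ^ 3 ≤ ∏ i ∈ b, psz π i := by
    intro b hb'
    have hc : b.card = 3 := by
      have : ∀ b ∈ H6, b.card = 3 := by decide
      exact this b hb'
    calc ((1 / 6 - κ) * n) ^ 3 = ∏ i ∈ b, ((1 / 6 - κ) * n) := by rw [prod_const, hc]
      _ ≤ ∏ i ∈ b, psz π i := prod_le_prod (fun _ _ => hb) (fun i _ => hlow i)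
  have h2 : H6.card • ((1 / 6 - κ) * n) ^ 3 ≤ ∑ b ∈ H6, ∏ i ∈ b, psz π i :=
    Finset.card_nsmul_le_sum _ _ _ h1
  have h3 : H6.card = 10 := by decide
  rw [h3] at h2
  simp only [nsmul_eq_mul] at h2
  push_cast at h2
  have h4 : (5 / 18 - 5 * κ) ≤ 60 * (1 / 6 - κ) ^ 3 := by nlinarith [sq_nonneg κ]
  have h5 : (5 / 18 - 5 * κ) * n ^ 3 ≤ 60 * (1 / 6 - κ) ^ 3 * n ^ 3 :=
    mul_le_mul_of_nonneg_right h4 (by positivity)
  calc (5 / 18 - 5 * κ) * n ^ 3 ≤ 60 * (1 / 6 - κ) ^ 3 * n ^ 3 := h5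
    _ = 6 * (10 * ((1 / 6 - κ) * n) ^ 3) := by ring
    _ ≤ _ := by linarith

/-- sharpness -/
theorem final_lower (ε : ℝ) (hε : 0 < ε) : ∃ N : ℕ,
    ∀ (V : Type) [Fintype V], N ≤ Fintype.card V →
      ∃ (H : Finset (Finset V)) (π : V → Fin 6), Free43 H ∧
      (10 / 216 - ε) * (Fintype.card V : ℝ) ^ 3 ≤ ((H ∩ patT π).card : ℝ) ∧
      H.card = g3 (Fintype.card V) := by
  obtain ⟨κ, hκ0, hκ1, hκ2⟩ : ∃ k : ℝ, 0 < k ∧ k ≤ 1 / 6 ∧ 5 * k ≤ 6 * ε :=
    ⟨min (1 / 6) ε, lt_min (by norm_num) hε, min_le_left _ _, by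
      have := min_le_right (1 / 6) ε
      linarith⟩
  obtain ⟨N, hN⟩ := g_int κ hκ0
  refine ⟨N + 100, ?_⟩
  intro V _ hV
  obtain ⟨π0, h1, h2⟩ := exists_gG (Fintype.card V) (by omega)
  -- transport to V
  let e : V ≃ Fin (Fintype.card V) := Fintype.equivFin V
  obtain ⟨π, hπ⟩ : ∃ π : V → Fin 6, π = fun v => π0 (e v) := ⟨_, rfl⟩
  have hpsz : ∀ i, psz π i = psz π0 i := by
    intro i; rw [hπ]; unfold psz; exact c1_equiv e (fun x => π0 x = i)
  have hnear : Near (1 / 100) π := by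
    intro i
    rw [hpsz i]
    have := h1 i
    rwa [Fintype.card_fin] at this
  have hnc : ∀ i, nc (fun v => π v = i) = nc (fun v => π0 v = i) := by
    intro i
    have h3 := hpsz i
    unfold psz at h3
    rw [← nc_eq, ← nc_eq] at h3
    exact_mod_cast h3
  have hfF : fF π = fF π0 := by
    unfold fF
    congr 1
    · rw [pat_count, pat_count]
      congr 1
      funext i; exact hpsz i
    · exact sum_congr rfl fun i _ => by rw [hnc i]
  have hg : gG (Fintype.card V) ≤ fF π := by rw [hfF, h2]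
  have hk := hN V π (by omega) hnear hg
  obtain ⟨T, hT, hc, hP⟩ := blow_ex π
  obtain ⟨H, hH, hHT⟩ := exists_fin hT
  refine ⟨H, π, hH, ?_, ?_⟩
  · have h3 := inter_patT hH π
    have h4 : c3 (fun x y z => tern H x y z ∧ Pat π x y z) = c3 (Pat π) := by
      apply c3_congr
      intro x y z
      constructor
      · exact fun h => h.2
      · exact fun h => ⟨(hHT x y z).mpr (hP x y z h), h⟩
    rw [h4] at h3
    have h5 := pat_low π κ hκ0 hκ1 hk
    have h6 : (5 / 18 - 6 * ε) * (Fintype.card V : ℝ) ^ 3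
        ≤ (5 / 18 - 5 * κ) * (Fintype.card V : ℝ) ^ 3 :=
      mul_le_mul_of_nonneg_right (by linarith) (by positivity)
    have h7 : (10 / 216 - ε) * (Fintype.card V : ℝ) ^ 3
        = (1 / 6) * ((5 / 18 - 6 * ε) * (Fintype.card V : ℝ) ^ 3) := by ring
    rw [h7]
    linarith
  · have h3 := card_tern hH
    have h4 : c3 (tern H) = c3 T := c3_congr hHT
    have h5 := g3_gG (Fintype.card V)
    have h6 : (H.card : ℝ) = (g3 (Fintype.card V) : ℝ) := by
      rw [h4, hc, hfF, h2] at h3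
      linarith
    exact_mod_cast h6

/-- near-extremal 3-graphs close to the pattern force the density 2/7 -/
theorem final_dich : ∃ ε : ℝ, 0 < ε ∧ (2 / 7 < Pi0 → ∃ δ : ℝ, 0 < δ ∧ ∃ N : ℕ,
    ∀ (V : Type) [Fintype V], N ≤ Fintype.card V →
      ∀ (H : Finset (Finset V)) (π : V → Fin 6), Free43 H →
      (Pi0 / 6 - δ) * (Fintype.card V : ℝ) ^ 3 ≤ (H.card : ℝ) →
      ((H ∩ patT π).card : ℝ) < (10 / 216 - ε) * (Fintype.card V : ℝ) ^ 3) := by
  obtain ⟨ε, hε, N, hA⟩ := final_upper 1 one_pos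
  refine ⟨ε, hε, fun h => ?_⟩
  obtain ⟨d, hd0, hd1⟩ : ∃ d : ℝ, 0 < d ∧ 3 * d = Pi0 - (10 + Pi0) / 36 :=
    ⟨(Pi0 - (10 + Pi0) / 36) / 3, by linarith, by ring⟩
  obtain ⟨N', hN'⟩ := g_up d hd0
  refine ⟨d / 6, by positivity, N + N' + 1, ?_⟩
  intro V _ hV H π hH hc
  by_contra hcl
  push Not at hcl
  have h1 := (hA V (by omega) H π hH hcl).1
  have h2 := hN' (Fintype.card V) (by omega)
  have h3 := g3_gG (Fintype.card V)
  have h4 : (H.card : ℝ) ≤ (g3 (Fintype.card V) : ℝ) := by exact_mod_cast h1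
  obtain ⟨n, hn⟩ : ∃ n : ℝ, (Fintype.card V : ℝ) = n := ⟨_, rfl⟩
  rw [hn] at h2 hc
  have hn0 : 1 ≤ n := by
    rw [← hn]
    have : 1 ≤ Fintype.card V := by omega
    exact_mod_cast this
  have hn3 : 0 < n ^ 3 := by positivity
  nlinarith

/-- if the density is 2/7 then blow-ups of the design with extremal 3-graphs inside are
near-extremal -/
theorem final_conv (h : Pi0 = 2 / 7) (ε δ : ℝ) (hε : 0 < ε) (hδ : 0 < δ) (N : ℕ) :
    ∃ (V : Type) (_ : Fintype V) (H : Finset (Finset V)) (π : V → Fin 6),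
      N ≤ Fintype.card V ∧ Free43 H ∧ (Pi0 / 6 - δ) * (Fintype.card V : ℝ) ^ 3 ≤ (H.card : ℝ) ∧
      (10 / 216 - ε) * (Fintype.card V : ℝ) ^ 3 ≤ ((H ∩ patT π).card : ℝ) := by
  obtain ⟨N1, h1⟩ := final_lower ε hε
  obtain ⟨N2, h2⟩ := g_low δ hδ
  obtain ⟨H, π, hH, hc, hg⟩ := h1 (Fin (N + N1 + N2)) (by rw [Fintype.card_fin]; omega)
  refine ⟨Fin (N + N1 + N2), inferInstance, H, π, by rw [Fintype.card_fin]; omega, hH, ?_, hc⟩
  rw [hg]
  have h3 := h2 (Fintype.card (Fin (N + N1 + N2))) (by rw [Fintype.card_fin]; omega)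
  have h4 := g3_gG (Fintype.card (Fin (N + N1 + N2)))
  rw [h] at h3 ⊢
  obtain ⟨n, hn⟩ : ∃ n : ℝ, (Fintype.card (Fin (N + N1 + N2)) : ℝ) = n := ⟨_, rfl⟩
  rw [hn] at h3 ⊢
  have hn0 : 0 ≤ n := by rw [← hn]; positivity
  have hn3 : 0 ≤ n ^ 3 := by positivity
  have h5 : (2 / 7 / 6 - δ) * n ^ 3 ≤ (1 / 6) * (((10 + 2 / 7) / 36 - δ) * n ^ 3) := by
    have : 0 ≤ δ * n ^ 3 := by positivity
    nlinarith
  linarith

theorem ex3_tendsto : Filter.Tendsto (fun n : ℕ => (ex3 n : ℝ) / (n.choose 3 : ℝ))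
    Filter.atTop (nhds Pi0) := by
  have h1 := pi_tendsto
  refine h1.congr' ?_
  filter_upwards [Filter.eventually_ge_atTop 3] with n hn
  have h2 := ex3_exo n
  have h3 : ((n.choose 3 : ℕ) : ℝ) = (n : ℝ) * (n - 1) * (n - 2) / 6 := by
    have h4 : (n.choose 3) * 6 = n * (n - 1) * (n - 2) := by
      have h5 := Nat.descFactorial_eq_factorial_mul_choose n 3
      have h6 : n.descFactorial 3 = n * (n - 1) * (n - 2) := by
        simp only [Nat.descFactorial_succ, Nat.descFactorial_zero]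
        rw [Nat.sub_zero]; ring
      rw [h6] at h5
      rw [h5]
      simp [Nat.factorial]; ring
    have h7 : ((n.choose 3 : ℕ) : ℝ) * 6 = (n : ℝ) * (n - 1) * (n - 2) := by
      have h8 : (((n.choose 3) * 6 : ℕ) : ℝ) = ((n * (n - 1) * (n - 2) : ℕ) : ℝ) := by rw [h4]
      push_cast [Nat.cast_sub (show 1 ≤ n by omega), Nat.cast_sub (show 2 ≤ n by omega)] at h8
      exact h8
    linarith
  rw [h3, ← h2]
  have hn1 : (3 : ℝ) ≤ n := by exact_mod_cast hn
  have h9 : (n : ℝ) * (n - 1) * (n - 2) ≠ 0 := by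
    have : 0 < (n : ℝ) * (n - 1) * (n - 2) := by
      apply mul_pos (mul_pos _ _) _ <;> linarith
    exact ne_of_gt this
  field_simp

end K4M
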