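import Pool.Agent.Lib.MP_4c59c5_co.ExApi

/-!
# Upper (30 min)
For a triple `x y z` of `T` and any `w` at most one of `T x y w`, `T x z w`, `T y z w` holds
(`h.free` at the common vertex, after `s12`, `s23`). Hence
`c1 (T x y) + c1 (T x z) + c1 (T y z) <= card V` for every triple, and summing over all ordered
triples, by symmetry, `3 * sum_{x,y} c1 (T x y)^2 <= card V * c3 T`
(`sum_{x,y,z} ind (T x y z) * c1 (T x y) = sum_{x,y} c1 (T x y)^2`).
Cauchy: `(c3 T)^2 = (sum_{x,y} c1 (T x y))^2 <= (card V)^2 * sum_{x,y} c1 (T x y)^2`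
(`inner_mul_le_norm_mul_norm` or `Finset.sum_mul_sq_le_sq_mul_sq` / `sq_sum_le_card_mul_sum_sq`
on `univ ×ˢ univ`). So `3 (c3 T)^2 <= (card V)^3 * c3 T`, and `3 * c3 T <= (card V)^3`.
-/

set_option linter.unusedVariables false
set_option linter.unusedSectionVars false

namespace K4M

open Finset
open scoped Classical

theorem Upper_pt {p q r : Prop} (h : p → q → r → False) (h12 : p → q → False)
    (h13 : p → r → False) (h23 : q → r → False) : ind p + ind q + ind r ≤ 1 := by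
  unfold ind
  by_cases hp : p <;> by_cases hq : q <;> by_cases hr : r <;> simp [hp, hq, hr]
  all_goals tauto

theorem Upper_triple {V : Type} [Fintype V] {T : V → V → V → Prop} (h : IsG T) {x y z : V}
    (ht : T x y z) : c1 (T x y) + c1 (T x z) + c1 (T y z) ≤ (Fintype.card V : ℝ) := by
  unfold c1
  rw [← sum_add_distrib, ← sum_add_distrib]
  calc ∑ w, (ind (T x y w) + ind (T x z w) + ind (T y z w)) ≤ ∑ w : V, (1 : ℝ) := by
        refine sum_le_sum fun w _ => ?_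
        refine Upper_pt (fun h1 h2 _ => ?_) (fun h1 h2 => ?_) (fun h1 h2 => ?_) (fun h1 h2 => ?_)
        · exact h.free _ _ _ _ ht h1 h2
        · exact h.free _ _ _ _ ht h1 h2
        · exact h.free _ _ _ _ (h.s12 _ _ _ ht) (h.s12 _ _ _ h1) h2
        · exact h.free _ _ _ _ (h.s12 _ _ _ (h.s23 _ _ _ ht)) (h.s12 _ _ _ h1)
            (h.s12 _ _ _ h2)
    _ = (Fintype.card V : ℝ) := by simp

theorem Upper_sq {V : Type} [Fintype V] (T : V → V → V → Prop) :
    ∑ x, ∑ y, ∑ z, ind (T x y z) * c1 (T x y) = ∑ x, ∑ y, c1 (T x y) ^ 2 := by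
  refine sum_congr rfl fun x _ => sum_congr rfl fun y _ => ?_
  rw [← sum_mul, sq]
  rfl

theorem Upper_sum {V : Type} [Fintype V] {T : V → V → V → Prop} (h : IsG T) :
    3 * ∑ x, ∑ y, c1 (T x y) ^ 2 ≤ (Fintype.card V : ℝ) * c3 T := by
  have h1 : ∑ x, ∑ y, ∑ z, ind (T x y z) * c1 (T x z) = ∑ x, ∑ y, c1 (T x y) ^ 2 := by
    rw [← Upper_sq T]
    refine sum_congr rfl fun x _ => ?_
    rw [sum_comm]
    refine sum_congr rfl fun y _ => sum_congr rfl fun z _ => ?_
    rw [ind_congr (h.iff23 x z y)]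
  have h2 : ∑ x, ∑ y, ∑ z, ind (T x y z) * c1 (T y z) = ∑ x, ∑ y, c1 (T x y) ^ 2 := by
    rw [← Upper_sq T, sum_comm]
    refine sum_congr rfl fun x _ => ?_
    rw [sum_comm]
    refine sum_congr rfl fun y _ => sum_congr rfl fun z _ => ?_
    rw [ind_congr ((h.iff12 z x y).trans (h.iff23 x z y))]
  have h3 : ∑ x, ∑ y, ∑ z, ind (T x y z) * (c1 (T x y) + c1 (T x z) + c1 (T y z)) =
      3 * ∑ x, ∑ y, c1 (T x y) ^ 2 := by
    simp only [mul_add, sum_add_distrib]
    rw [h1, h2, Upper_sq T]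
    ring
  rw [← h3]
  unfold c3
  rw [mul_sum]
  refine sum_le_sum fun x _ => ?_
  rw [mul_sum]
  refine sum_le_sum fun y _ => ?_
  rw [mul_sum]
  refine sum_le_sum fun z _ => ?_
  by_cases ht : T x y z
  · rw [ind_of ht, one_mul, mul_one]
    exact Upper_triple h ht
  · rw [ind_of_not ht, zero_mul, mul_zero]

theorem Upper_cauchy {V : Type} [Fintype V] (T : V → V → V → Prop) :
    (c3 T) ^ 2 ≤ (Fintype.card V : ℝ) ^ 2 * ∑ x, ∑ y, c1 (T x y) ^ 2 := by
  have h1 : c3 T = ∑ p : V × V, c1 (T p.1 p.2) := by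
    rw [c3_eq_sum', ← Finset.univ_product_univ, Finset.sum_product]
  have h2 : ∑ x, ∑ y, c1 (T x y) ^ 2 = ∑ p : V × V, c1 (T p.1 p.2) ^ 2 := by
    rw [← Finset.univ_product_univ, Finset.sum_product]
  have h3 := sq_sum_le_card_mul_sum_sq (s := (univ : Finset (V × V)))
    (f := fun p => c1 (T p.1 p.2))
  rw [h1, h2]
  refine h3.trans (le_of_eq ?_)
  rw [card_univ, Fintype.card_prod]
  push_cast
  ring

theorem c3_le_third {V : Type} [Fintype V] {T : V → V → V → Prop} (h : IsG T) :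
    3 * c3 T ≤ (Fintype.card V : ℝ) ^ 3 := by
  have h1 := Upper_sum h
  have h2 := Upper_cauchy T
  have h0 := c3_nonneg T
  have hn : (0 : ℝ) ≤ (Fintype.card V : ℝ) := Nat.cast_nonneg _
  set n : ℝ := (Fintype.card V : ℝ) with hnn
  set S : ℝ := ∑ x, ∑ y, c1 (T x y) ^ 2 with hS
  have h3 : 3 * (c3 T) ^ 2 ≤ n ^ 3 * c3 T := by
    have h4 : n ^ 2 * (3 * S) ≤ n ^ 2 * (n * c3 T) := mul_le_mul_of_nonneg_left h1 (sq_nonneg n)
    have h5 : n ^ 2 * (n * c3 T) = n ^ 3 * c3 T := by ring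
    have h6 : 3 * (n ^ 2 * S) = n ^ 2 * (3 * S) := by ring
    linarith
  rcases h0.eq_or_lt with h7 | h7
  · rw [← h7, mul_zero]
    exact pow_nonneg hn 3
  · have h8 : (3 * c3 T) * c3 T ≤ n ^ 3 * c3 T := by
      have h9 : (3 * c3 T) * c3 T = 3 * (c3 T) ^ 2 := by ring
      rw [h9]
      exact h3
    exact le_of_mul_le_mul_right h8 h7

theorem exo_le_third (n : ℕ) : 3 * exo n ≤ (n : ℝ) ^ 3 := by
  obtain ⟨T, hT, h⟩ := exists_exo (Fin n)
  rw [Fintype.card_fin] at h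
  have h1 := c3_le_third hT
  rw [Fintype.card_fin] at h1
  rw [← h]
  exact h1

end K4M
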