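import Pool.Agent.Lib.MP_4c59c5_co.Mono
import Pool.Agent.Lib.MP_4c59c5_co.Upper

/-!
# Lim (40 min)
Put `a n = exo (n+3) / ((n+3)(n+2)(n+1))`. `exo_mono` (with n+3 in place of n, all factors
positive) says that `a` is antitone; it is bounded below by 0 (`exo_nonneg`), so it tends to its
infimum `Pi0` (`tendsto_atTop_ciInf`). `pi_lower`: for n >= 3 this is `ciInf_le`; for n = 0, 1, 2
the product n (n-1) (n-2) is 0 and `exo_nonneg`. `pi_upper`: for large n,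
`exo n <= (Pi0 + δ) n (n-1) (n-2) <= (Pi0 + δ) n^3`. `pi_tendsto`: shift by 3
(`tendsto_add_atTop_iff_nat`). `pi_le_third`: `3 exo n <= n^3` and the limit of
`n^3 / (n (n-1) (n-2))` is 1 (or: for every n, Pi0 n (n-1)(n-2) <= n^3 / 3, divide and let n -> oo).
-/

set_option linter.unusedVariables false
set_option linter.unusedSectionVars false

namespace K4M

open Finset
open scoped Classical

/-- the normalised sequence -/
noncomputable def aaL (n : ℕ) : ℝ := exo (n + 3) / (((n : ℝ) + 3) * (n + 2) * (n + 1))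

theorem Pi0_eq : Pi0 = ⨅ n : ℕ, aaL n := rfl

theorem aaL_nonneg (n : ℕ) : 0 ≤ aaL n := by
  unfold aaL
  have h1 := exo_nonneg (n + 3)
  positivity

theorem aaL_anti : Antitone aaL := by
  refine antitone_nat_of_succ_le fun n => ?_
  unfold aaL
  have h1 := exo_mono (n + 3)
  push_cast at h1 ⊢
  have h2 : (0 : ℝ) < ((n : ℝ) + 3) * (n + 2) * (n + 1) := by positivity
  have h3 : (0 : ℝ) < ((n : ℝ) + 1 + 3) * (n + 1 + 2) * (n + 1 + 1) := by positivity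
  rw [div_le_div_iff₀ h3 h2]
  have h4 : (0 : ℝ) ≤ ((n : ℝ) + 3) * (n + 2) := by positivity
  have h5 := mul_le_mul_of_nonneg_left h1 h4
  have h6 : exo (n + 1 + 3) = exo (n + 3 + 1) := by
    congr 1
  rw [h6]
  nlinarith

theorem aaL_bdd : BddBelow (Set.range aaL) := by
  refine ⟨0, ?_⟩
  rintro _ ⟨n, rfl⟩
  exact aaL_nonneg n

theorem aaL_tendsto : Filter.Tendsto aaL Filter.atTop (nhds Pi0) :=
  tendsto_atTop_ciInf aaL_anti aaL_bdd

theorem exo_eq_aaL (n : ℕ) : exo (n + 3) = aaL n * (((n : ℝ) + 3) * (n + 2) * (n + 1)) := by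
  unfold aaL
  have h2 : ((n : ℝ) + 3) * (n + 2) * (n + 1) ≠ 0 := by positivity
  field_simp

theorem pi_lower (n : ℕ) : Pi0 * ((n : ℝ) * (n - 1) * (n - 2)) ≤ exo n := by
  match n with
  | 0 =>
    have := exo_nonneg 0
    simpa using this
  | 1 =>
    have := exo_nonneg 1
    simpa using this
  | 2 =>
    have := exo_nonneg 2
    simpa using this
  | m + 3 =>
    rw [exo_eq_aaL]
    have h1 : Pi0 ≤ aaL m := ciInf_le aaL_bdd m
    have h2 : (0 : ℝ) ≤ ((m : ℝ) + 3) * (m + 2) * (m + 1) := by positivity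
    have h3 := mul_le_mul_of_nonneg_right h1 h2
    push_cast
    have h4 : Pi0 * (((m : ℝ) + 3) * ((m : ℝ) + 3 - 1) * ((m : ℝ) + 3 - 2)) =
        Pi0 * (((m : ℝ) + 3) * (m + 2) * (m + 1)) := by ring
    rw [h4]
    exact h3

theorem pi_nonneg : 0 ≤ Pi0 := le_ciInf aaL_nonneg

theorem pi_upper (δ : ℝ) (hδ : 0 < δ) :
    ∃ N : ℕ, ∀ n : ℕ, N ≤ n → exo n ≤ (Pi0 + δ) * (n : ℝ) ^ 3 := by
  have h1 : ∀ᶠ m in Filter.atTop, aaL m < Pi0 + δ :=
    aaL_tendsto.eventually (gt_mem_nhds (by linarith))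
  obtain ⟨M, hM⟩ := Filter.eventually_atTop.mp h1
  refine ⟨M + 3, fun n hn => ?_⟩
  obtain ⟨m, rfl⟩ : ∃ m, n = m + 3 := ⟨n - 3, by omega⟩
  have h2 := hM m (by omega)
  rw [exo_eq_aaL]
  have h3 : (0 : ℝ) ≤ ((m : ℝ) + 3) * (m + 2) * (m + 1) := by positivity
  have h4 := mul_le_mul_of_nonneg_right h2.le h3
  refine h4.trans ?_
  have h5 : 0 ≤ Pi0 + δ := by
    have := pi_nonneg
    linarith
  refine mul_le_mul_of_nonneg_left ?_ h5
  push_cast
  have hm : (0 : ℝ) ≤ m := Nat.cast_nonneg m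
  nlinarith [mul_nonneg hm hm]

theorem pi_tendsto : Filter.Tendsto (fun n : ℕ => exo n / ((n : ℝ) * (n - 1) * (n - 2)))
    Filter.atTop (nhds Pi0) := by
  rw [← Filter.tendsto_add_atTop_iff_nat 3]
  refine aaL_tendsto.congr fun n => ?_
  unfold aaL
  push_cast
  congr 1
  ring

theorem pi_le_third : Pi0 ≤ 1 / 3 := by
  by_contra hcon
  push Not at hcon
  have hP : 0 < 3 * Pi0 - 1 := by linarith
  obtain ⟨n, hn⟩ := exists_nat_gt (9 * Pi0 / (3 * Pi0 - 1))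
  have h0 : 0 ≤ 9 * Pi0 / (3 * Pi0 - 1) := by
    have := pi_nonneg
    positivity
  have hn0 : (0 : ℝ) < n := lt_of_le_of_lt h0 hn
  rw [div_lt_iff₀ hP] at hn
  have h1 := pi_lower n
  have h2 := exo_le_third n
  have h3 : 3 * (Pi0 * ((n : ℝ) * (n - 1) * (n - 2))) ≤ (n : ℝ) ^ 3 := by linarith
  have h4 : (n : ℝ) * (3 * Pi0 * (((n : ℝ) - 1) * (n - 2))) ≤ (n : ℝ) * (n : ℝ) ^ 2 := by
    nlinarith
  have h5 : 3 * Pi0 * (((n : ℝ) - 1) * (n - 2)) ≤ (n : ℝ) ^ 2 := le_of_mul_le_mul_left h4 hn0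
  have h6 : (n : ℝ) * (9 * Pi0) < (n : ℝ) * (n * (3 * Pi0 - 1)) := mul_lt_mul_of_pos_left hn hn0
  have h7 := pi_nonneg
  nlinarith

end K4M
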