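import Pool.Agent.Lib.MP_4c59c5_co.GApi
import Pool.Agent.Lib.MP_4c59c5_co.Lim

/-!
# GLow
For `n >= 600` take `π v = v mod 6` on `Fin n`; every part has size `x i` with
`n/6 - 1 <= x i <= n/6 + 1`, so `Near (1/100) π` and `fF π <= gG n`.
-/

set_option linter.unusedVariables false
set_option linter.unusedSectionVars false

namespace K4M

open Finset
open scoped Classical

theorem glow_sixty : (∑ i : Fin 6, ∑ j : Fin 6, ∑ k : Fin 6, bn (Q i j k)) = 60 := by decide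

theorem glow_pat6 (x : Fin 6 → ℝ) (y : ℝ) (hy : 0 ≤ y) (hx : ∀ i, y ≤ x i) :
    60 * y ^ 3 ≤ pat6 x := by
  have h1 : (60 : ℝ) * y ^ 3 = ∑ i : Fin 6, ∑ j : Fin 6, ∑ k : Fin 6,
      ((bn (Q i j k) : ℕ) : ℝ) * y ^ 3 := by
    have h2 : ((∑ i : Fin 6, ∑ j : Fin 6, ∑ k : Fin 6, bn (Q i j k) : ℕ) : ℝ) = 60 := by
      rw [glow_sixty]; norm_num
    rw [← h2]
    push_cast
    rw [sum_mul]
    refine sum_congr rfl fun i _ => ?_
    rw [sum_mul]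
    refine sum_congr rfl fun j _ => ?_
    rw [sum_mul]
  rw [h1]
  unfold pat6
  refine sum_le_sum fun i _ => sum_le_sum fun j _ => sum_le_sum fun k _ => ?_
  have hi := hx i
  have hj := hx j
  have hk := hx k
  have hi0 : 0 ≤ x i := le_trans hy hi
  have hj0 : 0 ≤ x j := le_trans hy hj
  have h3 : y * y ≤ x i * x j := mul_le_mul hi hj hy hi0
  have h4 : y * y * y ≤ x i * x j * x k := mul_le_mul h3 hk hy (mul_nonneg hi0 hj0)
  unfold bn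
  by_cases hQ : Q i j k = true
  · rw [hQ]
    simp only [if_true, Nat.cast_one, one_mul]
    calc y ^ 3 = y * y * y := by ring
      _ ≤ _ := h4
  · simp [hQ]

theorem glow_exo (m : ℕ) (z : ℝ) (hz : 0 ≤ z) (hm : z + 2 ≤ (m : ℝ)) :
    Pi0 * z ^ 3 ≤ exo m := by
  refine le_trans ?_ (pi_lower m)
  refine mul_le_mul_of_nonneg_left ?_ pi_nonneg
  have h1 : z ≤ (m : ℝ) := by linarith
  have h2 : z ≤ (m : ℝ) - 1 := by linarith
  have h3 : z ≤ (m : ℝ) - 2 := by linarith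
  have h4 : z * z ≤ (m : ℝ) * (m - 1) := mul_le_mul h1 h2 hz (by linarith)
  calc z ^ 3 = z * z * z := by ring
    _ ≤ (m : ℝ) * (m - 1) * (m - 2) :=
      mul_le_mul h4 h3 hz (mul_nonneg (by linarith) (by linarith))

theorem glow_val (n : ℕ) (hn : 600 ≤ n) :
    (10 + Pi0) / 36 * ((n : ℝ) - 18) ^ 3 ≤ gG n := by
  have hn' : (600 : ℝ) ≤ n := by exact_mod_cast hn
  have h0 : fF (gapiMod n) ≤ gG n := by
    have := le_gG (gapiMod n) (gapi_mod_near n (by omega))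
    rwa [Fintype.card_fin] at this
  refine le_trans ?_ h0
  have hps : ∀ i, (n : ℝ) / 6 - 1 ≤ psz (gapiMod n) i := by
    intro i
    have := (abs_le.mp (gapi_mod_psz n i)).1
    linarith
  have h1 : 60 * ((n : ℝ) / 6 - 1) ^ 3 ≤ c3 (Pat (gapiMod n)) := by
    rw [pat_count]
    exact glow_pat6 _ _ (by linarith) hps
  have h2 : 6 * (Pi0 * ((n : ℝ) / 6 - 3) ^ 3)
      ≤ ∑ i, exo (nc (fun v => gapiMod n v = i)) := by
    have h3 : ∀ i : Fin 6, Pi0 * ((n : ℝ) / 6 - 3) ^ 3 ≤ exo (nc (fun v => gapiMod n v = i)) := by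
      intro i
      refine glow_exo _ _ (by linarith) ?_
      have h4 : ((nc (fun v => gapiMod n v = i) : ℕ) : ℝ) = psz (gapiMod n) i := by
        rw [nc_eq]; rfl
      rw [h4]
      have := hps i
      linarith
    have h5 := Finset.sum_le_sum (s := (univ : Finset (Fin 6))) (fun i _ => h3 i)
    simpa using h5
  have h6 : ((n : ℝ) / 6 - 3) ^ 3 ≤ ((n : ℝ) / 6 - 1) ^ 3 :=
    pow_le_pow_left₀ (by linarith) (by linarith) 3
  unfold fF
  have h7 : (10 + Pi0) / 36 * ((n : ℝ) - 18) ^ 3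
      = 60 * ((n : ℝ) / 6 - 3) ^ 3 + 6 * (Pi0 * ((n : ℝ) / 6 - 3) ^ 3) := by ring
  rw [h7]
  linarith

theorem g_low (δ : ℝ) (hδ : 0 < δ) : ∃ N : ℕ, ∀ n : ℕ, N ≤ n →
    ((10 + Pi0) / 36 - δ) * (n : ℝ) ^ 3 ≤ gG n := by
  obtain ⟨M, hM⟩ := exists_nat_gt (16 / δ)
  refine ⟨M + 600, fun n hn => ?_⟩
  have hn1 : 600 ≤ n := by omega
  have hn2 : (600 : ℝ) ≤ n := by exact_mod_cast hn1
  have hn3 : (M : ℝ) ≤ n := by
    have : M ≤ n := by omega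
    exact_mod_cast this
  refine le_trans ?_ (glow_val n hn1)
  have h1 : 16 < δ * n := by
    have : 16 / δ < n := lt_of_lt_of_le hM hn3
    rw [div_lt_iff₀ hδ] at this
    linarith
  have hP1 := pi_le_third
  have hP0 := pi_nonneg
  have h2 : (n : ℝ) ^ 3 - 54 * (n : ℝ) ^ 2 ≤ ((n : ℝ) - 18) ^ 3 := by
    have : ((n : ℝ) - 18) ^ 3 = (n : ℝ) ^ 3 - 54 * (n : ℝ) ^ 2 + 972 * (n - 6) := by ring
    rw [this]
    linarith
  have h3 : (10 + Pi0) / 36 * ((n : ℝ) ^ 3 - 54 * (n : ℝ) ^ 2)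
      ≤ (10 + Pi0) / 36 * ((n : ℝ) - 18) ^ 3 :=
    mul_le_mul_of_nonneg_left h2 (by linarith)
  refine le_trans ?_ h3
  have h4 : (10 + Pi0) / 36 * 54 ≤ 16 := by linarith
  have h5 : (10 + Pi0) / 36 * 54 ≤ δ * n := by linarith
  have h6 : (10 + Pi0) / 36 * 54 * (n : ℝ) ^ 2 ≤ δ * n * (n : ℝ) ^ 2 :=
    mul_le_mul_of_nonneg_right h5 (by positivity)
  have h7 : ((10 + Pi0) / 36 - δ) * (n : ℝ) ^ 3 = (10 + Pi0) / 36 * (n : ℝ) ^ 3 - δ * n * (n : ℝ) ^ 2 := by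
    ring
  have h8 : (10 + Pi0) / 36 * ((n : ℝ) ^ 3 - 54 * (n : ℝ) ^ 2)
      = (10 + Pi0) / 36 * (n : ℝ) ^ 3 - (10 + Pi0) / 36 * 54 * (n : ℝ) ^ 2 := by ring
  rw [h7, h8]
  linarith

end K4M
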