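import Pool.Agent.Lib.MP_4c59c5_co.FUp
import Pool.Agent.Lib.MP_4c59c5_co.GLow

/-!
# GInt (25 min)
`g_up`: for large n take the optimal `π` (`exists_gG`) and apply `f_up` (drop the last term).
`g_int`: apply `f_up` and `g_low` with `δ = κ^2 / 8`: if `gG n <= fF π` then
`(1/2) n (psz π i - n/6)^2 <= (1/2) n sum (...)^2 <= 2 δ n^3`, so
`|psz π i - n/6| <= 2 sqrt δ n <= κ n` (`abs_le_of_sq_le_sq`), n > 0.
-/

set_option linter.unusedVariables false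
set_option linter.unusedSectionVars false

namespace K4M

open Finset
open scoped Classical

theorem g_up (δ : ℝ) (hδ : 0 < δ) : ∃ N : ℕ, ∀ n : ℕ, N ≤ n →
    gG n ≤ ((10 + Pi0) / 36 + δ) * (n : ℝ) ^ 3 := by
  obtain ⟨N, hN⟩ := f_up δ hδ
  refine ⟨max N 100, fun n hn => ?_⟩
  obtain ⟨π, hπ, hf⟩ := exists_gG n (le_trans (le_max_right _ _) hn)
  have h1 := hN (Fin n) π (by rw [Fintype.card_fin]; exact le_trans (le_max_left _ _) hn) hπ
  rw [Fintype.card_fin, hf] at h1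
  have h2 : 0 ≤ ∑ i, (psz π i - (n : ℝ) / 6) ^ 2 := Finset.sum_nonneg fun i _ => sq_nonneg _
  have h3 : 0 ≤ (1 / 2) * (n : ℝ) * ∑ i, (psz π i - (n : ℝ) / 6) ^ 2 :=
    mul_nonneg (mul_nonneg (by norm_num) (Nat.cast_nonneg n)) h2
  linarith

theorem g_int (κ : ℝ) (hκ : 0 < κ) : ∃ N : ℕ, ∀ (V : Type) [Fintype V] (π : V → Fin 6),
    N ≤ Fintype.card V → Near (1 / 100) π → gG (Fintype.card V) ≤ fF π → Near κ π := by
  have hδ : 0 < κ ^ 2 / 8 := by positivity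
  obtain ⟨N1, hN1⟩ := f_up (κ ^ 2 / 8) hδ
  obtain ⟨N2, hN2⟩ := g_low (κ ^ 2 / 8) hδ
  refine ⟨max (max N1 N2) 1, fun V _ π hn hπ hg i => ?_⟩
  have hn1 : N1 ≤ Fintype.card V := le_trans (le_trans (le_max_left _ _) (le_max_left _ _)) hn
  have hn2 : N2 ≤ Fintype.card V := le_trans (le_trans (le_max_right _ _) (le_max_left _ _)) hn
  have hn3 : 1 ≤ Fintype.card V := le_trans (le_max_right _ _) hn
  have h1 := hN1 V π hn1 hπ
  have h2 := hN2 (Fintype.card V) hn2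
  have hpos : (0 : ℝ) < (Fintype.card V : ℝ) := by exact_mod_cast hn3
  set m : ℝ := (Fintype.card V : ℝ) with hm
  have h3 : (1 / 2) * m * ∑ i, (psz π i - m / 6) ^ 2 ≤ (κ ^ 2 / 4) * m ^ 3 := by
    linarith
  have h4 : ∑ i, (psz π i - m / 6) ^ 2 ≤ (κ ^ 2 / 2) * m ^ 2 := by
    have h5 : m * (∑ i, (psz π i - m / 6) ^ 2) ≤ m * ((κ ^ 2 / 2) * m ^ 2) := by
      linarith
    exact le_of_mul_le_mul_left h5 hpos
  have h6 : (psz π i - m / 6) ^ 2 ≤ ∑ i, (psz π i - m / 6) ^ 2 :=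
    Finset.single_le_sum (f := fun i => (psz π i - m / 6) ^ 2) (fun i _ => sq_nonneg _)
      (Finset.mem_univ i)
  have h7 : (psz π i - m / 6) ^ 2 ≤ (κ * m) ^ 2 := by
    have h8 : 0 ≤ (κ ^ 2 / 2) * m ^ 2 := by positivity
    have h9 : (κ * m) ^ 2 = (κ ^ 2 / 2) * m ^ 2 + (κ ^ 2 / 2) * m ^ 2 := by ring
    linarith
  exact abs_le_of_sq_le_sq h7 (mul_pos hκ hpos).le

end K4M
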