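import Pool.Agent.Lib.MP_4c59c5_co.GStep
import Pool.Agent.Lib.MP_4c59c5_co.GInt

/-!
# GGrow (40 min)
Let n be large, `π` optimal for n (`exists_gG`), `Near (1/200) π` by `g_int`. `g_step` gives `i`
with `(n+3) gG n <= n fF (π_i)` on `Option (Fin n)` (card n+1). `π_i` is `Near (1/100)` for n >= 400:
part sizes change by at most 1, `(n+1)/6` differs from `n/6` by 1/6. So `fF (π_i) <= gG (n+1)`
(`le_gG`, card (Option (Fin n)) = n+1) and `gG (n+1) - gG n >= 3 gG n / n >=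
3 ((10+Pi0)/36 - δ/2) n^2 >= 3 ((10+Pi0)/36 - δ) (n+1)^2` for large n (`g_low` with δ/2; the last
step because (n+1)^2 = n^2 (1 + O(1/n)); if `(10+Pi0)/36 - δ <= 0` the bound is trivial since then
the right side is <= 0 <= gG n / n).
-/

set_option linter.unusedVariables false
set_option linter.unusedSectionVars false

namespace K4M

open Finset
open scoped Classical

theorem ggrow_psz {V : Type} [Fintype V] (π : V → Fin 6) (i j : Fin 6) :
    psz (fun o : Option V => o.elim i π) j = ind (i = j) + psz π j := by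
  unfold psz c1
  rw [Fintype.sum_option]
  rfl

theorem ggrow_near {V : Type} [Fintype V] (π : V → Fin 6) (i : Fin 6)
    (hn : 400 ≤ Fintype.card V) (h : Near (1 / 200) π) :
    Near (1 / 100) (fun o : Option V => o.elim i π) := by
  intro j
  have h1 := h j
  rw [ggrow_psz, Fintype.card_option]
  have hn' : (400 : ℝ) ≤ (Fintype.card V : ℝ) := by exact_mod_cast hn
  push_cast
  have h2 : 0 ≤ ind (i = j) ∧ ind (i = j) ≤ 1 := by
    unfold ind
    split_ifs <;> norm_num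
  rw [abs_le] at h1 ⊢
  constructor <;> linarith [h1.1, h1.2, h2.1, h2.2]

theorem g_grow (δ : ℝ) (hδ : 0 < δ) : ∃ N : ℕ, ∀ n : ℕ, N ≤ n →
    3 * ((10 + Pi0) / 36 - δ) * ((n : ℝ) + 1) ^ 2 ≤ gG (n + 1) - gG n := by
  obtain ⟨N1, hN1⟩ := g_int (1 / 200) (by norm_num)
  obtain ⟨N2, hN2⟩ := g_low (δ / 2) (by linarith)
  obtain ⟨N3, hN3⟩ := exists_nat_ge (6 * |(10 + Pi0) / 36 - δ| / δ)
  refine ⟨max (max N1 N2) (max N3 400), fun n hn => ?_⟩
  have hn1 : N1 ≤ n := le_trans (le_trans (le_max_left _ _) (le_max_left _ _)) hn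
  have hn2 : N2 ≤ n := le_trans (le_trans (le_max_right _ _) (le_max_left _ _)) hn
  have hn3 : N3 ≤ n := le_trans (le_trans (le_max_left _ _) (le_max_right _ _)) hn
  have hn4 : 400 ≤ n := le_trans (le_trans (le_max_right _ _) (le_max_right _ _)) hn
  obtain ⟨π, hπ, hf⟩ := exists_gG n (le_trans (by norm_num) hn4)
  have hnear : Near (1 / 200) π := by
    refine hN1 (Fin n) π ?_ hπ ?_
    · rw [Fintype.card_fin]; exact hn1
    · rw [Fintype.card_fin]; exact hf.ge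
  obtain ⟨i, hi⟩ := g_step π
  have hnear' := ggrow_near π i (by rw [Fintype.card_fin]; exact hn4) hnear
  have h1 := le_gG _ hnear'
  rw [Fintype.card_option, Fintype.card_fin] at h1
  rw [Fintype.card_fin, hf] at hi
  have hlow := hN2 n hn2
  have hr4 : (400 : ℝ) ≤ (n : ℝ) := by exact_mod_cast hn4
  have hpos : (0 : ℝ) < (n : ℝ) := by linarith
  have h3 : 6 * |(10 + Pi0) / 36 - δ| ≤ δ * (n : ℝ) := by
    have h31 : 6 * |(10 + Pi0) / 36 - δ| / δ ≤ (n : ℝ) :=
      le_trans hN3 (by exact_mod_cast hn3)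
    rw [div_le_iff₀ hδ] at h31
    linarith
  set c : ℝ := (10 + Pi0) / 36 with hc
  set G : ℝ := gG n with hG
  set G' : ℝ := gG (n + 1) with hG'
  have h4 : (n : ℝ) * fF (fun o : Option (Fin n) => o.elim i π) ≤ (n : ℝ) * G' :=
    mul_le_mul_of_nonneg_left h1 hpos.le
  have h5 : 3 * G ≤ (n : ℝ) * (G' - G) := by linarith
  have h6 : (n : ℝ) * (3 * (c - δ / 2) * (n : ℝ) ^ 2) ≤ (n : ℝ) * (G' - G) := by
    refine le_trans (le_of_eq ?_) (le_trans (mul_le_mul_of_nonneg_left hlow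
      (by norm_num : (0 : ℝ) ≤ 3)) h5)
    ring
  have h7 : 3 * (c - δ / 2) * (n : ℝ) ^ 2 ≤ G' - G := le_of_mul_le_mul_left h6 hpos
  refine le_trans ?_ h7
  have h8 : (c - δ) * (2 * (n : ℝ) + 1) ≤ |c - δ| * (3 * (n : ℝ)) := by
    have h81 : (c - δ) * (2 * (n : ℝ) + 1) ≤ |c - δ| * (2 * (n : ℝ) + 1) :=
      mul_le_mul_of_nonneg_right (le_abs_self _) (by linarith)
    have h82 : |c - δ| * (2 * (n : ℝ) + 1) ≤ |c - δ| * (3 * (n : ℝ)) :=
      mul_le_mul_of_nonneg_left (by linarith) (abs_nonneg _)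
    linarith
  have h9 : |c - δ| * (3 * (n : ℝ)) ≤ (δ / 2) * (n : ℝ) ^ 2 := by
    have h91 : (6 * |c - δ|) * (n : ℝ) ≤ (δ * (n : ℝ)) * (n : ℝ) :=
      mul_le_mul_of_nonneg_right h3 hpos.le
    linarith
  have h10 : 3 * (c - δ / 2) * (n : ℝ) ^ 2 - 3 * (c - δ) * ((n : ℝ) + 1) ^ 2
      = 3 * ((δ / 2) * (n : ℝ) ^ 2 - (c - δ) * (2 * (n : ℝ) + 1)) := by ring
  linarith

end K4M
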