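import Pool.Agent.Lib.MP_4c59c5_co.ExoStep
import Pool.Agent.Lib.MP_4c59c5_co.PatCount

/-!
# GStep (50 min)
For `i : Fin 6` let `π_i o = o.elim i π` on `Option V`. Then
`c3 (Pat π_i) = c3 (Pat π) + 3 c2 (fun y z => Q i (π y) (π z) = true)` (exactly one `none`, three
positions; with two `none` the value of Q is false), the part `i` gets one more element and the
others are unchanged (`nc (π_i = j) = nc (π = j) + (if j = i then 1 else 0)`). By `exo_step`
`m (exo (m+1) - exo m) >= 3 exo m` for `m = nc (π = i)`. Take the combination with weights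
`psz π i` (sum n, `sum_psz`):
`sum_i psz π i * fF (π_i) = n fF π + 3 sum_i psz π i * nb2 (psz π) i
   + sum_i m_i (exo (m_i + 1) - exo m_i) >= n fF π + 3 c3 (Pat π) + 3 sum_i exo m_i = (n+3) fF π`
(`nb_count`, `pat6_eq`, `pat_count`). If for every `i` we had `n fF (π_i) < (n+3) fF π` then, if
n > 0, the weighted sum with weights psz π i (non-negative, sum n > 0) would contradict this. For n = 0
(V empty): `fF π = 0` because `Pat` is empty and `exo 0 <= 0` (`exo_le_cube`), any i works.
-/

set_option linter.unusedVariables false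
set_option linter.unusedSectionVars false

namespace K4M

open Finset
open scoped Classical

theorem gstep_pat {V : Type} [Fintype V] (π : V → Fin 6) (i : Fin 6) :
    c3 (Pat (fun o : Option V => o.elim i π)) =
      c3 (Pat π) + 3 * c2 (fun y z => Q i (π y) (π z) = true) := by
  have h12 : ∀ k, ind (Q i i k = true) = 0 := fun k => ind_of_not (by rw [Q_irr]; simp)
  have h13 : ∀ k, ind (Q i k i = true) = 0 := fun k => ind_of_not (by rw [Q_irr']; simp)
  have h23 : ∀ k, ind (Q k i i = true) = 0 := fun k => ind_of_not (by rw [Q_irr'']; simp)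
  have e1 : (∑ x : V, ∑ z : V, ind (Q (π x) i (π z) = true)) =
      ∑ y : V, ∑ z : V, ind (Q i (π y) (π z) = true) := by
    refine sum_congr rfl fun x _ => sum_congr rfl fun z _ => ?_
    rw [Q_s12]
  have e2 : (∑ x : V, ∑ y : V, ind (Q (π x) (π y) i = true)) =
      ∑ y : V, ∑ z : V, ind (Q i (π y) (π z) = true) := by
    refine sum_congr rfl fun x _ => sum_congr rfl fun y _ => ?_
    rw [Q_s23, Q_s12]
  unfold c3 c2 Pat
  simp only [Fintype.sum_option, Option.elim_none, Option.elim_some, h12, h13, h23,
    sum_const_zero, zero_add, sum_add_distrib, e1, e2]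
  ring

theorem gstep_nc {V : Type} [Fintype V] (π : V → Fin 6) (i j : Fin 6) :
    nc (fun o : Option V => (o.elim i π) = j) = nc (fun v => π v = j) + (if i = j then 1 else 0) := by
  have h : (nc (fun o : Option V => (o.elim i π) = j) : ℝ) =
      ((nc (fun v => π v = j) + (if i = j then 1 else 0) : ℕ) : ℝ) := by
    rw [nc_eq, Nat.cast_add, nc_eq]
    unfold c1
    rw [Fintype.sum_option]
    simp only [Option.elim_none, Option.elim_some]
    rw [add_comm]
    congr 1
    by_cases hij : i = j
    · rw [if_pos hij, ind_of hij, Nat.cast_one]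
    · rw [if_neg hij, ind_of_not hij, Nat.cast_zero]
  exact_mod_cast h

theorem gstep_fF {V : Type} [Fintype V] (π : V → Fin 6) (i : Fin 6) :
    fF (fun o : Option V => o.elim i π) = fF π + 3 * nb2 (psz π) i +
      (exo (nc (fun v => π v = i) + 1) - exo (nc (fun v => π v = i))) := by
  unfold fF
  rw [gstep_pat, nb_count]
  have h : ∑ j, exo (nc (fun o : Option V => (o.elim i π) = j)) =
      ∑ j, exo (nc (fun v => π v = j)) +
        (exo (nc (fun v => π v = i) + 1) - exo (nc (fun v => π v = i))) := by
    have h1 : ∀ j, exo (nc (fun o : Option V => (o.elim i π) = j)) =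
        exo (nc (fun v => π v = j)) +
          (if i = j then (exo (nc (fun v => π v = i) + 1) - exo (nc (fun v => π v = i))) else 0) := by
      intro j
      rw [gstep_nc]
      by_cases hij : i = j
      · subst hij
        rw [if_pos rfl, if_pos rfl]
        ring
      · rw [if_neg hij, if_neg hij]
        simp
    simp_rw [h1]
    rw [sum_add_distrib, Finset.sum_ite_eq, if_pos (mem_univ _)]
  rw [h]
  ring

theorem g_step {V : Type} [Fintype V] (π : V → Fin 6) : ∃ i : Fin 6,
    ((Fintype.card V : ℝ) + 3) * fF π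
      ≤ (Fintype.card V : ℝ) * fF (fun o : Option V => o.elim i π) := by
  have hn : ∑ i, psz π i = (Fintype.card V : ℝ) := sum_psz π
  have hp0 : ∀ i, 0 ≤ psz π i := fun i => c1_nonneg _
  have hm : ∀ i, (nc (fun v => π v = i) : ℝ) = psz π i := fun i => nc_eq _
  have hstep : ∀ i, 3 * exo (nc (fun v => π v = i)) ≤
      psz π i * (exo (nc (fun v => π v = i) + 1) - exo (nc (fun v => π v = i))) := by
    intro i
    have h := exo_step (nc (fun v => π v = i))
    rw [hm i] at h
    linarith
  have hsum : ((Fintype.card V : ℝ) + 3) * fF π ≤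
      ∑ i, psz π i * fF (fun o : Option V => o.elim i π) := by
    have h1 : ∀ i, psz π i * fF (fun o : Option V => o.elim i π) =
        psz π i * fF π + 3 * (psz π i * nb2 (psz π) i) +
        psz π i * (exo (nc (fun v => π v = i) + 1) - exo (nc (fun v => π v = i))) := by
      intro i
      rw [gstep_fF]
      ring
    simp_rw [h1]
    rw [sum_add_distrib, sum_add_distrib, ← sum_mul, hn, ← mul_sum, ← pat6_eq, ← pat_count]
    have h2 : ∑ i, 3 * exo (nc (fun v => π v = i)) ≤ ∑ i, psz π i *
        (exo (nc (fun v => π v = i) + 1) - exo (nc (fun v => π v = i))) :=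
      sum_le_sum fun i _ => hstep i
    rw [← mul_sum] at h2
    have h3 : fF π = c3 (Pat π) + ∑ i, exo (nc (fun v => π v = i)) := rfl
    have h4 : ((Fintype.card V : ℝ) + 3) * fF π = (Fintype.card V : ℝ) * fF π +
        3 * c3 (Pat π) + 3 * ∑ i, exo (nc (fun v => π v = i)) := by
      rw [add_mul]
      nth_rewrite 2 [h3]
      ring
    rw [h4]
    linarith
  by_cases hV : (Fintype.card V : ℝ) = 0
  · refine ⟨0, ?_⟩
    have hV0 : Fintype.card V = 0 := by exact_mod_cast hV
    have hp : ∀ i, psz π i = 0 := by
      intro i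
      have h1 : psz π i ≤ ∑ i, psz π i := single_le_sum (fun j _ => hp0 j) (mem_univ i)
      rw [hn, hV] at h1
      exact le_antisymm h1 (hp0 i)
    have h0 : ∑ i, psz π i * fF (fun o : Option V => o.elim i π) = 0 := by
      refine sum_eq_zero fun i _ => ?_
      rw [hp i, zero_mul]
    rw [h0] at hsum
    rw [hV, zero_mul]
    rw [hV] at hsum
    exact hsum
  · have hVp : 0 < (Fintype.card V : ℝ) := lt_of_le_of_ne (Nat.cast_nonneg _) (Ne.symm hV)
    by_contra hcon
    push Not at hcon
    have h5 : ∃ i, 0 < psz π i := by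
      by_contra hc
      push Not at hc
      have h6 : ∑ i, psz π i ≤ 0 := sum_nonpos fun i _ => hc i
      rw [hn] at h6
      linarith
    obtain ⟨i0, hi0⟩ := h5
    have h7 : ∑ i, psz π i * ((Fintype.card V : ℝ) * fF (fun o : Option V => o.elim i π)) <
        ∑ i, psz π i * (((Fintype.card V : ℝ) + 3) * fF π) := by
      refine sum_lt_sum (fun i _ => mul_le_mul_of_nonneg_left (hcon i).le (hp0 i)) ⟨i0, mem_univ _, ?_⟩
      exact mul_lt_mul_of_pos_left (hcon i0) hi0
    rw [← sum_mul, hn] at h7
    have h8 : ∑ i, psz π i * ((Fintype.card V : ℝ) * fF (fun o : Option V => o.elim i π)) =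
        (Fintype.card V : ℝ) * ∑ i, psz π i * fF (fun o : Option V => o.elim i π) := by
      rw [mul_sum]
      exact sum_congr rfl fun i _ => by ring
    rw [h8] at h7
    have h9 := lt_of_mul_lt_mul_left h7 hVp.le
    exact absurd hsum (not_le.mpr h9)

end K4M
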