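import Pool.Agent.Lib.MP_4c59c5_co.PatCount

/-!
# Lag: global Lagrangian bound of the design with stability

Explicit certificate: `(5/18) S^3 - pat6 x - (3/100) S sum_i (x_i - S/6)^2 = sum_i x_i q_i` with
sums of squares `q_i`.
-/

set_option linter.unusedVariables false
set_option linter.unusedSectionVars false

namespace K4M

open Finset
open scoped Classical

theorem lag_pat6 (x : Fin 6 → ℝ) : pat6 x =
    6 * (x 0 * x 1 * x 5 + x 1 * x 2 * x 5 + x 2 * x 3 * x 5 + x 3 * x 4 * x 5 + x 0 * x 4 * x 5 + x 0 * x 1 * x 3 + x 1 * x 2 * x 4 + x 0 * x 2 * x 3 + x 1 * x 3 * x 4 + x 0 * x 2 * x 4) := by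
  unfold pat6
  simp only [Fin.sum_univ_six,
    (by decide : Q 0 0 0 = false), (by decide : Q 0 0 1 = false), (by decide : Q 0 0 2 = false),
    (by decide : Q 0 0 3 = false), (by decide : Q 0 0 4 = false), (by decide : Q 0 0 5 = false),
    (by decide : Q 0 1 0 = false), (by decide : Q 0 1 1 = false), (by decide : Q 0 1 2 = false),
    (by decide : Q 0 1 3 = true), (by decide : Q 0 1 4 = false), (by decide : Q 0 1 5 = true),
    (by decide : Q 0 2 0 = false), (by decide : Q 0 2 1 = false), (by decide : Q 0 2 2 = false),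
    (by decide : Q 0 2 3 = true), (by decide : Q 0 2 4 = true), (by decide : Q 0 2 5 = false),
    (by decide : Q 0 3 0 = false), (by decide : Q 0 3 1 = true), (by decide : Q 0 3 2 = true),
    (by decide : Q 0 3 3 = false), (by decide : Q 0 3 4 = false), (by decide : Q 0 3 5 = false),
    (by decide : Q 0 4 0 = false), (by decide : Q 0 4 1 = false), (by decide : Q 0 4 2 = true),
    (by decide : Q 0 4 3 = false), (by decide : Q 0 4 4 = false), (by decide : Q 0 4 5 = true),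
    (by decide : Q 0 5 0 = false), (by decide : Q 0 5 1 = true), (by decide : Q 0 5 2 = false),
    (by decide : Q 0 5 3 = false), (by decide : Q 0 5 4 = true), (by decide : Q 0 5 5 = false),
    (by decide : Q 1 0 0 = false), (by decide : Q 1 0 1 = false), (by decide : Q 1 0 2 = false),
    (by decide : Q 1 0 3 = true), (by decide : Q 1 0 4 = false), (by decide : Q 1 0 5 = true),
    (by decide : Q 1 1 0 = false), (by decide : Q 1 1 1 = false), (by decide : Q 1 1 2 = false),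
    (by decide : Q 1 1 3 = false), (by decide : Q 1 1 4 = false), (by decide : Q 1 1 5 = false),
    (by decide : Q 1 2 0 = false), (by decide : Q 1 2 1 = false), (by decide : Q 1 2 2 = false),
    (by decide : Q 1 2 3 = false), (by decide : Q 1 2 4 = true), (by decide : Q 1 2 5 = true),
    (by decide : Q 1 3 0 = true), (by decide : Q 1 3 1 = false), (by decide : Q 1 3 2 = false),
    (by decide : Q 1 3 3 = false), (by decide : Q 1 3 4 = true), (by decide : Q 1 3 5 = false),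
    (by decide : Q 1 4 0 = false), (by decide : Q 1 4 1 = false), (by decide : Q 1 4 2 = true),
    (by decide : Q 1 4 3 = true), (by decide : Q 1 4 4 = false), (by decide : Q 1 4 5 = false),
    (by decide : Q 1 5 0 = true), (by decide : Q 1 5 1 = false), (by decide : Q 1 5 2 = true),
    (by decide : Q 1 5 3 = false), (by decide : Q 1 5 4 = false), (by decide : Q 1 5 5 = false),
    (by decide : Q 2 0 0 = false), (by decide : Q 2 0 1 = false), (by decide : Q 2 0 2 = false),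
    (by decide : Q 2 0 3 = true), (by decide : Q 2 0 4 = true), (by decide : Q 2 0 5 = false),
    (by decide : Q 2 1 0 = false), (by decide : Q 2 1 1 = false), (by decide : Q 2 1 2 = false),
    (by decide : Q 2 1 3 = false), (by decide : Q 2 1 4 = true), (by decide : Q 2 1 5 = true),
    (by decide : Q 2 2 0 = false), (by decide : Q 2 2 1 = false), (by decide : Q 2 2 2 = false),
    (by decide : Q 2 2 3 = false), (by decide : Q 2 2 4 = false), (by decide : Q 2 2 5 = false),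
    (by decide : Q 2 3 0 = true), (by decide : Q 2 3 1 = false), (by decide : Q 2 3 2 = false),
    (by decide : Q 2 3 3 = false), (by decide : Q 2 3 4 = false), (by decide : Q 2 3 5 = true),
    (by decide : Q 2 4 0 = true), (by decide : Q 2 4 1 = true), (by decide : Q 2 4 2 = false),
    (by decide : Q 2 4 3 = false), (by decide : Q 2 4 4 = false), (by decide : Q 2 4 5 = false),
    (by decide : Q 2 5 0 = false), (by decide : Q 2 5 1 = true), (by decide : Q 2 5 2 = false),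
    (by decide : Q 2 5 3 = true), (by decide : Q 2 5 4 = false), (by decide : Q 2 5 5 = false),
    (by decide : Q 3 0 0 = false), (by decide : Q 3 0 1 = true), (by decide : Q 3 0 2 = true),
    (by decide : Q 3 0 3 = false), (by decide : Q 3 0 4 = false), (by decide : Q 3 0 5 = false),
    (by decide : Q 3 1 0 = true), (by decide : Q 3 1 1 = false), (by decide : Q 3 1 2 = false),
    (by decide : Q 3 1 3 = false), (by decide : Q 3 1 4 = true), (by decide : Q 3 1 5 = false),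
    (by decide : Q 3 2 0 = true), (by decide : Q 3 2 1 = false), (by decide : Q 3 2 2 = false),
    (by decide : Q 3 2 3 = false), (by decide : Q 3 2 4 = false), (by decide : Q 3 2 5 = true),
    (by decide : Q 3 3 0 = false), (by decide : Q 3 3 1 = false), (by decide : Q 3 3 2 = false),
    (by decide : Q 3 3 3 = false), (by decide : Q 3 3 4 = false), (by decide : Q 3 3 5 = false),
    (by decide : Q 3 4 0 = false), (by decide : Q 3 4 1 = true), (by decide : Q 3 4 2 = false),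
    (by decide : Q 3 4 3 = false), (by decide : Q 3 4 4 = false), (by decide : Q 3 4 5 = true),
    (by decide : Q 3 5 0 = false), (by decide : Q 3 5 1 = false), (by decide : Q 3 5 2 = true),
    (by decide : Q 3 5 3 = false), (by decide : Q 3 5 4 = true), (by decide : Q 3 5 5 = false),
    (by decide : Q 4 0 0 = false), (by decide : Q 4 0 1 = false), (by decide : Q 4 0 2 = true),
    (by decide : Q 4 0 3 = false), (by decide : Q 4 0 4 = false), (by decide : Q 4 0 5 = true),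
    (by decide : Q 4 1 0 = false), (by decide : Q 4 1 1 = false), (by decide : Q 4 1 2 = true),
    (by decide : Q 4 1 3 = true), (by decide : Q 4 1 4 = false), (by decide : Q 4 1 5 = false),
    (by decide : Q 4 2 0 = true), (by decide : Q 4 2 1 = true), (by decide : Q 4 2 2 = false),
    (by decide : Q 4 2 3 = false), (by decide : Q 4 2 4 = false), (by decide : Q 4 2 5 = false),
    (by decide : Q 4 3 0 = false), (by decide : Q 4 3 1 = true), (by decide : Q 4 3 2 = false),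
    (by decide : Q 4 3 3 = false), (by decide : Q 4 3 4 = false), (by decide : Q 4 3 5 = true),
    (by decide : Q 4 4 0 = false), (by decide : Q 4 4 1 = false), (by decide : Q 4 4 2 = false),
    (by decide : Q 4 4 3 = false), (by decide : Q 4 4 4 = false), (by decide : Q 4 4 5 = false),
    (by decide : Q 4 5 0 = true), (by decide : Q 4 5 1 = false), (by decide : Q 4 5 2 = false),
    (by decide : Q 4 5 3 = true), (by decide : Q 4 5 4 = false), (by decide : Q 4 5 5 = false),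
    (by decide : Q 5 0 0 = false), (by decide : Q 5 0 1 = true), (by decide : Q 5 0 2 = false),
    (by decide : Q 5 0 3 = false), (by decide : Q 5 0 4 = true), (by decide : Q 5 0 5 = false),
    (by decide : Q 5 1 0 = true), (by decide : Q 5 1 1 = false), (by decide : Q 5 1 2 = true),
    (by decide : Q 5 1 3 = false), (by decide : Q 5 1 4 = false), (by decide : Q 5 1 5 = false),
    (by decide : Q 5 2 0 = false), (by decide : Q 5 2 1 = true), (by decide : Q 5 2 2 = false),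
    (by decide : Q 5 2 3 = true), (by decide : Q 5 2 4 = false), (by decide : Q 5 2 5 = false),
    (by decide : Q 5 3 0 = false), (by decide : Q 5 3 1 = false), (by decide : Q 5 3 2 = true),
    (by decide : Q 5 3 3 = false), (by decide : Q 5 3 4 = true), (by decide : Q 5 3 5 = false),
    (by decide : Q 5 4 0 = true), (by decide : Q 5 4 1 = false), (by decide : Q 5 4 2 = false),
    (by decide : Q 5 4 3 = true), (by decide : Q 5 4 4 = false), (by decide : Q 5 4 5 = false),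
    (by decide : Q 5 5 0 = false), (by decide : Q 5 5 1 = false), (by decide : Q 5 5 2 = false),
    (by decide : Q 5 5 3 = false), (by decide : Q 5 5 4 = false), (by decide : Q 5 5 5 = false)]
  simp only [if_true, Bool.false_eq_true, if_false]
  ring

theorem lag_ident (a b c d e f : ℝ) :
    (5 / 18) * (a + b + c + d + e + f) ^ 3 - 6 * (a * b * f + b * c * f + c * d * f + d * e * f + a * e * f + a * b * d + b * c * e + a * c * d + b * d * e + a * c * e)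
      - (3 / 100) * (a + b + c + d + e + f) * ((a - (a + b + c + d + e + f) / 6) ^ 2 + (b - (a + b + c + d + e + f) / 6) ^ 2 + (c - (a + b + c + d + e + f) / 6) ^ 2 + (d - (a + b + c + d + e + f) / 6) ^ 2 + (e - (a + b + c + d + e + f) / 6) ^ 2 + (f - (a + b + c + d + e + f) / 6) ^ 2) =
    a * ((91 / 360) * (a - (b + d + c + e + f) / 5) ^ 2 + (1 / 40) * ((4 * b - 3 * (d + f) + (c + e)) ^ 2 + (4 * d - 3 * (c + b) + (e + f)) ^ 2 + (4 * c - 3 * (e + d) + (f + b)) ^ 2 + (4 * e - 3 * (f + c) + (b + d)) ^ 2 + (4 * f - 3 * (b + e) + (d + c)) ^ 2) + (7 / 3000) * ((b - d) ^ 2 + (b - c) ^ 2 + (b - e) ^ 2 + (b - f) ^ 2 + (d - c) ^ 2 + (d - e) ^ 2 + (d - f) ^ 2 + (c - e) ^ 2 + (c - f) ^ 2 + (e - f) ^ 2))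
      + b * ((91 / 360) * (b - (a + d + e + c + f) / 5) ^ 2 + (1 / 40) * ((4 * a - 3 * (d + f) + (e + c)) ^ 2 + (4 * d - 3 * (e + a) + (c + f)) ^ 2 + (4 * e - 3 * (c + d) + (f + a)) ^ 2 + (4 * c - 3 * (f + e) + (a + d)) ^ 2 + (4 * f - 3 * (a + c) + (d + e)) ^ 2) + (7 / 3000) * ((a - d) ^ 2 + (a - e) ^ 2 + (a - c) ^ 2 + (a - f) ^ 2 + (d - e) ^ 2 + (d - c) ^ 2 + (d - f) ^ 2 + (e - c) ^ 2 + (e - f) ^ 2 + (c - f) ^ 2))
      + c * ((91 / 360) * (c - (a + d + f + b + e) / 5) ^ 2 + (1 / 40) * ((4 * a - 3 * (d + e) + (f + b)) ^ 2 + (4 * d - 3 * (f + a) + (b + e)) ^ 2 + (4 * f - 3 * (b + d) + (e + a)) ^ 2 + (4 * b - 3 * (e + f) + (a + d)) ^ 2 + (4 * e - 3 * (a + b) + (d + f)) ^ 2) + (7 / 3000) * ((a - d) ^ 2 + (a - f) ^ 2 + (a - b) ^ 2 + (a - e) ^ 2 + (d - f) ^ 2 + (d - b) ^ 2 + (d - e) ^ 2 + (f - b) ^ 2 + (f - e) ^ 2 + (b - e) ^ 2))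
      + d * ((91 / 360) * (d - (a + b + e + f + c) / 5) ^ 2 + (1 / 40) * ((4 * a - 3 * (b + c) + (e + f)) ^ 2 + (4 * b - 3 * (e + a) + (f + c)) ^ 2 + (4 * e - 3 * (f + b) + (c + a)) ^ 2 + (4 * f - 3 * (c + e) + (a + b)) ^ 2 + (4 * c - 3 * (a + f) + (b + e)) ^ 2) + (7 / 3000) * ((a - b) ^ 2 + (a - e) ^ 2 + (a - f) ^ 2 + (a - c) ^ 2 + (b - e) ^ 2 + (b - f) ^ 2 + (b - c) ^ 2 + (e - f) ^ 2 + (e - c) ^ 2 + (f - c) ^ 2))
      + e * ((91 / 360) * (e - (a + c + b + d + f) / 5) ^ 2 + (1 / 40) * ((4 * a - 3 * (c + f) + (b + d)) ^ 2 + (4 * c - 3 * (b + a) + (d + f)) ^ 2 + (4 * b - 3 * (d + c) + (f + a)) ^ 2 + (4 * d - 3 * (f + b) + (a + c)) ^ 2 + (4 * f - 3 * (a + d) + (c + b)) ^ 2) + (7 / 3000) * ((a - c) ^ 2 + (a - b) ^ 2 + (a - d) ^ 2 + (a - f) ^ 2 + (c - b) ^ 2 + (c - d) ^ 2 + (c - f) ^ 2 + (b - d) ^ 2 + (b - f) ^ 2 + (d - f) ^ 2))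
      + f * ((91 / 360) * (f - (a + b + c + d + e) / 5) ^ 2 + (1 / 40) * ((4 * a - 3 * (b + e) + (c + d)) ^ 2 + (4 * b - 3 * (c + a) + (d + e)) ^ 2 + (4 * c - 3 * (d + b) + (e + a)) ^ 2 + (4 * d - 3 * (e + c) + (a + b)) ^ 2 + (4 * e - 3 * (a + d) + (b + c)) ^ 2) + (7 / 3000) * ((a - b) ^ 2 + (a - c) ^ 2 + (a - d) ^ 2 + (a - e) ^ 2 + (b - c) ^ 2 + (b - d) ^ 2 + (b - e) ^ 2 + (c - d) ^ 2 + (c - e) ^ 2 + (d - e) ^ 2)) := by
  ring

theorem lag (x : Fin 6 → ℝ) (h0 : ∀ i, 0 ≤ x i) :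
    pat6 x + (3 / 100) * (∑ i, x i) * ∑ i, (x i - (∑ j, x j) / 6) ^ 2 ≤ (5 / 18) * (∑ i, x i) ^ 3 := by
  rw [lag_pat6]
  simp only [Fin.sum_univ_six]
  have h := lag_ident (x 0) (x 1) (x 2) (x 3) (x 4) (x 5)
  have p0 := h0 0
  have p1 := h0 1
  have p2 := h0 2
  have p3 := h0 3
  have p4 := h0 4
  have p5 := h0 5
  have n0 : 0 ≤ x 0 * ((91 / 360) * (x 0 - (x 1 + x 3 + x 2 + x 4 + x 5) / 5) ^ 2 + (1 / 40) * ((4 * x 1 - 3 * (x 3 + x 5) + (x 2 + x 4)) ^ 2 + (4 * x 3 - 3 * (x 2 + x 1) + (x 4 + x 5)) ^ 2 + (4 * x 2 - 3 * (x 4 + x 3) + (x 5 + x 1)) ^ 2 + (4 * x 4 - 3 * (x 5 + x 2) + (x 1 + x 3)) ^ 2 + (4 * x 5 - 3 * (x 1 + x 4) + (x 3 + x 2)) ^ 2) + (7 / 3000) * ((x 1 - x 3) ^ 2 + (x 1 - x 2) ^ 2 + (x 1 - x 4) ^ 2 + (x 1 - x 5) ^ 2 + (x 3 - x 2) ^ 2 + (x 3 - x 4) ^ 2 + (x 3 - x 5) ^ 2 + (x 2 - x 4) ^ 2 + (x 2 - x 5) ^ 2 + (x 4 - x 5) ^ 2)) := by positivity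
  have n1 : 0 ≤ x 1 * ((91 / 360) * (x 1 - (x 0 + x 3 + x 4 + x 2 + x 5) / 5) ^ 2 + (1 / 40) * ((4 * x 0 - 3 * (x 3 + x 5) + (x 4 + x 2)) ^ 2 + (4 * x 3 - 3 * (x 4 + x 0) + (x 2 + x 5)) ^ 2 + (4 * x 4 - 3 * (x 2 + x 3) + (x 5 + x 0)) ^ 2 + (4 * x 2 - 3 * (x 5 + x 4) + (x 0 + x 3)) ^ 2 + (4 * x 5 - 3 * (x 0 + x 2) + (x 3 + x 4)) ^ 2) + (7 / 3000) * ((x 0 - x 3) ^ 2 + (x 0 - x 4) ^ 2 + (x 0 - x 2) ^ 2 + (x 0 - x 5) ^ 2 + (x 3 - x 4) ^ 2 + (x 3 - x 2) ^ 2 + (x 3 - x 5) ^ 2 + (x 4 - x 2) ^ 2 + (x 4 - x 5) ^ 2 + (x 2 - x 5) ^ 2)) := by positivity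
  have n2 : 0 ≤ x 2 * ((91 / 360) * (x 2 - (x 0 + x 3 + x 5 + x 1 + x 4) / 5) ^ 2 + (1 / 40) * ((4 * x 0 - 3 * (x 3 + x 4) + (x 5 + x 1)) ^ 2 + (4 * x 3 - 3 * (x 5 + x 0) + (x 1 + x 4)) ^ 2 + (4 * x 5 - 3 * (x 1 + x 3) + (x 4 + x 0)) ^ 2 + (4 * x 1 - 3 * (x 4 + x 5) + (x 0 + x 3)) ^ 2 + (4 * x 4 - 3 * (x 0 + x 1) + (x 3 + x 5)) ^ 2) + (7 / 3000) * ((x 0 - x 3) ^ 2 + (x 0 - x 5) ^ 2 + (x 0 - x 1) ^ 2 + (x 0 - x 4) ^ 2 + (x 3 - x 5) ^ 2 + (x 3 - x 1) ^ 2 + (x 3 - x 4) ^ 2 + (x 5 - x 1) ^ 2 + (x 5 - x 4) ^ 2 + (x 1 - x 4) ^ 2)) := by positivity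
  have n3 : 0 ≤ x 3 * ((91 / 360) * (x 3 - (x 0 + x 1 + x 4 + x 5 + x 2) / 5) ^ 2 + (1 / 40) * ((4 * x 0 - 3 * (x 1 + x 2) + (x 4 + x 5)) ^ 2 + (4 * x 1 - 3 * (x 4 + x 0) + (x 5 + x 2)) ^ 2 + (4 * x 4 - 3 * (x 5 + x 1) + (x 2 + x 0)) ^ 2 + (4 * x 5 - 3 * (x 2 + x 4) + (x 0 + x 1)) ^ 2 + (4 * x 2 - 3 * (x 0 + x 5) + (x 1 + x 4)) ^ 2) + (7 / 3000) * ((x 0 - x 1) ^ 2 + (x 0 - x 4) ^ 2 + (x 0 - x 5) ^ 2 + (x 0 - x 2) ^ 2 + (x 1 - x 4) ^ 2 + (x 1 - x 5) ^ 2 + (x 1 - x 2) ^ 2 + (x 4 - x 5) ^ 2 + (x 4 - x 2) ^ 2 + (x 5 - x 2) ^ 2)) := by positivity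
  have n4 : 0 ≤ x 4 * ((91 / 360) * (x 4 - (x 0 + x 2 + x 1 + x 3 + x 5) / 5) ^ 2 + (1 / 40) * ((4 * x 0 - 3 * (x 2 + x 5) + (x 1 + x 3)) ^ 2 + (4 * x 2 - 3 * (x 1 + x 0) + (x 3 + x 5)) ^ 2 + (4 * x 1 - 3 * (x 3 + x 2) + (x 5 + x 0)) ^ 2 + (4 * x 3 - 3 * (x 5 + x 1) + (x 0 + x 2)) ^ 2 + (4 * x 5 - 3 * (x 0 + x 3) + (x 2 + x 1)) ^ 2) + (7 / 3000) * ((x 0 - x 2) ^ 2 + (x 0 - x 1) ^ 2 + (x 0 - x 3) ^ 2 + (x 0 - x 5) ^ 2 + (x 2 - x 1) ^ 2 + (x 2 - x 3) ^ 2 + (x 2 - x 5) ^ 2 + (x 1 - x 3) ^ 2 + (x 1 - x 5) ^ 2 + (x 3 - x 5) ^ 2)) := by positivity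
  have n5 : 0 ≤ x 5 * ((91 / 360) * (x 5 - (x 0 + x 1 + x 2 + x 3 + x 4) / 5) ^ 2 + (1 / 40) * ((4 * x 0 - 3 * (x 1 + x 4) + (x 2 + x 3)) ^ 2 + (4 * x 1 - 3 * (x 2 + x 0) + (x 3 + x 4)) ^ 2 + (4 * x 2 - 3 * (x 3 + x 1) + (x 4 + x 0)) ^ 2 + (4 * x 3 - 3 * (x 4 + x 2) + (x 0 + x 1)) ^ 2 + (4 * x 4 - 3 * (x 0 + x 3) + (x 1 + x 2)) ^ 2) + (7 / 3000) * ((x 0 - x 1) ^ 2 + (x 0 - x 2) ^ 2 + (x 0 - x 3) ^ 2 + (x 0 - x 4) ^ 2 + (x 1 - x 2) ^ 2 + (x 1 - x 3) ^ 2 + (x 1 - x 4) ^ 2 + (x 2 - x 3) ^ 2 + (x 2 - x 4) ^ 2 + (x 3 - x 4) ^ 2)) := by positivity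
  linarith

theorem lag_near {V : Type} [Fintype V] (T : V → V → V → Prop) (π : V → Fin 6) (ε : ℝ)
    (hε : 0 ≤ ε) (hn : 0 < Fintype.card V)
    (h : (5 / 18 - ε) * (Fintype.card V : ℝ) ^ 3 ≤ c3 (fun x y z => T x y z ∧ Pat π x y z)) :
    Near (6 * Real.sqrt ε) π ∧ c3 (Mis T π) ≤ ε * (Fintype.card V : ℝ) ^ 3 := by
  have h1 := lag (psz π) (fun i => psz_nonneg π i)
  have h2 := mis_eq T π
  have h3 := pat_count π
  rw [sum_psz] at h1
  rw [← h3, h2] at h1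
  have hn0 : (0 : ℝ) < (Fintype.card V : ℝ) := by exact_mod_cast hn
  have hm := c3_nonneg (Mis T π)
  have e1 : Near (6 * Real.sqrt ε) π ↔
      ∀ i, |psz π i - (Fintype.card V : ℝ) / 6| ≤ 6 * Real.sqrt ε * (Fintype.card V : ℝ) := Iff.rfl
  rw [e1]
  generalize (Fintype.card V : ℝ) = n at h h1 hn0 ⊢
  have hs0 : 0 ≤ ∑ i, (psz π i - n / 6) ^ 2 := Finset.sum_nonneg fun i _ => sq_nonneg _
  have hp : 0 ≤ (3 / 100) * n * ∑ i, (psz π i - n / 6) ^ 2 := by positivity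
  have key : (3 / 100) * n * ∑ i, (psz π i - n / 6) ^ 2 ≤ ε * n ^ 3 := by linarith
  refine ⟨?_, by linarith⟩
  intro i
  have hi : (psz π i - n / 6) ^ 2 ≤ ∑ i, (psz π i - n / 6) ^ 2 :=
    Finset.single_le_sum (f := fun i => (psz π i - n / 6) ^ 2) (fun j _ => sq_nonneg _)
      (Finset.mem_univ i)
  have k2 : (3 / 100) * n * (psz π i - n / 6) ^ 2 ≤ ε * n ^ 3 :=
    (mul_le_mul_of_nonneg_left hi (by positivity)).trans key
  have k3 : (3 / 100) * (psz π i - n / 6) ^ 2 ≤ ε * n ^ 2 := by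
    have : n * ((3 / 100) * (psz π i - n / 6) ^ 2) ≤ n * (ε * n ^ 2) := by
      calc n * ((3 / 100) * (psz π i - n / 6) ^ 2) = (3 / 100) * n * (psz π i - n / 6) ^ 2 := by ring
        _ ≤ ε * n ^ 3 := k2
        _ = n * (ε * n ^ 2) := by ring
    exact le_of_mul_le_mul_left this hn0
  have hen : 0 ≤ ε * n ^ 2 := by positivity
  have k4 : (psz π i - n / 6) ^ 2 ≤ (6 * Real.sqrt ε * n) ^ 2 := by
    have : (6 * Real.sqrt ε * n) ^ 2 = 36 * (ε * n ^ 2) := by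
      rw [mul_pow, mul_pow, Real.sq_sqrt hε]; ring
    rw [this]
    linarith
  exact abs_le_of_sq_le_sq k4 (by positivity)

end K4M
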