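import Pool.Agent.Lib.MP_4c59c5_co.Basic

/-!
# LinkSp (45 min)
Pairs (a, b) of `T v`: (1) not A a or not A b: at most `2 * c1 (not A) * n <= 2 z n`;
(2) A a, A b, π a ≠ π b and `Q (π a) (π b) (τ a) = false`: for fixed a at most 5 parts j = π b, each
with at most `θ n` vertices b: total `<= 5 θ n * n`; (3) the same with `τ b`: by symmetry of T v
(`T v a b ↔ T v b a`, `Q_s12`) also `<= 5 θ n^2`; (4) the remaining pairs satisfy `Lk T π τ v a b`
and A a, A b: their number is `sum_{i,j} crs i j = sum_i crs i i + 2 sum_{i<j} crs i j`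
(`Lk` is symmetric, so crs i j = crs j i).
-/

set_option linter.unusedVariables false
set_option linter.unusedSectionVars false

namespace K4M

open Finset
open scoped Classical

private theorem linksp_parts {V : Type} [Fintype V] (A : V → Prop) (π : V → Fin 6)
    (L : V → V → Prop) :
    c2 (fun a b => A a ∧ A b ∧ L a b) = ∑ i, ∑ j, crs A π L i j := by
  unfold crs c2
  have h1 : ∀ i : Fin 6, (∑ j : Fin 6, ∑ x : V, ∑ y : V,
      ind ((A x ∧ π x = i) ∧ (A y ∧ π y = j) ∧ L x y))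
      = ∑ x : V, ∑ y : V, ∑ j : Fin 6, ind ((A x ∧ π x = i) ∧ (A y ∧ π y = j) ∧ L x y) := by
    intro i
    rw [sum_comm]
    exact sum_congr rfl fun x _ => sum_comm
  symm
  refine (Finset.sum_congr rfl fun i (_ : i ∈ (univ : Finset (Fin 6))) => h1 i).trans ?_
  rw [sum_comm]
  refine sum_congr rfl fun x _ => ?_
  rw [sum_comm]
  refine sum_congr rfl fun y _ => ?_
  rw [sum_eq_single (π x)]
  · rw [sum_eq_single (π y)]
    · exact ind_congr (by tauto)
    · intro j _ hj
      exact ind_of_not (fun hh => hj hh.2.1.2.symm)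
    · intro hh; exact absurd (mem_univ _) hh
  · intro i _ hi
    exact sum_eq_zero fun j _ => ind_of_not (fun hh => hi hh.1.2.symm)
  · intro hh; exact absurd (mem_univ _) hh

private theorem linksp_diag (f : Fin 6 → Fin 6 → ℝ) (hf : ∀ i j, f i j = f j i) :
    ∑ i, ∑ j, f i j = ∑ i, f i i + 2 * ∑ i, ∑ j, (if i < j then f i j else 0) := by
  simp only [Fin.sum_univ_six]
  simp only [Fin.isValue, Fin.reduceLT, if_true, if_false, lt_self_iff_false]
  rw [hf 1 0, hf 2 0, hf 3 0, hf 4 0, hf 5 0, hf 2 1, hf 3 1, hf 4 1, hf 5 1, hf 3 2, hf 4 2,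
    hf 5 2, hf 4 3, hf 5 3, hf 5 4]
  ring

private theorem linksp_row {V : Type} [Fintype V] (T : V → V → V → Prop) (π τ : V → Fin 6) (v a : V)
    (t : ℝ) (ht : 0 ≤ t)
    (hτ : ∀ j, j ≠ π a → Q (π a) j (τ a) = false → c1 (fun b => π b = j ∧ T v a b) ≤ t) :
    c1 (fun b => T v a b ∧ π b ≠ π a ∧ Q (π a) (π b) (τ a) = false) ≤ 5 * t := by
  have h1 : c1 (fun b => T v a b ∧ π b ≠ π a ∧ Q (π a) (π b) (τ a) = false)
      = ∑ j : Fin 6, c1 (fun b => π b = j ∧ T v a b ∧ π b ≠ π a ∧ Q (π a) (π b) (τ a) = false) := by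
    unfold c1
    rw [sum_comm]
    refine sum_congr rfl fun b _ => ?_
    rw [sum_eq_single (π b)]
    · exact ind_congr (by tauto)
    · intro j _ hj
      exact ind_of_not (fun hh => hj hh.1.symm)
    · intro hh; exact absurd (mem_univ _) hh
  rw [h1, ← add_sum_erase _ _ (mem_univ (π a))]
  have h2 : c1 (fun b => π b = π a ∧ T v a b ∧ π b ≠ π a ∧ Q (π a) (π b) (τ a) = false) = 0 := by
    unfold c1
    exact sum_eq_zero fun b _ => ind_of_not (fun hh => hh.2.2.1 hh.1)
  rw [h2, zero_add]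
  have h3 : ∀ j ∈ univ.erase (π a),
      c1 (fun b => π b = j ∧ T v a b ∧ π b ≠ π a ∧ Q (π a) (π b) (τ a) = false) ≤ t := by
    intro j hj
    have hj' : j ≠ π a := ne_of_mem_erase hj
    by_cases hQ : Q (π a) j (τ a) = false
    · exact (c1_mono fun b hb => ⟨hb.1, hb.2.1⟩).trans (hτ j hj' hQ)
    · refine le_trans (le_of_eq ?_) ht
      unfold c1
      refine sum_eq_zero fun b _ => ind_of_not ?_
      rintro ⟨rfl, _, _, h⟩
      exact hQ h
  refine (sum_le_card_nsmul _ _ _ h3).trans (le_of_eq ?_)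
  rw [card_erase_of_mem (mem_univ _), card_univ, Fintype.card_fin, nsmul_eq_mul]
  norm_num

theorem link_sp {V : Type} [Fintype V] {T : V → V → V → Prop} (h : IsG T) (π τ : V → Fin 6) (v : V)
    (A : V → Prop) (θ n z : ℝ) (hn : (Fintype.card V : ℝ) = n) (hθ : 0 ≤ θ)
    (hz : c1 (fun a => ¬ A a) ≤ z)
    (hτ : ∀ a, A a → ∀ j, j ≠ π a → Q (π a) j (τ a) = false →
      c1 (fun b => π b = j ∧ T v a b) ≤ θ * n) :
    c2 (T v) ≤ 2 * z * n + 10 * θ * n ^ 2 + ∑ i, crs A π (Lk T π τ v) i i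
      + 2 * ∑ i, ∑ j, (if i < j then crs A π (Lk T π τ v) i j else 0) := by
  have hn0 : 0 ≤ n := by rw [← hn]; positivity
  have hsym : ∀ a b, T v a b ↔ T v b a := fun a b => h.iff23 v a b
  have hLk : ∀ a b, Lk T π τ v a b ↔ Lk T π τ v b a := by
    intro a b
    unfold Lk
    rw [hsym a b, Q_s12 (π a) (π b) (τ a), Q_s12 (π a) (π b) (τ b), @eq_comm _ (π a) (π b)]
    tauto
  have hcrs : ∀ i j, crs A π (Lk T π τ v) i j = crs A π (Lk T π τ v) j i := by
    intro i j
    unfold crs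
    rw [c2_swap]
    refine c2_congr fun a b => ?_
    rw [hLk b a]
    tauto
  -- the four classes
  let P2 : V → V → Prop := fun a b => A a ∧ T v a b ∧ π b ≠ π a ∧ Q (π a) (π b) (τ a) = false
  have hcov : ∀ a b, T v a b → ((¬ A a ∨ ¬ A b) ∨ (P2 a b ∨ P2 b a)) ∨
      (A a ∧ A b ∧ Lk T π τ v a b) := by
    intro a b hab
    by_cases hA : A a
    · by_cases hB : A b
      · by_cases hp : π a = π b
        · exact Or.inr ⟨hA, hB, hab, Or.inl hp⟩
        · by_cases h1 : Q (π a) (π b) (τ a) = true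
          · by_cases h2 : Q (π a) (π b) (τ b) = true
            · exact Or.inr ⟨hA, hB, hab, Or.inr ⟨h1, h2⟩⟩
            · refine Or.inl (Or.inr (Or.inr ⟨hB, (hsym a b).1 hab, hp, ?_⟩))
              rw [Q_s12]
              simpa using h2
          · exact Or.inl (Or.inr (Or.inl ⟨hA, hab, fun hh => hp hh.symm, by simpa using h1⟩))
      · exact Or.inl (Or.inl (Or.inr hB))
    · exact Or.inl (Or.inl (Or.inl hA))
  have e1 : c2 (fun a b : V => ¬ A a) ≤ z * n := by
    have : c2 (fun a b : V => ¬ A a) = c1 (fun a => ¬ A a) * (Fintype.card V : ℝ) := by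
      rw [← c1_true, ← c2_prod]
      exact c2_congr fun a b => by tauto
    rw [this, hn]
    exact mul_le_mul_of_nonneg_right hz hn0
  have e1' : c2 (fun a b : V => ¬ A b) ≤ z * n := by
    rw [c2_swap]; exact e1
  have e2 : c2 P2 ≤ 5 * θ * n ^ 2 := by
    rw [c2_eq_sum]
    have hrow : ∀ a ∈ (univ : Finset V), c1 (P2 a) ≤ 5 * (θ * n) := by
      intro a _
      by_cases hA : A a
      · refine le_trans (c1_mono fun b hb => hb.2) ?_
        exact linksp_row T π τ v a (θ * n) (mul_nonneg hθ hn0) (hτ a hA)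
      · refine le_trans (le_of_eq ?_) (by positivity)
        unfold c1
        exact sum_eq_zero fun b _ => ind_of_not (fun hh => hA hh.1)
    refine (sum_le_card_nsmul _ _ _ hrow).trans (le_of_eq ?_)
    rw [card_univ, nsmul_eq_mul, hn]
    ring
  have e2' : c2 (fun a b => P2 b a) ≤ 5 * θ * n ^ 2 := by
    rw [← c2_swap]; exact e2
  have e3 := linksp_parts A π (Lk T π τ v)
  rw [linksp_diag _ hcrs] at e3
  have h1 : c2 (T v) ≤ c2 (fun a b => ((¬ A a ∨ ¬ A b) ∨ (P2 a b ∨ P2 b a)) ∨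
      (A a ∧ A b ∧ Lk T π τ v a b)) := c2_mono hcov
  have h2 := c2_or_le (fun a b => (¬ A a ∨ ¬ A b) ∨ (P2 a b ∨ P2 b a))
    (fun a b => A a ∧ A b ∧ Lk T π τ v a b)
  have h3 := c2_or_le (fun a b => (¬ A a ∨ ¬ A b)) (fun a b => (P2 a b ∨ P2 b a))
  have h4 := c2_or_le (fun a b : V => ¬ A a) (fun a b => ¬ A b)
  have h5 := c2_or_le P2 (fun a b => P2 b a)
  linarith

end K4M
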