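import Pool.Agent.Lib.MP_4c59c5_co.Basic

/-!
# MEdge (40 min)
Let `B a = A a ∧ π a = i` (preserved by mt: if mt a ≠ a then `π (mt a) = π a`, and
`A (mt a)` by the second property applied to `mt a`), `B1` its matched elements, `B0` the
unmatched ones; `m = c1 B`, `μ = c1 B1`.
Pairs in `B0 × B0`: none (third property). Pairs (a, b), a in B1, b in B: for fixed b,
`ind (L a b) + ind (L (mt a) b) <= 1` (triangle a, mt a, b), and mt is a bijection of B1, so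
`2 * (number of pairs in B1 × B) <= μ m`. Pairs (a, b), a in B0, b in B1: same in the second
variable: `2 * (number) <= (m - μ) μ`. Sum: at most `μ m / 2 + (m - μ) μ / 2 = μ m - μ^2/2`.
(Sums over the involution: `Equiv.sum_comp` with the permutation built from mt,
`Function.Involutive.toPerm`.)
-/

set_option linter.unusedVariables false
set_option linter.unusedSectionVars false

namespace K4M

open Finset
open scoped Classical

theorem medge_ind {p q r s : Prop} (h1 : p → r) (h2 : q → r) (h3 : p → q → False) :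
    ind p + ind q ≤ ind r := by
  unfold ind
  by_cases hp : p
  · have hq : ¬ q := fun hq => h3 hp hq
    simp [hp, hq, h1 hp]
  · by_cases hq : q
    · simp [hp, hq, h2 hq]
    · by_cases hr : r <;> simp [hp, hq, hr]

theorem m_edge {V : Type} [Fintype V] (L : V → V → Prop) (hs : ∀ a b, L a b → L b a)
    (htri : ∀ a b c, L a b → L a c → L b c → False) (π : V → Fin 6) (A : V → Prop) (mt : V → V)
    (h1 : ∀ a, mt (mt a) = a) (h2 : ∀ a, mt a ≠ a → L a (mt a) ∧ π (mt a) = π a ∧ A a)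
    (h3 : ∀ a b, A a → A b → π a = π b → mt a = a → mt b = b → ¬ L a b) (i : Fin 6) :
    crs A π L i i ≤ c1 (fun a => (A a ∧ π a = i) ∧ mt a ≠ a) * c1 (fun a => A a ∧ π a = i)
      - (c1 (fun a => (A a ∧ π a = i) ∧ mt a ≠ a)) ^ 2 / 2 := by
  let e : Equiv.Perm V := Function.Involutive.toPerm mt h1
  have he : ∀ a, e a = mt a := fun a => rfl
  -- the matched vertices of the part are preserved
  have hB : ∀ a, ((A (mt a) ∧ π (mt a) = i) ∧ mt (mt a) ≠ mt a) →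
      ((A a ∧ π a = i) ∧ mt a ≠ a) := by
    rintro a ⟨⟨ha, hp⟩, hne⟩
    rw [h1] at hne
    obtain ⟨_, h5, h6⟩ := h2 a hne.symm
    exact ⟨⟨h6, h5 ▸ hp⟩, hne.symm⟩
  have hsplit := c2_split (fun a b => (A a ∧ π a = i) ∧ (A b ∧ π b = i) ∧ L a b)
    (fun a _ => mt a ≠ a)
  have e1 : 2 * c2 (fun a b => ((A a ∧ π a = i) ∧ (A b ∧ π b = i) ∧ L a b) ∧ mt a ≠ a) ≤
      c1 (fun a => (A a ∧ π a = i) ∧ mt a ≠ a) * c1 (fun a => A a ∧ π a = i) := by
    rw [← c2_prod, two_mul]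
    nth_rw 2 [c2]
    rw [← Equiv.sum_comp e, c2, c2, ← Finset.sum_add_distrib]
    refine Finset.sum_le_sum fun a _ => ?_
    rw [← Finset.sum_add_distrib]
    refine Finset.sum_le_sum fun b _ => ?_
    rw [he]
    refine medge_ind (s := True) ?_ ?_ ?_
    · rintro ⟨⟨h4, h5, _⟩, h6⟩
      exact ⟨⟨h4, h6⟩, h5⟩
    · rintro ⟨⟨h4, h5, _⟩, h6⟩
      exact ⟨hB a ⟨h4, h6⟩, h5⟩
    · rintro ⟨⟨_, _, h4⟩, h5⟩ ⟨⟨_, _, h6⟩, _⟩
      exact htri a (mt a) b (h2 a h5).1 h4 h6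
  have e2 : 2 * c2 (fun a b => ((A a ∧ π a = i) ∧ (A b ∧ π b = i) ∧ L a b) ∧ ¬ mt a ≠ a) ≤
      c1 (fun a => (A a ∧ π a = i) ∧ ¬ mt a ≠ a) * c1 (fun a => (A a ∧ π a = i) ∧ mt a ≠ a) := by
    rw [← c2_prod, two_mul]
    nth_rw 2 [c2]
    rw [c2, c2, ← Finset.sum_add_distrib]
    refine Finset.sum_le_sum fun a _ => ?_
    have e3 : ∑ b, ind (((A a ∧ π a = i) ∧ (A b ∧ π b = i) ∧ L a b) ∧ ¬ mt a ≠ a) =
        ∑ b, ind (((A a ∧ π a = i) ∧ (A (mt b) ∧ π (mt b) = i) ∧ L a (mt b)) ∧ ¬ mt a ≠ a) :=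
      (Equiv.sum_comp e fun b =>
        ind (((A a ∧ π a = i) ∧ (A b ∧ π b = i) ∧ L a b) ∧ ¬ mt a ≠ a)).symm
    nth_rw 2 [e3]
    rw [← Finset.sum_add_distrib]
    refine Finset.sum_le_sum fun b _ => ?_
    refine medge_ind (s := True) ?_ ?_ ?_
    · rintro ⟨⟨h4, h5, h7⟩, h6⟩
      refine ⟨⟨h4, h6⟩, h5, fun h8 => ?_⟩
      exact h3 a b h4.1 h5.1 (h4.2.trans h5.2.symm) (not_not.mp h6) h8 h7
    · rintro ⟨⟨h4, h5, h7⟩, h6⟩
      refine ⟨⟨h4, h6⟩, hB b ⟨h5, fun h8 => ?_⟩⟩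
      exact h3 a (mt b) h4.1 h5.1 (h4.2.trans h5.2.symm) (not_not.mp h6) h8 h7
    · rintro ⟨⟨h10, h11, h4⟩, h5⟩ ⟨⟨_, _, h6⟩, _⟩
      have h8 : mt b ≠ b := fun h8 =>
        h3 a b h10.1 h11.1 (h10.2.trans h11.2.symm) (not_not.mp h5) h8 h4
      exact htri b (mt b) a (h2 b h8).1 (hs _ _ h4) (hs _ _ h6)
  have e4 := c1_split (fun a => A a ∧ π a = i) (fun a => mt a ≠ a)
  have e5 : crs A π L i i = c2 (fun a b => (A a ∧ π a = i) ∧ (A b ∧ π b = i) ∧ L a b) := rfl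
  rw [e5, hsplit]
  set μ := c1 (fun a => (A a ∧ π a = i) ∧ mt a ≠ a)
  set ν := c1 (fun a => (A a ∧ π a = i) ∧ ¬ mt a ≠ a)
  rw [e4] at e1 ⊢
  nlinarith

end K4M
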