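import Pool.Agent.Lib.MP_4c59c5_co.Core
import Pool.Agent.Lib.MP_4c59c5_co.Clean
import Pool.Agent.Lib.MP_4c59c5_co.GGrow
import Pool.Agent.Lib.MP_4c59c5_co.Lag

/-!
# MainT: the main theorem for ternary relations
-/

set_option linter.unusedVariables false
set_option linter.unusedSectionVars false

namespace K4M

open Finset
open scoped Classical

theorem c3_eq_zero {V : Type} [Fintype V] {R : V → V → V → Prop} (h : c3 R ≤ 0) (x y z : V) :
    ¬ R x y z := by
  intro hr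
  have h1 : ind (R x y z) ≤ c3 R := by
    unfold c3
    calc ind (R x y z) ≤ ∑ c, ind (R x y c) :=
          Finset.single_le_sum (f := fun c => ind (R x y c)) (fun _ _ => ind_nonneg _) (mem_univ z)
      _ ≤ ∑ b, ∑ c, ind (R x b c) :=
          Finset.single_le_sum (f := fun b => ∑ c, ind (R x b c))
            (fun _ _ => sum_nonneg fun _ _ => ind_nonneg _) (mem_univ y)
      _ ≤ _ := Finset.single_le_sum (f := fun a => ∑ b, ∑ c, ind (R a b c))
            (fun _ _ => sum_nonneg fun _ _ => sum_nonneg fun _ _ => ind_nonneg _) (mem_univ x)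
  rw [ind_of hr] at h1
  linarith

theorem inner_le {V : Type} [Fintype V] {T : V → V → V → Prop} (h : IsG T) (ρ : V → Fin 6) :
    ∑ i, c3 (res (fun v => ρ v = i) T) ≤ ∑ i, exo (nc (fun v => ρ v = i)) :=
  sum_le_sum fun i _ => le_exo_res h _

theorem upper_le {V : Type} [Fintype V] {T : V → V → V → Prop} (h : IsG T) (ρ : V → Fin 6) :
    c3 T ≤ fF ρ - c3 (Mis T ρ) + c3 (Bad T ρ) := by
  have h1 := split h ρ
  have h2 := inner_le h ρ
  unfold fF
  linarith

theorem finish {V : Type} [Fintype V] {T : V → V → V → Prop} (h : IsG T) (ρ : V → Fin 6)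
    (hn : Near (1 / 100) ρ) (hb : 20 * c3 (Bad T ρ) ≤ 19 * c3 (Mis T ρ))
    (hg : gG (Fintype.card V) ≤ c3 T) :
    (∀ x y z, ¬ (ρ x = ρ y ∧ ρ y = ρ z) → (T x y z ↔ Q (ρ x) (ρ y) (ρ z) = true)) ∧
      (∀ i, c3 (res (fun v => ρ v = i) T) = exo (nc (fun v => ρ v = i))) ∧
      c3 T = fF ρ ∧ fF ρ = gG (Fintype.card V) := by
  have h1 := upper_le h ρ
  have h2 := le_gG ρ hn
  have h3 : c3 (Mis T ρ) ≤ 0 := by linarith
  have h3' : 0 ≤ c3 (Mis T ρ) := c3_nonneg _
  have h4 : c3 (Bad T ρ) ≤ 0 := by linarith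
  have h4' : 0 ≤ c3 (Bad T ρ) := c3_nonneg _
  have h5 : c3 T = fF ρ := by linarith
  refine ⟨?_, ?_, h5, by linarith⟩
  · intro x y z hxyz
    constructor
    · intro hT
      by_contra hq
      exact c3_eq_zero h4 x y z ⟨hT, by simpa using hq, hxyz⟩
    · intro hq
      by_contra hT
      exact c3_eq_zero h3 x y z ⟨hq, hT⟩
  · intro i
    have h6 := split h ρ
    have h7 : ∑ i, c3 (res (fun v => ρ v = i) T) = ∑ i, exo (nc (fun v => ρ v = i)) := by
      unfold fF at h5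
      linarith
    have h8 := (Finset.sum_eq_sum_iff_of_le (fun i _ => le_exo_res h (fun v => ρ v = i))).mp h7
    exact h8 i (mem_univ i)

/-- the induced 3-graph on a vertex set, with the induced partition -/
theorem main_T (κ : ℝ) (hκ : 0 < κ) : ∃ ε : ℝ, 0 < ε ∧ ∃ N : ℕ,
    ∀ (V : Type) [Fintype V] (T : V → V → V → Prop), IsG T → N ≤ Fintype.card V →
      ∀ π : V → Fin 6,
      (5 / 18 - ε) * (Fintype.card V : ℝ) ^ 3 ≤ c3 (fun x y z => T x y z ∧ Pat π x y z) →
      gG (Fintype.card V) ≤ c3 T →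
      ∃ ρ : V → Fin 6, Near κ ρ ∧
        (∀ x y z, ¬ (ρ x = ρ y ∧ ρ y = ρ z) → (T x y z ↔ Q (ρ x) (ρ y) (ρ z) = true)) ∧
        (∀ i, c3 (res (fun v => ρ v = i) T) = exo (nc (fun v => ρ v = i))) ∧
        c3 T = fF ρ ∧ fF ρ = gG (Fintype.card V) := by
  obtain ⟨κ', hκ0, hκ1, hκ2⟩ : ∃ k : ℝ, 0 < k ∧ k ≤ κ ∧ k ≤ 1 / 100 :=
    ⟨min κ (1 / 100), lt_min hκ (by norm_num), min_le_left _ _, min_le_right _ _⟩
  obtain ⟨ε1, hε1, δ1, hδ1, N1, hcore⟩ := core κ' hκ0
  obtain ⟨N2, hgrow⟩ := g_grow (δ1 / 2) (by positivity)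
  obtain ⟨e1, he0, he1, he2⟩ : ∃ e : ℝ, 0 < e ∧ e ≤ ε1 ∧ e ≤ 1 / 100 :=
    ⟨min ε1 (1 / 100), lt_min hε1 (by norm_num), min_le_left _ _, min_le_right _ _⟩
  obtain ⟨d, hd0, hd1⟩ : ∃ d : ℝ, 0 < d ∧ d = e1 / 4 := ⟨e1 / 4, by positivity, rfl⟩
  obtain ⟨lam, hl0, hl1⟩ : ∃ l : ℝ, 0 < l ∧ l = δ1 / 2 := ⟨δ1 / 2, by positivity, rfl⟩
  obtain ⟨ε, hε0, hεa, hεb, hεc⟩ : ∃ ε : ℝ, 0 < ε ∧ ε ≤ (e1 / 60) ^ 2 ∧ ε ≤ ε1 / 8 ∧
      ε ≤ lam * d / 60 :=
    ⟨min (min ((e1 / 60) ^ 2) (ε1 / 8)) (lam * d / 60),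
      lt_min (lt_min (by positivity) (by positivity)) (by positivity),
      (min_le_left _ _).trans (min_le_left _ _), (min_le_left _ _).trans (min_le_right _ _),
      min_le_right _ _⟩
  have hsq : 6 * Real.sqrt ε ≤ e1 / 10 := by
    have : Real.sqrt ε ≤ e1 / 60 := by
      rw [Real.sqrt_le_left (by positivity)]
      exact hεa
    linarith
  refine ⟨ε, hε0, 2 * N1 + 2 * N2 + Nat.ceil (2 / d) + 10, ?_⟩
  intro V _ T hT hN π hpat hg
  obtain ⟨n, hn⟩ : ∃ n : ℝ, (Fintype.card V : ℝ) = n := ⟨_, rfl⟩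
  have hN' : ((2 * N1 + 2 * N2 + Nat.ceil (2 / d) + 10 : ℕ) : ℝ) ≤ n := by
    rw [← hn]; exact_mod_cast hN
  push_cast at hN'
  have hceil : 2 / d ≤ (Nat.ceil (2 / d) : ℝ) := Nat.le_ceil _
  have hN10 : (0 : ℝ) ≤ (N1 : ℝ) := Nat.cast_nonneg _
  have hN20 : (0 : ℝ) ≤ (N2 : ℝ) := Nat.cast_nonneg _
  have hn0 : 0 < n := by linarith [div_pos (by norm_num : (0:ℝ) < 2) hd0]
  have hcard : 0 < Fintype.card V := by
    have : (0 : ℝ) < (Fintype.card V : ℝ) := by rw [hn]; exact hn0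
    exact_mod_cast this
  have hnd : 2 ≤ d * n := by
    have : 2 / d ≤ n := by linarith
    rw [div_le_iff₀ hd0] at this
    linarith
  obtain ⟨hnear, hmis⟩ := lag_near T π ε hε0.le hcard hpat
  rw [hn] at hmis
  have hps : ∀ i, |psz π i - n / 6| ≤ e1 / 10 * n := by
    intro i
    have := hnear i
    rw [hn] at this
    exact this.trans (mul_le_mul_of_nonneg_right hsq hn0.le)
  have hbad : c3 (Bad T π) ≤ 15 * c3 (Mis T π) := by
    apply bad_count hT π
    intro i
    have := hps i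
    rw [abs_le] at this
    rw [hn]
    nlinarith [this.1]
  -- the set W
  set k : ℕ := Nat.ceil ((1 - d) * n) with hk
  have hd2 : d ≤ 1 / 400 := by rw [hd1]; linarith
  have hkn : k ≤ Fintype.card V := by
    rw [hk]
    apply Nat.ceil_le.mpr
    rw [hn]; nlinarith
  obtain ⟨W, hW1, hW2, hW3⟩ := clean hT lam hl0.le k hkn hg
  obtain ⟨w, hw⟩ : ∃ w : ℝ, (nc W : ℝ) = w := ⟨_, rfl⟩
  have hw' : c1 W = w := by rw [← nc_eq]; exact hw
  rw [hn, hw] at hW2
  have hwk : (1 - d) * n ≤ w := by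
    have h1 : (1 - d) * n ≤ (k : ℝ) := Nat.le_ceil _
    have h2 : (k : ℝ) ≤ (nc W : ℝ) := by exact_mod_cast hW1
    rw [hw] at h2; linarith
  have hwn : w ≤ n := by rw [← hw', ← hn]; exact c1_le_card W
  have hw2 : n / 2 ≤ w := by nlinarith
  have hw0 : 0 < w := by linarith
  -- induced structure
  have hcW : (Fintype.card {v // W v} : ℝ) = w := by rw [← nc_eq_card]; exact hw
  have hcW' : Fintype.card {v // W v} = nc W := (nc_eq_card W).symm
  obtain ⟨T', hT'⟩ : ∃ T' : {v // W v} → {v // W v} → {v // W v} → Prop,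
      T' = fun (x y z : {v // W v}) => T (x : V) (y : V) (z : V) := ⟨_, rfl⟩
  have hG' : IsG T' := by rw [hT']; exact hT.comap (fun v : {v // W v} => (v : V))
  have hc3 : c3 T' = c3 (res W T) := by rw [hT']; exact c3_sub W T
  have hps' : ∀ i, |psz (fun v : {v // W v} => π v) i - w / 6| ≤ e1 / 2 * w := by
    intro i
    have h1 : psz (fun v : {v // W v} => π v) i = c1 (fun x => W x ∧ π x = i) := by
      unfold psz; exact c1_sub W (fun x => π x = i)
    have h2 : psz π i = c1 (fun x => W x ∧ π x = i) + c1 (fun x => π x = i ∧ ¬ W x) := by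
      unfold psz
      rw [c1_split (fun x => π x = i) W]
      congr 1
      exact c1_congr fun x => and_comm
    have h3 : c1 (fun x => π x = i ∧ ¬ W x) ≤ n - w := by
      calc c1 (fun x => π x = i ∧ ¬ W x) ≤ c1 (fun x => ¬ W x) := c1_mono fun x hx => hx.2
        _ = n - w := by rw [c1_compl, hn, hw']
    have h3' : 0 ≤ c1 (fun x => π x = i ∧ ¬ W x) := c1_nonneg _
    have h4 := hps i
    have h5 : n - w ≤ d * n := by linarith
    rw [h1]
    rw [abs_le] at h4 ⊢
    rw [hd1] at h5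
    constructor <;> nlinarith [h4.1, h4.2]
  have hmis1 : c3 (Mis T' (fun v => π v)) ≤ c3 (Mis T π) := by
    have h1 : c3 (Mis T' (fun v => π v)) = c3 (res W (Mis T π)) := by
      rw [hT']; exact c3_sub W (Mis T π)
    rw [h1]; exact c3_mono fun x y z hx => hx.2.2.2
  have hbad1 : c3 (Bad T' (fun v => π v)) ≤ c3 (Bad T π) := by
    have h1 : c3 (Bad T' (fun v => π v)) = c3 (res W (Bad T π)) := by
      rw [hT']; exact c3_sub W (Bad T π)
    rw [h1]; exact c3_mono fun x y z hx => hx.2.2.2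
  have hcube : w ^ 3 ≤ n ^ 3 := pow_le_pow_left₀ hw0.le hwn 3
  -- W is larger than the threshold
  have hlt : k < nc W := by
    rcases Nat.lt_or_ge k (nc W) with h1 | h1
    · exact h1
    · exfalso
      have h2 : nc W = k := le_antisymm h1 hW1
      have h3 : w ≤ (1 - d) * n + 1 := by
        rw [← hw, h2, hk]
        have h4 : 0 ≤ (1 - d) * n := by
          apply mul_nonneg _ hn0.le; linarith
        exact (Nat.ceil_lt_add_one h4).le
      have h4 := upper_le hG' (fun v => π v)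
      have h5 : fF (fun v : {v // W v} => π v) ≤ gG (nc W) := by
        rw [← hcW']
        apply le_gG
        intro i
        rw [hcW]
        refine (hps' i).trans ?_
        nlinarith
      have h6 : 0 ≤ c3 (Mis T' (fun v => π v)) := c3_nonneg _
      have h7 : lam * (n ^ 3 - w ^ 3) ≤ 15 * (ε * n ^ 3) := by
        rw [hc3] at h4
        linarith
      have h8 : d / 2 * n ^ 3 ≤ n ^ 3 - w ^ 3 := by
        have h9 : d / 2 * n ≤ n - w := by linarith
        have h10 : n ^ 3 - w ^ 3 = (n - w) * (n ^ 2 + n * w + w ^ 2) := by ring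
        rw [h10]
        have h11 : n ^ 2 ≤ n ^ 2 + n * w + w ^ 2 := by nlinarith
        calc d / 2 * n ^ 3 = (d / 2 * n) * n ^ 2 := by ring
          _ ≤ (n - w) * (n ^ 2 + n * w + w ^ 2) :=
            mul_le_mul h9 h11 (by positivity) (by linarith)
      have h12 : lam * (d / 2 * n ^ 3) ≤ 15 * (ε * n ^ 3) :=
        (mul_le_mul_of_nonneg_left h8 hl0.le).trans h7
      have h13 : 15 * (ε * n ^ 3) ≤ 15 * (lam * d / 60 * n ^ 3) := by
        have : ε * n ^ 3 ≤ lam * d / 60 * n ^ 3 := mul_le_mul_of_nonneg_right hεc (by positivity)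
        linarith
      have h14 : 0 < lam * d * n ^ 3 := by positivity
      nlinarith
  -- degrees inside W
  have hdeg : ∀ v : {v // W v}, ((10 + Pi0) / 36 - δ1) * (Fintype.card {v // W v} : ℝ) ^ 2
      ≤ c2 (T' v) := by
    intro v
    have h1 := hW3 hlt v v.2
    rw [hw] at h1
    have h2 : c2 (T' v) = c2 (fun y z => W y ∧ W z ∧ T v y z) := by
      rw [hT']; exact c2_sub W (T v)
    rw [h2, hcW]
    have h3 : 1 ≤ nc W := by omega
    have h4 : N2 ≤ nc W - 1 := by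
      have h5 : (N2 : ℝ) + 1 ≤ (nc W : ℝ) := by rw [hw]; linarith
      have h6 : N2 + 1 ≤ nc W := by exact_mod_cast h5
      omega
    have h5 := hgrow (nc W - 1) h4
    have h6 : nc W - 1 + 1 = nc W := by omega
    rw [h6] at h5
    have h7 : ((nc W - 1 : ℕ) : ℝ) + 1 = w := by
      rw [← hw]; exact_mod_cast h6
    rw [h7] at h5
    rw [hl1] at h1
    nlinarith
  have hgW : gG (Fintype.card {v // W v}) ≤ c3 T' := by
    rw [hcW', hc3]
    have : 0 ≤ lam * (n ^ 3 - w ^ 3) := mul_nonneg hl0.le (by linarith)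
    linarith
  have hN1W : N1 ≤ Fintype.card {v // W v} := by
    rw [hcW']
    have h5 : (N1 : ℝ) ≤ (nc W : ℝ) := by rw [hw]; linarith
    exact_mod_cast h5
  have hmisW : c3 (Mis T' (fun v => π v)) ≤ ε1 * (Fintype.card {v // W v} : ℝ) ^ 3 := by
    rw [hcW]
    have h1 : n ^ 3 ≤ 8 * w ^ 3 := by
      have h2 : n ^ 3 ≤ (2 * w) ^ 3 := pow_le_pow_left₀ hn0.le (by linarith) 3
      calc n ^ 3 ≤ (2 * w) ^ 3 := h2
        _ = 8 * w ^ 3 := by ring
    have h2 : ε * n ^ 3 ≤ ε1 / 8 * (8 * w ^ 3) := mul_le_mul hεb h1 (by positivity) (by positivity)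
    linarith
  obtain ⟨ρ', hρ1, hρ2⟩ := hcore {v // W v} T' hG' hN1W hdeg hgW (fun v => π v) (by
    intro i
    rw [hcW]
    refine (hps' i).trans ?_
    nlinarith) hmisW
  have hρn : Near (1 / 100) ρ' := by
    intro i
    rw [hcW]
    have := hρ1 i
    rw [hcW] at this
    exact this.trans (mul_le_mul_of_nonneg_right hκ2 hw0.le)
  have h1 := upper_le hG' ρ'
  have h2 := le_gG ρ' hρn
  rw [hcW'] at h2
  have h3 : 0 ≤ c3 (Mis T' ρ') := c3_nonneg _
  have h4 : lam * (n ^ 3 - w ^ 3) ≤ 0 := by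
    rw [hc3] at h1
    linarith
  have h5 : n ≤ w := by
    by_contra hlt'
    push Not at hlt'
    have : w ^ 3 < n ^ 3 := pow_lt_pow_left₀ hlt' hw0.le (by norm_num)
    have : 0 < lam * (n ^ 3 - w ^ 3) := mul_pos hl0 (by linarith)
    linarith
  have hWall : ∀ v, W v := by
    have h6 : nc W = Fintype.card V := by
      have : (nc W : ℝ) = (Fintype.card V : ℝ) := by rw [hw, hn]; linarith
      exact_mod_cast this
    intro v
    unfold nc at h6
    have h7 : univ.filter (fun x => W x) = univ := by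
      rw [← Finset.card_eq_iff_eq_univ]; exact h6
    have h8 : v ∈ univ.filter (fun x => W x) := by rw [h7]; exact mem_univ v
    exact (mem_filter.mp h8).2
  -- transport to V
  let e : V ≃ {v // W v} := (Equiv.subtypeUnivEquiv hWall).symm
  have he : ∀ v, ((e v : {v // W v}) : V) = v := fun v => rfl
  refine ⟨fun v => ρ' (e v), ?_, finish hT (fun v => ρ' (e v)) ?_ ?_ hg⟩
  · intro i
    have h6 : psz (fun v => ρ' (e v)) i = psz ρ' i := by
      unfold psz; exact c1_equiv e (fun x => ρ' x = i)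
    have h7 := hρ1 i
    rw [h6, hn]
    rw [hcW] at h7
    have h8 : w = n := le_antisymm hwn h5
    rw [h8] at h7
    exact h7.trans (mul_le_mul_of_nonneg_right hκ1 hn0.le)
  · intro i
    have h6 : psz (fun v => ρ' (e v)) i = psz ρ' i := by
      unfold psz; exact c1_equiv e (fun x => ρ' x = i)
    have h7 := hρn i
    rw [h6, hn]
    rw [hcW] at h7
    have h8 : w = n := le_antisymm hwn h5
    rw [h8] at h7
    exact h7
  · have h6 : c3 (Bad T (fun v => ρ' (e v))) = c3 (Bad T' ρ') := by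
      rw [← c3_equiv e (Bad T' ρ'), hT']
      rfl
    have h7 : c3 (Mis T (fun v => ρ' (e v))) = c3 (Mis T' ρ') := by
      rw [← c3_equiv e (Mis T' ρ'), hT']
      rfl
    rw [h6, h7]
    exact hρ2

end K4M
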