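import Pool.Agent.Lib.MP_4c59c5_co.ExApi

/-!
# Mono (30 min)
Deletion averaging. Take an extremal `T` on `Fin (n+1)` (`exists_exo`). For every vertex `v` the
restriction to the other vertices has `c3 (res (fun x => x ≠ v) T) <= exo n` (`le_exo_res`, the
number of vertices different from `v` is `n`). Sum over `v`: a triple `x y z` of `T` (three
distinct vertices, `IsG.ne12` ...) is counted for exactly `n + 1 - 3 = n - 2` vertices `v`:
`sum_v ind (x ≠ v) * ind (y ≠ v) * ind (z ≠ v) = (n+1) - 3`. Hence
`(n - 2) * c3 T <= (n + 1) * exo n`. (For n = 0, 1, 2 the left side is at most 0 or the claim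
is trivial: exo (n+1) >= 0, for n <= 2 the factor n - 2 is <= 0 and the right side is >= 0.)
-/

set_option linter.unusedVariables false
set_option linter.unusedSectionVars false

namespace K4M

open Finset
open scoped Classical

theorem Mono_term {n : ℕ} {T : Fin (n + 1) → Fin (n + 1) → Fin (n + 1) → Prop} (hT : IsG T)
    (x y z : Fin (n + 1)) :
    ∑ v, ind (res (fun x => x ≠ v) T x y z) = ind (T x y z) * ((n : ℝ) - 2) := by
  by_cases h : T x y z
  · have h1 := hT.ne12 h
    have h2 := hT.ne23 h
    have h3 := hT.ne13 h
    have h4 : ∀ v, ind (res (fun x => x ≠ v) T x y z) =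
        1 - (if v = x then (1 : ℝ) else 0) - (if v = y then (1 : ℝ) else 0) -
          (if v = z then (1 : ℝ) else 0) := by
      intro v
      unfold ind res
      by_cases hx : v = x
      · subst hx
        simp [h1, h3]
      · by_cases hy : v = y
        · subst hy
          simp [hx, h2]
        · by_cases hz : v = z
          · subst hz
            simp [hx, hy]
          · have e1 : x ≠ v := fun e => hx e.symm
            have e2 : y ≠ v := fun e => hy e.symm
            have e3 : z ≠ v := fun e => hz e.symm
            simp [hx, hy, hz, e1, e2, e3, h]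
    rw [Finset.sum_congr rfl fun v _ => h4 v, Finset.sum_sub_distrib, Finset.sum_sub_distrib,
      Finset.sum_sub_distrib, Finset.sum_ite_eq' univ x, Finset.sum_ite_eq' univ y,
      Finset.sum_ite_eq' univ z, if_pos (mem_univ _), if_pos (mem_univ _), if_pos (mem_univ _),
      ind_of h]
    simp only [sum_const, card_univ, Fintype.card_fin, nsmul_eq_mul, mul_one]
    push_cast
    ring
  · rw [ind_of_not h, zero_mul]
    refine Finset.sum_eq_zero fun v _ => ?_
    exact ind_of_not (fun h1 => h h1.2.2.2)

theorem exo_mono (n : ℕ) : exo (n + 1) * ((n : ℝ) - 2) ≤ ((n : ℝ) + 1) * exo n := by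
  obtain ⟨T, hT, hc⟩ := exists_exo (Fin (n + 1))
  rw [Fintype.card_fin] at hc
  have h1 : ∀ v : Fin (n + 1), c3 (res (fun x => x ≠ v) T) ≤ exo n := by
    intro v
    have h0 := le_exo_res hT (fun x => x ≠ v)
    have h2 : nc (fun x : Fin (n + 1) => x ≠ v) = n := by
      have h3 : nc (fun x : Fin (n + 1) => x ≠ v) = (univ.erase v).card := by
        unfold nc
        congr 1
        ext x
        simp
      rw [h3, card_erase_of_mem (mem_univ v)]
      simp
    rwa [h2] at h0
  have h2 : ∑ v, c3 (res (fun x => x ≠ v) T) = c3 T * ((n : ℝ) - 2) := by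
    unfold c3
    rw [sum_comm, sum_mul]
    refine sum_congr rfl fun x _ => ?_
    rw [sum_comm, sum_mul]
    refine sum_congr rfl fun y _ => ?_
    rw [sum_comm, sum_mul]
    refine sum_congr rfl fun z _ => ?_
    exact Mono_term hT x y z
  rw [← hc, ← h2]
  calc ∑ v, c3 (res (fun x => x ≠ v) T) ≤ ∑ _v : Fin (n + 1), exo n :=
        sum_le_sum fun v _ => h1 v
    _ = ((n : ℝ) + 1) * exo n := by
        simp only [sum_const, card_univ, Fintype.card_fin, nsmul_eq_mul]
        push_cast
        ring

end K4M
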