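import Pool.Agent.Lib.MP_4c59c5_co.Basic

/-!
# Mtch (40 min)
Consider all maps `mt : V → V` with the first two properties (the identity is one; there are
finitely many) and take one which maximizes the number of moved points. If the third property
fails for a, b (a ≠ b because `L` is irreflexive) define `mt' a = b`, `mt' b = a`, `mt' x = mt x`
otherwise: it is again an involution (mt x is never a or b for x ≠ a, b, because mt a = a and
mt b = b and mt is injective), has the first two properties and moves two more points.
-/

set_option linter.unusedVariables false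
set_option linter.unusedSectionVars false

namespace K4M

open Finset
open scoped Classical

theorem exists_mt {V : Type} [Fintype V] (L : V → V → Prop) (hs : ∀ a b, L a b → L b a)
    (hi : ∀ a, ¬ L a a) (π : V → Fin 6) (A : V → Prop) :
    ∃ mt : V → V, (∀ a, mt (mt a) = a) ∧ (∀ a, mt a ≠ a → L a (mt a) ∧ π (mt a) = π a ∧ A a) ∧
      (∀ a b, A a → A b → π a = π b → mt a = a → mt b = b → ¬ L a b) := by
  let S : Finset (V → V) := univ.filter fun mt => (∀ a, mt (mt a) = a) ∧
    (∀ a, mt a ≠ a → L a (mt a) ∧ π (mt a) = π a ∧ A a)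
  have hS : S.Nonempty := ⟨id, by simp [S]⟩
  obtain ⟨mt, hmt, hmax⟩ := Finset.exists_max_image S
    (fun mt => (univ.filter fun a => mt a ≠ a).card) hS
  obtain ⟨h1, h2⟩ := (Finset.mem_filter.mp hmt).2
  refine ⟨mt, h1, h2, ?_⟩
  intro a b ha hb hab hma hmb hL
  have hne : a ≠ b := by
    rintro rfl
    exact hi _ hL
  let mt' : V → V := fun x => if x = a then b else if x = b then a else mt x
  have ea : mt' a = b := by simp [mt']
  have eb : mt' b = a := by simp [mt', hne.symm]
  have ex : ∀ x, x ≠ a → x ≠ b → mt' x = mt x := fun x h3 h4 => by simp [mt', h3, h4]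
  have hmem : mt' ∈ S := by
    refine Finset.mem_filter.mpr ⟨Finset.mem_univ _, fun x => ?_, fun x hx => ?_⟩
    · by_cases hxa : x = a
      · rw [hxa, ea, eb]
      · by_cases hxb : x = b
        · rw [hxb, eb, ea]
        · have h3 : mt x ≠ a := fun h => hxa (by rw [← h1 x, h, hma])
          have h4 : mt x ≠ b := fun h => hxb (by rw [← h1 x, h, hmb])
          rw [ex x hxa hxb, ex _ h3 h4, h1]
    · by_cases hxa : x = a
      · rw [hxa, ea]
        exact ⟨hL, hab.symm, ha⟩
      · by_cases hxb : x = b
        · rw [hxb, eb]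
          exact ⟨hs _ _ hL, hab, hb⟩
        · rw [ex x hxa hxb] at hx ⊢
          exact h2 x hx
  have hlt : (univ.filter fun a => mt a ≠ a).card < (univ.filter fun a => mt' a ≠ a).card := by
    refine Finset.card_lt_card (Finset.ssubset_iff_subset_ne.mpr ⟨fun x hx => ?_, fun he => ?_⟩)
    · have hx' := (Finset.mem_filter.mp hx).2
      have hxa : x ≠ a := fun h => hx' (by rw [h, hma])
      have hxb : x ≠ b := fun h => hx' (by rw [h, hmb])
      exact Finset.mem_filter.mpr ⟨Finset.mem_univ _, by rw [ex x hxa hxb]; exact hx'⟩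
    · have h3 : a ∈ univ.filter fun a => mt' a ≠ a :=
        Finset.mem_filter.mpr ⟨Finset.mem_univ _, by rw [ea]; exact hne.symm⟩
      rw [← he] at h3
      exact (Finset.mem_filter.mp h3).2 hma
  exact absurd (hmax mt' hmem) (not_le.mpr hlt)

end K4M
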