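import Pool.Agent.Lib.MP_4c59c5_co.Basic

/-!
# OptS (40 min, only finite products)
Write `σ i = prod_{j ≠ i} r j i` (all factors in [0,1], since `r j i <= sum_{i ≠ j} r j i <= 1`).
Let i1 be an index with σ i1 = S maximal.
Case S <= 13/100: `sum σ <= 6 S <= 78/100 <= 1 - (11/50)(1 - S)`.
Case S >= 13/100: for j ≠ i1: `r j i1 >= σ i1 = S` (other factors <= 1). For i ≠ i1:
`σ i = r i1 i * prod_{j ≠ i, i1} r j i`, and for the four j ≠ i, i1:
`r j i <= 1 - r j i1 <= 1 - S` (two terms of the sum of row j). So `σ i <= r i1 i * (1-S)^4`, and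
`sum_{i ≠ i1} σ i <= (1-S)^4` (row i1). `S + (1-S)^4 <= 1 - (11/50)(1-S)` because
`(1-S)^3 <= 0.87^3 <= 0.66 <= 0.78`.
-/

set_option linter.unusedVariables false
set_option linter.unusedSectionVars false

namespace K4M

open Finset
open scoped Classical

theorem optS (r : Fin 6 → Fin 6 → ℝ) (h0 : ∀ j i, 0 ≤ r j i)
    (hs : ∀ j, ∑ i ∈ univ.erase j, r j i ≤ 1) (i1 : Fin 6)
    (hi : ∀ i, ∏ j ∈ univ.erase i, r j i ≤ ∏ j ∈ univ.erase i1, r j i1) :
    ∑ i, ∏ j ∈ univ.erase i, r j i ≤ 1 - (11 / 50) * (1 - ∏ j ∈ univ.erase i1, r j i1) := by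
  set S := ∏ j ∈ univ.erase i1, r j i1 with hS
  have h1 : ∀ j i, i ≠ j → r j i ≤ 1 := fun j i hij =>
    (Finset.single_le_sum (f := fun i => r j i) (fun i _ => h0 j i)
      (Finset.mem_erase.mpr ⟨hij, Finset.mem_univ _⟩)).trans (hs j)
  have hS0 : 0 ≤ S := Finset.prod_nonneg fun j _ => h0 j i1
  have hS1 : S ≤ 1 := Finset.prod_le_one (fun j _ => h0 j i1)
    (fun j hj => h1 j i1 (Finset.ne_of_mem_erase hj).symm)
  rcases le_total S (13 / 100) with hc | hc
  · have h2 : ∑ i, ∏ j ∈ univ.erase i, r j i ≤ ∑ _i : Fin 6, S := Finset.sum_le_sum fun i _ => hi i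
    rw [Finset.sum_const, Finset.card_univ, Fintype.card_fin, nsmul_eq_mul] at h2
    push_cast at h2
    linarith
  · have h2 : ∀ j, j ≠ i1 → S ≤ r j i1 := by
      intro j hj
      have hm : j ∈ univ.erase i1 := Finset.mem_erase.mpr ⟨hj, Finset.mem_univ _⟩
      rw [hS, ← Finset.mul_prod_erase _ _ hm]
      exact mul_le_of_le_one_right (h0 j i1) (Finset.prod_le_one (fun k _ => h0 k i1)
        (fun k hk => h1 k i1 (Finset.ne_of_mem_erase (Finset.mem_of_mem_erase hk)).symm))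
    have h3 : ∀ i j, i ≠ i1 → j ≠ i → j ≠ i1 → r j i ≤ 1 - S := by
      intro i j hi1 hji hj1
      have hm : i ∈ univ.erase j := Finset.mem_erase.mpr ⟨hji.symm, Finset.mem_univ _⟩
      have hm' : i1 ∈ (univ.erase j).erase i :=
        Finset.mem_erase.mpr ⟨hi1.symm, Finset.mem_erase.mpr ⟨hj1.symm, Finset.mem_univ _⟩⟩
      have h4 := Finset.add_sum_erase _ (fun i => r j i) hm
      have h5 := Finset.single_le_sum (f := fun i => r j i) (fun i _ => h0 j i) hm'
      have h6 := hs j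
      have h7 := h2 j hj1
      linarith
    have h5 : ∀ i, i ≠ i1 → ∏ j ∈ univ.erase i, r j i ≤ r i1 i * (1 - S) ^ 4 := by
      intro i hi1
      have hm : i1 ∈ univ.erase i := Finset.mem_erase.mpr ⟨hi1.symm, Finset.mem_univ _⟩
      rw [← Finset.mul_prod_erase _ _ hm]
      apply mul_le_mul_of_nonneg_left _ (h0 i1 i)
      have hcard : ((univ.erase i).erase i1).card = 4 := by
        rw [Finset.card_erase_of_mem hm, Finset.card_erase_of_mem (Finset.mem_univ _),
          Finset.card_univ, Fintype.card_fin]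
      calc ∏ j ∈ (univ.erase i).erase i1, r j i ≤ ∏ j ∈ (univ.erase i).erase i1, (1 - S) :=
            Finset.prod_le_prod (fun j _ => h0 j i) (fun j hj => h3 i j hi1
              (Finset.ne_of_mem_erase (Finset.mem_of_mem_erase hj)) (Finset.ne_of_mem_erase hj))
        _ = (1 - S) ^ 4 := by rw [Finset.prod_const, hcard]
    have h6 : ∑ i, ∏ j ∈ univ.erase i, r j i =
        S + ∑ i ∈ univ.erase i1, ∏ j ∈ univ.erase i, r j i :=
      (Finset.add_sum_erase _ _ (Finset.mem_univ i1)).symm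
    have hp4 : 0 ≤ (1 - S) ^ 4 := pow_nonneg (by linarith) 4
    have h7 : ∑ i ∈ univ.erase i1, ∏ j ∈ univ.erase i, r j i ≤ (1 - S) ^ 4 := by
      calc ∑ i ∈ univ.erase i1, ∏ j ∈ univ.erase i, r j i
          ≤ ∑ i ∈ univ.erase i1, r i1 i * (1 - S) ^ 4 :=
            Finset.sum_le_sum fun i hi => h5 i (Finset.ne_of_mem_erase hi)
        _ = (∑ i ∈ univ.erase i1, r i1 i) * (1 - S) ^ 4 := (Finset.sum_mul _ _ _).symm
        _ ≤ 1 * (1 - S) ^ 4 := mul_le_mul_of_nonneg_right (hs i1) hp4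
        _ = (1 - S) ^ 4 := one_mul _
    have h8 : (1 - S) ^ 3 ≤ (87 / 100) ^ 3 := pow_le_pow_left₀ (by linarith) (by linarith) 3
    have h9 : (1 - S) ^ 4 ≤ (1 - S) * (78 / 100) := by
      have h10 : (1 - S) ^ 4 = (1 - S) * (1 - S) ^ 3 := by ring
      rw [h10]
      apply mul_le_mul_of_nonneg_left _ (by linarith)
      norm_num at h8 ⊢
      linarith
    rw [h6]
    linarith

end K4M
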