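import Pool.Agent.Lib.MP_4c59c5_co.OptB
import Pool.Agent.Lib.MP_4c59c5_co.OptS

/-!
# Opt (60 min)
Let `r j i = u j i / (1 - q j)` (0 if q j = 1; then `u j i = 0` for i ≠ j by `hsum`), so
`u j i = (1 - q j) r j i` for i ≠ j, `sum_{i≠j} r j i <= 1`. `R_i = prod_{j≠i} (1 - q j)`,
`σ_i = prod_{j≠i} r j i`, `prod_{j≠i} u j i = R_i σ_i`, `prod_j (1 - q j) = (1 - q i) R_i`.
With `A = 19/4 - S/4 - (3/4) prod (1 - q) + sum gam` and `a_i = R_i (1 - q_i/2)`: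
`FF b q u = A + sum_i σ_i a_i`, and `A + a_i = 19/4 - S/4 + (1+q_i)/4 R_i + sum gam
<= 5 + b - s_i/200` by `optB`, where `s_i = sum_{j≠i} q j`.
Also `A <= 5 + b - 1/400`: take any i; if `s_i >= 1/2` clear (a_i >= 0); if `s_i < 1/2` then
`R_i >= 1 - s_i >= 1/2` and `a_i >= 1/4`.
So with `Σ = sum σ_i <= 1` (`optS`):
`FF <= 5 + b - (sum_i σ_i s_i)/200 - (1 - Σ)/400`. From `hF`: `(1-Σ)/400 + sum σ_i s_i/200 <= δ`.
Let i1 maximize σ, `S = σ_{i1}`. `optS`: `(11/50)(1 - S) <= 1 - Σ <= 400 δ`, so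
`1 - S <= 1819 δ <= 1/5`; `S s_{i1} <= 200 δ`, so `s_{i1} <= 250 δ`. For j ≠ i1: `r j i1 >= S`
and `q j <= s_{i1}`, so `u j i1 = (1 - q j) r j i1 >= (1 - 250 δ)(1 - 1819 δ) >= 1 - 3000 δ`.
-/

set_option linter.unusedVariables false
set_option linter.unusedSectionVars false

namespace K4M

open Finset
open scoped Classical

theorem opt_prod_ge (q : Fin 6 → ℝ) (h0 : ∀ i, 0 ≤ q i) (h1 : ∀ i, q i ≤ 1) (s : Finset (Fin 6)) :
    1 - ∑ j ∈ s, q j ≤ ∏ j ∈ s, (1 - q j) ∧ 0 ≤ ∏ j ∈ s, (1 - q j) ∧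
      ∏ j ∈ s, (1 - q j) ≤ 1 := by
  induction s using Finset.induction_on with
  | empty => simp
  | insert a s ha ih =>
    rw [sum_insert ha, prod_insert ha]
    obtain ⟨i1, i2, i3⟩ := ih
    have ha0 := h0 a
    have ha1 := h1 a
    refine ⟨?_, mul_nonneg (by linarith) i2, ?_⟩
    · have h2 : q a * ∏ j ∈ s, (1 - q j) ≤ q a := by
        calc q a * ∏ j ∈ s, (1 - q j) ≤ q a * 1 := mul_le_mul_of_nonneg_left i3 ha0
          _ = q a := mul_one _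
      have h3 : (1 - q a) * ∏ j ∈ s, (1 - q j)
          = ∏ j ∈ s, (1 - q j) - q a * ∏ j ∈ s, (1 - q j) := by ring
      rw [h3]; linarith
    · calc (1 - q a) * ∏ j ∈ s, (1 - q j) ≤ 1 * 1 :=
          mul_le_mul (by linarith) i3 i2 (by norm_num)
        _ = 1 := one_mul _

theorem opt (b δ : ℝ) (hb : 1 / 7 ≤ b) (hb' : b ≤ 17 / 100) (hδ0 : 0 ≤ δ) (hδ : δ ≤ 1 / 10000)
    (q : Fin 6 → ℝ) (u : Fin 6 → Fin 6 → ℝ) (hq0 : ∀ i, 0 ≤ q i) (hu : ∀ j i, 0 ≤ u j i)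
    (hsum : ∀ j, q j + ∑ i ∈ univ.erase j, u j i ≤ 1) (hF : 5 + b - δ ≤ FF b q u) :
    ∃ i0, ∀ j, j ≠ i0 → 1 - 3000 * δ ≤ u j i0 := by
  have hus : ∀ j, 0 ≤ ∑ i ∈ univ.erase j, u j i := fun j => sum_nonneg fun i _ => hu j i
  have hq1 : ∀ i, q i ≤ 1 := fun i => by linarith [hsum i, hus i]
  obtain ⟨r, hr⟩ : ∃ r : Fin 6 → Fin 6 → ℝ, ∀ j i, r j i = u j i / (1 - q j) :=
    ⟨fun j i => u j i / (1 - q j), fun _ _ => rfl⟩
  have hr0 : ∀ j i, 0 ≤ r j i := fun j i => by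
    rw [hr]; exact div_nonneg (hu j i) (by linarith [hq1 j])
  have hur : ∀ j i, i ≠ j → u j i = (1 - q j) * r j i := by
    intro j i hij
    rw [hr]
    rcases eq_or_ne (1 - q j) 0 with h | h
    · rw [h]
      have h1 : u j i ≤ ∑ i ∈ univ.erase j, u j i :=
        single_le_sum (f := fun i => u j i) (fun i _ => hu j i) (mem_erase.mpr ⟨hij, mem_univ i⟩)
      have h2 := hsum j
      have h3 := hu j i
      simp only [zero_mul]
      linarith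
    · field_simp
  have hrs : ∀ j, ∑ i ∈ univ.erase j, r j i ≤ 1 := by
    intro j
    have h1 : ∑ i ∈ univ.erase j, r j i = (∑ i ∈ univ.erase j, u j i) / (1 - q j) := by
      rw [sum_div]; exact sum_congr rfl fun i _ => hr j i
    rw [h1]
    rcases eq_or_lt_of_le (show 0 ≤ 1 - q j by linarith [hq1 j]) with h | h
    · rw [← h, div_zero]; exact zero_le_one
    · rw [div_le_one h]; linarith [hsum j]
  obtain ⟨R, hR⟩ : ∃ R : Fin 6 → ℝ, ∀ i, R i = ∏ j ∈ univ.erase i, (1 - q j) :=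
    ⟨_, fun _ => rfl⟩
  obtain ⟨σ, hσ⟩ : ∃ σ : Fin 6 → ℝ, ∀ i, σ i = ∏ j ∈ univ.erase i, r j i := ⟨_, fun _ => rfl⟩
  obtain ⟨s, hs⟩ : ∃ s : Fin 6 → ℝ, ∀ i, s i = ∑ j ∈ univ.erase i, q j := ⟨_, fun _ => rfl⟩
  have hs0 : ∀ i, 0 ≤ s i := fun i => by rw [hs]; exact sum_nonneg fun j _ => hq0 j
  have hσ0 : ∀ i, 0 ≤ σ i := fun i => by rw [hσ]; exact prod_nonneg fun j _ => hr0 j i
  have hprod : ∀ i, ∏ j ∈ univ.erase i, u j i = R i * σ i := by
    intro i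
    rw [hR, hσ, ← prod_mul_distrib]
    exact prod_congr rfl fun j hj => hur j i (fun h => (mem_erase.mp hj).1 h.symm)
  have hall : ∀ i, ∏ j, (1 - q j) = (1 - q i) * R i := by
    intro i
    rw [hR]; exact (mul_prod_erase univ _ (mem_univ i)).symm
  obtain ⟨G, hG⟩ : ∃ G : ℝ, G = ∑ i, gam b (q i) := ⟨_, rfl⟩
  obtain ⟨S, hS⟩ : ∃ S : ℝ, S = ∑ i, q i := ⟨_, rfl⟩
  obtain ⟨A, hA⟩ : ∃ A : ℝ, A = 19 / 4 - S / 4 - 3 / 4 * ∏ j, (1 - q j) + G := ⟨_, rfl⟩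
  have hFF : FF b q u = A + ∑ i, σ i * (R i * (1 - q i / 2)) := by
    unfold FF
    have h1 : ∑ i, (∏ j ∈ univ.erase i, u j i) * (4 - 2 * q i)
        = 4 * ∑ i, σ i * (R i * (1 - q i / 2)) := by
      rw [mul_sum]
      refine sum_congr rfl fun i _ => ?_
      rw [hprod i]; ring
    rw [h1, hA, hG, hS]; ring
  have hAi : ∀ i, A + R i * (1 - q i / 2) ≤ 5 + b - s i / 200 := by
    intro i
    have h1 := optB b hb hb' q hq0 hq1 i
    rw [← hR, ← hs, ← hG, ← hS] at h1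
    have h2 : A + R i * (1 - q i / 2) = 19 / 4 - S / 4 + (1 + q i) / 4 * R i + G := by
      rw [hA, hall i]; ring
    rw [h2]; exact h1
  have hA400 : A ≤ 5 + b - 1 / 400 := by
    have h1 := hAi 0
    obtain ⟨h2, h3, h4⟩ := opt_prod_ge q hq0 hq1 (univ.erase 0)
    rw [← hR, ← hs] at h2
    rw [← hR] at h3 h4
    have h5 := hq1 0
    have h6 := hq0 0
    rcases le_total (1 / 2) (s 0) with h | h
    · have h7 : 0 ≤ R 0 * (1 - q 0 / 2) := mul_nonneg h3 (by linarith)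
      linarith
    · have h7 : (1 / 2 : ℝ) * (1 / 2) ≤ R 0 * (1 - q 0 / 2) :=
        mul_le_mul (by linarith) (by linarith) (by norm_num) h3
      have h8 := hs0 0
      linarith
  obtain ⟨Sg, hSg⟩ : ∃ x : ℝ, x = ∑ i, σ i := ⟨_, rfl⟩
  have hid : A + ∑ i, σ i * (R i * (1 - q i / 2))
      = ∑ i, σ i * (A + R i * (1 - q i / 2)) + (1 - Sg) * A := by
    have h1 : ∑ i, σ i * (A + R i * (1 - q i / 2))
        = Sg * A + ∑ i, σ i * (R i * (1 - q i / 2)) := by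
      rw [hSg, sum_mul, ← sum_add_distrib]
      exact sum_congr rfl fun i _ => by ring
    rw [h1]; ring
  obtain ⟨i1, _, hi1⟩ := exists_max_image univ σ ⟨0, mem_univ 0⟩
  have hoS := optS r hr0 hrs i1 (fun i => by rw [← hσ i, ← hσ i1]; exact hi1 i (mem_univ i))
  have hoS' : Sg ≤ 1 - (11 / 50) * (1 - σ i1) := by
    rw [hSg, hσ i1]
    calc ∑ i, σ i = ∑ i, ∏ j ∈ univ.erase i, r j i := sum_congr rfl fun i _ => hσ i
      _ ≤ _ := hoS
  have hr1 : ∀ j i, i ≠ j → r j i ≤ 1 := by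
    intro j i hij
    calc r j i ≤ ∑ i ∈ univ.erase j, r j i :=
        single_le_sum (f := fun i => r j i) (fun i _ => hr0 j i) (mem_erase.mpr ⟨hij, mem_univ i⟩)
      _ ≤ 1 := hrs j
  have hσ1 : σ i1 ≤ 1 := by
    rw [hσ]
    exact prod_le_one (fun j _ => hr0 j i1)
      (fun j hj => hr1 j i1 (fun h => (mem_erase.mp hj).1 h.symm))
  have hSg1 : 0 ≤ 1 - Sg := by linarith
  have hup : FF b q u ≤ 5 + b - (∑ i, σ i * s i) / 200 - (1 - Sg) / 400 := by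
    rw [hFF, hid]
    have h1 : ∑ i, σ i * (A + R i * (1 - q i / 2)) ≤ ∑ i, σ i * (5 + b - s i / 200) :=
      sum_le_sum fun i _ => mul_le_mul_of_nonneg_left (hAi i) (hσ0 i)
    have h2 : ∑ i, σ i * (5 + b - s i / 200) = Sg * (5 + b) - (∑ i, σ i * s i) / 200 := by
      rw [hSg, sum_mul, sum_div, ← sum_sub_distrib]
      exact sum_congr rfl fun i _ => by ring
    have h3 : (1 - Sg) * A ≤ (1 - Sg) * (5 + b - 1 / 400) :=
      mul_le_mul_of_nonneg_left hA400 hSg1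
    have h4 : (1 - Sg) * (5 + b - 1 / 400) = (1 - Sg) * (5 + b) - (1 - Sg) / 400 := by ring
    have h5 : Sg * (5 + b) + (1 - Sg) * (5 + b) = 5 + b := by ring
    linarith
  have hss : 0 ≤ ∑ i, σ i * s i := sum_nonneg fun i _ => mul_nonneg (hσ0 i) (hs0 i)
  have hss1 : σ i1 * s i1 ≤ ∑ i, σ i * s i :=
    single_le_sum (f := fun i => σ i * s i) (fun i _ => mul_nonneg (hσ0 i) (hs0 i)) (mem_univ i1)
  have h1 : 1 - Sg ≤ 400 * δ := by linarith
  have h2 : 1 - σ i1 ≤ 1819 * δ := by linarith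
  have h3 : σ i1 * s i1 ≤ 200 * δ := by linarith
  have h4 : 4 / 5 ≤ σ i1 := by linarith
  have h5 : s i1 ≤ 250 * δ := by
    have h6 : 4 / 5 * s i1 ≤ σ i1 * s i1 := mul_le_mul_of_nonneg_right h4 (hs0 i1)
    linarith
  refine ⟨i1, fun j hj => ?_⟩
  have h6 : q j ≤ s i1 := by
    rw [hs]
    exact single_le_sum (f := fun j => q j) (fun j _ => hq0 j) (mem_erase.mpr ⟨hj, mem_univ j⟩)
  have h7 : σ i1 ≤ r j i1 := by
    rw [hσ, ← mul_prod_erase (univ.erase i1) _ (mem_erase.mpr ⟨hj, mem_univ j⟩)]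
    calc r j i1 * ∏ x ∈ (univ.erase i1).erase j, r x i1 ≤ r j i1 * 1 := by
          apply mul_le_mul_of_nonneg_left _ (hr0 j i1)
          exact prod_le_one (fun x _ => hr0 x i1) (fun x hx => hr1 x i1
            (fun h => (mem_erase.mp (mem_erase.mp hx).2).1 h.symm))
      _ = r j i1 := mul_one _
  rw [hur j i1 hj.symm]
  have h8 : (1 - 250 * δ) * (1 - 1819 * δ) ≤ (1 - q j) * r j i1 :=
    mul_le_mul (by linarith) (by linarith) (by linarith) (by linarith)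
  have h9 : 1 - 3000 * δ ≤ (1 - 250 * δ) * (1 - 1819 * δ) := by
    have : 0 ≤ δ * δ := mul_nonneg hδ0 hδ0
    nlinarith
  linarith

end K4M
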