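import Pool.Agent.Lib.MP_4c59c5_co.Basic

/-!
# OptA (30 min, only Mathlib)
One-variable inequality. For p = 0 it is clear. Divide by p: with
`(1 - (1-p)^5)/p = 5 - 10 p + 10 p^2 - 5 p^3 + p^4 =: g(p)` (positive on [0, 1]) the claim is
`(1 + q0) g(p) - 5 + 5 p >= 1/10`. The left side is increasing in q0, so it is enough for
`q0 = 69/200` when `p <= 69/200` (value 1.725 at p = 0, decreasing to 0.153 at p = 0.345), and for
`q0 = p` when `69/200 <= p <= 11/25` (values 0.153 to 0.29). Polynomial inequalities in one variable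
on short intervals (`nlinarith`, or subdivide).
-/

set_option linter.unusedVariables false
set_option linter.unusedSectionVars false

namespace K4M

open Finset
open scoped Classical

theorem optA (p q0 : ℝ) (hp : 0 ≤ p) (hpq : p ≤ q0) (h1 : 69 / 200 ≤ q0) (h2 : q0 ≤ 11 / 25) :
    p / 10 ≤ (1 + q0) * (1 - (1 - p) ^ 5) - 5 * p + 5 * p ^ 2 := by
  have hp2 : 0 ≤ p ^ 2 := by positivity
  have hp4 : 0 ≤ p ^ 4 := by positivity
  have hpu : p ≤ 11 / 25 := hpq.trans h2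
  have hg : 0 ≤ 5 - 10 * p + 10 * p ^ 2 - 5 * p ^ 3 + p ^ 4 := by
    have h3 : 0 ≤ p ^ 2 * (2 - p) := mul_nonneg hp2 (by linarith)
    nlinarith
  have key : 1 / 10 ≤ (1 + q0) * (5 - 10 * p + 10 * p ^ 2 - 5 * p ^ 3 + p ^ 4) - 5 + 5 * p := by
    rcases le_total p (69 / 200) with h | h
    · have e1 : (1 + 69 / 200) * (5 - 10 * p + 10 * p ^ 2 - 5 * p ^ 3 + p ^ 4) ≤
          (1 + q0) * (5 - 10 * p + 10 * p ^ 2 - 5 * p ^ 3 + p ^ 4) :=
        mul_le_mul_of_nonneg_right (by linarith) hg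
      have e2 : 0 ≤ p ^ 2 * (69 / 200 - p) := mul_nonneg hp2 (by linarith)
      have e3 : 0 ≤ (p - 19 / 50) ^ 2 := sq_nonneg _
      nlinarith
    · have e1 : (1 + p) * (5 - 10 * p + 10 * p ^ 2 - 5 * p ^ 3 + p ^ 4) ≤
          (1 + q0) * (5 - 10 * p + 10 * p ^ 2 - 5 * p ^ 3 + p ^ 4) :=
        mul_le_mul_of_nonneg_right (by linarith) hg
      have e2 : (69 / 200 : ℝ) ^ 3 ≤ p ^ 3 := pow_le_pow_left₀ (by norm_num) h 3
      have e3 : 0 ≤ p ^ 3 * (11 / 25 - p) := mul_nonneg (by positivity) (by linarith)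
      have e4 : 0 ≤ p ^ 5 := by positivity
      have e5 : (1 + p) * (5 - 10 * p + 10 * p ^ 2 - 5 * p ^ 3 + p ^ 4) - 5 + 5 * p =
          5 * p ^ 3 - 4 * p ^ 4 + p ^ 5 := by ring
      have e6 : p ^ 3 * (11 / 25 - p) = 11 / 25 * p ^ 3 - p ^ 4 := by ring
      rw [e6] at e3
      norm_num at e2
      linarith
  have e7 : (1 + q0) * (1 - (1 - p) ^ 5) - 5 * p + 5 * p ^ 2 =
      p * ((1 + q0) * (5 - 10 * p + 10 * p ^ 2 - 5 * p ^ 3 + p ^ 4) - 5 + 5 * p) := by ring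
  rw [e7]
  have := mul_le_mul_of_nonneg_left key hp
  linarith

end K4M
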