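import Pool.Agent.Lib.MP_4c59c5_co.OptA

/-!
# OptB (75 min)
Let `q0 = 1 - sqrt (1 - 4 b)`, so `q0/2 - q0^2/4 = b`, `69/200 <= q0 <= 11/25` (because
`1/7 <= b <= 17/100`), and `gam b x = x/2 - x^2/4` for `x <= q0`, `= b` for `q0 <= x <= 1`.
The claim for `Ψ = 19/4 - S/4 + (1+q_i)/4 * R + sum gam`, `R = prod_{j≠i} (1 - q_j)`.
Step 1: replace every q_j by `min (q_j, q0)`: the quantity `Ψ + (sum_{j≠i} q_j)/200` does not
decrease: for `q_j > q0` the cap is constant and `-q_j/4 + q_j/200` decreases, R (j ≠ i) decreases;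
for j = i: `-q_i/4 + (1+q_i) R/4` is non-increasing in q_i because R <= 1.
Step 2: all q_j <= q0. Then Ψ = 19/4 + (1+q_i) R/4 + sum_j (q_j - q_j^2)/4. Let
`p = (sum_{j≠i} q_j)/5`. AM-GM: `R <= (1-p)^5` (`Real.inner_le_nnorm_mul_nnorm` no: use
`Real.geom_mean_le_arith_mean_weighted` or `inner`-free: `Finset.prod_le_pow_card`-type lemma
`inner_le...`; in Mathlib: `Real.geom_mean_le_arith_mean`), Cauchy: `sum_{j≠i} q_j^2 >= 5 p^2`
(`sq_sum_le_card_mul_sum_sq`). In `q = q_i` the bound `(1+q)(1-p)^5/4 + (q - q^2)/4` is increasing on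
`[0, q0]` (q0 <= 1/2), so replace q by q0:
`Ψ <= 19/4 + (1+q0)(1-p)^5/4 + (q0 - q0^2)/4 + 5 (p - p^2)/4`. By `optA` (p <= q0):
`(1+q0)(1-p)^5 <= (1+q0) - 5p + 5p^2 - p/10`, so
`Ψ <= 19/4 + (1+q0)/4 + (q0-q0^2)/4 - p/40 = 5 + (q0/2 - q0^2/4) - p/40 = 5 + b - (sum q_j)/200`.
-/

set_option linter.unusedVariables false
set_option linter.unusedSectionVars false

namespace K4M

open Finset
open scoped Classical

theorem optb_amgm (s : Finset (Fin 6)) (hs : s.card = 5) (z : Fin 6 → ℝ) (hz : ∀ j ∈ s, 0 ≤ z j) :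
    ∏ j ∈ s, z j ≤ ((∑ j ∈ s, z j) / 5) ^ 5 := by
  have h := Real.geom_mean_le_arith_mean_weighted s (fun _ => (1 / 5 : ℝ)) z
    (fun _ _ => by norm_num) (by simp [hs]) hz
  have h1 : ∏ j ∈ s, z j = (∏ j ∈ s, z j ^ (1 / 5 : ℝ)) ^ 5 := by
    rw [← Finset.prod_pow]
    refine Finset.prod_congr rfl fun j hj => ?_
    rw [← Real.rpow_natCast, ← Real.rpow_mul (hz j hj)]
    norm_num
  rw [h1]
  refine pow_le_pow_left₀ (Finset.prod_nonneg fun j hj => Real.rpow_nonneg (hz j hj) _) ?_ 5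
  rw [← Finset.mul_sum] at h
  linarith

theorem optb_core (b q0 x S R p : ℝ) (hq : q0 / 2 - q0 ^ 2 / 4 = b) (l0 : 69 / 200 ≤ q0)
    (u0 : q0 ≤ 11 / 25) (hx0 : 0 ≤ x) (hx : x ≤ q0) (hp0 : 0 ≤ p) (hp : p ≤ q0)
    (hS : 5 * p ^ 2 ≤ S) (hR : R ≤ (1 - p) ^ 5) :
    19 / 4 + (1 + x) * R / 4 + (x - x ^ 2) / 4 + (5 * p - S) / 4 + 5 * p / 200 ≤ 5 + b := by
  have hA := optA p q0 hp0 hp l0 u0
  have hp1 : 0 ≤ (1 - p) ^ 5 := pow_nonneg (by linarith) 5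
  have e1 : (1 + x) * R ≤ (1 + x) * (1 - p) ^ 5 := mul_le_mul_of_nonneg_left hR (by linarith)
  have e2 : (1 + x) * (1 - p) ^ 5 ≤ (1 + q0) * (1 - p) ^ 5 :=
    mul_le_mul_of_nonneg_right (by linarith) hp1
  have e3 : x - x ^ 2 ≤ q0 - q0 ^ 2 := by
    have : 0 ≤ (q0 - x) * (1 - q0 - x) := mul_nonneg (by linarith) (by linarith)
    have h2 : (q0 - x) * (1 - q0 - x) = (q0 - q0 ^ 2) - (x - x ^ 2) := by ring
    linarith
  have e4 : (1 + q0) * (1 - (1 - p) ^ 5) = (1 + q0) - (1 + q0) * (1 - p) ^ 5 := by ring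
  rw [e4] at hA
  linarith

theorem optB (b : ℝ) (hb : 1 / 7 ≤ b) (hb' : b ≤ 17 / 100) (q : Fin 6 → ℝ) (h0 : ∀ i, 0 ≤ q i)
    (h1 : ∀ i, q i ≤ 1) (i : Fin 6) :
    19 / 4 - (∑ j, q j) / 4 + (1 + q i) / 4 * ∏ j ∈ univ.erase i, (1 - q j) + ∑ j, gam b (q j)
      ≤ 5 + b - (∑ j ∈ univ.erase i, q j) / 200 := by
  obtain ⟨q0, hq0⟩ : ∃ q0, q0 = 1 - Real.sqrt (1 - 4 * b) := ⟨_, rfl⟩
  have hs := Real.sq_sqrt (show (0 : ℝ) ≤ 1 - 4 * b by linarith)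
  have hs0 := Real.sqrt_nonneg (1 - 4 * b)
  have hq : q0 / 2 - q0 ^ 2 / 4 = b := by
    rw [hq0]
    have : (1 - Real.sqrt (1 - 4 * b)) / 2 - (1 - Real.sqrt (1 - 4 * b)) ^ 2 / 4 =
      1 / 4 - Real.sqrt (1 - 4 * b) ^ 2 / 4 := by ring
    rw [this, hs]; ring
  have l0 : 69 / 200 ≤ q0 := by
    have : Real.sqrt (1 - 4 * b) ≤ 131 / 200 := by
      rw [Real.sqrt_le_left (by norm_num)]
      norm_num
      linarith
    rw [hq0]; linarith
  have u0 : q0 ≤ 11 / 25 := by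
    have : 14 / 25 ≤ Real.sqrt (1 - 4 * b) := by
      apply Real.le_sqrt_of_sq_le
      norm_num
      linarith
    rw [hq0]; linarith
  clear hq0 hs hs0
  -- the capped values
  have hgam : ∀ x : ℝ, 0 ≤ x → x ≤ 1 → gam b x ≤ min x q0 / 2 - min x q0 ^ 2 / 4 := by
    intro x hx0 hx1
    unfold gam
    rcases le_total x q0 with h | h
    · rw [min_eq_left h]
      exact min_le_right _ _
    · rw [min_eq_right h, hq]
      exact min_le_left _ _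
  set s : Finset (Fin 6) := univ.erase i with hs
  have hcard : s.card = 5 := by simp [hs]
  set x : Fin 6 → ℝ := fun j => min (q j) q0 with hx
  have x0 : ∀ j, 0 ≤ x j := fun j => le_min (h0 j) (by linarith)
  have xq : ∀ j, x j ≤ q0 := fun j => min_le_right _ _
  have xle : ∀ j, x j ≤ q j := fun j => min_le_left _ _
  have hgs : ∑ j, gam b (q j) ≤ ∑ j, (x j / 2 - x j ^ 2 / 4) :=
    Finset.sum_le_sum fun j _ => hgam (q j) (h0 j) (h1 j)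
  have split : ∀ f : Fin 6 → ℝ, ∑ j, f j = f i + ∑ j ∈ s, f j := fun f =>
    (Finset.add_sum_erase univ f (mem_univ i)).symm
  rw [split (fun j => x j / 2 - x j ^ 2 / 4)] at hgs
  rw [split q]
  have hR' : ∏ j ∈ s, (1 - q j) ≤ ∏ j ∈ s, (1 - x j) :=
    Finset.prod_le_prod (fun j _ => by linarith [h1 j]) fun j _ => by linarith [xle j]
  have hR0 : 0 ≤ ∏ j ∈ s, (1 - q j) := Finset.prod_nonneg fun j _ => by linarith [h1 j]
  have hR1 : ∏ j ∈ s, (1 - q j) ≤ 1 :=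
    Finset.prod_le_one (fun j _ => by linarith [h1 j]) fun j _ => by linarith [h0 j]
  have hp : ∏ j ∈ s, (1 - x j) ≤ (1 - (∑ j ∈ s, x j) / 5) ^ 5 := by
    refine le_trans (optb_amgm s hcard (fun j => 1 - x j) fun j _ => ?_) (le_of_eq ?_)
    · linarith [xq j]
    · rw [Finset.sum_sub_distrib]
      simp only [Finset.sum_const, hcard]
      norm_num
      congr 1
      ring
  have hS : 5 * ((∑ j ∈ s, x j) / 5) ^ 2 ≤ ∑ j ∈ s, x j ^ 2 := by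
    have h := sq_sum_le_card_mul_sum_sq (s := s) (f := x)
    rw [hcard] at h
    push_cast at h
    have e : 5 * ((∑ j ∈ s, x j) / 5) ^ 2 = (∑ j ∈ s, x j) ^ 2 / 5 := by ring
    rw [e]
    linarith
  have hp0 : 0 ≤ (∑ j ∈ s, x j) / 5 := div_nonneg (Finset.sum_nonneg fun j _ => x0 j) (by norm_num)
  have hpq : (∑ j ∈ s, x j) / 5 ≤ q0 := by
    have : ∑ j ∈ s, x j ≤ ∑ j ∈ s, q0 := Finset.sum_le_sum fun j _ => xq j
    rw [Finset.sum_const, hcard] at this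
    have e : (5 : ℕ) • q0 = 5 * q0 := by simp
    rw [e] at this
    linarith
  have core := optb_core b q0 (x i) _ _ _ hq l0 u0 (x0 i) (xq i) hp0 hpq hS hp
  have hsum : ∑ j ∈ s, x j ≤ ∑ j ∈ s, q j := Finset.sum_le_sum fun j _ => xle j
  have hsplit2 : ∑ j ∈ s, (x j / 2 - x j ^ 2 / 4) = (∑ j ∈ s, x j) / 2 - (∑ j ∈ s, x j ^ 2) / 4 := by
    rw [Finset.sum_sub_distrib, Finset.sum_div, Finset.sum_div]
  rw [hsplit2] at hgs
  -- the term of i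
  have hi : -(q i) / 4 + (1 + q i) / 4 * ∏ j ∈ s, (1 - q j) ≤
      -(x i) / 4 + (1 + x i) * (∏ j ∈ s, (1 - x j)) / 4 := by
    have e1 : 0 ≤ (q i - x i) * (1 - ∏ j ∈ s, (1 - q j)) :=
      mul_nonneg (by linarith [xle i]) (by linarith)
    have e2 : 0 ≤ (1 + x i) * (∏ j ∈ s, (1 - x j) - ∏ j ∈ s, (1 - q j)) :=
      mul_nonneg (by linarith [x0 i]) (by linarith)
    have e3 : (-(x i) / 4 + (1 + x i) * (∏ j ∈ s, (1 - x j)) / 4) -
        (-(q i) / 4 + (1 + q i) / 4 * ∏ j ∈ s, (1 - q j)) =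
        ((q i - x i) * (1 - ∏ j ∈ s, (1 - q j))) / 4 +
        ((1 + x i) * (∏ j ∈ s, (1 - x j) - ∏ j ∈ s, (1 - q j))) / 4 := by ring
    linarith
  linarith

end K4M
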