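import Pool.Agent.Lib.MP_4c59c5_co.Basic

/-!
# Reass (45 min)
`markov`: the vertices a with `mis1 T π a > 2 t^2 n^2` number at most t n, because
`sum_a mis1 T π a = c3 (Mis T π) <= 2 t^3 n^3` and n > 0.
`reassign`: choose `i0 v` for every v (hv) and put `ρ v = π v` if `mis1 T π v <= 2 t^2 n^2`, else
`ρ v = i0 v`. So `ρ = π` outside a set Z with `c1 Z <= t n`. For any v the pairs (y, z) with y or z
in Z number at most `2 c1 Z n <= 2 t n^2`; for the other pairs ρ y = π y and ρ z = π z. If v is not in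
Z: `mis1 T ρ v <= mis1 T π v + 2 t n^2`; if v is in Z:
`mis1 T ρ v <= c2 (Q (i0 v) (π y) (π z), not T v y z) + 2 t n^2`.
-/

set_option linter.unusedVariables false
set_option linter.unusedSectionVars false

namespace K4M

open Finset
open scoped Classical

theorem markov {V : Type} [Fintype V] (T : V → V → V → Prop) (π : V → Fin 6) (t n : ℝ)
    (hn : (Fintype.card V : ℝ) = n) (hn0 : 0 < n) (ht : 0 < t)
    (hm : c3 (Mis T π) ≤ 2 * t ^ 3 * n ^ 3) :
    c1 (fun a => ¬ mis1 T π a ≤ 2 * t ^ 2 * n ^ 2) ≤ t * n := by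
  have h1 : c1 (fun a => ¬ mis1 T π a ≤ 2 * t ^ 2 * n ^ 2) * (2 * t ^ 2 * n ^ 2) ≤
      c3 (Mis T π) := by
    rw [c3_mis]
    unfold c1
    rw [Finset.sum_mul]
    refine Finset.sum_le_sum fun a _ => ?_
    by_cases ha : mis1 T π a ≤ 2 * t ^ 2 * n ^ 2
    · rw [ind_of_not (not_not.mpr ha), zero_mul]
      exact mis1_nonneg T π a
    · rw [ind_of ha, one_mul]
      exact (not_le.mp ha).le
  have hpos : 0 < 2 * t ^ 2 * n ^ 2 := by positivity
  have h2 : c1 (fun a => ¬ mis1 T π a ≤ 2 * t ^ 2 * n ^ 2) * (2 * t ^ 2 * n ^ 2) ≤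
      t * n * (2 * t ^ 2 * n ^ 2) := by
    have e : t * n * (2 * t ^ 2 * n ^ 2) = 2 * t ^ 3 * n ^ 3 := by ring
    rw [e]
    exact le_trans h1 hm
  exact le_of_mul_le_mul_right h2 hpos

theorem reass_pairs {V : Type} [Fintype V] (T : V → V → V → Prop) (π ρ : V → Fin 6)
    (Z : V → Prop) (hρ : ∀ v, ¬ Z v → ρ v = π v) (v : V) :
    mis1 T ρ v ≤ c2 (fun y z => Q (ρ v) (π y) (π z) = true ∧ ¬ T v y z) +
      2 * (c1 Z * (Fintype.card V : ℝ)) := by
  have hc : ∀ y z, Mis T ρ v y z → (Q (ρ v) (π y) (π z) = true ∧ ¬ T v y z) ∨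
      ((Z y ∧ True) ∨ (True ∧ Z z)) := by
    intro y z hm
    by_cases hy : Z y
    · exact Or.inr (Or.inl ⟨hy, trivial⟩)
    by_cases hz : Z z
    · exact Or.inr (Or.inr ⟨trivial, hz⟩)
    left
    unfold Mis at hm
    rw [hρ y hy, hρ z hz] at hm
    exact hm
  have h1 : mis1 T ρ v ≤ _ := c2_mono hc
  have h2 := c2_or_le (fun y z => Q (ρ v) (π y) (π z) = true ∧ ¬ T v y z)
    (fun y z => (Z y ∧ True) ∨ (True ∧ Z z))
  have h3 := c2_or_le (fun y z => Z y ∧ (fun _ : V => True) z) (fun y z => (fun _ : V => True) y ∧ Z z)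
  have h4 : c2 (fun y z => Z y ∧ (fun _ : V => True) z) = c1 Z * (Fintype.card V : ℝ) := by
    rw [c2_prod Z (fun _ => True), c1_true]
  have h5 : c2 (fun y z => (fun _ : V => True) y ∧ Z z) = (Fintype.card V : ℝ) * c1 Z := by
    rw [c2_prod (fun _ => True) Z, c1_true]
  rw [h4, h5] at h3
  linarith

theorem reassign {V : Type} [Fintype V] (T : V → V → V → Prop) (π : V → Fin 6) (t n E : ℝ)
    (hn : (Fintype.card V : ℝ) = n) (hn0 : 0 < n) (ht : 0 < t) (hE : 0 ≤ E)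
    (hm : c3 (Mis T π) ≤ 2 * t ^ 3 * n ^ 3)
    (hv : ∀ v, ∃ i0, c2 (fun y z => Q i0 (π y) (π z) = true ∧ ¬ T v y z) ≤ E * n ^ 2) :
    ∃ ρ : V → Fin 6, (∀ v, mis1 T ρ v ≤ (E + 2 * t ^ 2 + 2 * t) * n ^ 2) ∧
      ∀ i, |psz ρ i - psz π i| ≤ t * n := by
  choose i0 hi0 using hv
  have hM := markov T π t n hn hn0 ht hm
  obtain ⟨Z, hZ⟩ : ∃ Z : V → Prop, Z = fun a => ¬ mis1 T π a ≤ 2 * t ^ 2 * n ^ 2 := ⟨_, rfl⟩
  rw [← hZ] at hM
  have hZ' : ∀ a, Z a ↔ ¬ mis1 T π a ≤ 2 * t ^ 2 * n ^ 2 := fun a => by rw [hZ]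
  obtain ⟨ρ, hρ⟩ : ∃ ρ : V → Fin 6, ρ = fun v => if Z v then i0 v else π v := ⟨_, rfl⟩
  have r1 : ∀ v, ¬ Z v → ρ v = π v := fun v hv => by simp [hρ, hv]
  have r2 : ∀ v, Z v → ρ v = i0 v := fun v hv => by simp [hρ, hv]
  have hZ0 : 0 ≤ c1 Z := c1_nonneg Z
  have hZn : c1 Z * n ≤ t * n * n := mul_le_mul_of_nonneg_right hM hn0.le
  refine ⟨ρ, fun v => ?_, fun i => ?_⟩
  · have h1 := reass_pairs T π ρ Z r1 v
    rw [hn] at h1
    by_cases hz : Z v
    · have h2 := hi0 v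
      rw [r2 v hz] at h1
      have h3 : 0 ≤ 2 * t ^ 2 * n ^ 2 := by positivity
      have e : (E + 2 * t ^ 2 + 2 * t) * n ^ 2 = E * n ^ 2 + 2 * t ^ 2 * n ^ 2 + 2 * (t * n * n) := by
        ring
      rw [e]
      linarith
    · have h2 : mis1 T π v ≤ 2 * t ^ 2 * n ^ 2 := by
        by_contra hh
        exact hz ((hZ' v).mpr hh)
      rw [r1 v hz] at h1
      have e0 : c2 (fun y z => Q (π v) (π y) (π z) = true ∧ ¬ T v y z) = mis1 T π v := rfl
      rw [e0] at h1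
      have h3 : 0 ≤ E * n ^ 2 := by positivity
      have e : (E + 2 * t ^ 2 + 2 * t) * n ^ 2 = E * n ^ 2 + 2 * t ^ 2 * n ^ 2 + 2 * (t * n * n) := by
        ring
      rw [e]
      linarith
  · have g1 : psz ρ i ≤ psz π i + c1 Z := by
      refine le_trans (c1_mono (B := fun v => π v = i ∨ Z v) fun v hv => ?_) (c1_or_le _ _)
      by_cases hz : Z v
      · exact Or.inr hz
      · left; rw [← r1 v hz]; exact hv
    have g2 : psz π i ≤ psz ρ i + c1 Z := by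
      refine le_trans (c1_mono (B := fun v => ρ v = i ∨ Z v) fun v hv => ?_) (c1_or_le _ _)
      by_cases hz : Z v
      · exact Or.inr hz
      · left; rw [r1 v hz]; exact hv
    rw [abs_le]
    constructor <;> linarith

end K4M
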