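import Pool.Agent.Lib.MP_4c59c5_co.Basic

/-!
# TabC (75 min)
At least three matched states. Let A be the set of unmatched parts, B the matched ones, s = |B|.
For a type k of part i: `sum_j bn (Q i j k) <= 2` (`Q_pair`). Let e be the number of pairs in A with
positive weight (each weighs 4), n the number of pairs between A and B with positive weight (each
weighs 2), and M the weight inside B. For i in A: deg_A(i) + deg_B(i) <= 2, hence
`n <= 2 |A| - 2 e`. For i in B: `sum_j cc i j <= 4`, a positive A-B pair uses at least one of it,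
and `min (c, c') <= (c + c')/2`, hence `2 M <= 4 s - n`. So
`X4 = 4 e + 2 n + M <= 4 e + 2 n + (4 s - n)/2 = 4 e + (3/2) n + 2 s
   <= 4 e + 3 |A| - 3 e + 2 s = e + 18 - s`   (|A| = 6 - s).
* s >= 4: |A| <= 2, so e <= 1 and X4 + s <= 19.
* s = 3: A = {i, j, k}. If A is a block then no vertex of A has two neighbours in A: a type t with
  Q i j t and Q i k t contradicts `Q_free` with the block i j k; so e <= 1 and X4 + 3 <= 19.
  If A is not a block then B = {a, b, c} (the complement) is a block (finite check) and for every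
  type k of a at most one of Q a b k, Q a c k holds (`Q_free`), so sum over j in B of cc a j <= 2 for
  each a in B and 2 M <= 6, M <= 3; X4 = 4 e + 2 n + M <= 4 e + 2 (6 - 2 e) + 3 = 15, 15 + 3 <= 19.
Alternatively a clever finite check (for s = 6 there are too many vectors for a direct one).
-/

set_option linter.unusedVariables false
set_option linter.unusedSectionVars false

namespace K4M

/-- the triples of parts with value `v` are blocks -/
def tabc_A (μ : Fin 6 → Bool) (v : Bool) : Prop :=
  ∀ a b c, μ a = v → μ b = v → μ c = v → a ≠ b → b ≠ c → a ≠ c → Q a b c = true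

instance tabc_I (μ : Fin 6 → Bool) (v : Bool) : Decidable (tabc_A μ v) := by
  unfold tabc_A; infer_instance

/-- patterns of matched parts -/
theorem tabc_pattern : ∀ μ : Fin 6 → Bool, 3 ≤ ∑ i, bn (μ i) →
    (tabc_A μ false ∨ (∑ i, bn (μ i) = 3 ∧ tabc_A μ true)) := by
  decide +kernel

end K4M

namespace K4M

open Finset
open scoped Classical

/-- unmatched pairs of positive weight -/
def tabc_ee (i j : Fin 6) : St → St → ℕ
  | .U k, .U l => bn (Q i j k) * bn (Q i j l)
  | _, _ => 0

/-- first share -/
def tabc_g1 (i j : Fin 6) : St → ℕ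
  | .U k => 3 * bn (Q i j k)
  | .M k l => bn (Q i j k) + bn (Q i j l)

/-- second share -/
def tabc_g2 (i j : Fin 6) : St → St → ℕ
  | .U k, _ => 4 * bn (Q i j k)
  | .M _ _, .U _ => 0
  | .M k l, .M _ _ => bn (Q i j k) + bn (Q i j l)

/-- third share -/
def tabc_g3 (i j : Fin 6) : St → St → ℕ
  | .U k, .U _ => bn (Q i j k)
  | _, _ => 0

theorem tabc_pairsum (F G H : Fin 6 → Fin 6 → ℕ)
    (h : ∀ i j, i < j → F i j ≤ G i j + G j i + H i j) :
    (∑ i, ∑ j, if i < j then F i j else 0) ≤
      (∑ i, ∑ j, G i j) + ∑ i, ∑ j, if i < j then H i j else 0 := by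
  have h1 : (∑ i, ∑ j, if i < j then F i j else 0) ≤
      ∑ i, ∑ j, ((if i < j then G i j else 0) + (if i < j then G j i else 0) +
        (if i < j then H i j else 0)) := by
    refine sum_le_sum fun i _ => sum_le_sum fun j _ => ?_
    by_cases hij : i < j
    · simp only [hij, if_true]; exact h i j hij
    · simp [hij]
  have h2 : ∑ i : Fin 6, ∑ j : Fin 6, ((if i < j then G i j else 0) + (if i < j then G j i else 0) +
        (if i < j then H i j else 0)) =
      ((∑ i, ∑ j, if i < j then G i j else 0) + ∑ i, ∑ j, if i < j then G j i else 0) +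
        ∑ i, ∑ j, if i < j then H i j else 0 := by
    simp only [sum_add_distrib]
  have h3 : (∑ i : Fin 6, ∑ j : Fin 6, if i < j then G j i else 0) =
      ∑ i : Fin 6, ∑ j : Fin 6, if j < i then G i j else 0 := sum_comm
  have h4 : (∑ i : Fin 6, ∑ j : Fin 6, if i < j then G i j else 0) +
      (∑ i : Fin 6, ∑ j : Fin 6, if j < i then G i j else 0) ≤ ∑ i, ∑ j, G i j := by
    rw [← sum_add_distrib]
    refine sum_le_sum fun i _ => ?_
    rw [← sum_add_distrib]
    refine sum_le_sum fun j _ => ?_
    by_cases hij : i < j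
    · have : ¬ j < i := not_lt.mpr hij.le
      simp [hij, this]
    · by_cases hji : j < i
      · simp [hij, hji]
      · simp [hij, hji]
  rw [h2, h3] at h1
  omega

theorem tabc_row (i k : Fin 6) : ∑ j, bn (Q i j k) ≤ 2 := by
  revert i k; decide

theorem tabc_one (f : Fin 6 → ℕ) (h1 : ∀ j, f j ≤ 1) (h2 : ∀ j k, j ≠ k → f j = 0 ∨ f k = 0) :
    ∑ j, f j ≤ 1 := by
  by_cases h : ∃ j, f j ≠ 0
  · obtain ⟨j, hj⟩ := h
    rw [Finset.sum_eq_single j]
    · exact h1 j
    · intro k _ hk
      rcases h2 j k hk.symm with h | h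
      · exact absurd h hj
      · exact h
    · intro h; exact absurd (mem_univ _) h
  · push Not at h
    simp [h]

theorem tabc_bn_le (b : Bool) : bn b ≤ 1 := by cases b <;> decide

/-- rows inside a block -/
theorem tabc_block (P : Fin 6 → Prop) [DecidablePred P]
    (hP : ∀ a b c, P a → P b → P c → a ≠ b → b ≠ c → a ≠ c → Q a b c = true) (i k : Fin 6)
    (hi : P i) : ∑ j, (if P j then bn (Q i j k) else 0) ≤ 1 := by
  refine tabc_one _ (fun j => ?_) (fun j j' hjj => ?_)
  · split_ifs
    · exact tabc_bn_le _
    · omega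
  · by_cases hj : P j
    · by_cases hj' : P j'
      · simp only [hj, hj', if_true]
        by_contra hcon
        rw [not_or] at hcon
        have e1 : Q i j k = true := by
          by_contra hh
          rw [Bool.not_eq_true] at hh
          exact hcon.1 (by rw [hh]; rfl)
        have e2 : Q i j' k = true := by
          by_contra hh
          rw [Bool.not_eq_true] at hh
          exact hcon.2 (by rw [hh]; rfl)
        have n1 : i ≠ j := by
          rintro rfl
          rw [Q_irr] at e1
          exact absurd e1 (by decide)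
        have n2 : i ≠ j' := by
          rintro rfl
          rw [Q_irr] at e2
          exact absurd e2 (by decide)
        have e3 := hP i j j' hi hj hj' n1 hjj n2
        rw [Q_s23] at e1 e2
        exact Q_free i k j j' e1 e2 e3
      · right; simp [hj']
    · left; simp [hj]

theorem tabc_pair1 (i j : Fin 6) (s t : St) :
    2 * w4 i j s t ≤ tabc_g1 i j s + tabc_g1 j i t + 2 * tabc_ee i j s t := by
  rcases s with k | ⟨k, l⟩ <;> rcases t with k' | ⟨k', l'⟩ <;>
    simp only [w4, cc, tabc_g1, tabc_ee, Q_s12 j i]
  · generalize Q i j k = a; generalize Q i j k' = b; revert a b; decide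
  · generalize Q i j k = a; generalize Q i j k' = b; generalize Q i j l' = c; revert a b c; decide
  · generalize Q i j k = a; generalize Q i j k' = b; generalize Q i j l = c; revert a b c; decide
  · generalize Q i j k = a; generalize Q i j k' = b; generalize Q i j l = c
    generalize Q i j l' = d; revert a b c d; decide

theorem tabc_pair2 (i j : Fin 6) (s t : St) :
    2 * w4 i j s t ≤ tabc_g2 i j s t + tabc_g2 j i t s := by
  rcases s with k | ⟨k, l⟩ <;> rcases t with k' | ⟨k', l'⟩ <;>
    simp only [w4, cc, tabc_g2, Q_s12 j i]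
  · generalize Q i j k = a; generalize Q i j k' = b; revert a b; decide
  · generalize Q i j k = a; generalize Q i j k' = b; generalize Q i j l' = c; revert a b c; decide
  · generalize Q i j k = a; generalize Q i j k' = b; generalize Q i j l = c; revert a b c; decide
  · generalize Q i j k = a; generalize Q i j k' = b; generalize Q i j l = c
    generalize Q i j l' = d; revert a b c d; decide

theorem tabc_pair3 (i j : Fin 6) (s t : St) :
    2 * tabc_ee i j s t ≤ tabc_g3 i j s t + tabc_g3 j i t s := by
  rcases s with k | ⟨k, l⟩ <;> rcases t with k' | ⟨k', l'⟩ <;>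
    simp only [tabc_g3, tabc_ee, Q_s12 j i]
  · generalize Q i j k = a; generalize Q i j k' = b; revert a b; decide
  · omega
  · omega
  · omega

theorem tabC (ω : Fin 6 → St) (h : 3 ≤ nM ω) : X4 ω + nM ω ≤ 19 := by
  have hM : ∀ s : St, isM s = bn (decide (isM s = 1)) := by
    intro s; rcases s with k | ⟨k, l⟩ <;> rfl
  have hnM : nM ω = ∑ i, bn (decide (isM (ω i) = 1)) := by
    unfold nM
    exact sum_congr rfl fun i _ => hM (ω i)
  -- the number of unmatched pairs of positive weight
  obtain ⟨e, he⟩ : ∃ e, e = ∑ i, ∑ j, if i < j then tabc_ee i j (ω i) (ω j) else 0 := ⟨_, rfl⟩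
  have two : ∀ f : Fin 6 → Fin 6 → ℕ, (∑ i, ∑ j, if i < j then 2 * f i j else 0) =
      2 * ∑ i, ∑ j, if i < j then f i j else 0 := by
    intro f
    rw [mul_sum]
    refine sum_congr rfl fun i _ => ?_
    rw [mul_sum]
    refine sum_congr rfl fun j _ => ?_
    split_ifs <;> simp
  have key1 : X4 ω + nM ω ≤ 18 + e := by
    have h1 := tabc_pairsum (fun i j => 2 * w4 i j (ω i) (ω j)) (fun i j => tabc_g1 i j (ω i))
      (fun i j => 2 * tabc_ee i j (ω i) (ω j)) (fun i j _ => tabc_pair1 i j (ω i) (ω j))
    rw [two (fun i j => w4 i j (ω i) (ω j)), two (fun i j => tabc_ee i j (ω i) (ω j)), ← he] at h1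
    have h2 : ∀ i, ∑ j, tabc_g1 i j (ω i) + 2 * isM (ω i) ≤ 6 := by
      intro i
      rcases ω i with k | ⟨k, l⟩
      · have := tabc_row i k
        simp only [tabc_g1, isM, ← mul_sum]
        omega
      · have a := tabc_row i k
        have b := tabc_row i l
        simp only [tabc_g1, isM, sum_add_distrib]
        omega
    have h3 : ∑ i, (∑ j, tabc_g1 i j (ω i) + 2 * isM (ω i)) ≤ 36 := by
      refine le_trans (sum_le_sum fun i _ => h2 i) ?_
      simp
    rw [sum_add_distrib, ← mul_sum] at h3
    unfold X4 nM
    omega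
  rcases tabc_pattern (fun i => decide (isM (ω i) = 1)) (by rw [← hnM]; exact h) with hA | ⟨hs, hB⟩
  · -- the unmatched parts form a block or there are at most two
    have h1 := tabc_pairsum (fun i j => 2 * tabc_ee i j (ω i) (ω j))
      (fun i j => tabc_g3 i j (ω i) (ω j)) (fun _ _ => 0)
      (fun i j _ => by simpa using tabc_pair3 i j (ω i) (ω j))
    rw [two (fun i j => tabc_ee i j (ω i) (ω j)), ← he] at h1
    have h2 : ∀ i, ∑ j, tabc_g3 i j (ω i) (ω j) + isM (ω i) ≤ 1 := by
      intro i
      rcases hi : ω i with k | ⟨k, l⟩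
      · have := tabc_block (fun j => isM (ω j) = 0) (fun a b c ha hb hc => hA a b c
          (by simp [ha]) (by simp [hb]) (by simp [hc])) i k (by simp [hi, isM])
        have e : ∑ j, tabc_g3 i j (.U k) (ω j) = ∑ j, (if isM (ω j) = 0 then bn (Q i j k) else 0) := by
          refine sum_congr rfl fun j _ => ?_
          rcases ω j with k' | ⟨k', l'⟩ <;> simp [tabc_g3, isM]
        rw [e]
        have e0 : isM (.U k) = 0 := rfl
        rw [e0, add_zero]
        exact this
      · have e : ∑ j, tabc_g3 i j (.M k l) (ω j) = 0 := by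
          refine sum_eq_zero fun j _ => ?_
          rcases ω j with k' | ⟨k', l'⟩ <;> rfl
        rw [e]
        simp only [isM]
        omega
    have h3 : ∑ i, (∑ j, tabc_g3 i j (ω i) (ω j) + isM (ω i)) ≤ 6 := by
      refine le_trans (sum_le_sum fun i _ => h2 i) ?_
      simp
    rw [sum_add_distrib] at h3
    have h4 : ∑ i, isM (ω i) = nM ω := rfl
    rw [h4] at h3
    simp only [ite_self, sum_const_zero, add_zero] at h1
    omega
  · -- three matched parts that form a block
    have h1 := tabc_pairsum (fun i j => 2 * w4 i j (ω i) (ω j))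
      (fun i j => tabc_g2 i j (ω i) (ω j)) (fun _ _ => 0)
      (fun i j _ => by simpa using tabc_pair2 i j (ω i) (ω j))
    rw [two (fun i j => w4 i j (ω i) (ω j))] at h1
    have h2 : ∀ i, ∑ j, tabc_g2 i j (ω i) (ω j) + 6 * isM (ω i) ≤ 8 := by
      intro i
      rcases hi : ω i with k | ⟨k, l⟩
      · have := tabc_row i k
        have e : ∑ j, tabc_g2 i j (.U k) (ω j) = ∑ j, 4 * bn (Q i j k) :=
          sum_congr rfl fun j _ => rfl
        rw [e, ← mul_sum]
        simp only [isM]
        omega
      · have hb := fun k => tabc_block (fun j => isM (ω j) = 1) (fun a b c ha hb hc => hB a b c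
          (by simp [ha]) (by simp [hb]) (by simp [hc])) i k (by simp [hi, isM])
        have e : ∑ j, tabc_g2 i j (.M k l) (ω j) =
            ∑ j, (if isM (ω j) = 1 then bn (Q i j k) else 0) +
            ∑ j, (if isM (ω j) = 1 then bn (Q i j l) else 0) := by
          rw [← sum_add_distrib]
          refine sum_congr rfl fun j _ => ?_
          rcases ω j with k' | ⟨k', l'⟩ <;> simp [tabc_g2, isM]
        rw [e]
        have b1 := hb k
        have b2 := hb l
        have e0 : isM (.M k l) = 1 := rfl
        rw [e0]
        exact add_le_add (add_le_add b1 b2) (le_refl (6 * 1))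
    have h3 : ∑ i, (∑ j, tabc_g2 i j (ω i) (ω j) + 6 * isM (ω i)) ≤ 48 := by
      refine le_trans (sum_le_sum fun i _ => h2 i) ?_
      simp
    rw [sum_add_distrib, ← mul_sum] at h3
    have h4 : ∑ i, isM (ω i) = nM ω := rfl
    rw [h4] at h3
    rw [← hnM] at hs
    simp only [ite_self, sum_const_zero, add_zero] at h1
    have h5 : X4 ω = ∑ i, ∑ j, if i < j then w4 i j (ω i) (ω j) else 0 := rfl
    rw [← h5] at h1
    omega

end K4M
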