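import Pool.Agent.Lib.MP_4c59c5_co.Basic

/-!
# TabNear (60 min, finite check)
One or two matched states, and some choice of types is standard: every `j ≠ i0` is in state `U i0`,
or `M i0 l`, or `M l i0` (for some l). By symmetry of `w4` in the two types of a matched state
(`cc` is symmetric in k, l) one may assume `M i0 l`. Then (with C the 5-cycle link of i0)
* one matched state, at `i0`: excluded (that vector is standard).
* one matched state at `a ≠ i0`: X4 <= 4*3 + 2*2 + 2 = 18.
* matched states at i0 and a: X4 <= 12 + 4 + 1 = 17.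
* matched states at a, a' ≠ i0 adjacent in C: X4 <= 8 + 4 + (2 if no further, else 1 + 4) = 17.
* matched states at a, a' not adjacent in C: X4 <= 4 + 8 + 1 + 4 = 17.
Everything is a finite check done by the kernel (`tabnear_A`, `tabnear_A'`, `tabnear_B`).
-/

set_option linter.unusedVariables false
set_option linter.unusedSectionVars false

namespace K4M

open Finset
open scoped Classical

/-- explicit form of `X4` -/
def tabnearX (ω : Fin 6 → St) : ℕ :=
  w4 0 1 (ω 0) (ω 1) + w4 0 2 (ω 0) (ω 2) + w4 0 3 (ω 0) (ω 3) + w4 0 4 (ω 0) (ω 4)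
   + w4 0 5 (ω 0) (ω 5) + w4 1 2 (ω 1) (ω 2) + w4 1 3 (ω 1) (ω 3) + w4 1 4 (ω 1) (ω 4)
   + w4 1 5 (ω 1) (ω 5) + w4 2 3 (ω 2) (ω 3) + w4 2 4 (ω 2) (ω 4) + w4 2 5 (ω 2) (ω 5)
   + w4 3 4 (ω 3) (ω 4) + w4 3 5 (ω 3) (ω 5) + w4 4 5 (ω 4) (ω 5)

theorem tabnearX_eq (ω : Fin 6 → St) : X4 ω = tabnearX ω := by
  unfold X4 tabnearX
  simp only [Fin.sum_univ_six]
  simp [show ¬ ((1 : Fin 6) < 0) by decide, show ¬ ((2 : Fin 6) < 0) by decide]
  ring

def tabnearV1 (i0 : Fin 6) (s0 : St) (a l : Fin 6) : Fin 6 → St := fun j =>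
  if j = i0 then s0 else if j = a then .M i0 l else .U i0
def tabnearV2 (i0 : Fin 6) (s0 : St) (a l b m : Fin 6) : Fin 6 → St := fun j =>
  if j = i0 then s0 else if j = a then .M i0 l else if j = b then .M i0 m else .U i0

theorem tabnear_A : ∀ i0 a : Fin 6, a ≠ i0 → ∀ l k : Fin 6,
    tabnearX (tabnearV1 i0 (.U k) a l) ≤ 18 := by decide +kernel
theorem tabnear_A' : ∀ i0 a : Fin 6, a ≠ i0 → ∀ l k m : Fin 6, k ≤ m →
    tabnearX (tabnearV1 i0 (.M k m) a l) ≤ 17 := by decide +kernel
theorem tabnear_B : ∀ i0 a : Fin 6, a ≠ i0 → ∀ b, b ≠ i0 → a < b → ∀ l m k : Fin 6,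
    tabnearX (tabnearV2 i0 (.U k) a l b m) ≤ 17 := by decide +kernel

/-- exchange the two types -/
def tabnearSw : St → St
  | .U k => .U k
  | .M k l => .M l k

theorem tabnearSw_left (i j : Fin 6) (s t : St) : w4 i j (tabnearSw s) t = w4 i j s t := by
  cases s <;> cases t <;> simp [tabnearSw, w4, cc, add_comm]
theorem tabnearSw_right (i j : Fin 6) (s t : St) : w4 i j s (tabnearSw t) = w4 i j s t := by
  cases s <;> cases t <;> simp [tabnearSw, w4, cc, add_comm]
theorem tabnearSw_isM (s : St) : isM (tabnearSw s) = isM s := by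
  cases s <;> rfl

theorem tabnear_norm (ω : Fin 6 → St) (σ : Fin 6 → Prop) :
    X4 (fun i => if σ i then tabnearSw (ω i) else ω i) = X4 ω := by
  unfold X4
  refine sum_congr rfl fun i _ => sum_congr rfl fun j _ => ?_
  by_cases hi : σ i <;> by_cases hj : σ j <;> simp [hi, hj, tabnearSw_left, tabnearSw_right]

theorem tabnear_normM (ω : Fin 6 → St) (σ : Fin 6 → Prop) :
    nM (fun i => if σ i then tabnearSw (ω i) else ω i) = nM ω := by
  unfold nM
  refine sum_congr rfl fun i _ => ?_
  by_cases hi : σ i <;> simp [hi, tabnearSw_isM]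

/-- the case of two matched states away from `i0` -/
theorem tabnear_two (ω : Fin 6 → St) (i0 a b : Fin 6) (ha : a ≠ i0) (hb : b ≠ i0) (hab : a < b)
    (l m : Fin 6) (hla : ω a = .M i0 l) (hlb : ω b = .M i0 m)
    (hU : ∀ j, j ≠ i0 → j ≠ a → j ≠ b → ω j = .U i0) (k : Fin 6) (hk : ω i0 = .U k) :
    X4 ω ≤ 17 := by
  have : ω = tabnearV2 i0 (.U k) a l b m := by
    funext j
    unfold tabnearV2
    split_ifs with h1 h2 h3
    · rw [h1, hk]
    · rw [h2, hla]
    · rw [h3, hlb]
    · exact hU j h1 h2 h3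
  rw [this, tabnearX_eq]
  exact tabnear_B i0 a ha b hb hab l m k

theorem tabNear (ω : Fin 6 → St) (i0 : Fin 6) (r : Fin 6 → Bool)
    (h : ∀ j, j ≠ i0 → rsv r ω j = i0) (h1 : 1 ≤ nM ω) (h2 : nM ω ≤ 2) (hn : ¬ Std i0 ω) :
    X4 ω + nM ω ≤ 19 := by
  -- normalise
  obtain ⟨σ, hσ, hσ0⟩ : ∃ σ : Fin 6 → Prop, (∀ j, j ≠ i0 → (σ j ↔ r j = false)) ∧
      (σ i0 ↔ ∃ k m : Fin 6, ω i0 = .M k m ∧ m < k) :=
    ⟨fun j => if j = i0 then ∃ k m : Fin 6, ω i0 = .M k m ∧ m < k else r j = false,
      fun j hj => by simp [hj], by simp⟩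
  set ω' : Fin 6 → St := fun i => if σ i then tabnearSw (ω i) else ω i with hω'
  have hX : X4 ω' = X4 ω := tabnear_norm ω σ
  have hN : nM ω' = nM ω := tabnear_normM ω σ
  have hj : ∀ j, j ≠ i0 → ω' j = .U i0 ∨ ∃ l, ω' j = .M i0 l := by
    intro j hji
    have h3 := h j hji
    unfold rsv at h3
    have h4 := hσ j hji
    simp only [hω']
    cases hr : r j with
    | false =>
      rw [if_pos (h4.2 hr)]
      cases hw : ω j with
      | U k => left; simp only [hw] at h3; simp [tabnearSw, h3]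
      | M k l => right; simp only [hw, hr] at h3; simp [tabnearSw] ; simpa using h3
    | true =>
      rw [if_neg (fun hh => by simp [h4.1 hh] at hr)]
      cases hw : ω j with
      | U k => left; simp only [hw] at h3; simp [h3]
      | M k l => right; simp only [hw, hr] at h3; simpa using h3
  have h0 : (∃ k, ω' i0 = .U k) ∨ ∃ k m, k ≤ m ∧ ω' i0 = .M k m := by
    simp only [hω']
    cases hw : ω i0 with
    | U k =>
      left; refine ⟨k, ?_⟩
      split_ifs <;> simp [tabnearSw]
    | M k m =>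
      right
      by_cases hkm : m < k
      · rw [if_pos (hσ0.2 ⟨k, m, hw, hkm⟩)]
        exact ⟨m, k, le_of_lt hkm, rfl⟩
      · have : ¬ σ i0 := by
          intro hh
          obtain ⟨k', m', e, hlt⟩ := hσ0.1 hh
          rw [hw] at e
          injection e with e1 e2
          subst e1; subst e2
          exact hkm hlt
        rw [if_neg this]
        exact ⟨k, m, not_lt.1 hkm, rfl⟩
  have hstd : ∃ a, a ≠ i0 ∧ ∃ l, ω' a = .M i0 l := by
    by_contra hcon
    apply hn
    intro j hji
    rcases hj j hji with h5 | ⟨l, h5⟩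
    · simp only [hω'] at h5
      split_ifs at h5 with hs
      · cases hw : ω j with
        | U k => rw [hw] at h5; simpa [tabnearSw] using h5
        | M k l => rw [hw] at h5; simp [tabnearSw] at h5
      · exact h5
    · exact absurd ⟨j, hji, l, h5⟩ hcon
  obtain ⟨a, ha, l, hla⟩ := hstd
  have hsum : ∀ s : Finset (Fin 6), ∑ i ∈ s, isM (ω' i) ≤ nM ω' := by
    intro s
    unfold nM
    exact sum_le_sum_of_subset (subset_univ s)
  rw [← hX, ← hN]
  rw [← hN] at h1 h2
  by_cases hb : ∃ b, b ≠ i0 ∧ b ≠ a ∧ ∃ m, ω' b = .M i0 m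
  · obtain ⟨b, hb, hba, m, hlb⟩ := hb
    have hU : ∀ j, j ≠ i0 → j ≠ a → j ≠ b → ω' j = .U i0 := by
      intro j hji hja hjb
      rcases hj j hji with h5 | ⟨l', h5⟩
      · exact h5
      · exfalso
        have h6 := hsum {j, a, b}
        rw [sum_insert (by simp [hja, hjb]), sum_insert (by simp [hba.symm]), sum_singleton,
          hla, hlb, h5] at h6
        simp [isM] at h6
        omega
    have h0' : ∃ k, ω' i0 = .U k := by
      rcases h0 with h5 | ⟨k, m', _, h5⟩
      · exact h5
      · exfalso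
        have h6 := hsum {i0, a, b}
        rw [sum_insert (by simp [ha.symm, hb.symm]), sum_insert (by simp [hba.symm]),
          sum_singleton, hla, hlb, h5] at h6
        simp [isM] at h6
        omega
    obtain ⟨k, hk⟩ := h0'
    have : X4 ω' ≤ 17 := by
      rcases lt_or_gt_of_ne hba.symm with hlt | hlt
      · exact tabnear_two ω' i0 a b ha hb hlt l m hla hlb hU k hk
      · exact tabnear_two ω' i0 b a hb ha hlt m l hlb hla (fun j h1 h2 h3 => hU j h1 h3 h2) k hk
    omega
  · have hU : ∀ j, j ≠ i0 → j ≠ a → ω' j = .U i0 := by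
      intro j hji hja
      rcases hj j hji with h5 | ⟨l', h5⟩
      · exact h5
      · exact absurd ⟨j, hji, hja, l', h5⟩ hb
    have hform : ω' = tabnearV1 i0 (ω' i0) a l := by
      funext j
      unfold tabnearV1
      split_ifs with h3 h4
      · rw [h3]
      · rw [h4, hla]
      · exact hU j h3 h4
    have hnM : nM ω' = isM (ω' i0) + 1 := by
      unfold nM
      rw [← Finset.add_sum_erase univ _ (mem_univ i0), ← Finset.add_sum_erase (univ.erase i0) _
        (show a ∈ univ.erase i0 by simp [ha])]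
      rw [hla, sum_eq_zero]
      · simp [isM]
      · intro j hjm
        have h3 : j ≠ a := (mem_erase.1 hjm).1
        have h4 : j ≠ i0 := (mem_erase.1 (mem_erase.1 hjm).2).1
        rw [hU j h4 h3]
        rfl
    rcases h0 with ⟨k, h5⟩ | ⟨k, m, hkm, h5⟩
    · have h6 := tabnear_A i0 a ha l k
      rw [h5] at hform hnM
      rw [← hform, ← tabnearX_eq] at h6
      simp [isM] at hnM
      omega
    · have h6 := tabnear_A' i0 a ha l k m hkm
      rw [h5] at hform hnM
      rw [← hform, ← tabnearX_eq] at h6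
      simp [isM] at hnM
      omega

end K4M
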