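import Pool.Agent.Lib.MP_4c59c5_co.Basic

/-!
# TabRes (30 min)
Averaging over the choices of types. For states `s, t` with types `k s, l s` (for `U k` both are k)
`4 * w4 i j s t <= sum over the four choices of w4 i j (U ..) (U ..)`:
U,U: equality (all four equal). M k l, U k': `w4 = 2 min 1 (a + b) c <= 2 (a + b) c` and the four
choices give `2 * (4 a c + 4 b c)`, where a, b, c are 0 or 1. M,M: `w4 = min (a+b) (c+d) <=
(a+b)(c+d)` and the four choices give `4 (a+b)(c+d)`. This finite statement can be proved
by cases on the bits. Summation over all r : Fin 6 → Bool: for i ≠ j the pair (r i, r j) takes each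
value 16 times, so `64 * w4 i j (ω i) (ω j) <= sum_r w4 i j (U (rsv r ω i)) (U (rsv r ω j))`, hence
`64 * X4 ω <= sum_r X4 (fun j => U (rsv r ω j)) <= 64 c`.
(Alternative without averages over r: change one coordinate at a time, for one matched part the
choice with the larger X4 is at least the value with the matched state replaced.)
-/

set_option linter.unusedVariables false
set_option linter.unusedSectionVars false

namespace K4M

open Finset
open scoped Classical

theorem tabres_l (i j k l : Fin 6) (t : St) :
    2 * w4 i j (.M k l) t ≤ w4 i j (.U k) t + w4 i j (.U l) t := by
  cases t with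
  | U m =>
    simp only [w4, cc]
    generalize Q i j k = x
    generalize Q i j l = y
    generalize Q i j m = z
    revert x y z
    decide
  | M m m' =>
    simp only [w4, cc]
    generalize Q i j k = x
    generalize Q i j l = y
    generalize Q i j m = z
    generalize Q i j m' = z'
    revert x y z z'
    decide

theorem tabres_r (i j k l : Fin 6) (s : St) :
    2 * w4 i j s (.M k l) ≤ w4 i j s (.U k) + w4 i j s (.U l) := by
  cases s with
  | U m =>
    simp only [w4, cc]
    generalize Q i j k = x
    generalize Q i j l = y
    generalize Q i j m = z
    revert x y z
    decide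
  | M m m' =>
    simp only [w4, cc]
    generalize Q i j k = x
    generalize Q i j l = y
    generalize Q i j m = z
    generalize Q i j m' = z'
    revert x y z z'
    decide

/-- replacing one matched state by its two choices -/
theorem tabres_upd (ω : Fin 6 → St) (a k l : Fin 6) (ha : ω a = .M k l) :
    2 * X4 ω ≤ X4 (Function.update ω a (.U k)) + X4 (Function.update ω a (.U l)) := by
  unfold X4
  rw [mul_sum, ← sum_add_distrib]
  refine sum_le_sum fun i _ => ?_
  rw [mul_sum, ← sum_add_distrib]
  refine sum_le_sum fun j _ => ?_
  by_cases hij : i < j
  · simp only [if_pos hij]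
    by_cases hi : i = a
    · subst hi
      have hj : j ≠ i := (ne_of_lt hij).symm
      rw [Function.update_self, Function.update_self, Function.update_of_ne hj,
        Function.update_of_ne hj, ha]
      exact tabres_l i j k l (ω j)
    · by_cases hj : j = a
      · subst hj
        rw [Function.update_self, Function.update_self, Function.update_of_ne hi,
          Function.update_of_ne hi, ha]
        exact tabres_r i j k l (ω i)
      · rw [Function.update_of_ne hi, Function.update_of_ne hi, Function.update_of_ne hj,
          Function.update_of_ne hj]
        omega
  · simp only [if_neg hij]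
    omega

theorem tabres_step (ω : Fin 6 → St) (S : Finset (Fin 6)) :
    ∃ r : Fin 6 → Bool, X4 ω ≤ X4 (fun j => if j ∈ S then .U (rsv r ω j) else ω j) := by
  induction S using Finset.induction_on with
  | empty => exact ⟨fun _ => true, le_of_eq (congrArg X4 (funext fun j => by simp))⟩
  | insert a S ha ih =>
    obtain ⟨r, hr⟩ := ih
    cases hω : ω a with
    | U k =>
      refine ⟨r, hr.trans (le_of_eq (congrArg X4 (funext fun j => ?_)))⟩
      by_cases hj : j = a
      · subst hj
        rw [if_neg ha, if_pos (mem_insert_self _ _)]
        simp [rsv, hω]
      · have h1 : j ∈ insert a S ↔ j ∈ S := by simp [hj]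
        simp only [h1]
    | M k l =>
      have h1 := tabres_upd (fun j => if j ∈ S then .U (rsv r ω j) else ω j) a k l
        (by rw [if_neg ha]; exact hω)
      have h2 : ∀ b : Bool, X4 (Function.update (fun j => if j ∈ S then .U (rsv r ω j) else ω j) a
          (.U (if b = true then k else l))) =
          X4 (fun j => if j ∈ insert a S then .U (rsv (Function.update r a b) ω j) else ω j) := by
        intro b
        refine congrArg X4 (funext fun j => ?_)
        by_cases hj : j = a
        · subst hj
          rw [Function.update_self, if_pos (mem_insert_self _ _)]
          simp [rsv, hω]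
        · rw [Function.update_of_ne hj]
          have h3 : j ∈ insert a S ↔ j ∈ S := by simp [hj]
          simp only [h3]
          have h4 : rsv (Function.update r a b) ω j = rsv r ω j := by
            unfold rsv
            rw [Function.update_of_ne hj]
          rw [h4]
      have ht := h2 true
      have hf := h2 false
      simp only [if_true] at ht
      simp only [Bool.false_eq_true, if_false] at hf
      rw [ht, hf] at h1
      rcases le_total (X4 ω) (X4 (fun j => if j ∈ insert a S then
        .U (rsv (Function.update r a true) ω j) else ω j)) with h3 | h3
      · exact ⟨_, h3⟩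
      · exact ⟨Function.update r a false, by omega⟩

theorem tabRes (ω : Fin 6 → St) (c : ℕ) (h : ∀ r : Fin 6 → Bool, X4 (fun j => .U (rsv r ω j)) ≤ c) :
    X4 ω ≤ c := by
  obtain ⟨r, hr⟩ := tabres_step ω univ
  refine hr.trans ?_
  have h1 : (fun j => if j ∈ (univ : Finset (Fin 6)) then St.U (rsv r ω j) else ω j) =
      fun j => .U (rsv r ω j) := funext fun j => if_pos (mem_univ j)
  rw [h1]
  exact h r

end K4M
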