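import Pool.Agent.Lib.MP_4c59c5_co.TabU
import Pool.Agent.Lib.MP_4c59c5_co.TabRes
import Pool.Agent.Lib.MP_4c59c5_co.TabNear
import Pool.Agent.Lib.MP_4c59c5_co.TabC

/-!
# Tab (20 min, assembly)
`tabS`: `tabRes` with c = 20 and `tabU20`.
`tab0`: no matched state, so `ω j = U (t j)`; `tabU`.
`tab1`: if nM ω >= 3 use `tabC`. Otherwise, if some choice `r` makes `rsv r ω` equal to i0 off i0 use
`tabNear`; if not, `tabRes` with c = 16 and `tabU`, and 16 + nM ω <= 18.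
-/

set_option linter.unusedVariables false
set_option linter.unusedSectionVars false

namespace K4M

open Finset
open scoped Classical

theorem tabS (ω : Fin 6 → St) : X4 ω ≤ 20 := tabRes ω 20 fun r => tabU20 (rsv r ω)

theorem tab0 (ω : Fin 6 → St) (h : nM ω = 0) (hn : ¬ ∃ i0, Std i0 ω) : X4 ω ≤ 16 := by
  have h1 : ∀ i, isM (ω i) = 0 := by
    unfold nM at h
    rw [sum_eq_zero_iff] at h
    exact fun i => h i (mem_univ i)
  have h2 : ∀ i, ∃ k, ω i = .U k := by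
    intro i
    have h3 := h1 i
    rcases hω : ω i with k | ⟨k, l⟩
    · exact ⟨k, rfl⟩
    · rw [hω] at h3
      simp [isM] at h3
  choose t ht using h2
  have h4 : ω = fun j => .U (t j) := funext ht
  rw [h4]
  refine tabU t ?_
  rintro ⟨i0, hi0⟩
  refine hn ⟨i0, fun j hj => ?_⟩
  rw [ht j, hi0 j hj]

theorem tab1 (ω : Fin 6 → St) (h : 1 ≤ nM ω) (hn : ¬ ∃ i0, Std i0 ω) : X4 ω + nM ω ≤ 19 := by
  by_cases h3 : 3 ≤ nM ω
  · exact tabC ω h3
  · by_cases h4 : ∃ (i0 : Fin 6) (r : Fin 6 → Bool), ∀ j, j ≠ i0 → rsv r ω j = i0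
    · obtain ⟨i0, r, hr⟩ := h4
      exact tabNear ω i0 r hr h (by omega) fun hs => hn ⟨i0, hs⟩
    · have h5 : X4 ω ≤ 16 := by
        refine tabRes ω 16 fun r => tabU (rsv r ω) ?_
        rintro ⟨i0, hi0⟩
        exact h4 ⟨i0, r, hi0⟩
      omega

end K4M
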