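import Pool.Agent.Lib.MP_4c59c5_co.Basic

/-!
# TabU (45 min, finite check)
For an unmatched vector `t : Fin 6 → Fin 6` the number `X4` is four times the number of pairs
`i < j` with `Q i j (t i)` and `Q i j (t j)` both true. Checked by computer over all 6^6 vectors:
the maximum is 20, and at most 16 unless t is constant equal to i0 off i0. Kernel check: `decide`
on 46656 vectors with `∑∑` is too slow as it stands; write the number as an explicit sum of 15
terms of bits, quantify over six `Fin 6` variables one after the other (or split on `t 0` and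
`t 1` first, or use a nested search function on Nat with a soundness lemma). Mathematical proof if
preferred: the graph F on the six parts with edges the counted pairs has all degrees at most 2
(i is joined only to the two neighbours of t i in the 5-cycle link of i).
-/

set_option linter.unusedVariables false
set_option linter.unusedSectionVars false

namespace K4M

open Finset
open scoped Classical

/-- number of mutual pairs -/
def tabuN (a b c d e f : Fin 6) : ℕ :=
  (bn (Q 0 1 a && Q 0 1 b) + bn (Q 0 2 a && Q 0 2 c) + bn (Q 1 2 b && Q 1 2 c)) +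
  (bn (Q 0 3 a && Q 0 3 d) + bn (Q 1 3 b && Q 1 3 d) + bn (Q 2 3 c && Q 2 3 d)) +
  (bn (Q 0 4 a && Q 0 4 e) + bn (Q 1 4 b && Q 1 4 e) + bn (Q 2 4 c && Q 2 4 e) +
    bn (Q 3 4 d && Q 3 4 e)) +
  (bn (Q 0 5 a && Q 0 5 f) + bn (Q 1 5 b && Q 1 5 f) + bn (Q 2 5 c && Q 2 5 f) +
    bn (Q 3 5 d && Q 3 5 f) + bn (Q 4 5 e && Q 4 5 f))

/-- the standard vectors -/
def tabuStd (a b c d e f : Fin 6) : Bool :=
  (decide (b = 0 ∧ c = 0 ∧ d = 0 ∧ e = 0 ∧ f = 0)) ||
  (decide (a = 1 ∧ c = 1 ∧ d = 1 ∧ e = 1 ∧ f = 1)) ||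
  (decide (a = 2 ∧ b = 2 ∧ d = 2 ∧ e = 2 ∧ f = 2)) ||
  (decide (a = 3 ∧ b = 3 ∧ c = 3 ∧ e = 3 ∧ f = 3)) ||
  (decide (a = 4 ∧ b = 4 ∧ c = 4 ∧ d = 4 ∧ f = 4)) ||
  (decide (a = 5 ∧ b = 5 ∧ c = 5 ∧ d = 5 ∧ e = 5))

theorem tabu_all : ∀ a b c d e f : Fin 6, (Nat.ble (tabuN a b c d e f) 4 ||
    (tabuStd a b c d e f && Nat.ble (tabuN a b c d e f) 5)) = true := by
  decide +kernel

theorem tabu_w (i j k l : Fin 6) : w4 i j (.U k) (.U l) = 4 * bn (Q i j k && Q i j l) := by
  simp only [w4, cc, bn]
  cases Q i j k <;> cases Q i j l <;> rfl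

theorem tabu_X (t : Fin 6 → Fin 6) :
    X4 (fun j => .U (t j)) = 4 * tabuN (t 0) (t 1) (t 2) (t 3) (t 4) (t 5) := by
  have h01 : ((0 : Fin 6) < 1) = True := by decide
  unfold X4
  simp only [Fin.sum_univ_six, tabu_w]
  unfold tabuN
  simp only [show ¬ ((0 : Fin 6) < 0) by decide, show ((0 : Fin 6) < 1) by decide,
    show ((0 : Fin 6) < 2) by decide, show ((0 : Fin 6) < 3) by decide,
    show ((0 : Fin 6) < 4) by decide, show ((0 : Fin 6) < 5) by decide,
    show ¬ ((1 : Fin 6) < 0) by decide, show ¬ ((1 : Fin 6) < 1) by decide,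
    show ((1 : Fin 6) < 2) by decide, show ((1 : Fin 6) < 3) by decide,
    show ((1 : Fin 6) < 4) by decide, show ((1 : Fin 6) < 5) by decide,
    show ¬ ((2 : Fin 6) < 0) by decide, show ¬ ((2 : Fin 6) < 1) by decide,
    show ¬ ((2 : Fin 6) < 2) by decide, show ((2 : Fin 6) < 3) by decide,
    show ((2 : Fin 6) < 4) by decide, show ((2 : Fin 6) < 5) by decide,
    show ¬ ((3 : Fin 6) < 0) by decide, show ¬ ((3 : Fin 6) < 1) by decide,
    show ¬ ((3 : Fin 6) < 2) by decide, show ¬ ((3 : Fin 6) < 3) by decide,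
    show ((3 : Fin 6) < 4) by decide, show ((3 : Fin 6) < 5) by decide,
    show ¬ ((4 : Fin 6) < 0) by decide, show ¬ ((4 : Fin 6) < 1) by decide,
    show ¬ ((4 : Fin 6) < 2) by decide, show ¬ ((4 : Fin 6) < 3) by decide,
    show ¬ ((4 : Fin 6) < 4) by decide, show ((4 : Fin 6) < 5) by decide,
    show ¬ ((5 : Fin 6) < 0) by decide, show ¬ ((5 : Fin 6) < 1) by decide,
    show ¬ ((5 : Fin 6) < 2) by decide, show ¬ ((5 : Fin 6) < 3) by decide,
    show ¬ ((5 : Fin 6) < 4) by decide, show ¬ ((5 : Fin 6) < 5) by decide,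
    if_true, if_false]
  ring

theorem tabU20 (t : Fin 6 → Fin 6) : X4 (fun j => .U (t j)) ≤ 20 := by
  rw [tabu_X]
  have h := tabu_all (t 0) (t 1) (t 2) (t 3) (t 4) (t 5)
  rw [Bool.or_eq_true, Bool.and_eq_true] at h
  rcases h with h | h
  · have := Nat.le_of_ble_eq_true h; omega
  · have := Nat.le_of_ble_eq_true h.2; omega

theorem tabU (t : Fin 6 → Fin 6) (h : ¬ ∃ i0, ∀ j, j ≠ i0 → t j = i0) :
    X4 (fun j => .U (t j)) ≤ 16 := by
  rw [tabu_X]
  have h1 := tabu_all (t 0) (t 1) (t 2) (t 3) (t 4) (t 5)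
  rw [Bool.or_eq_true, Bool.and_eq_true] at h1
  rcases h1 with h1 | h1
  · have := Nat.le_of_ble_eq_true h1; omega
  · exfalso
    apply h
    have h2 := h1.1
    unfold tabuStd at h2
    simp only [Bool.or_eq_true, decide_eq_true_eq] at h2
    have key : ∀ j : Fin 6, j = 0 ∨ j = 1 ∨ j = 2 ∨ j = 3 ∨ j = 4 ∨ j = 5 := by decide
    rcases h2 with ((((h2 | h2) | h2) | h2) | h2) | h2
    · exact ⟨0, fun j hj => by
        rcases key j with rfl | rfl | rfl | rfl | rfl | rfl
        · exact absurd rfl hj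
        all_goals tauto⟩
    · exact ⟨1, fun j hj => by
        rcases key j with rfl | rfl | rfl | rfl | rfl | rfl
        · tauto
        · exact absurd rfl hj
        all_goals tauto⟩
    · exact ⟨2, fun j hj => by
        rcases key j with rfl | rfl | rfl | rfl | rfl | rfl
        · tauto
        · tauto
        · exact absurd rfl hj
        all_goals tauto⟩
    · exact ⟨3, fun j hj => by
        rcases key j with rfl | rfl | rfl | rfl | rfl | rfl
        · tauto
        · tauto
        · tauto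
        · exact absurd rfl hj
        all_goals tauto⟩
    · exact ⟨4, fun j hj => by
        rcases key j with rfl | rfl | rfl | rfl | rfl | rfl
        · tauto
        · tauto
        · tauto
        · tauto
        · exact absurd rfl hj
        · tauto⟩
    · exact ⟨5, fun j hj => by
        rcases key j with rfl | rfl | rfl | rfl | rfl | rfl
        · tauto
        · tauto
        · tauto
        · tauto
        · tauto
        · exact absurd rfl hj⟩

end K4M
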