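import Pool.Agent.Lib.MP_4c59c5_co.Basic

/-!
# Types (45 min)
For `a` with `A a` let `N j = {b : π b = j, T v a b}` and `J = {j ≠ π a : c1 (N j) > θ n}`.
If j, k in J and `Q (π a) j k` then every pair (b, c) in N j × N k is missing at a: `T a b c` with
`T v a b`, `T v a c` contradicts `h.free` at the vertex a (`T a v b`, `T a v c`, `T a b c`). So
`Mis T π a b c` for all (b,c) in N j × N k and all (c,b) (disjoint sets of pairs as j ≠ k), hence
`mis1 T π a >= 2 c1 (N j) c1 (N k) > 2 θ^2 n^2`, a contradiction. So J is independent in the link of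
π a, and then there is k with `Q (π a) j k = true` for all j in J: finite statement
`∀ i (J : Fin 6 → Bool), J i = false → (∀ j k, J j = true → J k = true → Q i j k = false) →
∃ k, ∀ j, J j = true → Q i j k = true` by `decide`. Put `τ a = k` (choice). If
`Q (π a) j (τ a) = false` and j ≠ π a then j is not in J. For a with not A a take τ a = 0.
-/

set_option linter.unusedVariables false
set_option linter.unusedSectionVars false

namespace K4M

open Finset
open scoped Classical

theorem types_fin : ∀ (i : Fin 6) (a b c d e f : Bool),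
    (∀ j k : Fin 6, (![a, b, c, d, e, f] : Fin 6 → Bool) j = true →
      (![a, b, c, d, e, f] : Fin 6 → Bool) k = true → Q i j k = false) →
    (![a, b, c, d, e, f] : Fin 6 → Bool) i = false →
    ∃ k : Fin 6, ∀ j, (![a, b, c, d, e, f] : Fin 6 → Bool) j = true → Q i j k = true := by
  decide

theorem types_fin' (i : Fin 6) (J : Fin 6 → Bool) (h1 : J i = false)
    (h2 : ∀ j k, J j = true → J k = true → Q i j k = false) :
    ∃ k, ∀ j, J j = true → Q i j k = true := by
  have h : (![J 0, J 1, J 2, J 3, J 4, J 5] : Fin 6 → Bool) = J := by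
    ext j
    fin_cases j <;> rfl
  have h3 := types_fin i (J 0) (J 1) (J 2) (J 3) (J 4) (J 5)
  rw [h] at h3
  exact h3 h2 h1

theorem types_mis {V : Type} [Fintype V] {T : V → V → V → Prop} (h : IsG T) (π : V → Fin 6)
    (v a : V) {j k : Fin 6} (hjk : j ≠ k) (hQ : Q (π a) j k = true) :
    2 * (c1 (fun b => π b = j ∧ T v a b) * c1 (fun b => π b = k ∧ T v a b)) ≤ mis1 T π a := by
  have hfree : ∀ b c, T v a b → T v a c → ¬ T a b c := fun b c h1 h2 h3 =>
    h.free a v b c (h.s12 _ _ _ h1) (h.s12 _ _ _ h2) h3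
  have hQ' : Q (π a) k j = true := by rw [Q_s23]; exact hQ
  unfold mis1
  rw [c2_split (Mis T π a) (fun x y => (π x = j ∧ T v a x) ∧ (π y = k ∧ T v a y))]
  have h1 : c2 (fun x y => (π x = j ∧ T v a x) ∧ (π y = k ∧ T v a y)) ≤
      c2 (fun x y => Mis T π a x y ∧ ((π x = j ∧ T v a x) ∧ (π y = k ∧ T v a y))) := by
    refine c2_mono fun x y hxy => ⟨⟨?_, hfree x y hxy.1.2 hxy.2.2⟩, hxy⟩
    rw [hxy.1.1, hxy.2.1]
    exact hQ
  have h2 : c2 (fun x y => (π x = k ∧ T v a x) ∧ (π y = j ∧ T v a y)) ≤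
      c2 (fun x y => Mis T π a x y ∧ ¬ ((π x = j ∧ T v a x) ∧ (π y = k ∧ T v a y))) := by
    refine c2_mono fun x y hxy => ⟨⟨?_, hfree x y hxy.1.2 hxy.2.2⟩, fun hh => hjk ?_⟩
    · rw [hxy.1.1, hxy.2.1]
      exact hQ'
    · rw [← hh.1.1, hxy.1.1]
  rw [c2_prod (fun x => π x = j ∧ T v a x) (fun y => π y = k ∧ T v a y)] at h1
  rw [c2_prod (fun x => π x = k ∧ T v a x) (fun y => π y = j ∧ T v a y)] at h2
  have h3 : c1 (fun x => π x = k ∧ T v a x) * c1 (fun y => π y = j ∧ T v a y) =
      c1 (fun y => π y = j ∧ T v a y) * c1 (fun x => π x = k ∧ T v a x) := mul_comm _ _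
  rw [h3] at h2
  linarith

theorem types {V : Type} [Fintype V] {T : V → V → V → Prop} (h : IsG T) (π : V → Fin 6) (v : V)
    (A : V → Prop) (θ n : ℝ) (hn : (Fintype.card V : ℝ) = n) (hθ : 0 < θ)
    (hA : ∀ a, A a → mis1 T π a ≤ 2 * θ ^ 2 * n ^ 2) :
    ∃ τ : V → Fin 6, ∀ a, A a → ∀ j, j ≠ π a → Q (π a) j (τ a) = false →
      c1 (fun b => π b = j ∧ T v a b) ≤ θ * n := by
  have hn0 : 0 ≤ n := by rw [← hn]; exact Nat.cast_nonneg _
  have key : ∀ a, ∃ k, A a → ∀ j, j ≠ π a → Q (π a) j k = false →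
      c1 (fun b => π b = j ∧ T v a b) ≤ θ * n := by
    intro a
    by_cases ha : A a
    swap
    · exact ⟨0, fun h => absurd h ha⟩
    obtain ⟨k, hk⟩ := types_fin' (π a)
      (fun j => decide (j ≠ π a ∧ θ * n < c1 (fun b => π b = j ∧ T v a b))) (by simp) (by
        intro j k hj hk
        have hj' := of_decide_eq_true hj
        have hk' := of_decide_eq_true hk
        by_contra hQ
        rw [Bool.not_eq_false] at hQ
        have hjk : j ≠ k := by
          rintro rfl
          rw [Q_irr''] at hQ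
          exact Bool.false_ne_true hQ
        have h1 := types_mis h π v a hjk hQ
        have h2 := hA a ha
        have h3 : 0 ≤ θ * n := mul_nonneg hθ.le hn0
        have h4 := mul_lt_mul'' hj'.2 hk'.2 h3 h3
        nlinarith)
    refine ⟨k, fun _ j hj hQ => ?_⟩
    by_contra hlt
    push Not at hlt
    have h1 := hk j (decide_eq_true ⟨hj, hlt⟩)
    rw [hQ] at h1
    exact Bool.false_ne_true h1
  choose τ hτ using key
  exact ⟨τ, hτ⟩

end K4M
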