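import Pool.Agent.Lib.MP_4c59c5_co.Basic

/-!
# MP_4c59c5_co, the definitions of the final statement (usual language)
-/

set_option linter.unusedVariables false
set_option linter.unusedSectionVars false

namespace K4M

open Finset
open scoped Classical

/-- the ten blocks of the 2-(6,3,2) design on the six points 0,...,5 -/
def H6 : Finset (Finset (Fin 6)) :=
  {{0, 1, 5}, {1, 2, 5}, {2, 3, 5}, {3, 4, 5}, {0, 4, 5}, {0, 1, 3}, {1, 2, 4}, {0, 2, 3},
    {1, 3, 4}, {0, 2, 4}}

/-- `H` is a 3-graph (a set of triples) in which every 4 vertices span at most 2 triples, i.e. it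
contains no 4-vertex 3-graph with 3 triples -/
def Free43 {V : Type} (H : Finset (Finset V)) : Prop :=
  (∀ e ∈ H, e.card = 3) ∧ ∀ S : Finset V, S.card = 4 → (H.filter (fun e => e ⊆ S)).card ≤ 2

/-- the extremal number: the largest number of triples of such a 3-graph on `n` vertices -/
noncomputable def ex3 (n : ℕ) : ℕ :=
  sSup {m : ℕ | ∃ H : Finset (Finset (Fin n)), Free43 H ∧ H.card = m}

/-- the part of a map into the six points over the point `i` -/
noncomputable def part {V : Type} [Fintype V] (ρ : V → Fin 6) (i : Fin 6) : Finset V :=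
  univ.filter (fun v => ρ v = i)

/-- the pattern triples of a map into the six points: the triples whose image is a block (so they
meet three parts, and these three parts form a block) -/
noncomputable def patT {V : Type} [Fintype V] (ρ : V → Fin 6) : Finset (Finset V) :=
  (univ.powersetCard 3).filter (fun e => e.image ρ ∈ H6)

/-- number of triples of the blow-up of the design with part sizes `m i` and an extremal 3-graph
inside every part -/
noncomputable def Fval (m : Fin 6 → ℕ) : ℕ := ∑ b ∈ H6, ∏ i ∈ b, m i + ∑ i, ex3 (m i)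

/-- part sizes with sum `n`, all within `n/100` of `n/6` -/
def Bal (n : ℕ) (m : Fin 6 → ℕ) : Prop :=
  ∑ i, m i = n ∧ ∀ i, |(m i : ℝ) - (n : ℝ) / 6| ≤ (n : ℝ) / 100

/-- the largest value of `Fval` over nearly balanced part sizes with sum `n` -/
noncomputable def g3 (n : ℕ) : ℕ := sSup {r : ℕ | ∃ m : Fin 6 → ℕ, Bal n m ∧ Fval m = r}

/-- the ternary relation of a 3-graph -/
def tern {V : Type} (H : Finset (Finset V)) : V → V → V → Prop :=
  fun x y z => x ≠ y ∧ x ≠ z ∧ y ≠ z ∧ ({x, y, z} : Finset V) ∈ H

end K4M
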