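import Pool.Agent.Lib.MP_4c59c5_co.Opt

/-!
# VLB (30 min, real numbers)
From h: `FF >= ((10+P)/36 - t - 12 t) n^2 / (2 (1/6+t)^2 n^2) = 18 ((10+P)/36 - 13 t)/(1+6t)^2
= (5 + P/2 - 234 t)/(1+6t)^2 >= (5 + P/2 - 234 t)(1 - 12 t) >= 5 + P/2 - 300 t`
(`(1+6t)^2 (1 - 12 t) <= 1`; `(5 + P/2) 12 t <= 62 t`) `>= 5 + b - 307 t` with `b = (P+t)/2`.
`opt` with `δ = 307 t <= 1/10000`, `b` in `[1/7, 17/100]`: `u j i0 >= 1 - 921000 t >= 1 - 10^6 t`.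
-/

set_option linter.unusedVariables false
set_option linter.unusedSectionVars false

namespace K4M

open Finset
open scoped Classical

theorem vlb_real (t P F : ℝ) (ht : 0 < t) (ht' : t ≤ 1 / 10 ^ 8) (hP : 2 / 7 ≤ P)
    (hP' : P ≤ 1 / 3) (h : (10 + P) / 36 - t ≤ 12 * t + 2 * (1 / 6 + t) ^ 2 * F) :
    5 + (P + t) / 2 - 307 * t ≤ F := by
  by_contra hc
  rw [not_le] at hc
  have h1 : 2 * (1 / 6 + t) ^ 2 * F ≤ 2 * (1 / 6 + t) ^ 2 * (5 + (P + t) / 2 - 307 * t) :=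
    mul_le_mul_of_nonneg_left hc.le (by positivity)
  have h2 : P * t ≤ 1 / 3 * t := mul_le_mul_of_nonneg_right hP' ht.le
  have h3 : 0 < t ^ 2 := by positivity
  have h4 : P * t ^ 2 ≤ 1 / 3 * t ^ 2 := mul_le_mul_of_nonneg_right hP' h3.le
  have h5 : 0 < t ^ 3 := by positivity
  nlinarith

theorem vlb (t P n : ℝ) (ht : 0 < t) (ht' : t ≤ 1 / 10 ^ 8) (hP : 2 / 7 ≤ P) (hP' : P ≤ 1 / 3)
    (hn : 0 < n) (q : Fin 6 → ℝ) (u : Fin 6 → Fin 6 → ℝ) (hq0 : ∀ i, 0 ≤ q i)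
    (hu : ∀ j i, 0 ≤ u j i) (hsum : ∀ j, q j + ∑ i ∈ univ.erase j, u j i ≤ 1)
    (h : ((10 + P) / 36 - t) * n ^ 2 ≤ 2 * (t * n) * n + 10 * t * n ^ 2
      + 2 * ((1 / 6 + t) * n) ^ 2 * FF ((P + t) / 2) q u) :
    ∃ i0, ∀ j, j ≠ i0 → 1 - 10 ^ 6 * t ≤ u j i0 := by
  have hn2 : 0 < n ^ 2 := by positivity
  have h1 : (10 + P) / 36 - t ≤ 12 * t + 2 * (1 / 6 + t) ^ 2 * FF ((P + t) / 2) q u := by
    have h2 : ((10 + P) / 36 - t) * n ^ 2 ≤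
        (12 * t + 2 * (1 / 6 + t) ^ 2 * FF ((P + t) / 2) q u) * n ^ 2 := by
      refine h.trans (le_of_eq ?_)
      ring
    exact le_of_mul_le_mul_right h2 hn2
  have h2 := vlb_real t P _ ht ht' hP hP' h1
  obtain ⟨i0, h3⟩ := opt ((P + t) / 2) (307 * t) (by linarith) (by linarith) (by linarith)
    (by linarith) q u hq0 hu hsum h2
  refine ⟨i0, fun j hj => ?_⟩
  have h4 := h3 j hj
  linarith

end K4M
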