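import Pool.Agent.Lib.MP_4c59c5_co.PatCount

/-!
# VLEnd (75 min)
Put `m = (1/6+t) n`, `κ = 10^6 t`. For j ≠ i0 let `G j = {a : A a, π a = j, mt a = a, τ a = i0}` and
`E j = {a : A a, π a = j} minus G j`, so `c1 (E j) <= m - (1-κ) m = κ m` (hsz, hu). Let E be the union
of the E j (j ≠ i0): `c1 E <= 5 κ m`.
Classify the ordered pairs (y, z) of `T v`:
(a) not A y or not A z: `<= 2 t n * n`;
(b) A y, A z, π y ≠ π z and `Q (π y) (π z) (τ y) = false` or `Q (π y) (π z) (τ z) = false`: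
    `<= 10 t n^2` (hτ, five parts, symmetry);
(c) π y = π z = i0: `<= (P+t) m^2` (hinn);
(d) A y, A z, π y = π z = j ≠ i0: y and z are not both in G j (hmax), so one is in E: `<= 2 * 5 κ m * n`
    in total;
(e) A y, A z, π y ≠ π z, both compatible (`Q (π y) (π z) (τ y)`, `Q (π y) (π z) (τ z)` true), and
    `Q i0 (π y) (π z) = false`: then τ y ≠ i0 and τ z ≠ i0 (`Q_s12`, `Q_s23`: Q a b i0 = Q i0 a b); one
    of y, z lies in a part j ≠ i0, so in E: `<= 2 * 5 κ m * n`;
(f) `Q i0 (π y) (π z) = true`: number X.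
So `X >= ((10+P)/36 - t) n^2 - 12 t n^2 - (P+t) m^2 - 20 κ m n`. And
`c2 (Q i0 (π y) (π z)) <= 10 m^2` (`nb_count`, `nb2_le`). The wanted number is that minus X:
`<= (10 + P + t) m^2 - ((10+P)/36 - t) n^2 + 12 t n^2 + 20 κ m n`
with `m^2 = (1/36 + t/3 + t^2) n^2`: `<= (20 t + 20 κ (1/6 + t)) n^2 <= 10^7 t n^2`.
-/

set_option linter.unusedVariables false
set_option linter.unusedSectionVars false

namespace K4M

open Finset
open scoped Classical

/-- split a count along the parts -/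
theorem vlend_fib {V : Type} [Fintype V] (π : V → Fin 6) (A : V → Prop) :
    c1 A = ∑ j, c1 (fun a => A a ∧ π a = j) := by
  unfold c1
  rw [sum_comm]
  refine sum_congr rfl fun x _ => ?_
  rw [Finset.sum_eq_single (π x)]
  · exact ind_congr (by simp)
  · intro b _ hb
    exact ind_of_not fun h => hb h.2.symm
  · intro h
    exact absurd (mem_univ _) h

theorem vl_end {V : Type} [Fintype V] {T : V → V → V → Prop} (h : IsG T) (π τ : V → Fin 6) (v : V)
    (A : V → Prop) (mt : V → V) (n t P : ℝ) (i0 : Fin 6)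
    (hn : (Fintype.card V : ℝ) = n) (hn0 : 0 < n) (ht : 0 < t) (ht' : t ≤ 1 / 10 ^ 8)
    (hP0 : 0 ≤ P) (hP' : P ≤ 1 / 3) (hsz : ∀ i, psz π i ≤ (1 / 6 + t) * n)
    (hA : c1 (fun a => ¬ A a) ≤ t * n)
    (hτ : ∀ a, A a → ∀ j, j ≠ π a → Q (π a) j (τ a) = false →
      c1 (fun b => π b = j ∧ T v a b) ≤ t * n)
    (hdeg : ((10 + P) / 36 - t) * n ^ 2 ≤ c2 (T v))
    (hinn : c2 (fun y z => π y = i0 ∧ π z = i0 ∧ T v y z) ≤ (P + t) * ((1 / 6 + t) * n) ^ 2)
    (hmax : ∀ a b, A a → A b → π a = π b → mt a = a → mt b = b → ¬ T v a b)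
    (hu : ∀ j, j ≠ i0 → (1 - 10 ^ 6 * t) * ((1 / 6 + t) * n)
      ≤ c1 (fun a => (A a ∧ π a = j) ∧ mt a = a ∧ τ a = i0)) :
    c2 (fun y z => Q i0 (π y) (π z) = true ∧ ¬ T v y z) ≤ 10 ^ 7 * t * n ^ 2 := by
  set m : ℝ := (1 / 6 + t) * n with hm
  have hm0 : 0 < m := by rw [hm]; positivity
  -- the exceptional vertices
  set E : V → Prop := fun a => (A a ∧ π a ≠ i0) ∧ ¬ (mt a = a ∧ τ a = i0) with hE
  have hcE : c1 E ≤ 6 * (10 ^ 6 * t * m) := by
    have h1 : c1 E = ∑ j, c1 (fun a => E a ∧ π a = j) := vlend_fib π E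
    rw [h1]
    have h2 : ∀ j, c1 (fun a => E a ∧ π a = j) ≤ 10 ^ 6 * t * m := by
      intro j
      by_cases hj : j = i0
      · have h3 : c1 (fun a => E a ∧ π a = j) = 0 := by
          unfold c1
          refine sum_eq_zero fun a _ => ind_of_not ?_
          rintro ⟨⟨⟨_, h5⟩, _⟩, h6⟩
          exact h5 (h6.trans hj)
        rw [h3]
        positivity
      · have h3 := hu j hj
        have h4 := c1_split (fun a => A a ∧ π a = j) (fun a => mt a = a ∧ τ a = i0)
        have h5 : c1 (fun a => A a ∧ π a = j) ≤ psz π j := c1_mono fun a ha => ha.2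
        have h6 : c1 (fun a => E a ∧ π a = j) ≤
            c1 (fun x => (A x ∧ π x = j) ∧ ¬(mt x = x ∧ τ x = i0)) :=
          c1_mono fun a ha => ⟨⟨ha.1.1.1, ha.2⟩, ha.1.2⟩
        have h7 := hsz j
        nlinarith
    refine (sum_le_sum fun j _ => h2 j).trans ?_
    rw [sum_const, card_univ, Fintype.card_fin, nsmul_eq_mul]
    norm_num
  -- the incompatible pairs
  set B : V → V → Prop := fun y z =>
    A y ∧ π z ≠ π y ∧ Q (π y) (π z) (τ y) = false ∧ T v y z with hB
  have hcB : c2 B ≤ 6 * (t * n) * n := by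
    rw [c2_eq_sum]
    have h1 : ∀ y, c1 (B y) ≤ 6 * (t * n) := by
      intro y
      rw [vlend_fib π (B y)]
      have h2 : ∀ j, c1 (fun z => B y z ∧ π z = j) ≤ t * n := by
        intro j
        by_cases hy : A y ∧ j ≠ π y ∧ Q (π y) j (τ y) = false
        · refine le_trans (c1_mono ?_) (hτ y hy.1 j hy.2.1 hy.2.2)
          rintro z ⟨⟨_, _, _, h5⟩, h6⟩
          exact ⟨h6, h5⟩
        · have h3 : c1 (fun z => B y z ∧ π z = j) = 0 := by
            unfold c1
            refine sum_eq_zero fun z _ => ind_of_not ?_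
            rintro ⟨⟨h4, h5, h6, _⟩, rfl⟩
            exact hy ⟨h4, h5, h6⟩
          rw [h3]
          positivity
      refine (sum_le_sum fun j _ => h2 j).trans ?_
      rw [sum_const, card_univ, Fintype.card_fin, nsmul_eq_mul]
      norm_num
    refine (sum_le_sum fun y _ => h1 y).trans ?_
    rw [sum_const, card_univ, nsmul_eq_mul, hn]
    exact le_of_eq (mul_comm _ _)
  -- the classification
  have hcl : ∀ y z, T v y z → (((((((¬ A y) ∨ (¬ A z)) ∨ B y z) ∨ B z y) ∨
      (π y = i0 ∧ π z = i0 ∧ T v y z)) ∨ E y) ∨ E z) ∨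
      (Q i0 (π y) (π z) = true ∧ T v y z) := by
    intro y z hT
    by_cases hAy : A y
    swap
    · exact Or.inl (Or.inl (Or.inl (Or.inl (Or.inl (Or.inl (Or.inl (hAy)))))))
    by_cases hAz : A z
    swap
    · exact Or.inl (Or.inl (Or.inl (Or.inl (Or.inl (Or.inl (Or.inr hAz))))))
    by_cases hEy : E y
    · exact Or.inl (Or.inl (Or.inr hEy))
    by_cases hEz : E z
    · exact Or.inl (Or.inr hEz)
    have hy : π y ≠ i0 → mt y = y ∧ τ y = i0 := by
      intro h1
      by_contra h2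
      exact hEy ⟨⟨hAy, h1⟩, h2⟩
    have hz : π z ≠ i0 → mt z = z ∧ τ z = i0 := by
      intro h1
      by_contra h2
      exact hEz ⟨⟨hAz, h1⟩, h2⟩
    by_cases hyz : π y = π z
    · by_cases hi : π y = i0
      · exact Or.inl (Or.inl (Or.inl (Or.inr ⟨hi, hyz ▸ hi, hT⟩)))
      · exfalso
        have h1 := hy hi
        have h2 := hz (hyz ▸ hi)
        exact hmax y z hAy hAz hyz h1.1 h2.1 hT
    · by_cases hBy : B y z
      · exact Or.inl (Or.inl (Or.inl (Or.inl (Or.inl (Or.inr hBy)))))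
      by_cases hBz : B z y
      · exact Or.inl (Or.inl (Or.inl (Or.inl (Or.inr hBz))))
      have h1 : Q (π y) (π z) (τ y) = true := by
        by_contra h2
        exact hBy ⟨hAy, fun h3 => hyz h3.symm, by simpa using h2, hT⟩
      have h2 : Q (π z) (π y) (τ z) = true := by
        by_contra h3
        exact hBz ⟨hAz, hyz, by simpa using h3, h.s23 _ _ _ hT⟩
      right
      refine ⟨?_, hT⟩
      by_cases hi : π y = i0
      · have h3 : π z ≠ i0 := fun h4 => hyz (hi.trans h4.symm)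
        rw [(hz h3).2, Q_s12, Q_s23, Q_s12] at h2
        exact h2
      · rw [(hy hi).2, Q_s23, Q_s12] at h1
        exact h1
  have hnc : c1 (fun _ : V => True) = n := by rw [c1_true, hn]
  have hs : c2 (T v) ≤ (t * n) * n + n * (t * n) + 6 * (t * n) * n + 6 * (t * n) * n +
      (P + t) * m ^ 2 + 6 * (10 ^ 6 * t * m) * n + n * (6 * (10 ^ 6 * t * m)) +
      c2 (fun y z => Q i0 (π y) (π z) = true ∧ T v y z) := by
    refine (c2_mono hcl).trans ?_
    have e1 : c2 (fun y _ : V => ¬ A y) ≤ (t * n) * n := by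
      have := c2_prod (fun y : V => ¬ A y) (fun _ : V => True)
      have h1 : c2 (fun y _ : V => ¬ A y) = c2 (fun y z : V => (¬ A y) ∧ True) :=
        c2_congr fun y z => by simp
      rw [h1, this, hnc]
      exact mul_le_mul_of_nonneg_right hA hn0.le
    have e2 : c2 (fun _ z : V => ¬ A z) ≤ n * (t * n) := by
      rw [c2_swap, mul_comm]
      exact e1
    have e3 : c2 (fun y _ : V => E y) ≤ 6 * (10 ^ 6 * t * m) * n := by
      have := c2_prod E (fun _ : V => True)
      have h1 : c2 (fun y _ : V => E y) = c2 (fun y z : V => E y ∧ True) :=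
        c2_congr fun y z => by simp
      rw [h1, this, hnc]
      exact mul_le_mul_of_nonneg_right hcE hn0.le
    have e4 : c2 (fun _ z : V => E z) ≤ n * (6 * (10 ^ 6 * t * m)) := by
      rw [c2_swap, mul_comm]
      exact e3
    have e5 : c2 (fun y z => B z y) ≤ 6 * (t * n) * n := by
      rw [c2_swap]
      exact hcB
    refine (c2_or_le _ _).trans (add_le_add ?_ le_rfl)
    refine (c2_or_le _ _).trans (add_le_add ?_ e4)
    refine (c2_or_le _ _).trans (add_le_add ?_ e3)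
    refine (c2_or_le _ _).trans (add_le_add ?_ hinn)
    refine (c2_or_le _ _).trans (add_le_add ?_ e5)
    refine (c2_or_le _ _).trans (add_le_add ?_ hcB)
    exact (c2_or_le _ _).trans (add_le_add e1 e2)
  have hsp := c2_split (fun y z => Q i0 (π y) (π z) = true) (T v)
  have hnb := nb_count π i0
  have hnb2 := nb2_le (psz π) (psz_nonneg π) m hsz i0
  rw [← hnb] at hnb2
  have hfin : 10 * m ^ 2 + (14 * t * n ^ 2 + (P + t) * m ^ 2 + 12 * (10 ^ 6 * t * m) * n) -
      ((10 + P) / 36 - t) * n ^ 2 ≤ 10 ^ 7 * t * n ^ 2 := by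
    have h1 : (10 * (1 / 6 + t) ^ 2 + (14 * t + (P + t) * (1 / 6 + t) ^ 2 +
        12 * (10 ^ 6 * t * (1 / 6 + t))) - ((10 + P) / 36 - t)) ≤ 10 ^ 7 * t := by
      have h2 : (1 / 6 + t) ^ 2 = 1 / 36 + t / 3 + t ^ 2 := by ring
      rw [h2]
      have h3 : t ^ 2 ≤ t / 10 ^ 8 := by
        rw [sq, div_eq_mul_inv]
        have : t ≤ (10 ^ 8 : ℝ)⁻¹ := by rw [inv_eq_one_div]; exact ht'
        exact mul_le_mul_of_nonneg_left this ht.le
      have h4 : P * t ≤ t / 3 := by
        have := mul_le_mul_of_nonneg_right hP' ht.le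
        linarith
      have h5 : P * t ^ 2 ≤ t ^ 2 := by
        have := mul_le_mul_of_nonneg_right hP' (sq_nonneg t)
        linarith [sq_nonneg t]
      have h6 : t * t ^ 2 ≤ t ^ 2 := by
        have : t ≤ 1 := by linarith
        have := mul_le_mul_of_nonneg_right this (sq_nonneg t)
        linarith
      have h7 : (10 * (1 / 36 + t / 3 + t ^ 2) + (14 * t + (P + t) * (1 / 36 + t / 3 + t ^ 2) +
        12 * (10 ^ 6 * t * (1 / 6 + t))) - ((10 + P) / 36 - t)) =
        10 / 3 * t + 10 * t ^ 2 + 14 * t + (P * t / 3 + P * t ^ 2 + t / 36 + t ^ 2 / 3 + t * t ^ 2) +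
        (2 * 10 ^ 6 * t + 12 * 10 ^ 6 * t ^ 2) + t := by ring
      rw [h7]
      linarith
    have h2 := mul_le_mul_of_nonneg_right h1 (sq_nonneg n)
    refine le_trans (le_of_eq ?_) h2
    rw [hm]
    ring
  have hsum : c2 (fun y z => Q i0 (π y) (π z) = true ∧ ¬ T v y z) ≤
      10 * m ^ 2 + (14 * t * n ^ 2 + (P + t) * m ^ 2 + 12 * (10 ^ 6 * t * m) * n) -
      ((10 + P) / 36 - t) * n ^ 2 := by
    have h1 : (t * n) * n + n * (t * n) + 6 * (t * n) * n + 6 * (t * n) * n +
      (P + t) * m ^ 2 + 6 * (10 ^ 6 * t * m) * n + n * (6 * (10 ^ 6 * t * m)) =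
      14 * t * n ^ 2 + (P + t) * m ^ 2 + 12 * (10 ^ 6 * t * m) * n := by ring
    rw [h1] at hs
    linarith
  exact hsum.trans hfin

end K4M
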