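import Pool.Agent.Lib.MP_4c59c5_co.Types
import Pool.Agent.Lib.MP_4c59c5_co.LinkSp
import Pool.Agent.Lib.MP_4c59c5_co.Mtch
import Pool.Agent.Lib.MP_4c59c5_co.Dist
import Pool.Agent.Lib.MP_4c59c5_co.VLB
import Pool.Agent.Lib.MP_4c59c5_co.VLEnd
import Pool.Agent.Lib.MP_4c59c5_co.Reass

/-!
# VL: the vertex lemma (assembly)
-/

set_option linter.unusedVariables false
set_option linter.unusedSectionVars false

namespace K4M

open Finset
open scoped Classical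

theorem vertex_lemma {V : Type} [Fintype V] {T : V → V → V → Prop} (h : IsG T) (π : V → Fin 6)
    (t P n : ℝ) (hn : (Fintype.card V : ℝ) = n) (hn0 : 0 < n) (ht : 0 < t) (ht' : t ≤ 1 / 10 ^ 8)
    (hP : 2 / 7 ≤ P) (hP' : P ≤ 1 / 3) (hsz : ∀ i, psz π i ≤ (1 / 6 + t) * n)
    (hmis : c3 (Mis T π) ≤ 2 * t ^ 3 * n ^ 3)
    (hdeg : ∀ v, ((10 + P) / 36 - t) * n ^ 2 ≤ c2 (T v))
    (hinn : ∀ v i, c2 (fun y z => π y = i ∧ π z = i ∧ T v y z)
      ≤ (P + t) * ((1 / 6 + t) * n) ^ 2) :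
    ∀ v, ∃ i0, c2 (fun y z => Q i0 (π y) (π z) = true ∧ ¬ T v y z) ≤ 10 ^ 7 * t * n ^ 2 := by
  intro v
  have hA := markov T π t n hn hn0 ht hmis
  obtain ⟨A, hAe⟩ : ∃ A : V → Prop, A = fun a => mis1 T π a ≤ 2 * t ^ 2 * n ^ 2 := ⟨_, rfl⟩
  obtain ⟨τ, hτ⟩ := types h π v A t n hn ht (fun a ha => by rw [hAe] at ha; exact ha)
  have hA' : c1 (fun a => ¬ A a) ≤ t * n := by rw [hAe]; exact hA
  have hs : ∀ a b, Lk T π τ v a b → Lk T π τ v b a := by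
    rintro a b ⟨h1, h2⟩
    refine ⟨h.s23 _ _ _ h1, ?_⟩
    rcases h2 with h2 | h2
    · exact Or.inl h2.symm
    · right; rw [Q_s12 (π b) (π a), Q_s12 (π b) (π a)]; exact ⟨h2.2, h2.1⟩
  have hi : ∀ a, ¬ Lk T π τ v a a := by
    rintro a ⟨h1, _⟩; exact h.ne23 h1 rfl
  have htri : ∀ a b c, Lk T π τ v a b → Lk T π τ v a c → Lk T π τ v b c → False := by
    rintro a b c ⟨h1, _⟩ ⟨h2, _⟩ ⟨h3, _⟩
    exact h.free v a b c h1 h2 h3
  obtain ⟨mt, h1, h2, h3⟩ := exists_mt (Lk T π τ v) hs hi π A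
  have hc : ∀ a b, Lk T π τ v a b → π a ≠ π b →
      Q (π a) (π b) (τ a) = true ∧ Q (π a) (π b) (τ b) = true := by
    rintro a b ⟨_, h4⟩ hab
    rcases h4 with h4 | h4
    · exact absurd h4 hab
    · exact h4
  have hm0 : 0 < (1 / 6 + t) * n := by positivity
  have hm : ∀ i, c1 (fun a => A a ∧ π a = i) ≤ (1 / 6 + t) * n := fun i =>
    (c1_mono (fun a ha => ha.2)).trans (hsz i)
  have hinn' : ∀ i, crs A π (Lk T π τ v) i i ≤ 2 * ((P + t) / 2) * ((1 / 6 + t) * n) ^ 2 := by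
    intro i
    have h4 : crs A π (Lk T π τ v) i i ≤ c2 (fun y z => π y = i ∧ π z = i ∧ T v y z) :=
      c2_mono (fun a b hab => ⟨hab.1.2, hab.2.1.2, hab.2.2.1⟩)
    have h5 := hinn v i
    have h6 : 2 * ((P + t) / 2) * ((1 / 6 + t) * n) ^ 2 = (P + t) * ((1 / 6 + t) * n) ^ 2 := by ring
    rw [h6]; exact h4.trans h5
  have hd := dist (Lk T π τ v) hs htri π τ A mt h1 h2 h3 hc ((1 / 6 + t) * n) ((P + t) / 2) hm0 hm
    hinn'
  obtain ⟨hq0, hu0, hsum⟩ := dist_sum π τ A mt ((1 / 6 + t) * n) hm0 hm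
  have hl := link_sp h π τ v A t n (t * n) hn ht.le hA' hτ
  obtain ⟨i0, hi0⟩ := vlb t P n ht ht' hP hP' hn0 _ _ hq0 hu0 hsum (by
    have := hdeg v
    linarith)
  refine ⟨i0, vl_end h π τ v A mt n t P i0 hn hn0 ht ht' (by linarith) hP' hsz hA' hτ (hdeg v)
    (hinn v i0) ?_ ?_⟩
  · intro a b ha hb hab hma hmb hT
    exact h3 a b ha hb hab hma hmb ⟨hT, Or.inl hab⟩
  · intro j hj
    have h4 := hi0 j hj
    unfold uf at h4
    rw [le_div_iff₀ hm0] at h4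
    exact h4

end K4M
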